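import Pool.Agent.Lib.MP_cad76e_pr.Defs

/-! Module C1: functions of fewer cards are orthogonal to `UA A`. -/

set_option autoImplicit false

namespace Pool.Agent.Lib.MP_cad76e_pr

open Finset

private theorem ip_translate {n : ℕ} (f g : G n → ℂ) (s : G n) (hs : s * s = 1) :
    ip (fun σ => g (σ * s)) f = ∑ σ, (starRingEnd ℂ) (g σ) * f (σ * s) := by
  unfold ip
  rw [← Equiv.sum_comp (Equiv.mulRight s)]
  apply sum_congr rfl
  intro σ _
  simp only [Equiv.coe_mulRight, mul_assoc, hs, mul_one]

private theorem UA_perp_aux {n : ℕ} (A : Finset (Fin n)) (f : G n → ℂ) (hf : f ∈ UA A) (k : ℕ) :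
    ∀ B : Finset (Fin n), #(B \ A) = k → #B < #A → ∀ g ∈ FA B, ip g f = 0 := by
  induction k using Nat.strong_induction_on with
  | _ k ih =>
    intro B hk hAB g hg
    obtain ⟨a, haA, haB⟩ : ∃ a ∈ A, a ∉ B := by
      by_contra h
      push Not at h
      exact absurd (card_le_card (show A ⊆ B from h)) (by omega)
    have h0 : ∑ c ∈ (A.erase a)ᶜ, ip (fun σ => g (σ * Equiv.swap a c)) f = 0 := by
      have h1 : ∀ c, ip (fun σ => g (σ * Equiv.swap a c)) f
          = ∑ σ, (starRingEnd ℂ) (g σ) * f (σ * Equiv.swap a c) := by
        intro c
        exact ip_translate f g _ (Equiv.swap_mul_self a c)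
      simp only [h1]
      rw [sum_comm]
      apply sum_eq_zero
      intro σ _
      rw [← mul_sum, hf.2 a haA σ, mul_zero]
    have h2 : ∀ c ∈ (A.erase a)ᶜ, ip (fun σ => g (σ * Equiv.swap a c)) f
        = if c ∈ B then 0 else ip g f := by
      intro c hc
      by_cases hcB : c ∈ B
      · rw [if_pos hcB]
        have hca : c ≠ a := by
          rintro rfl
          exact haB hcB
        have hcA : c ∉ A := by
          intro hcA
          rw [mem_compl] at hc
          exact hc (mem_erase.mpr ⟨hca, hcA⟩)
        have hlt : #(insert a (B.erase c) \ A) < k := by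
          rw [← hk]
          apply card_lt_card
          constructor
          · intro x hx
            simp only [mem_sdiff, mem_insert, mem_erase] at hx ⊢
            rcases hx with ⟨rfl | ⟨_, hxB⟩, hxA⟩
            · exact absurd haA hxA
            · exact ⟨hxB, hxA⟩
          · intro hsub
            have := hsub (mem_sdiff.mpr ⟨hcB, hcA⟩)
            simp only [mem_sdiff, mem_insert, mem_erase] at this
            rcases this.1 with h | h
            · exact hca h
            · exact h.1 rfl
        have hcard : #(insert a (B.erase c)) < #A := by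
          have h3 : a ∉ B.erase c := fun h => haB (mem_of_mem_erase h)
          rw [card_insert_of_notMem h3, card_erase_of_mem hcB]
          have : 0 < #B := card_pos.mpr ⟨c, hcB⟩
          omega
        refine ih _ hlt _ rfl hcard _ ?_
        intro σ σ' hσ
        apply hg
        intro b hb
        simp only [Equiv.Perm.mul_apply]
        by_cases hbc : b = c
        · subst hbc
          rw [Equiv.swap_apply_right]
          exact hσ a (mem_insert_self _ _)
        · have hba : b ≠ a := by
            rintro rfl
            exact haB hb
          rw [Equiv.swap_apply_of_ne_of_ne hba hbc]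
          exact hσ b (mem_insert_of_mem (mem_erase.mpr ⟨hbc, hb⟩))
      · rw [if_neg hcB]
        congr 1
        funext σ
        apply hg
        intro b hb
        have hba : b ≠ a := by
          rintro rfl
          exact haB hb
        have hbc : b ≠ c := by
          rintro rfl
          exact hcB hb
        rw [Equiv.Perm.mul_apply, Equiv.swap_apply_of_ne_of_ne hba hbc]
    rw [sum_congr rfl h2, sum_ite, sum_const_zero, zero_add, sum_const, nsmul_eq_mul] at h0
    rcases mul_eq_zero.mp h0 with h3 | h3
    · exfalso
      have : #(filter (fun c => c ∉ B) (A.erase a)ᶜ) = 0 := by exact_mod_cast h3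
      rw [card_eq_zero] at this
      have hmem : a ∈ filter (fun c => c ∉ B) (A.erase a)ᶜ := by
        rw [mem_filter, mem_compl]
        exact ⟨notMem_erase a A, haB⟩
      rw [this] at hmem
      exact absurd hmem (notMem_empty a)
    · exact h3

theorem UA_perp {n : ℕ} (A B : Finset (Fin n)) (hAB : #B < #A) (f g : G n → ℂ) (hf : f ∈ UA A)
    (hg : g ∈ FA B) : ip g f = 0 :=
  UA_perp_aux A f hf _ B rfl hAB g hg

end Pool.Agent.Lib.MP_cad76e_pr
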