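import Pool.Agent.Lib.MP_cad76e_pr.Defs

/-! Module C2: the spectral gap of the complete transposition form on functions which are
orthogonal to the functions of few cards. -/

set_option autoImplicit false

namespace Pool.Agent.Lib.MP_cad76e_pr

open Finset

section rep
open scoped InnerProductSpace

variable {α : Type*} [DecidableEq α] {H : Type*} [NormedAddCommGroup H] [InnerProductSpace ℂ H]

/-- the sum of `1 - (p q)` over the ordered pairs of elements of `P` -/
private noncomputable def c2T (ρ : Equiv.Perm α →* Module.End ℂ H) (P : Finset α) :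
    Module.End ℂ H := ∑ p ∈ P, ∑ q ∈ P, (1 - ρ (Equiv.swap p q))

/-- the vectors fixed by the transpositions of `S` -/
private def c2Fix (ρ : Equiv.Perm α →* Module.End ℂ H) (S : Finset α) : Submodule ℂ H where
  carrier := {w | ∀ p ∈ S, ∀ q ∈ S, ρ (Equiv.swap p q) w = w}
  add_mem' := by
    intro x y hx hy p hp q hq
    rw [map_add, hx p hp q hq, hy p hp q hq]
  zero_mem' := by
    intro p _ q _
    rw [map_zero]
  smul_mem' := by
    intro c x hx p hp q hq
    rw [map_smul, hx p hp q hq]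

/-- the vectors orthogonal to the vectors fixed by large sets of positions -/
private def c2W (ρ : Equiv.Perm α →* Module.End ℂ H) (P : Finset α) (l : ℕ) :
    Submodule ℂ H where
  carrier := {f | ∀ S ⊆ P, #P + 1 ≤ #S + l → ∀ w ∈ c2Fix ρ S, ⟪w, f⟫_ℂ = 0}
  add_mem' := by
    intro x y hx hy S hS hSl w hw
    rw [inner_add_right, hx S hS hSl w hw, hy S hS hSl w hw, add_zero]
  zero_mem' := by
    intro S _ _ w _
    rw [inner_zero_right]
  smul_mem' := by
    intro c x hx S hS hSl w hw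
    rw [inner_smul_right, hx S hS hSl w hw, mul_zero]

private noncomputable def c2c (ρ : Equiv.Perm α →* Module.End ℂ H) (x : H) (p q : α) : ℝ :=
  (⟪x, x - ρ (Equiv.swap p q) x⟫_ℂ).re

variable {ρ : Equiv.Perm α →* Module.End ℂ H}

private lemma c2c_eq (hρ : ∀ g x y, ⟪ρ g x, ρ g y⟫_ℂ = ⟪x, y⟫_ℂ) (x : H) (p q : α) :
    c2c ρ x p q = (1 / 2) * ‖x - ρ (Equiv.swap p q) x‖ ^ 2 := by
  have h1 : ‖ρ (Equiv.swap p q) x‖ ^ 2 = ‖x‖ ^ 2 := by
    have := hρ (Equiv.swap p q) x x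
    rw [inner_self_eq_norm_sq_to_K, inner_self_eq_norm_sq_to_K] at this
    exact_mod_cast this
  have h2 := norm_sub_sq (𝕜 := ℂ) x (ρ (Equiv.swap p q) x)
  rw [h1] at h2
  rw [c2c, h2, inner_sub_right, Complex.sub_re]
  have h3 : (⟪x, x⟫_ℂ).re = ‖x‖ ^ 2 := by
    rw [inner_self_eq_norm_sq_to_K]
    norm_cast
  rw [h3]
  simp only [RCLike.re_to_complex]
  ring

private lemma c2c_symm (x : H) (p q : α) : c2c ρ x p q = c2c ρ x q p := by
  rw [c2c, c2c, Equiv.swap_comm]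

private lemma c2c_self (x : H) (p : α) : c2c ρ x p p = 0 := by
  rw [c2c, Equiv.swap_self]
  have : ρ (Equiv.refl α) = 1 := map_one ρ
  rw [this]
  simp

private lemma c2c_nonneg (hρ : ∀ g x y, ⟪ρ g x, ρ g y⟫_ℂ = ⟪x, y⟫_ℂ) (x : H) (p q : α) :
    0 ≤ c2c ρ x p q := by
  rw [c2c_eq hρ]
  positivity

private lemma c2_re (P : Finset α) (x : H) :
    (⟪x, c2T ρ P x⟫_ℂ).re = ∑ p ∈ P, ∑ q ∈ P, c2c ρ x p q := by
  rw [c2T]
  simp only [LinearMap.sum_apply, inner_sum, Complex.re_sum, LinearMap.sub_apply,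
    Module.End.one_apply, c2c]

private lemma c2_re_nonneg (hρ : ∀ g x y, ⟪ρ g x, ρ g y⟫_ℂ = ⟪x, y⟫_ℂ) (P : Finset α) (x : H) :
    0 ≤ (⟪x, c2T ρ P x⟫_ℂ).re := by
  rw [c2_re]
  exact sum_nonneg fun p _ => sum_nonneg fun q _ => c2c_nonneg hρ x p q

/-- swaps are self-adjoint -/
private lemma c2_swap_adj (hρ : ∀ g x y, ⟪ρ g x, ρ g y⟫_ℂ = ⟪x, y⟫_ℂ) (p q : α) (x y : H) :
    ⟪ρ (Equiv.swap p q) x, y⟫_ℂ = ⟪x, ρ (Equiv.swap p q) y⟫_ℂ := by
  rw [← hρ (Equiv.swap p q) x, ← Module.End.mul_apply, ← map_mul, Equiv.swap_mul_self, map_one,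
    Module.End.one_apply]

private lemma c2T_symm (hρ : ∀ g x y, ⟪ρ g x, ρ g y⟫_ℂ = ⟪x, y⟫_ℂ) (P : Finset α) (x y : H) :
    ⟪c2T ρ P x, y⟫_ℂ = ⟪x, c2T ρ P y⟫_ℂ := by
  rw [c2T]
  simp only [LinearMap.sum_apply, inner_sum, sum_inner, LinearMap.sub_apply,
    Module.End.one_apply, inner_sub_left, inner_sub_right, c2_swap_adj hρ]

private lemma c2T_comm (P : Finset α) {p q : α} (hp : p ∈ P) (hq : q ∈ P) (x : H) :
    ρ (Equiv.swap p q) (c2T ρ P x) = c2T ρ P (ρ (Equiv.swap p q) x) := by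
  have hmem : ∀ a ∈ P, Equiv.swap p q a ∈ P := by
    intro a ha
    by_cases h1 : a = p
    · subst h1; simpa using hq
    · by_cases h2 : a = q
      · subst h2; simpa using hp
      · rwa [Equiv.swap_apply_of_ne_of_ne h1 h2]
  have hre : ∀ F : α → H, ∑ a ∈ P, F (Equiv.swap p q a) = ∑ a ∈ P, F a := by
    intro F
    refine Finset.sum_nbij' (fun a => Equiv.swap p q a) (fun a => Equiv.swap p q a) hmem hmem
      (fun a _ => ?_) (fun a _ => ?_) (fun a _ => rfl) <;> simp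
  have h1 : ∀ a b : α, ρ (Equiv.swap p q) (ρ (Equiv.swap a b) x) =
      ρ (Equiv.swap (Equiv.swap p q a) (Equiv.swap p q b)) (ρ (Equiv.swap p q) x) := by
    intro a b
    rw [← Module.End.mul_apply, ← Module.End.mul_apply, ← map_mul, ← map_mul,
      Equiv.mul_swap_eq_swap_mul]
  rw [c2T]
  simp only [LinearMap.sum_apply, LinearMap.sub_apply, Module.End.one_apply, map_sum, map_sub, h1]
  rw [hre fun a => ∑ b ∈ P, (ρ (Equiv.swap p q) x -
    ρ (Equiv.swap a (Equiv.swap p q b)) (ρ (Equiv.swap p q) x))]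
  refine sum_congr rfl fun a _ => ?_
  exact hre fun b => ρ (Equiv.swap p q) x - ρ (Equiv.swap a b) (ρ (Equiv.swap p q) x)

private lemma c2T_fix {P S : Finset α} (hS : S ⊆ P) {w : H} (hw : w ∈ c2Fix ρ S) :
    c2T ρ P w ∈ c2Fix ρ S := by
  intro p hp q hq
  rw [c2T_comm P (hS hp) (hS hq), hw p hp q hq]

private lemma c2T_W (hρ : ∀ g x y, ⟪ρ g x, ρ g y⟫_ℂ = ⟪x, y⟫_ℂ) {P : Finset α} {l : ℕ} {f : H}
    (hf : f ∈ c2W ρ P l) : c2T ρ P f ∈ c2W ρ P l := by
  intro S hS hSl w hw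
  rw [← c2T_symm hρ]
  exact hf S hS hSl _ (c2T_fix hS hw)

/-- double counting -/
private lemma c2_erase (P : Finset α) (x : H) :
    ∑ p ∈ P, (⟪x, c2T ρ (P.erase p) x⟫_ℂ).re = ((#P : ℝ) - 2) * (⟪x, c2T ρ P x⟫_ℂ).re := by
  have h1 : ∀ p ∈ P, (⟪x, c2T ρ (P.erase p) x⟫_ℂ).re =
      (⟪x, c2T ρ P x⟫_ℂ).re - 2 * ∑ q ∈ P, c2c ρ x p q := by
    intro p hp
    rw [c2_re, c2_re, sum_erase_eq_sub hp]
    have h2 : ∀ r ∈ P, ∑ q ∈ P.erase p, c2c ρ x r q = ∑ q ∈ P, c2c ρ x r q - c2c ρ x r p :=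
      fun r _ => sum_erase_eq_sub hp
    rw [sum_congr rfl h2, h2 p hp, sum_sub_distrib, c2c_self,
      sum_congr rfl fun r _ => c2c_symm x r p]
    ring
  rw [sum_congr rfl h1, sum_sub_distrib, ← mul_sum, ← c2_re, sum_const, nsmul_eq_mul]
  ring

/-- the vector `w + ∑ (a s) w` is fixed by the transpositions of `S ∪ {a}` -/
private lemma c2_sym {S : Finset α} {a : α} (ha : a ∉ S) {w : H} (hw : w ∈ c2Fix ρ S) :
    w + ∑ s ∈ S, ρ (Equiv.swap a s) w ∈ c2Fix ρ (insert a S) := by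
  have hmul : ∀ (g h : Equiv.Perm α) (x : H), ρ g (ρ h x) = ρ (g * h) x := by
    intro g h x
    rw [map_mul, Module.End.mul_apply]
  -- invariance under `(a t)`
  have h1 : ∀ t ∈ S, ρ (Equiv.swap a t) (w + ∑ s ∈ S, ρ (Equiv.swap a s) w) =
      w + ∑ s ∈ S, ρ (Equiv.swap a s) w := by
    intro t ht
    rw [map_add, map_sum, ← sum_erase_add _ _ ht, ← sum_erase_add S (fun s => ρ (Equiv.swap a s) w) ht,
      hmul, Equiv.swap_mul_self, map_one, Module.End.one_apply]
    have h2 : ∀ s ∈ S.erase t, ρ (Equiv.swap a t) (ρ (Equiv.swap a s) w) =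
        ρ (Equiv.swap a s) w := by
      intro s hs
      rw [mem_erase] at hs
      have has : a ≠ s := fun h => ha (h ▸ hs.2)
      have hat : a ≠ t := fun h => ha (h ▸ ht)
      have h3 : Equiv.swap a t * Equiv.swap a s = Equiv.swap a s * Equiv.swap s t := by
        rw [Equiv.mul_swap_eq_swap_mul (Equiv.swap a s) s t, Equiv.swap_apply_right,
          Equiv.swap_apply_of_ne_of_ne hat.symm (Ne.symm hs.1)]
      rw [hmul, h3, ← hmul, hw s hs.2 t ht]
    rw [sum_congr rfl h2]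
    abel
  -- invariance under `(p q)`
  have h2 : ∀ p ∈ S, ∀ q ∈ S, ρ (Equiv.swap p q) (w + ∑ s ∈ S, ρ (Equiv.swap a s) w) =
      w + ∑ s ∈ S, ρ (Equiv.swap a s) w := by
    intro p hp q hq
    have hap : a ≠ p := fun h => ha (h ▸ hp)
    have haq : a ≠ q := fun h => ha (h ▸ hq)
    rw [map_add, map_sum, hw p hp q hq]
    congr 1
    have h3 : ∀ s ∈ S, ρ (Equiv.swap p q) (ρ (Equiv.swap a s) w) =
        ρ (Equiv.swap a (Equiv.swap p q s)) w := by
      intro s _
      rw [hmul, Equiv.mul_swap_eq_swap_mul, Equiv.swap_apply_of_ne_of_ne hap haq, ← hmul,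
        hw p hp q hq]
    rw [sum_congr rfl h3]
    have hmem : ∀ b ∈ S, Equiv.swap p q b ∈ S := by
      intro b hb
      by_cases h1 : b = p
      · subst h1; simpa using hq
      · by_cases h2 : b = q
        · subst h2; simpa using hp
        · rwa [Equiv.swap_apply_of_ne_of_ne h1 h2]
    refine Finset.sum_nbij' (fun b => Equiv.swap p q b) (fun b => Equiv.swap p q b) hmem hmem
      (fun b _ => ?_) (fun b _ => ?_) (fun b _ => rfl) <;> simp
  intro p hp q hq
  rw [mem_insert] at hp hq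
  rcases hp with rfl | hp
  · rcases hq with rfl | hq
    · rw [Equiv.swap_self]
      have : ρ (Equiv.refl α) = 1 := map_one ρ
      rw [this, Module.End.one_apply]
    · exact h1 q hq
  · rcases hq with rfl | hq
    · rw [Equiv.swap_comm]
      exact h1 p hp
    · exact h2 p hp q hq

/-- Case 1 estimate -/
private lemma c2_case1 (hρ : ∀ g x y, ⟪ρ g x, ρ g y⟫_ℂ = ⟪x, y⟫_ℂ) {P S : Finset α} (hS : S ⊆ P)
    {w : H} (h : ∀ a ∈ P \ S, w + ∑ s ∈ S, ρ (Equiv.swap a s) w = 0) :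
    2 * (#(P \ S) : ℝ) * ((#S : ℝ) + 1) * ‖w‖ ^ 2 ≤ (⟪w, c2T ρ P w⟫_ℂ).re := by
  have h0 : (⟪w, w⟫_ℂ).re = ‖w‖ ^ 2 := by
    rw [inner_self_eq_norm_sq_to_K]
    norm_cast
  have h1 : ∀ a ∈ P \ S, ∑ s ∈ S, c2c ρ w a s = ((#S : ℝ) + 1) * ‖w‖ ^ 2 := by
    intro a ha
    have h2 : ∑ s ∈ S, c2c ρ w a s = (⟪w, ∑ s ∈ S, (w - ρ (Equiv.swap a s) w)⟫_ℂ).re := by
      rw [inner_sum, Complex.re_sum]
      rfl
    have h3 : ∑ s ∈ S, (w - ρ (Equiv.swap a s) w) = ((#S : ℂ) + 1) • w := by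
      rw [sum_sub_distrib, sum_const, add_smul, one_smul]
      have h4 := h a ha
      have h5 : ∑ s ∈ S, ρ (Equiv.swap a s) w = -w := (neg_eq_of_add_eq_zero_right h4).symm
      rw [h5, sub_neg_eq_add]
      congr 1
      exact (Nat.cast_smul_eq_nsmul ℂ _ _).symm
    rw [h2, h3, inner_smul_right]
    have h6 : ((#S : ℂ) + 1) = (((#S : ℝ) + 1 : ℝ) : ℂ) := by push_cast; ring
    rw [h6, Complex.re_ofReal_mul, h0]
  have h2 : ∑ a ∈ P \ S, ∑ s ∈ S, c2c ρ w a s = (#(P \ S) : ℝ) * (((#S : ℝ) + 1) * ‖w‖ ^ 2) := by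
    rw [sum_congr rfl h1, sum_const, nsmul_eq_mul]
  have h3 : ∑ s ∈ S, ∑ a ∈ P \ S, c2c ρ w s a = ∑ a ∈ P \ S, ∑ s ∈ S, c2c ρ w a s := by
    rw [sum_comm]
    exact sum_congr rfl fun a _ => sum_congr rfl fun s _ => c2c_symm w s a
  have h4 : ∑ p ∈ P, ∑ q ∈ P, c2c ρ w p q =
      (∑ a ∈ P \ S, ∑ s ∈ P \ S, c2c ρ w a s + ∑ a ∈ P \ S, ∑ s ∈ S, c2c ρ w a s) +
      (∑ s ∈ S, ∑ a ∈ P \ S, c2c ρ w s a + ∑ s ∈ S, ∑ a ∈ S, c2c ρ w s a) := by
    rw [← sum_sdiff hS, ← sum_add_distrib, ← sum_add_distrib]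
    congr 1 <;> exact sum_congr rfl fun a _ => (sum_sdiff hS).symm
  have h5 : 0 ≤ ∑ a ∈ P \ S, ∑ s ∈ P \ S, c2c ρ w a s :=
    sum_nonneg fun p _ => sum_nonneg fun q _ => c2c_nonneg hρ w p q
  have h6 : 0 ≤ ∑ s ∈ S, ∑ a ∈ S, c2c ρ w s a :=
    sum_nonneg fun p _ => sum_nonneg fun q _ => c2c_nonneg hρ w p q
  rw [c2_re, h4, h3, h2]
  linarith

/-- The gap on the space `c2W`. -/
private theorem c2_main [FiniteDimensional ℂ H] (hρ : ∀ g x y, ⟪ρ g x, ρ g y⟫_ℂ = ⟪x, y⟫_ℂ) :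
    ∀ (M : ℕ) (P : Finset α), #P = M → ∀ (l : ℕ) (f : H), f ∈ c2W ρ P l →
      ((M : ℝ) - 1) * min (l : ℝ) ((M : ℝ) / 2) * ‖f‖ ^ 2 ≤ (⟪f, c2T ρ P f⟫_ℂ).re := by
  intro M
  induction M using Nat.strong_induction_on with
  | _ M ih =>
  intro P hP
  -- it is enough to treat `2 l ≤ M + 1`
  suffices key : ∀ l : ℕ, 2 * l ≤ M + 1 → ∀ f : H, f ∈ c2W ρ P l →
      ((M : ℝ) - 1) * min (l : ℝ) ((M : ℝ) / 2) * ‖f‖ ^ 2 ≤ (⟪f, c2T ρ P f⟫_ℂ).re by
    intro l f hf
    by_cases hl : 2 * l ≤ M + 1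
    · exact key l hl f hf
    · push Not at hl
      have h1 : f ∈ c2W ρ P ((M + 1) / 2) := by
        intro S hS hSl w hw
        exact hf S hS (by omega) w hw
      have h2 := key ((M + 1) / 2) (by omega) f h1
      have h3 : (M : ℝ) / 2 ≤ (((M + 1) / 2 : ℕ) : ℝ) := by
        have : M ≤ 2 * ((M + 1) / 2) := by omega
        have h : (M : ℝ) ≤ 2 * (((M + 1) / 2 : ℕ) : ℝ) := by exact_mod_cast this
        linarith
      have h4 : (M : ℝ) / 2 ≤ (l : ℝ) := by
        have : (M : ℝ) + 1 < 2 * (l : ℝ) := by exact_mod_cast hl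
        linarith
      rw [min_eq_right h3] at h2
      rw [min_eq_right h4]
      exact h2
  intro l hl f hf
  rcases eq_or_ne f 0 with rfl | hf0
  · simp
  -- the smallest eigenvalue
  have hmaps : ∀ x ∈ c2W ρ P l, c2T ρ P x ∈ c2W ρ P l := fun x hx => c2T_W hρ hx
  set T' : c2W ρ P l →ₗ[ℂ] c2W ρ P l := (c2T ρ P).restrict hmaps with hT'
  have hsym : T'.IsSymmetric := by
    intro x y
    exact c2T_symm hρ P x y
  have : Nontrivial (c2W ρ P l) := ⟨⟨⟨f, hf⟩, 0, fun h => hf0 (congrArg Subtype.val h)⟩⟩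
  have heig := hsym.hasEigenvalue_iInf_of_finiteDimensional
  set ν : ℝ := ⨅ x : { x : c2W ρ P l // x ≠ 0 }, RCLike.re ⟪T' x, x⟫_ℂ / ‖(x : c2W ρ P l)‖ ^ 2
    with hν
  have hbdd : BddBelow (Set.range fun x : { x : c2W ρ P l // x ≠ 0 } =>
      RCLike.re ⟪T' x, x⟫_ℂ / ‖(x : c2W ρ P l)‖ ^ 2) := by
    refine ⟨0, ?_⟩
    rintro _ ⟨x, rfl⟩
    have h1 : RCLike.re ⟪T' x, (x : c2W ρ P l)⟫_ℂ = (⟪((x : c2W ρ P l) : H), c2T ρ P (x : c2W ρ P l)⟫_ℂ).re := by
      rw [← c2T_symm hρ]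
      rfl
    dsimp only
    rw [h1]
    exact div_nonneg (c2_re_nonneg hρ P _) (by positivity)
  have hle : ν * ‖f‖ ^ 2 ≤ (⟪f, c2T ρ P f⟫_ℂ).re := by
    have h1 := ciInf_le hbdd ⟨⟨f, hf⟩, fun h => hf0 (congrArg Subtype.val h)⟩
    have h2 : (0 : ℝ) < ‖f‖ ^ 2 := by positivity
    rw [← hν] at h1
    rw [← c2T_symm hρ]
    exact (le_div_iff₀ h2).1 h1
  suffices hνge : ((M : ℝ) - 1) * min (l : ℝ) ((M : ℝ) / 2) ≤ ν from
    (mul_le_mul_of_nonneg_right hνge (by positivity)).trans hle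
  obtain ⟨v', hv'⟩ := heig.exists_hasEigenvector
  have hv'0 : v' ≠ 0 := hv'.2
  have hv'1 : T' v' = (ν : ℂ) • v' := hv'.apply_eq_smul
  obtain ⟨v, hv⟩ := v'
  have hv0 : v ≠ 0 := fun h => hv'0 (Subtype.ext h)
  have hv1 : c2T ρ P v = (ν : ℂ) • v := congrArg Subtype.val hv'1
  have hself : ∀ x : H, (⟪x, x⟫_ℂ).re = ‖x‖ ^ 2 := by
    intro x
    rw [inner_self_eq_norm_sq_to_K]
    norm_cast
  have hv2 : (⟪v, c2T ρ P v⟫_ℂ).re = ν * ‖v‖ ^ 2 := by
    rw [hv1, inner_smul_right, Complex.re_ofReal_mul, hself]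
  have hvpos : 0 < ‖v‖ ^ 2 := by positivity
  have hν0 : 0 ≤ ν := by
    have h1 := c2_re_nonneg hρ P v
    rw [hv2] at h1
    exact nonneg_of_mul_nonneg_left h1 hvpos
  have hmin1 : min (l : ℝ) ((M : ℝ) / 2) ≤ l := min_le_left _ _
  have hmin2 : min (l : ℝ) ((M : ℝ) / 2) ≤ (M : ℝ) / 2 := min_le_right _ _
  have hmin0 : 0 ≤ min (l : ℝ) ((M : ℝ) / 2) := le_min (by positivity) (by positivity)
  have hlM : 2 * (l : ℝ) ≤ M + 1 := by exact_mod_cast hl
  rcases Nat.eq_zero_or_pos M with hM0 | hMpos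
  · have h1 : min (l : ℝ) ((M : ℝ) / 2) = 0 := by
      apply le_antisymm _ hmin0
      refine hmin2.trans ?_
      rw [hM0]
      simp
    rw [h1, mul_zero]
    exact hν0
  have hM1 : (1 : ℝ) ≤ M := by exact_mod_cast hMpos
  by_cases hcase : v ∈ c2W ρ P (l + 1)
  · -- Case 2
    rcases Nat.lt_or_ge M 3 with hM3 | hM3
    · interval_cases M
      · simpa using hν0
      · rcases Nat.eq_zero_or_pos l with hl0 | hlpos
        · rw [hl0]
          simpa using hν0
        · exfalso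
          obtain ⟨p, hp⟩ : P.Nonempty := by
            rw [← card_pos, hP]
            norm_num
          have h1 := hcase {p} (singleton_subset_iff.2 hp) (by
            rw [hP, card_singleton]
            omega) v (by
            intro a ha b hb
            rw [mem_singleton] at ha hb
            rw [ha, hb, Equiv.swap_self]
            have : ρ (Equiv.refl α) = 1 := map_one ρ
            rw [this, Module.End.one_apply])
          exact hv0 (inner_self_eq_zero.1 h1)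
    · have h3 : (3 : ℝ) ≤ M := by exact_mod_cast hM3
      have hM' : ((M - 1 : ℕ) : ℝ) = (M : ℝ) - 1 := by
        rw [Nat.cast_sub hMpos]
        simp
      have h1 : ∀ p ∈ P, (((M : ℝ) - 1) - 1) * min (l : ℝ) (((M : ℝ) - 1) / 2) * ‖v‖ ^ 2 ≤
          (⟪v, c2T ρ (P.erase p) v⟫_ℂ).re := by
        intro p hp
        have hcard : #(P.erase p) = M - 1 := by rw [card_erase_of_mem hp, hP]
        have h2 : v ∈ c2W ρ (P.erase p) l := by
          intro S hS hSl w hw
          exact hcase S (hS.trans (erase_subset _ _)) (by omega) w hw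
        have h3 := ih (M - 1) (by omega) (P.erase p) hcard l v h2
        rw [hM'] at h3
        exact h3
      have h2 := sum_le_sum h1
      rw [c2_erase, sum_const, nsmul_eq_mul, hP, hv2] at h2
      have h4 : (M : ℝ) * min (l : ℝ) (((M : ℝ) - 1) / 2) ≤ ν := by
        have h5 : 0 < ((M : ℝ) - 2) * ‖v‖ ^ 2 := mul_pos (by linarith) hvpos
        refine le_of_mul_le_mul_right ?_ h5
        calc (M : ℝ) * min (l : ℝ) (((M : ℝ) - 1) / 2) * (((M : ℝ) - 2) * ‖v‖ ^ 2)
            = (M : ℝ) * ((((M : ℝ) - 1) - 1) * min (l : ℝ) (((M : ℝ) - 1) / 2) * ‖v‖ ^ 2) := by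
              ring
          _ ≤ ((M : ℝ) - 2) * (ν * ‖v‖ ^ 2) := h2
          _ = ν * (((M : ℝ) - 2) * ‖v‖ ^ 2) := by ring
      refine le_trans ?_ h4
      rw [mul_min_of_nonneg _ _ (by linarith : (0 : ℝ) ≤ (M : ℝ) - 1),
        mul_min_of_nonneg _ _ (by linarith : (0 : ℝ) ≤ (M : ℝ))]
      apply min_le_min
      · exact mul_le_mul_of_nonneg_right (by linarith) (by positivity)
      · linarith
  · -- Case 1
    have h1 : ∃ S ⊆ P, #P + 1 ≤ #S + (l + 1) ∧ ∃ w ∈ c2Fix ρ S, ⟪w, v⟫_ℂ ≠ 0 := by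
      by_contra hcon
      apply hcase
      intro S hS hSl w hw
      by_contra h
      exact hcon ⟨S, hS, hSl, w, hw, h⟩
    obtain ⟨S, hS, hSl, w₀, hw₀, hw₀v⟩ := h1
    have hcard : #S + l = M := by
      have h2 : ¬ (#P + 1 ≤ #S + l) := fun h => hw₀v (hv S hS h w₀ hw₀)
      omega
    -- the projection of `v`
    obtain ⟨w, hw, hwv⟩ : ∃ w ∈ c2Fix ρ S, ∀ x ∈ c2Fix ρ S, ⟪x, w⟫_ℂ = ⟪x, v⟫_ℂ := by
      refine ⟨(c2Fix ρ S).starProjection v, Submodule.starProjection_apply_mem _ _, ?_⟩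
      intro x hx
      have h2 := Submodule.starProjection_inner_eq_zero (K := c2Fix ρ S) v x hx
      rw [inner_sub_left, sub_eq_zero] at h2
      rw [← inner_conj_symm, ← h2, inner_conj_symm]
    have hw0 : w ≠ 0 := by
      rintro rfl
      apply hw₀v
      rw [← hwv w₀ hw₀, inner_zero_right]
    have hwpos : 0 < ‖w‖ ^ 2 := by positivity
    have h2 : ∀ a ∈ P \ S, w + ∑ s ∈ S, ρ (Equiv.swap a s) w = 0 := by
      intro a ha
      rw [mem_sdiff] at ha
      set u := w + ∑ s ∈ S, ρ (Equiv.swap a s) w with hu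
      have hufix : u ∈ c2Fix ρ (insert a S) := c2_sym ha.2 hw
      have hufix' : u ∈ c2Fix ρ S := fun p hp q hq =>
        hufix p (mem_insert_of_mem hp) q (mem_insert_of_mem hq)
      have huw : ⟪u, w⟫_ℂ = 0 := by
        rw [hwv u hufix']
        refine hv (insert a S) (insert_subset ha.1 hS) ?_ u hufix
        rw [card_insert_of_notMem ha.2]
        omega
      have huu : ⟪u, u⟫_ℂ = 0 := by
        conv_lhs => rw [hu]
        rw [← hu, inner_add_right, huw, inner_sum, zero_add]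
        apply sum_eq_zero
        intro s hs
        rw [← c2_swap_adj hρ, hufix a (mem_insert_self _ _) s (mem_insert_of_mem hs), huw]
      exact inner_self_eq_zero.1 huu
    have h3 := c2_case1 hρ hS h2
    have h4 : (⟪w, c2T ρ P w⟫_ℂ).re = ν * ‖w‖ ^ 2 := by
      rw [← c2T_symm hρ, hwv _ (c2T_fix hS hw), c2T_symm hρ, hv1, inner_smul_right,
        Complex.re_ofReal_mul, ← hwv w hw, hself]
    rw [h4] at h3
    have h5 := le_of_mul_le_mul_right h3 hwpos
    have h6 : #(P \ S) = l := by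
      rw [card_sdiff_of_subset hS]
      omega
    have h7 : (#S : ℝ) = M - l := by
      rw [← hcard]
      push_cast
      ring
    rw [h6, h7] at h5
    refine le_trans ?_ h5
    have h8 : ((M : ℝ) - 1) * min (l : ℝ) ((M : ℝ) / 2) ≤ ((M : ℝ) - 1) * l :=
      mul_le_mul_of_nonneg_left hmin1 (by linarith)
    have h9 : (0 : ℝ) ≤ l := by positivity
    nlinarith

end rep

section transfer
open scoped InnerProductSpace

/-- left translations on the Euclidean space -/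
private noncomputable def c2R (N : ℕ) :
    Equiv.Perm (Fin N) →* Module.End ℂ (EuclideanSpace ℂ (G N)) where
  toFun g := (WithLp.linearEquiv 2 ℂ (G N → ℂ)).symm.toLinearMap ∘ₗ Lg g ∘ₗ
    (WithLp.linearEquiv 2 ℂ (G N → ℂ)).toLinearMap
  map_one' := by
    ext x σ
    simp [Lg]
  map_mul' g h := by
    ext x σ
    simp [Lg, mul_assoc]

private lemma c2R_apply (N : ℕ) (g : G N) (x : EuclideanSpace ℂ (G N)) (σ : G N) :
    c2R N g x σ = x (g⁻¹ * σ) := rfl

private lemma c2_inner {N : ℕ} (x y : EuclideanSpace ℂ (G N)) :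
    ⟪x, y⟫_ℂ = ip (fun σ => x σ) (fun σ => y σ) := by
  rw [PiLp.inner_apply, ip]
  refine sum_congr rfl fun σ _ => ?_
  rw [RCLike.inner_apply, mul_comm]

private lemma c2_norm {N : ℕ} (x : EuclideanSpace ℂ (G N)) : ‖x‖ ^ 2 = nsq (fun σ => x σ) := by
  rw [EuclideanSpace.norm_sq_eq, nsq]

private lemma c2R_inner (N : ℕ) (g : G N) (x y : EuclideanSpace ℂ (G N)) :
    ⟪c2R N g x, c2R N g y⟫_ℂ = ⟪x, y⟫_ℂ := by
  rw [c2_inner, c2_inner, ip, ip]
  exact Equiv.sum_comp (Equiv.mulLeft g⁻¹)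
    (fun σ => (starRingEnd ℂ) (x σ) * y σ)

/-- invariance under transpositions of `S` gives invariance under permutations of `S` -/
private lemma c2_inv {N : ℕ} {S : Finset (Fin N)} {w : G N → ℂ}
    (hw : ∀ p ∈ S, ∀ q ∈ S, ∀ σ, w (Equiv.swap p q * σ) = w σ) (π : G N)
    (hπ : ∀ x ∉ S, π x = x) (σ : G N) : w (π * σ) = w σ := by
  have hmem : ∀ x, π x ∈ S ↔ x ∈ S := by
    intro x
    constructor
    · intro h
      by_contra hx
      rw [hπ x hx] at h
      exact hx h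
    · intro h
      by_contra hx
      have h1 := hπ _ hx
      exact hx (by rw [π.injective h1]; exact h)
  have h2 : ∀ π' : Equiv.Perm {x // x ∈ S}, ∀ σ, w (Equiv.Perm.ofSubtype π' * σ) = w σ := by
    intro π'
    induction π' using Equiv.Perm.swap_induction_on with
    | one => intro σ; simp
    | swap_mul g x y _ ih =>
      intro σ
      rw [map_mul, Equiv.Perm.ofSubtype_swap_eq, mul_assoc, hw _ x.2 _ y.2, ih]
  have h3 := h2 (π.subtypePerm hmem) σ
  rwa [Equiv.Perm.ofSubtype_subtypePerm hmem fun x hx => by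
    by_contra h
    exact hx (hπ x h)] at h3

private lemma c2_half {N : ℕ} (D : Fin N → Fin N → ℝ) (hs : ∀ p q, D p q = D q p)
    (h0 : ∀ p, D p p = 0) : ∑ p, ∑ q, (1 / 2) * D p q = ∑ p, ∑ q, if p < q then D p q else 0 := by
  have h1 : ∑ p, ∑ q, D p q = ∑ p, ∑ q, (if p < q then D p q else 0) +
      ∑ p, ∑ q, (if q < p then D p q else 0) := by
    rw [← sum_add_distrib]
    refine sum_congr rfl fun p _ => ?_
    rw [← sum_add_distrib]
    refine sum_congr rfl fun q _ => ?_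
    rcases lt_trichotomy p q with h | h | h
    · rw [if_pos h, if_neg h.not_gt, add_zero]
    · subst h
      rw [if_neg (lt_irrefl _), h0, add_zero]
    · rw [if_neg h.not_gt, if_pos h, zero_add]
  have h2 : ∑ p, ∑ q, (if q < p then D p q else 0) = ∑ p, ∑ q, (if p < q then D p q else 0) := by
    rw [sum_comm]
    refine sum_congr rfl fun p _ => sum_congr rfl fun q _ => ?_
    rw [hs]
  rw [h2] at h1
  simp only [← mul_sum]
  rw [h1]
  ring

theorem omega_gap (N : ℕ) (l : ℕ) (f : G N → ℂ)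
    (hf : ∀ B : Finset (Fin N), #B < l → ∀ g ∈ FA B, ip g f = 0) :
    ((N : ℝ) - 1) * min (l : ℝ) ((N : ℝ) / 2) * nsq f ≤
      ∑ p : Fin N, ∑ q : Fin N, if p < q then nsq (fun σ => f σ - f (Equiv.swap p q * σ)) else 0 := by
  classical
  set F : EuclideanSpace ℂ (G N) := WithLp.toLp 2 f with hF
  have hFW : F ∈ c2W (c2R N) univ l := by
    intro S _ hSl w hw
    rw [card_univ, Fintype.card_fin] at hSl
    have hw1 : ∀ p ∈ S, ∀ q ∈ S, ∀ σ, w (Equiv.swap p q * σ) = w σ := by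
      intro p hp q hq σ
      have h1 := congrArg (fun z : EuclideanSpace ℂ (G N) => z σ) (hw p hp q hq)
      rwa [c2R_apply, Equiv.swap_inv] at h1
    rw [c2_inner]
    have h1 : ip (fun σ => w σ) (fun σ => F σ) = ∑ B : Finset (Fin N),
        ip (fun σ : G N => if B.image σ = Sᶜ then w σ else 0) f := by
      simp only [ip]
      rw [sum_comm]
      refine sum_congr rfl fun σ _ => ?_
      rw [sum_eq_single (Sᶜ.image (σ⁻¹ : G N))]
      · rw [if_pos]
        ext x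
        simp
      · intro B _ hB
        rw [if_neg, map_zero, zero_mul]
        intro h
        apply hB
        rw [← h]
        ext x
        simp
      · intro h
        exact absurd (mem_univ _) h
    rw [h1]
    apply sum_eq_zero
    intro B _
    by_cases hB : #B = #Sᶜ
    · apply hf B
      · have hSN : #S ≤ N := by
          have := card_le_univ S
          rwa [Fintype.card_fin] at this
        rw [hB, card_compl, Fintype.card_fin]
        omega
      · intro σ σ' h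
        have himg : B.image σ = B.image σ' := image_congr fun a ha => h a ha
        dsimp only
        rw [← himg]
        split_ifs with h2
        · have h3 : σ' = (σ' * σ⁻¹) * σ := by group
          rw [h3]
          refine (c2_inv hw1 _ ?_ σ).symm
          intro x hx
          have hx' : x ∈ B.image σ := by
            rw [h2, mem_compl]
            exact hx
          obtain ⟨b, hb, rfl⟩ := mem_image.1 hx'
          have h4 : σ⁻¹ (σ b) = b := by simp
          rw [Equiv.Perm.mul_apply, h4, h b hb]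
        · rfl
    · have h2 : (fun σ : G N => if B.image σ = Sᶜ then w σ else 0) = fun _ => 0 := by
        funext σ
        rw [if_neg]
        intro h
        apply hB
        rw [← h, card_image_of_injective _ σ.injective]
      rw [h2]
      simp [ip]
  have hmain := c2_main (c2R_inner N) N univ (by simp) l F hFW
  rw [c2_norm, c2_re] at hmain
  have h1 : ∀ p q : Fin N, c2c (c2R N) F p q =
      (1 / 2) * nsq (fun σ => f σ - f (Equiv.swap p q * σ)) := by
    intro p q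
    have e : (fun σ : G N => (F - c2R N (Equiv.swap p q) F) σ) =
        fun σ => f σ - f (Equiv.swap p q * σ) := by
      funext σ
      rw [PiLp.sub_apply, c2R_apply, Equiv.swap_inv]
    rw [c2c_eq (c2R_inner N), c2_norm, e]
  simp only [h1] at hmain
  rw [c2_half] at hmain
  · exact hmain
  · intro p q
    rw [Equiv.swap_comm]
  · intro p
    rw [Equiv.swap_self, nsq]
    apply sum_eq_zero
    intro σ _
    have : (Equiv.refl (Fin N) : G N) * σ = σ := one_mul σ
    rw [this, sub_self, norm_zero]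
    norm_num

end transfer

end Pool.Agent.Lib.MP_cad76e_pr
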