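import Pool.Agent.Lib.MP_cad76e_pr.D0

/-! Module D1: crude form of the dissipation inequality. -/

set_option autoImplicit false

namespace Pool.Agent.Lib.MP_cad76e_pr

open Finset D0

theorem diss_crude {n : ℕ} [NeZero n] (hn : 3 ≤ n) (b : ℂ) (hb : ‖b - 2 / 3‖ ≤ 1 / 10)
    (f : G n → ℂ) :
    nsq (SE b f) + (1 / 4) * ∑ j : Fin n, nsq (piE j (SE b f)) ≤ nsq f := by
  have ha : ‖1 - b‖ ≤ 13 / 30 := by
    have h1 : (1 - b : ℂ) = (1 / 3 : ℂ) - (b - 2 / 3) := by ring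
    rw [h1]
    refine (norm_sub_le _ _).trans ?_
    have h2 : ‖(1 / 3 : ℂ)‖ = 1 / 3 := by norm_num
    rw [h2]
    linarith
  have ha0 := norm_nonneg (1 - b)
  have hc : ‖b‖ ≤ 23 / 30 := by
    have h1 : (b : ℂ) = (2 / 3 : ℂ) + (b - 2 / 3) := by ring
    rw [h1]
    refine (norm_add_le _ _).trans ?_
    have h2 : ‖(2 / 3 : ℂ)‖ = 2 / 3 := by norm_num
    rw [h2]
    linarith
  have hc' : 17 / 30 ≤ ‖b‖ := by
    have h1 : (2 / 3 : ℂ) = b - (b - 2 / 3) := by ring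
    have h2 : ‖(2 / 3 : ℂ)‖ = 2 / 3 := by norm_num
    have h3 := norm_sub_le b (b - 2 / 3)
    rw [← h1, h2] at h3
    linarith
  set a := ‖1 - b‖ with haa
  set c := ‖b‖ with hcc
  have ha1 : ‖1 - b‖ ≤ 1 := by linarith
  have hF : ∑ j : Fin n, nsq (piE j (SE b f)) =
      ∑ j ∈ range n, nsq (piE (Fin.ofNat n j) (SE b f)) := by
    rw [Finset.sum_range]
    refine Finset.sum_congr rfl fun i _ => ?_
    congr 3
    ext
    simp [Fin.ofNat, Nat.mod_eq_of_lt i.2]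
  rw [hF]
  have hdis := dissipation b f
  rw [← haa] at hdis
  obtain ⟨m, rfl⟩ : ∃ m, n = m + 3 := ⟨n - 3, by omega⟩
  set U : ℕ → ℝ := fun j => nsq (uu b f j) with hU
  have hU0 : ∀ j, 0 ≤ U j := fun j => nsq_nonneg _
  have hUn : ∀ j, nrm (uu b f j) ^ 2 = U j := fun j => nrm_sq _
  -- the middle terms
  have hmid : ∀ i ∈ range (m + 1), nsq (piE (Fin.ofNat (m + 3) (i + 1)) (SE b f)) ≤
      2 * a ^ 2 * U (i + 1) + 2 * c ^ 2 * U i := by
    intro i hi
    rw [mem_range] at hi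
    rw [piE_SE b f (by omega) (by omega), ← nrm_sq, ← hUn, ← hUn]
    have h1 : nrm (PP b 0 (i + 1 - 1) (ww b f (i + 1))) ≤
        a * nrm (uu b f (i + 1)) + c * nrm (uu b f i) := by
      refine (nrm_PP_le b ha1 _ _ _).trans ?_
      unfold ww
      refine (nrm_sub_le _ _).trans ?_
      rw [nrm_smul, nrm_smul]
      have h2 := nrm_piE_le (Fin.ofNat (m + 3) (i + 1)) (uu b f (i + 1 - 1))
      rw [Nat.add_sub_cancel] at h2 ⊢
      have := mul_le_mul_of_nonneg_left h2 (norm_nonneg b)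
      linarith
    have h3 := nrm_nonneg (PP b 0 (i + 1 - 1) (ww b f (i + 1)))
    have h4 := pow_le_pow_left₀ h3 h1 2
    nlinarith [sq_nonneg (a * nrm (uu b f (i + 1)) - c * nrm (uu b f i))]
  have h0 : nsq (piE (Fin.ofNat (m + 3) 0) (SE b f)) = a ^ 2 * U 0 := by
    rw [piE_SE_zero b f (by omega), ← nrm_sq, nrm_smul, mul_pow, hUn]
  have hlast : nsq (piE (Fin.ofNat (m + 3) (m + 2)) (SE b f)) ≤
      3 * (a ^ 2 * U (m + 2) + c ^ 2 * U (m + 1) + c ^ 2 * U 0) := by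
    have h := piE_SE_last b f hn
    rw [show m + 3 - 1 = m + 2 by omega, show m + 3 - 2 = m + 1 by omega,
      show m + 3 - 3 = m by omega] at h
    rw [h, ← nrm_sq, ← hUn, ← hUn, ← hUn]
    have h1 : nrm (PP b 1 m ((1 - b) • uu b f (m + 2) -
        b • piE (Fin.ofNat (m + 3) (m + 2)) (uu b f (m + 1)))
        - b • piE (Fin.ofNat (m + 3) (m + 2)) (uu b f 0)) ≤
        a * nrm (uu b f (m + 2)) + c * nrm (uu b f (m + 1)) + c * nrm (uu b f 0) := by
      refine (nrm_sub_le _ _).trans ?_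
      have h5 := (nrm_PP_le b ha1 1 m ((1 - b) • uu b f (m + 2) -
        b • piE (Fin.ofNat (m + 3) (m + 2)) (uu b f (m + 1)))).trans (nrm_sub_le _ _)
      rw [nrm_smul, nrm_smul] at h5
      rw [nrm_smul]
      have h2 := mul_le_mul_of_nonneg_left
        (nrm_piE_le (Fin.ofNat (m + 3) (m + 2)) (uu b f (m + 1))) (norm_nonneg b)
      have h3 := mul_le_mul_of_nonneg_left
        (nrm_piE_le (Fin.ofNat (m + 3) (m + 2)) (uu b f 0)) (norm_nonneg b)
      linarith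
    have h4 := pow_le_pow_left₀ (nrm_nonneg _) h1 2
    refine h4.trans ?_
    nlinarith [sq_nonneg (a * nrm (uu b f (m + 2)) - c * nrm (uu b f (m + 1))),
      sq_nonneg (a * nrm (uu b f (m + 2)) - c * nrm (uu b f 0)),
      sq_nonneg (c * nrm (uu b f (m + 1)) - c * nrm (uu b f 0))]
  have hsum1 : ∑ i ∈ range (m + 1), U (i + 1) = ∑ j ∈ range (m + 3), U j - U 0 - U (m + 2) := by
    rw [Finset.sum_range_succ U (m + 2), Finset.sum_range_succ' U (m + 1)]
    ring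
  have hsum2 : ∑ i ∈ range (m + 1), U i = ∑ j ∈ range (m + 3), U j - U (m + 1) - U (m + 2) := by
    rw [Finset.sum_range_succ U (m + 2), Finset.sum_range_succ U (m + 1)]
    ring
  have hsum3 : U 0 + U (m + 1) + U (m + 2) ≤ ∑ j ∈ range (m + 3), U j := by
    have h1 : 0 ≤ ∑ i ∈ range m, U (i + 1) := Finset.sum_nonneg fun i _ => hU0 _
    rw [Finset.sum_range_succ, Finset.sum_range_succ, Finset.sum_range_succ']
    linarith
  have htot : ∑ j ∈ range (m + 3), nsq (piE (Fin.ofNat (m + 3) j) (SE b f)) ≤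
      a ^ 2 * U 0 + (2 * a ^ 2 * ∑ i ∈ range (m + 1), U (i + 1) +
        2 * c ^ 2 * ∑ i ∈ range (m + 1), U i) +
      3 * (a ^ 2 * U (m + 2) + c ^ 2 * U (m + 1) + c ^ 2 * U 0) := by
    rw [Finset.sum_range_succ, Finset.sum_range_succ', h0, Finset.mul_sum, Finset.mul_sum,
      ← Finset.sum_add_distrib]
    have := Finset.sum_le_sum hmid
    linarith
  rw [hsum1, hsum2] at htot
  set S := ∑ j ∈ range (m + 3), U j with hS
  have hS0 : 0 ≤ S := Finset.sum_nonneg fun i _ => hU0 _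
  have hA : a ^ 2 ≤ 169 / 900 := by nlinarith
  have hC : c ^ 2 ≤ 529 / 900 := by nlinarith
  have hC' : 289 / 900 ≤ c ^ 2 := by nlinarith
  set A := a ^ 2
  set C := c ^ 2
  have e1 : (3 * C - A) * U 0 + C * U (m + 1) + (A - 2 * C) * U (m + 2) ≤ (3 * C - A) * S := by
    have q1 := hU0 (m + 1)
    have q2 := hU0 (m + 2)
    have q3 : C * U (m + 1) ≤ (3 * C - A) * U (m + 1) :=
      mul_le_mul_of_nonneg_right (by linarith) q1
    have q4 : (A - 2 * C) * U (m + 2) ≤ (3 * C - A) * U (m + 2) :=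
      mul_le_mul_of_nonneg_right (by linarith) q2
    have q5 : (3 * C - A) * (U 0 + U (m + 1) + U (m + 2)) ≤ (3 * C - A) * S :=
      mul_le_mul_of_nonneg_left hsum3 (by linarith)
    linarith
  have e2 : ∑ j ∈ range (m + 3), nsq (piE (Fin.ofNat (m + 3) j) (SE b f)) ≤
      (A + 5 * C) * S := by
    refine htot.trans ?_
    linarith
  have e3 : (A + 5 * C) * S ≤ 4 * (1 - A) * S := mul_le_mul_of_nonneg_right (by linarith) hS0
  linarith

end Pool.Agent.Lib.MP_cad76e_pr
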