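import Pool.Agent.Lib.MP_cad76e_pr.Defs

/-! Module GB: basic facts on left translations (MP_cad76e_pr, S19637). -/

set_option autoImplicit false

namespace Pool.Agent.Lib.MP_cad76e_pr

open Finset Filter Topology

theorem gb_Lg_apply {n : ℕ} (g : G n) (f : G n → ℂ) (σ : G n) : Lg g f σ = f (g⁻¹ * σ) := rfl

theorem gb_ip_add_left {ι : Type*} [Fintype ι] (f g h : ι → ℂ) :
    ip (f + g) h = ip f h + ip g h := by
  simp only [ip, Pi.add_apply, map_add, add_mul, Finset.sum_add_distrib]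

theorem gb_ip_add_right {ι : Type*} [Fintype ι] (f g h : ι → ℂ) :
    ip f (g + h) = ip f g + ip f h := by
  simp only [ip, Pi.add_apply, mul_add, Finset.sum_add_distrib]

theorem gb_ip_sub_left {ι : Type*} [Fintype ι] (f g h : ι → ℂ) :
    ip (f - g) h = ip f h - ip g h := by
  simp only [ip, Pi.sub_apply, map_sub, sub_mul, Finset.sum_sub_distrib]

theorem gb_ip_sub_right {ι : Type*} [Fintype ι] (f g h : ι → ℂ) :
    ip f (g - h) = ip f g - ip f h := by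
  simp only [ip, Pi.sub_apply, mul_sub, Finset.sum_sub_distrib]

theorem gb_ip_smul_left {ι : Type*} [Fintype ι] (c : ℂ) (f g : ι → ℂ) :
    ip (c • f) g = (starRingEnd ℂ) c * ip f g := by
  simp only [ip, Pi.smul_apply, smul_eq_mul, map_mul, mul_assoc, Finset.mul_sum]

theorem gb_ip_smul_right {ι : Type*} [Fintype ι] (c : ℂ) (f g : ι → ℂ) :
    ip f (c • g) = c * ip f g := by
  simp only [ip, Pi.smul_apply, smul_eq_mul, Finset.mul_sum]
  exact Finset.sum_congr rfl (fun x _ => by ring)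

theorem gb_ip_conj {ι : Type*} [Fintype ι] (f g : ι → ℂ) :
    (starRingEnd ℂ) (ip f g) = ip g f := by
  simp only [ip, map_sum, map_mul, Complex.conj_conj]
  exact Finset.sum_congr rfl (fun x _ => mul_comm _ _)

theorem gb_ip_self {ι : Type*} [Fintype ι] (f : ι → ℂ) : ip f f = ((nsq f : ℝ) : ℂ) := by
  simp only [ip, nsq, Complex.ofReal_sum]
  exact Finset.sum_congr rfl (fun x _ => by rw [Complex.conj_mul', Complex.ofReal_pow])

theorem gb_adj_one {ι : Type*} [Fintype ι] : IsAdj (1 : Module.End ℂ (ι → ℂ)) 1 :=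
  fun _ _ => rfl

theorem gb_adj_add {ι : Type*} [Fintype ι] {S T S' T' : Module.End ℂ (ι → ℂ)}
    (h : IsAdj S S') (h' : IsAdj T T') : IsAdj (S + T) (S' + T') := by
  intro f g
  simp only [LinearMap.add_apply, gb_ip_add_left, gb_ip_add_right, h f g, h' f g]

theorem gb_adj_sub {ι : Type*} [Fintype ι] {S T S' T' : Module.End ℂ (ι → ℂ)}
    (h : IsAdj S S') (h' : IsAdj T T') : IsAdj (S - T) (S' - T') := by
  intro f g
  simp only [LinearMap.sub_apply, gb_ip_sub_left, gb_ip_sub_right, h f g, h' f g]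

theorem gb_adj_smul {ι : Type*} [Fintype ι] {S S' : Module.End ℂ (ι → ℂ)} (c : ℂ)
    (h : IsAdj S S') : IsAdj (c • S) ((starRingEnd ℂ) c • S') := by
  intro f g
  simp only [LinearMap.smul_apply, gb_ip_smul_left, gb_ip_smul_right, h f g]

theorem gb_adj_mul {ι : Type*} [Fintype ι] {S T S' T' : Module.End ℂ (ι → ℂ)}
    (h : IsAdj S S') (h' : IsAdj T T') : IsAdj (S * T) (T' * S') := by
  intro f g
  rw [Module.End.mul_apply, Module.End.mul_apply, h (T f) g, h' f (S' g)]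

theorem gb_adj_symm {ι : Type*} [Fintype ι] {S S' : Module.End ℂ (ι → ℂ)}
    (h : IsAdj S S') : IsAdj S' S := by
  intro f g
  rw [← gb_ip_conj g (S' f), ← h g f, gb_ip_conj]

theorem nsq_Lg {n : ℕ} (g : G n) (f : G n → ℂ) : nsq (Lg g f) = nsq f := by
  unfold nsq
  exact Equiv.sum_comp (Equiv.mulLeft g⁻¹) (fun x => ‖f x‖ ^ 2)

theorem Lg_mul {n : ℕ} (g h : G n) : Lg g * Lg h = Lg (g * h) := by
  refine LinearMap.ext (fun f => funext (fun σ => ?_))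
  rw [Module.End.mul_apply, gb_Lg_apply, gb_Lg_apply, gb_Lg_apply, mul_inv_rev, mul_assoc]

theorem Lg_one {n : ℕ} : Lg (1 : G n) = 1 := by
  refine LinearMap.ext (fun f => funext (fun σ => ?_))
  rw [gb_Lg_apply, inv_one, one_mul, Module.End.one_apply]

theorem Lg_adj {n : ℕ} (g : G n) : IsAdj (Lg g) (Lg g⁻¹) := by
  intro f f'
  unfold ip
  rw [← Equiv.sum_comp (Equiv.mulLeft g) (fun x => (starRingEnd ℂ) (Lg g f x) * f' x)]
  refine Finset.sum_congr rfl (fun x _ => ?_)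
  simp only [Equiv.coe_mulLeft, gb_Lg_apply, inv_mul_cancel_left, inv_inv]

theorem Lg_FA {n : ℕ} (A : Finset (Fin n)) (g : G n) (f : G n → ℂ) (hf : f ∈ FA A) :
    Lg g f ∈ FA A := by
  intro σ σ' h
  rw [gb_Lg_apply, gb_Lg_apply]
  exact hf _ _ (fun a ha => by rw [Equiv.Perm.mul_apply, Equiv.Perm.mul_apply, h a ha])

theorem Lg_UA {n : ℕ} (A : Finset (Fin n)) (g : G n) (f : G n → ℂ) (hf : f ∈ UA A) :
    Lg g f ∈ UA A := by
  refine ⟨Lg_FA A g f hf.1, fun a ha σ => ?_⟩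
  rw [← hf.2 a ha (g⁻¹ * σ)]
  exact Finset.sum_congr rfl (fun c _ => by rw [gb_Lg_apply, mul_assoc])

theorem gb_sj_inv {n : ℕ} [NeZero n] (j : Fin n) : (sj j)⁻¹ = sj j := Equiv.swap_inv _ _

theorem gb_sj_mul_self {n : ℕ} [NeZero n] (j : Fin n) : sj j * sj j = 1 :=
  Equiv.swap_mul_self _ _

theorem gb_piE_apply {n : ℕ} [NeZero n] (j : Fin n) (f : G n → ℂ) :
    piE j f = (1 / 2 : ℂ) • (f - Lg (sj j) f) := by
  simp only [piE, LinearMap.smul_apply, LinearMap.sub_apply, Module.End.one_apply]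

theorem piE_adj {n : ℕ} [NeZero n] (j : Fin n) : IsAdj (piE j) (piE j) := by
  have h1 := Lg_adj (sj j)
  rw [gb_sj_inv] at h1
  have h2 := gb_adj_smul (1 / 2 : ℂ) (gb_adj_sub gb_adj_one h1)
  have h3 : (starRingEnd ℂ) (1 / 2 : ℂ) = 1 / 2 := by
    rw [map_div₀, map_one, Complex.conj_ofNat]
  rw [h3] at h2
  exact h2

theorem gb_piE_mul_self {n : ℕ} [NeZero n] (j : Fin n) : piE j * piE j = piE j := by
  have h : (Lg (sj j) : Module.End ℂ (G n → ℂ)) * Lg (sj j) = 1 := by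
    rw [Lg_mul, gb_sj_mul_self, Lg_one]
  unfold piE
  rw [smul_mul_smul_comm, sub_mul, mul_sub, mul_sub, h, one_mul, mul_one, one_mul]
  have : (1 : Module.End ℂ (G n → ℂ)) - Lg (sj j) - (Lg (sj j) - 1)
      = (2 : ℂ) • (1 - Lg (sj j)) := by
    rw [two_smul]; abel
  rw [this, smul_smul]
  norm_num

theorem nsq_piE {n : ℕ} [NeZero n] (j : Fin n) (f : G n → ℂ) :
    nsq (piE j f) = (1 / 4) * ∑ σ, ‖f (sj j * σ) - f σ‖ ^ 2 ∧
    nsq (piE j f) = (ip f (piE j f)).re := by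
  constructor
  · unfold nsq
    rw [Finset.mul_sum]
    refine Finset.sum_congr rfl (fun σ _ => ?_)
    rw [gb_piE_apply, Pi.smul_apply, Pi.sub_apply, gb_Lg_apply, gb_sj_inv, norm_smul, mul_pow,
      norm_sub_rev]
    norm_num
  · have h : ip (piE j f) (piE j f) = ip f (piE j f) := by
      rw [piE_adj j f (piE j f), ← Module.End.mul_apply, gb_piE_mul_self]
    rw [← h, gb_ip_self, Complex.ofReal_re]

theorem piE_mem {n : ℕ} [NeZero n] (j : Fin n) (U : Submodule ℂ (G n → ℂ))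
    (hU : ∀ g : G n, ∀ f ∈ U, Lg g f ∈ U) (f : G n → ℂ) (hf : f ∈ U) : piE j f ∈ U := by
  rw [gb_piE_apply]
  exact U.smul_mem _ (U.sub_mem hf (hU _ _ hf))

theorem gb_PE_mem {n : ℕ} [NeZero n] (b : ℂ) (j : Fin n) (U : Submodule ℂ (G n → ℂ))
    (hU : ∀ g : G n, ∀ f ∈ U, Lg g f ∈ U) (f : G n → ℂ) (hf : f ∈ U) : PE b j f ∈ U := by
  simp only [PE, LinearMap.sub_apply, LinearMap.smul_apply, Module.End.one_apply]
  exact U.sub_mem hf (U.smul_mem _ (piE_mem j U hU f hf))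

theorem gb_PE_adj {n : ℕ} [NeZero n] (b : ℂ) (j : Fin n) :
    IsAdj (PE b j) (PE ((starRingEnd ℂ) b) j) :=
  gb_adj_sub gb_adj_one (gb_adj_smul b (piE_adj j))

theorem gb_prod_mem {n : ℕ} [NeZero n] (b : ℂ) (l : List (Fin n)) (U : Submodule ℂ (G n → ℂ))
    (hU : ∀ g : G n, ∀ f ∈ U, Lg g f ∈ U) (f : G n → ℂ) (hf : f ∈ U) :
    (l.map (fun j => PE b j)).prod f ∈ U := by
  induction l with
  | nil => simpa using hf
  | cons j l ih =>
    rw [List.map_cons, List.prod_cons, Module.End.mul_apply]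
    exact gb_PE_mem b j U hU _ ih

theorem gb_prod_adj {n : ℕ} [NeZero n] (b : ℂ) (l : List (Fin n)) :
    IsAdj (l.map (fun j => PE b j)).prod
      (l.reverse.map (fun j => PE ((starRingEnd ℂ) b) j)).prod := by
  induction l with
  | nil => simpa using gb_adj_one
  | cons j l ih =>
    rw [List.map_cons, List.prod_cons, List.reverse_cons, List.map_append, List.prod_append]
    simp only [List.map_cons, List.map_nil, List.prod_cons, List.prod_nil, mul_one]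
    exact gb_adj_mul (gb_PE_adj b j) ih

theorem gb_SE_eq {n : ℕ} [NeZero n] (b : ℂ) :
    (SE b : Module.End ℂ (G n → ℂ)) =
      (((List.range n).map (fun j => Fin.ofNat n j)).map (fun j => PE b j)).prod := by
  rw [List.map_map]; rfl

theorem SE_mem {n : ℕ} [NeZero n] (b : ℂ) (U : Submodule ℂ (G n → ℂ))
    (hU : ∀ g : G n, ∀ f ∈ U, Lg g f ∈ U) (f : G n → ℂ) (hf : f ∈ U) : SE b f ∈ U := by
  rw [gb_SE_eq]
  exact gb_prod_mem b _ U hU f hf

/-- the adjoint of `S`, a product of the `P_j` in reverse order -/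
theorem SE_adj {n : ℕ} [NeZero n] (b : ℂ) : ∃ S' : Module.End ℂ (G n → ℂ), IsAdj (SE b) S' ∧
    ∀ U : Submodule ℂ (G n → ℂ), (∀ g : G n, ∀ f ∈ U, Lg g f ∈ U) → ∀ f ∈ U, S' f ∈ U := by
  refine ⟨_, ?_, fun U hU f hf => gb_prod_mem ((starRingEnd ℂ) b)
    (((List.range n).map (fun j => Fin.ofNat n j)).reverse) U hU f hf⟩
  rw [gb_SE_eq]
  exact gb_prod_adj b _

theorem Dy_mem {n : ℕ} [NeZero n] (y : ℂ) (U : Submodule ℂ (G n → ℂ))
    (hU : ∀ g : G n, ∀ f ∈ U, Lg g f ∈ U) (f : G n → ℂ) (hf : f ∈ U) : Dy y f ∈ U := by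
  simp only [Dy, Module.End.mul_apply, LinearMap.add_apply, LinearMap.smul_apply,
    Module.End.one_apply]
  exact hU _ _ (U.add_mem (U.smul_mem _ hf) (U.smul_mem _ (hU _ _ hf)))

theorem Dy_adj {n : ℕ} [NeZero n] (y : ℂ) : ∃ D' : Module.End ℂ (G n → ℂ), IsAdj (Dy y) D' ∧
    ∀ U : Submodule ℂ (G n → ℂ), (∀ g : G n, ∀ f ∈ U, Lg g f ∈ U) → ∀ f ∈ U, D' f ∈ U := by
  refine ⟨_, gb_adj_mul (Lg_adj (finRotate n))
    (gb_adj_add (gb_adj_smul (2 / 3 : ℂ) gb_adj_one) (gb_adj_smul (y / 3) (Lg_adj tau))), ?_⟩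
  intro U hU f hf
  simp only [Module.End.mul_apply, LinearMap.add_apply, LinearMap.smul_apply,
    Module.End.one_apply]
  exact U.add_mem (U.smul_mem _ (hU _ _ hf)) (U.smul_mem _ (hU _ _ (hU _ _ hf)))

theorem gb_pt (y a b : ℂ) (hy : ‖y‖ = 1) (hre : 0 ≤ y.re) :
    ‖(2 / 3 : ℂ) * a + (y / 3) * b‖ ^ 2 + ‖(2 / 3 : ℂ) * b + (y / 3) * a‖ ^ 2 ≤
      (‖2 + y‖ / 3) ^ 2 * (‖a‖ ^ 2 + ‖b‖ ^ 2) := by
  have hy2 : y.re * y.re + y.im * y.im = 1 := by
    have := Complex.sq_norm y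
    rw [hy, Complex.normSq_apply] at this
    linarith
  have e1 : ∀ z : ℂ, ‖z‖ ^ 2 = z.re * z.re + z.im * z.im := fun z => by
    rw [Complex.sq_norm, Complex.normSq_apply]
  rw [div_pow, e1, e1, e1, e1, e1]
  have h23r : (2 / 3 : ℂ).re = 2 / 3 := by simp
  have h23i : (2 / 3 : ℂ).im = 0 := by simp
  have hyr : (y / 3).re = y.re / 3 := by simp
  have hyi : (y / 3).im = y.im / 3 := by simp
  simp only [Complex.add_re, Complex.add_im, Complex.mul_re, Complex.mul_im, h23r, h23i, hyr, hyi,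
    Complex.re_ofNat, Complex.im_ofNat]
  have key : (((2 + y.re) * (2 + y.re) + (0 + y.im) * (0 + y.im)) / 3 ^ 2 *
        (a.re * a.re + a.im * a.im + (b.re * b.re + b.im * b.im))) -
      ((2 / 3 * a.re - 0 * a.im + (y.re / 3 * b.re - y.im / 3 * b.im)) *
          (2 / 3 * a.re - 0 * a.im + (y.re / 3 * b.re - y.im / 3 * b.im)) +
        (2 / 3 * a.im + 0 * a.re + (y.re / 3 * b.im + y.im / 3 * b.re)) *
          (2 / 3 * a.im + 0 * a.re + (y.re / 3 * b.im + y.im / 3 * b.re)) +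
      ((2 / 3 * b.re - 0 * b.im + (y.re / 3 * a.re - y.im / 3 * a.im)) *
          (2 / 3 * b.re - 0 * b.im + (y.re / 3 * a.re - y.im / 3 * a.im)) +
        (2 / 3 * b.im + 0 * b.re + (y.re / 3 * a.im + y.im / 3 * a.re)) *
          (2 / 3 * b.im + 0 * b.re + (y.re / 3 * a.im + y.im / 3 * a.re)))) =
      4 / 9 * (y.re * ((a.re - b.re) ^ 2 + (a.im - b.im) ^ 2)) := by
    ring
  have h0 : 0 ≤ 4 / 9 * (y.re * ((a.re - b.re) ^ 2 + (a.im - b.im) ^ 2)) := by positivity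
  linarith

theorem nsq_Dy_le {n : ℕ} [NeZero n] (y : ℂ) (hy : ‖y‖ = 1) (hre : 0 ≤ y.re) (f : G n → ℂ) :
    nsq (Dy y f) ≤ (‖2 + y‖ / 3) ^ 2 * nsq f := by
  rw [Dy, Module.End.mul_apply, nsq_Lg]
  have hval : ∀ σ : G n, ((((2 / 3 : ℂ) • (1 : Module.End ℂ (G n → ℂ)) + (y / 3) • Lg tau) : Module.End ℂ (G n → ℂ)) f) σ =
      (2 / 3 : ℂ) * f σ + (y / 3) * f (tau⁻¹ * σ) := fun σ => by
    simp only [LinearMap.add_apply, LinearMap.smul_apply, Module.End.one_apply, Pi.add_apply,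
      Pi.smul_apply, smul_eq_mul, gb_Lg_apply]
  have htau : ((tau : G n)⁻¹ * (tau : G n)⁻¹) = 1 := by
    unfold tau
    rw [Equiv.swap_inv, Equiv.swap_mul_self]
  have h1 : nsq ((((2 / 3 : ℂ) • (1 : Module.End ℂ (G n → ℂ)) + (y / 3) • Lg tau) : Module.End ℂ (G n → ℂ)) f) =
      ∑ σ : G n, ‖(2 / 3 : ℂ) * f σ + (y / 3) * f (tau⁻¹ * σ)‖ ^ 2 := by
    unfold nsq
    exact Finset.sum_congr rfl (fun σ _ => by rw [hval])
  have h2 : ∑ σ : G n, ‖(2 / 3 : ℂ) * f σ + (y / 3) * f (tau⁻¹ * σ)‖ ^ 2 =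
      ∑ σ : G n, ‖(2 / 3 : ℂ) * f (tau⁻¹ * σ) + (y / 3) * f σ‖ ^ 2 := by
    rw [← Equiv.sum_comp (Equiv.mulLeft (tau : G n)⁻¹)
      (fun σ => ‖(2 / 3 : ℂ) * f σ + (y / 3) * f (tau⁻¹ * σ)‖ ^ 2)]
    refine Finset.sum_congr rfl (fun σ _ => ?_)
    simp only [Equiv.coe_mulLeft]
    rw [← mul_assoc, htau, one_mul]
  have h3 : ∑ σ : G n, ‖f (tau⁻¹ * σ)‖ ^ 2 = nsq f :=
    Equiv.sum_comp (Equiv.mulLeft (tau : G n)⁻¹) (fun x => ‖f x‖ ^ 2)
  have h4 : ∑ σ : G n, (‖(2 / 3 : ℂ) * f σ + (y / 3) * f (tau⁻¹ * σ)‖ ^ 2 +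
      ‖(2 / 3 : ℂ) * f (tau⁻¹ * σ) + (y / 3) * f σ‖ ^ 2) ≤
      ∑ σ : G n, (‖2 + y‖ / 3) ^ 2 * (‖f σ‖ ^ 2 + ‖f (tau⁻¹ * σ)‖ ^ 2) :=
    Finset.sum_le_sum (fun σ _ => gb_pt y _ _ hy hre)
  rw [Finset.sum_add_distrib, ← h2, ← Finset.mul_sum, Finset.sum_add_distrib, h3] at h4
  rw [h1]
  have h5 : ∑ σ : G n, ‖f σ‖ ^ 2 = nsq f := rfl
  rw [h5] at h4
  linarith

end Pool.Agent.Lib.MP_cad76e_pr
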