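import Pool.Agent.Lib.MP_cad76e_pr.C1
import Pool.Agent.Lib.MP_cad76e_pr.C2
import Pool.Agent.Lib.MP_cad76e_pr.D1
import Pool.Agent.Lib.MP_cad76e_pr.GB

/-! Module C3: Poincare inequality for adjacent transpositions on `UA A`. -/

set_option autoImplicit false

namespace Pool.Agent.Lib.MP_cad76e_pr

open Finset

namespace C3aux

/-- the `ℓ²` norm -/
noncomputable def nrm2 {ι : Type*} [Fintype ι] (f : ι → ℂ) : ℝ :=
  ‖(WithLp.toLp 2 f : EuclideanSpace ℂ ι)‖

theorem nrm2_sq {ι : Type*} [Fintype ι] (f : ι → ℂ) : nrm2 f ^ 2 = nsq f := by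
  unfold nrm2 nsq
  rw [EuclideanSpace.norm_sq_eq]

theorem nrm2_nonneg {ι : Type*} [Fintype ι] (f : ι → ℂ) : 0 ≤ nrm2 f := norm_nonneg _

theorem nrm2_add {ι : Type*} [Fintype ι] (f g : ι → ℂ) : nrm2 (f + g) ≤ nrm2 f + nrm2 g := by
  unfold nrm2
  rw [WithLp.toLp_add]
  exact norm_add_le _ _

theorem nsq_nonneg' {ι : Type*} [Fintype ι] (f : ι → ℂ) : 0 ≤ nsq f := by
  unfold nsq
  positivity

theorem nrm2_translate {N : ℕ} (t : G N) (f : G N → ℂ) :
    nrm2 (fun σ => f (t * σ)) = nrm2 f := by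
  have h : nrm2 (fun σ => f (t * σ)) ^ 2 = nrm2 f ^ 2 := by
    rw [nrm2_sq, nrm2_sq]
    unfold nsq
    exact Equiv.sum_comp (Equiv.mulLeft t) (fun σ => ‖f σ‖ ^ 2)
  exact (sq_eq_sq₀ (nrm2_nonneg _) (nrm2_nonneg _)).mp h

/-- `‖f - f(s ·)‖` -/
noncomputable def dd {N : ℕ} (f : G N → ℂ) (s : G N) : ℝ := nrm2 (fun σ => f σ - f (s * σ))

theorem dd_nonneg {N : ℕ} (f : G N → ℂ) (s : G N) : 0 ≤ dd f s := nrm2_nonneg _

theorem dd_one {N : ℕ} (f : G N → ℂ) : dd f 1 = 0 := by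
  have : dd f 1 ^ 2 = 0 := by
    unfold dd
    rw [nrm2_sq]
    simp [nsq]
  exact pow_eq_zero_iff (two_ne_zero) |>.mp this

theorem dd_mul {N : ℕ} (f : G N → ℂ) (s t : G N) : dd f (s * t) ≤ dd f t + dd f s := by
  have h : (fun σ => f σ - f (s * t * σ)) =
      (fun σ => f σ - f (t * σ)) + (fun σ => (fun ρ => f ρ - f (s * ρ)) (t * σ)) := by
    funext σ
    simp only [Pi.add_apply, mul_assoc]
    ring
  unfold dd
  rw [h]
  refine (nrm2_add _ _).trans ?_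
  rw [nrm2_translate t (fun ρ => f ρ - f (s * ρ))]

theorem dd_conj {N : ℕ} (f : G N → ℂ) (s t : G N) : dd f (t * s * t) ≤ dd f s + 2 * dd f t := by
  have h1 := dd_mul f (t * s) t
  have h2 := dd_mul f t s
  linarith

/-- the adjacent differences -/
noncomputable def ed {N : ℕ} (f : G N → ℂ) (j : ℕ) : ℝ :=
  if h : j + 1 < N then dd f (Equiv.swap ⟨j, by omega⟩ ⟨j + 1, h⟩) else 0

theorem ed_nonneg {N : ℕ} (f : G N → ℂ) (j : ℕ) : 0 ≤ ed f j := by
  unfold ed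
  split_ifs
  · exact dd_nonneg _ _
  · exact le_refl _

theorem dd_swap_le {N : ℕ} (f : G N → ℂ) (p m : ℕ) (h : p + m < N) :
    dd f (Equiv.swap ⟨p, by omega⟩ ⟨p + m, h⟩) ≤ 2 * ∑ j ∈ Ico p (p + m), ed f j := by
  induction m with
  | zero =>
    have : (Equiv.swap (⟨p, by omega⟩ : Fin N) ⟨p + 0, h⟩) = 1 := by
      rw [Equiv.Perm.one_def, ← Equiv.swap_self (⟨p, by omega⟩ : Fin N)]
      rfl
    rw [this, dd_one]
    simp
  | succ m ih =>
    have hs : ∑ j ∈ Ico p (p + (m + 1)), ed f j = ∑ j ∈ Ico p (p + m), ed f j + ed f (p + m) := by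
      rw [← add_assoc, sum_Ico_succ_top (by omega)]
    rw [hs]
    have he : ed f (p + m) = dd f (Equiv.swap ⟨p + m, by omega⟩ ⟨p + m + 1, h⟩) := by
      unfold ed
      rw [dif_pos (show p + m + 1 < N from h)]
    rcases Nat.eq_zero_or_pos m with rfl | hm
    · have h1 : dd f (Equiv.swap ⟨p, by omega⟩ ⟨p + (0 + 1), h⟩) = ed f (p + 0) := by
        rw [he]
        rfl
      rw [h1]
      have h2 := ed_nonneg f (p + 0)
      simp only [add_zero, Ico_self, sum_empty, zero_add] at h2 ⊢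
      linarith
    · have hconj : (Equiv.swap (⟨p, by omega⟩ : Fin N) ⟨p + (m + 1), h⟩) =
          Equiv.swap ⟨p + m, by omega⟩ ⟨p + m + 1, h⟩ * Equiv.swap ⟨p, by omega⟩ ⟨p + m, by omega⟩ *
            Equiv.swap ⟨p + m, by omega⟩ ⟨p + m + 1, h⟩ := by
        rw [Equiv.swap_mul_swap_mul_swap (x := (⟨p, by omega⟩ : Fin N)), Equiv.swap_comm]
        · rfl
        · intro hc
          rw [Fin.mk.injEq] at hc
          omega
        · intro hc
          rw [Fin.mk.injEq] at hc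
          omega
      rw [hconj]
      refine (dd_conj f _ _).trans ?_
      rw [← he]
      have := ih (by omega)
      linarith

theorem nsq_swap_le {N : ℕ} (f : G N → ℂ) (p q : Fin N) (hpq : p < q) :
    nsq (fun σ => f σ - f (Equiv.swap p q * σ)) ≤
      4 * ((N : ℝ) - 1) * ∑ j ∈ range N, if (p : ℕ) ≤ j ∧ j < (q : ℕ) then ed f j ^ 2 else 0 := by
  obtain ⟨p, hp⟩ := p
  obtain ⟨q, hq⟩ := q
  have hpq' : p < q := hpq
  obtain ⟨m, rfl⟩ := Nat.exists_eq_add_of_lt hpq'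
  have h1 := dd_swap_le f p (m + 1) (by omega)
  have h0 := dd_nonneg f (Equiv.swap (⟨p, hp⟩ : Fin N) ⟨p + (m + 1), by omega⟩)
  have h2 : nsq (fun σ => f σ - f (Equiv.swap (⟨p, hp⟩ : Fin N) ⟨p + m + 1, hq⟩ * σ)) =
      dd f (Equiv.swap (⟨p, hp⟩ : Fin N) ⟨p + (m + 1), by omega⟩) ^ 2 := by
    unfold dd
    rw [nrm2_sq]
    rfl
  rw [h2]
  have h3 : ∑ j ∈ range N, (if ((⟨p, hp⟩ : Fin N) : ℕ) ≤ j ∧ j < ((⟨p + m + 1, hq⟩ : Fin N) : ℕ)
      then ed f j ^ 2 else 0) = ∑ j ∈ Ico p (p + (m + 1)), ed f j ^ 2 := by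
    rw [← sum_filter]
    apply sum_congr _ (fun _ _ => rfl)
    ext j
    simp only [mem_filter, mem_range, mem_Ico]
    omega
  rw [h3]
  have h4 := sq_sum_le_card_mul_sum_sq (s := Ico p (p + (m + 1))) (f := ed f)
  rw [Nat.card_Ico] at h4
  have h5 : (0 : ℝ) ≤ ∑ j ∈ Ico p (p + (m + 1)), ed f j ^ 2 := sum_nonneg (fun j _ => sq_nonneg _)
  have h6 : ((p + (m + 1) - p : ℕ) : ℝ) ≤ (N : ℝ) - 1 := by
    have : p + (m + 1) - p + 1 ≤ N := by omega
    have : ((p + (m + 1) - p : ℕ) : ℝ) + 1 ≤ N := by exact_mod_cast this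
    linarith
  have h7 : dd f (Equiv.swap (⟨p, hp⟩ : Fin N) ⟨p + (m + 1), by omega⟩) ^ 2 ≤
      (2 * ∑ j ∈ Ico p (p + (m + 1)), ed f j) ^ 2 := pow_le_pow_left₀ h0 h1 2
  have h8 := mul_le_mul_of_nonneg_right h6 h5
  nlinarith [h7, h8, h4]

theorem pair_count {N : ℕ} (j : ℕ) (hj : j < N) :
    ∑ p : Fin N, ∑ q : Fin N, (if (p : ℕ) ≤ j ∧ j < (q : ℕ) then (1 : ℝ) else 0) ≤
      (N : ℝ) ^ 2 / 4 := by
  have h1 : ∀ p q : Fin N, (if (p : ℕ) ≤ j ∧ j < (q : ℕ) then (1 : ℝ) else 0) =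
      (if (p : ℕ) ≤ j then (1 : ℝ) else 0) * (if j < (q : ℕ) then (1 : ℝ) else 0) := by
    intro p q
    by_cases hp : (p : ℕ) ≤ j <;> by_cases hq : j < (q : ℕ) <;> simp [hp, hq]
  simp only [h1]
  simp only [← mul_sum, ← sum_mul]
  rw [Fin.sum_univ_eq_sum_range (fun p => if p ≤ j then (1 : ℝ) else 0) N,
    Fin.sum_univ_eq_sum_range (fun q => if j < q then (1 : ℝ) else 0) N]
  rw [← sum_filter, ← sum_filter, sum_const, sum_const, nsmul_eq_mul, nsmul_eq_mul, mul_one,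
    mul_one]
  have h2 : filter (fun p => p ≤ j) (range N) = range (j + 1) := by
    ext x
    simp only [mem_filter, mem_range]
    omega
  have h3 : filter (fun q => j < q) (range N) = Ico (j + 1) N := by
    ext x
    simp only [mem_filter, mem_range, mem_Ico]
    omega
  rw [h2, h3, card_range, Nat.card_Ico]
  have h4 : ((N - (j + 1) : ℕ) : ℝ) = (N : ℝ) - ((j + 1 : ℕ) : ℝ) := by
    rw [Nat.cast_sub (by omega)]
  rw [h4]
  nlinarith [sq_nonneg ((N : ℝ) - 2 * ((j + 1 : ℕ) : ℝ))]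

theorem sum_pairs_le {N : ℕ} (f : G N → ℂ) :
    ∑ p : Fin N, ∑ q : Fin N, (if p < q then nsq (fun σ => f σ - f (Equiv.swap p q * σ)) else 0) ≤
      ((N : ℝ) - 1) * (N : ℝ) ^ 2 * ∑ j ∈ range N, ed f j ^ 2 := by
  rcases Nat.eq_zero_or_pos N with rfl | hN
  · simp
  have hN1 : (0 : ℝ) ≤ (N : ℝ) - 1 := by
    have : (1 : ℝ) ≤ N := by exact_mod_cast hN
    linarith
  have h1 : ∑ p : Fin N, ∑ q : Fin N,
      (if p < q then nsq (fun σ => f σ - f (Equiv.swap p q * σ)) else 0) ≤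
      ∑ p : Fin N, ∑ q : Fin N, 4 * ((N : ℝ) - 1) *
        ∑ j ∈ range N, (if (p : ℕ) ≤ j ∧ j < (q : ℕ) then (1 : ℝ) else 0) * ed f j ^ 2 := by
    apply sum_le_sum
    intro p _
    apply sum_le_sum
    intro q _
    have h2 : ∀ j, (if (p : ℕ) ≤ j ∧ j < (q : ℕ) then (1 : ℝ) else 0) * ed f j ^ 2 =
        if (p : ℕ) ≤ j ∧ j < (q : ℕ) then ed f j ^ 2 else 0 := by
      intro j
      split_ifs <;> simp
    simp only [h2]
    split_ifs with hpq
    · exact nsq_swap_le f p q hpq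
    · apply mul_nonneg (by linarith)
      apply sum_nonneg
      intro j _
      split_ifs
      · positivity
      · exact le_refl _
  refine h1.trans ?_
  have h3 : ∑ p : Fin N, ∑ q : Fin N, 4 * ((N : ℝ) - 1) *
        ∑ j ∈ range N, (if (p : ℕ) ≤ j ∧ j < (q : ℕ) then (1 : ℝ) else 0) * ed f j ^ 2 =
      4 * ((N : ℝ) - 1) * ∑ j ∈ range N, (∑ p : Fin N, ∑ q : Fin N,
        (if (p : ℕ) ≤ j ∧ j < (q : ℕ) then (1 : ℝ) else 0)) * ed f j ^ 2 := by
    simp only [← mul_sum]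
    congr 1
    simp only [sum_mul]
    refine Eq.trans (sum_congr rfl (fun p _ => sum_comm)) sum_comm
  rw [h3]
  have h4 : ∑ j ∈ range N, (∑ p : Fin N, ∑ q : Fin N,
        (if (p : ℕ) ≤ j ∧ j < (q : ℕ) then (1 : ℝ) else 0)) * ed f j ^ 2 ≤
      ∑ j ∈ range N, (N : ℝ) ^ 2 / 4 * ed f j ^ 2 := by
    apply sum_le_sum
    intro j hj
    exact mul_le_mul_of_nonneg_right (pair_count j (mem_range.mp hj)) (sq_nonneg _)
  rw [← mul_sum] at h4
  have h5 := mul_le_mul_of_nonneg_left h4 (show (0 : ℝ) ≤ 4 * ((N : ℝ) - 1) by linarith)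
  linarith

theorem sum_ed_le {N : ℕ} (f : G N → ℂ) :
    ∑ j ∈ range N, ed f j ^ 2 ≤ ∑ p : Fin N, ∑ q : Fin N, if (p : ℕ) + 1 = (q : ℕ) then
        nsq (fun σ => f σ - f (Equiv.swap p q * σ)) else 0 := by
  rw [← Fin.sum_univ_eq_sum_range (fun j => ed f j ^ 2) N]
  apply sum_le_sum
  rintro ⟨p, hp⟩ _
  have hnn : ∀ q : Fin N, 0 ≤ (if ((⟨p, hp⟩ : Fin N) : ℕ) + 1 = (q : ℕ) then
        nsq (fun σ => f σ - f (Equiv.swap ⟨p, hp⟩ q * σ)) else 0) := by
    intro q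
    split_ifs
    · exact nsq_nonneg' _
    · exact le_refl _
  by_cases h : p + 1 < N
  · have h1 := single_le_sum (f := fun q : Fin N => (if ((⟨p, hp⟩ : Fin N) : ℕ) + 1 = (q : ℕ) then
        nsq (fun σ => f σ - f (Equiv.swap ⟨p, hp⟩ q * σ)) else 0)) (fun q _ => hnn q)
        (mem_univ (⟨p + 1, h⟩ : Fin N))
    refine le_trans (le_of_eq ?_) h1
    simp only [if_true]
    unfold ed
    rw [dif_pos h]
    unfold dd
    rw [nrm2_sq]
  · have : ed f p = 0 := by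
      unfold ed
      rw [dif_neg h]
    simp only [this]
    rw [zero_pow two_ne_zero]
    exact sum_nonneg (fun q _ => hnn q)

end C3aux

open C3aux

theorem adj_poincare (N : ℕ) (A : Finset (Fin N)) (f : G N → ℂ) (hf : f ∈ UA A) :
    ((#A : ℝ) / (4 * (N : ℝ) ^ 2)) * nsq f ≤
      ∑ p : Fin N, ∑ q : Fin N, if (p : ℕ) + 1 = (q : ℕ) then
        nsq (fun σ => f σ - f (Equiv.swap p q * σ)) else 0 := by
  refine le_trans ?_ (sum_ed_le f)
  have hE : 0 ≤ ∑ j ∈ range N, ed f j ^ 2 := sum_nonneg (fun _ _ => sq_nonneg _)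
  have hn := nsq_nonneg' f
  rcases Nat.lt_or_ge N 2 with hN | hN
  · -- trivial cases
    rcases A.eq_empty_or_nonempty with rfl | ⟨a, ha⟩
    · simpa using hE
    · have hN1 : N = 1 := by
        have := a.2
        omega
      subst hN1
      have hf0 : ∀ σ, f σ = 0 := by
        intro σ
        have h := hf.2 a ha σ
        have hc : ((A.erase a)ᶜ : Finset (Fin 1)) = {a} := by
          ext x
          have hx : x = a := Subsingleton.elim _ _
          subst hx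
          simp
        rw [hc, sum_singleton, Equiv.swap_self] at h
        exact h
      have : nsq f = 0 := by
        unfold nsq
        apply sum_eq_zero
        intro σ _
        rw [hf0 σ]
        simp
      rw [this, mul_zero]
      exact hE
  · have hgap := omega_gap N #A f (fun B hB g hg => UA_perp A B hB f g hf hg)
    have h1 := hgap.trans (sum_pairs_le f)
    have hNr : (2 : ℝ) ≤ N := by exact_mod_cast hN
    have hN1 : (0 : ℝ) < (N : ℝ) - 1 := by linarith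
    have hk : (#A : ℝ) ≤ N := by
      have := card_le_univ A
      rw [Fintype.card_fin] at this
      exact_mod_cast this
    have hk0 : (0 : ℝ) ≤ #A := Nat.cast_nonneg _
    have hmin : (#A : ℝ) / 2 ≤ min (#A : ℝ) ((N : ℝ) / 2) := le_min (by linarith) (by linarith)
    have h2 : ((N : ℝ) - 1) * (min (#A : ℝ) ((N : ℝ) / 2) * nsq f) ≤
        ((N : ℝ) - 1) * ((N : ℝ) ^ 2 * ∑ j ∈ range N, ed f j ^ 2) := by
      have h3 : ((N : ℝ) - 1) * (min (#A : ℝ) ((N : ℝ) / 2) * nsq f) =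
        ((N : ℝ) - 1) * min (#A : ℝ) ((N : ℝ) / 2) * nsq f := by ring
      have h4 : ((N : ℝ) - 1) * ((N : ℝ) ^ 2 * ∑ j ∈ range N, ed f j ^ 2) =
        ((N : ℝ) - 1) * (N : ℝ) ^ 2 * ∑ j ∈ range N, ed f j ^ 2 := by ring
      rw [h3, h4]
      exact h1
    have h5 := le_of_mul_le_mul_left h2 hN1
    have h6 : (#A : ℝ) / 2 * nsq f ≤ (N : ℝ) ^ 2 * ∑ j ∈ range N, ed f j ^ 2 :=
      (mul_le_mul_of_nonneg_right hmin hn).trans h5
    have hN2 : (0 : ℝ) < (N : ℝ) ^ 2 := by positivity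
    rw [div_mul_eq_mul_div, div_le_iff₀ (by positivity)]
    nlinarith [h6, mul_nonneg hN2.le hE]

theorem piE_poincare {n : ℕ} [NeZero n] (hn : 2 ≤ n) (A : Finset (Fin n)) (f : G n → ℂ)
    (hf : f ∈ UA A) :
    ((#A : ℝ) / (16 * (n : ℝ) ^ 2)) * nsq f ≤ ∑ j : Fin n, nsq (piE j f) := by
  have h1 := adj_poincare n A f hf
  have h2 : ∑ p : Fin n, ∑ q : Fin n, (if (p : ℕ) + 1 = (q : ℕ) then
        nsq (fun σ => f σ - f (Equiv.swap p q * σ)) else 0) ≤ 4 * ∑ j : Fin n, nsq (piE j f) := by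
    rw [mul_sum]
    apply sum_le_sum
    intro p _
    have h3 : ∀ q : Fin n, (if (p : ℕ) + 1 = (q : ℕ) then
        nsq (fun σ => f σ - f (Equiv.swap p q * σ)) else 0) ≤
        if q = p + 1 then 4 * nsq (piE p f) else 0 := by
      intro q
      split_ifs with ha hb hb
      · subst hb
        rw [(nsq_piE p f).1]
        unfold nsq sj
        have : ∀ σ : G n, ‖f σ - f (Equiv.swap p (p + 1) * σ)‖ ^ 2 =
          ‖f (Equiv.swap p (p + 1) * σ) - f σ‖ ^ 2 := by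
          intro σ
          rw [norm_sub_rev]
        simp only [this]
        apply le_of_eq
        ring
      · exfalso
        apply hb
        apply Fin.ext
        have hp1 : (p : ℕ) + 1 < n := by
          rw [ha]
          exact q.2
        rw [← ha, Fin.val_add_one_of_lt' hp1]
      · exact mul_nonneg (by norm_num) (nsq_nonneg' _)
      · exact le_refl _
    refine (sum_le_sum (fun q _ => h3 q)).trans ?_
    rw [sum_ite_eq' univ (p + 1)]
    simp
  have h4 : ((#A : ℝ) / (16 * (n : ℝ) ^ 2)) * nsq f = (1 / 4) * (((#A : ℝ) / (4 * (n : ℝ) ^ 2)) * nsq f) := by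
    have hn0 : (n : ℝ) ≠ 0 := by
      have : (n : ℕ) ≠ 0 := by omega
      exact_mod_cast this
    field_simp
    ring
  rw [h4]
  linarith [h1.trans h2]

theorem crude_contr {n : ℕ} [NeZero n] (hn : 3 ≤ n) (b : ℂ) (hb : ‖b - 2 / 3‖ ≤ 1 / 10)
    (A : Finset (Fin n)) (f : G n → ℂ) (hf : f ∈ UA A) :
    (1 + (#A : ℝ) / (64 * (n : ℝ) ^ 2)) * nsq (SE b f) ≤ nsq f := by
  have h1 := diss_crude hn b hb f
  have hmem : SE b f ∈ UA A := SE_mem b (UA A) (fun g f hf => Lg_UA A g f hf) f hf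
  have h2 := piE_poincare (by omega) A (SE b f) hmem
  have h4 : ((#A : ℝ) / (64 * (n : ℝ) ^ 2)) * nsq (SE b f) =
      (1 / 4) * (((#A : ℝ) / (16 * (n : ℝ) ^ 2)) * nsq (SE b f)) := by
    have hn0 : (n : ℝ) ≠ 0 := by
      have : (n : ℕ) ≠ 0 := by omega
      exact_mod_cast this
    field_simp
    ring
  rw [add_mul, one_mul, h4]
  linarith

end Pool.Agent.Lib.MP_cad76e_pr
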