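import Pool.Agent.Lib.MP_cad76e_pr.Defs

/-! Module CSW: Cauchy-Schwarz in a window. -/

set_option autoImplicit false

namespace Pool.Agent.Lib.MP_cad76e_pr

open Finset

private theorem csw_bE_nonneg {n : ℕ} [NeZero n] (m : ℕ) :
    ∀ (E : ℕ) (g : G n), 0 ≤ bE m E g := by
  induction m with
  | zero =>
    intro E g
    unfold bE
    split_ifs <;> norm_num
  | succ m ih =>
    intro E g
    have h1 := ih E ((finRotate n)⁻¹ * g)
    have h2 := ih (E - 1) ((finRotate n * tau)⁻¹ * g)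
    unfold bE
    split_ifs
    · linarith
    · linarith

private theorem csw_bE_zero {n : ℕ} [NeZero n] (m : ℕ) :
    ∀ (E : ℕ), m < E → ∀ (g : G n), bE m E g = 0 := by
  induction m with
  | zero =>
    intro E hE g
    unfold bE
    rw [if_neg]
    omega
  | succ m ih =>
    intro E hE g
    have h1 := ih E (by omega) ((finRotate n)⁻¹ * g)
    have h2 := ih (E - 1) (by omega) ((finRotate n * tau)⁻¹ * g)
    unfold bE
    rw [h1, h2, if_neg (by omega)]
    ring

/-- total mass of `bE m E` -/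
private noncomputable def csw_p (n : ℕ) [NeZero n] (m E : ℕ) : ℝ := ∑ g : G n, bE m E g

private theorem csw_sum_shift {n : ℕ} (h : G n) (f : G n → ℝ) : ∑ g, f (h * g) = ∑ g, f g :=
  Fintype.sum_equiv (Equiv.mulLeft h) _ _ fun _ => rfl

private theorem csw_p_succ (n : ℕ) [NeZero n] (m E : ℕ) :
    csw_p n (m + 1) E = (2 / 3) * csw_p n m E +
      if E = 0 then 0 else (1 / 3) * csw_p n m (E - 1) := by
  unfold csw_p
  have h0 : ∀ g : G n, bE (m + 1) E g = (2 / 3) * bE m E ((finRotate n)⁻¹ * g) +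
      (if E = 0 then 0 else (1 / 3) * bE m (E - 1) ((finRotate n * tau)⁻¹ * g)) := fun g => rfl
  simp only [h0]
  rw [Finset.sum_add_distrib, ← Finset.mul_sum, csw_sum_shift _ (bE m E)]
  congr 1
  split_ifs with hE
  · simp
  · rw [← Finset.mul_sum, csw_sum_shift _ (bE m (E - 1))]

private theorem csw_p_zero (n : ℕ) [NeZero n] (m E : ℕ) (hE : m < E) : csw_p n m E = 0 := by
  unfold csw_p
  exact Finset.sum_eq_zero fun g _ => csw_bE_zero m E hE g

private theorem csw_p_nonneg (n : ℕ) [NeZero n] (m E : ℕ) : 0 ≤ csw_p n m E :=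
  Finset.sum_nonneg fun g _ => csw_bE_nonneg m E g

private theorem csw_phi (n : ℕ) [NeZero n] (m : ℕ) (φ : ℕ → ℝ) :
    ∑ E ∈ range (m + 2), φ E * csw_p n (m + 1) E =
      ∑ E ∈ range (m + 1), ((2 / 3) * φ E + (1 / 3) * φ (E + 1)) * csw_p n m E := by
  have h1 : ∑ E ∈ range (m + 2), φ E * csw_p n (m + 1) E =
      ∑ E ∈ range (m + 2), (2 / 3) * φ E * csw_p n m E +
      ∑ E ∈ range (m + 2), (if E = 0 then 0 else (1 / 3) * φ E * csw_p n m (E - 1)) := by
    rw [← Finset.sum_add_distrib]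
    refine Finset.sum_congr rfl fun E _ => ?_
    rw [csw_p_succ]
    split_ifs <;> ring
  rw [h1, Finset.sum_range_succ (fun E => (2 / 3) * φ E * csw_p n m E) (m + 1),
    csw_p_zero n m (m + 1) (by omega), Finset.sum_range_succ' (fun E =>
      if E = 0 then 0 else (1 / 3) * φ E * csw_p n m (E - 1)) (m + 1)]
  simp only [if_true, add_zero, mul_zero, Nat.add_one_ne_zero, if_false, Nat.add_sub_cancel]
  rw [← Finset.sum_add_distrib]
  refine Finset.sum_congr rfl fun E _ => ?_
  ring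

private theorem csw_total (n : ℕ) [NeZero n] (m : ℕ) :
    ∑ E ∈ range (m + 1), csw_p n m E = 1 := by
  induction m with
  | zero =>
    simp only [zero_add, Finset.sum_range_one]
    unfold csw_p bE
    simp
  | succ m ih =>
    have h := csw_phi n m (fun _ => 1)
    simp only [one_mul] at h
    refine h.trans (Eq.trans (Finset.sum_congr rfl fun E _ => ?_) ih)
    ring

private theorem csw_var (n : ℕ) [NeZero n] (m : ℕ) :
    ∑ E ∈ range (m + 1), ((E : ℝ) - (m : ℝ) / 3) ^ 2 * csw_p n m E = (2 / 9 : ℝ) * (m : ℝ) := by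
  induction m with
  | zero => simp
  | succ m ih =>
    have h := csw_phi n m (fun E => ((E : ℝ) - ((m + 1 : ℕ) : ℝ) / 3) ^ 2)
    have h2 := csw_total n m
    refine h.trans ?_
    have h3 : ∑ E ∈ range (m + 1), ((2 / 3) * ((E : ℝ) - ((m + 1 : ℕ) : ℝ) / 3) ^ 2 +
        (1 / 3) * (((E + 1 : ℕ) : ℝ) - ((m + 1 : ℕ) : ℝ) / 3) ^ 2) * csw_p n m E =
        ∑ E ∈ range (m + 1), (((E : ℝ) - m / 3) ^ 2 * csw_p n m E + 2 / 9 * csw_p n m E) := by
      refine Finset.sum_congr rfl fun E _ => ?_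
      push_cast
      ring
    rw [h3, Finset.sum_add_distrib, ih, ← Finset.mul_sum, h2]
    push_cast
    ring

private theorem csw_perp_le {n : ℕ} (x : G n → ℝ) (hx : ∀ g, 0 ≤ x g) :
    ∑ g, |perp x g| ≤ 3 * ∑ g, x g := by
  have hcard : (Fintype.card (G n) : ℝ) = (n.factorial : ℝ) := by
    rw [Fintype.card_perm, Fintype.card_fin]
  have hpos : (0 : ℝ) < (n.factorial : ℝ) := by exact_mod_cast n.factorial_pos
  have hs : ∀ g : G n, |((Equiv.Perm.sign g : ℤ) : ℝ)| = 1 := by
    intro g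
    rcases Int.units_eq_one_or (Equiv.Perm.sign g) with h | h <;> rw [h] <;> simp
  have h1 : |∑ h : G n, ((Equiv.Perm.sign h : ℤ) : ℝ) * x h| ≤ ∑ g, x g := by
    refine (Finset.abs_sum_le_sum_abs _ _).trans (Finset.sum_le_sum fun g _ => ?_)
    rw [abs_mul, hs, one_mul, abs_of_nonneg (hx g)]
  have h0 : 0 ≤ ∑ g, x g := Finset.sum_nonneg fun g _ => hx g
  have h2 : ∀ g, |perp x g| ≤ x g + (∑ h, x h) / (n.factorial : ℝ) +
      (∑ h, x h) / (n.factorial : ℝ) := by
    intro g
    unfold perp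
    have e1 : |((Equiv.Perm.sign g : ℤ) : ℝ) * (∑ h : G n, ((Equiv.Perm.sign h : ℤ) : ℝ) * x h) /
        (n.factorial : ℝ)| ≤ (∑ h, x h) / (n.factorial : ℝ) := by
      rw [abs_div, abs_mul, hs, one_mul, abs_of_pos hpos]
      exact div_le_div_of_nonneg_right h1 hpos.le
    have e2 : |x g| = x g := abs_of_nonneg (hx g)
    have e3 : |(∑ h, x h) / (n.factorial : ℝ)| = (∑ h, x h) / (n.factorial : ℝ) :=
      abs_of_nonneg (div_nonneg h0 hpos.le)
    calc _ ≤ |x g - (∑ h, x h) / (n.factorial : ℝ)| + _ := abs_sub _ _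
      _ ≤ _ := add_le_add ((abs_sub _ _).trans (by rw [e2, e3])) e1
  refine (Finset.sum_le_sum fun g _ => h2 g).trans ?_
  rw [Finset.sum_add_distrib, Finset.sum_add_distrib, Finset.sum_const, Finset.card_univ,
    nsmul_eq_mul, hcard, mul_div_cancel₀ _ hpos.ne']
  apply le_of_eq
  ring

theorem cs_window {n : ℕ} [NeZero n] (m : ℕ) (w : ℝ) (hw : 0 < w) :
    ∑ E ∈ range (m + 1), ∑ g : G n, |perp (bE m E) g| ≤
      (2 / 3) * m / w ^ 2 + Real.sqrt ((2 * w + 1) * (n.factorial : ℝ) *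
        ∑ E ∈ range (m + 1), ∑ g : G n, (perp (bE m E) g) ^ 2) := by
  classical
  have hcard : (Fintype.card (G n) : ℝ) = (n.factorial : ℝ) := by
    rw [Fintype.card_perm, Fintype.card_fin]
  have hw2 : 0 < w ^ 2 := by positivity
  set W := (range (m + 1)).filter fun E : ℕ => |(E : ℝ) - m / 3| ≤ w with hW
  rw [← Finset.sum_filter_not_add_sum_filter (range (m + 1)) fun E : ℕ => |(E : ℝ) - m / 3| ≤ w]
  refine add_le_add ?_ ?_
  · -- outside the window
    have h1 : ∀ E ∈ (range (m + 1)).filter fun E : ℕ => ¬ |(E : ℝ) - m / 3| ≤ w,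
        ∑ g : G n, |perp (bE m E) g| ≤ 3 / w ^ 2 * (((E : ℝ) - m / 3) ^ 2 * csw_p n m E) := by
      intro E hE
      have hE2 := (Finset.mem_filter.1 hE).2
      push Not at hE2
      have h3 : w ^ 2 ≤ ((E : ℝ) - m / 3) ^ 2 := by
        rw [← sq_abs ((E : ℝ) - m / 3)]
        exact pow_le_pow_left₀ hw.le hE2.le 2
      have h4 := csw_perp_le (bE m E : G n → ℝ) (csw_bE_nonneg m E)
      have h5 := csw_p_nonneg n m E
      have h6 : ∑ g : G n, bE m E g = csw_p n m E := rfl
      rw [h6] at h4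
      refine h4.trans ?_
      rw [div_mul_eq_mul_div, le_div_iff₀ hw2]
      nlinarith [mul_le_mul_of_nonneg_right h3 h5]
    refine (Finset.sum_le_sum h1).trans ?_
    rw [← Finset.mul_sum]
    have h2 : ∑ E ∈ (range (m + 1)).filter (fun E : ℕ => ¬ |(E : ℝ) - m / 3| ≤ w),
        ((E : ℝ) - m / 3) ^ 2 * csw_p n m E ≤
        ∑ E ∈ range (m + 1), ((E : ℝ) - m / 3) ^ 2 * csw_p n m E :=
      Finset.sum_le_sum_of_subset_of_nonneg (Finset.filter_subset _ _) fun E _ _ =>
        mul_nonneg (sq_nonneg _) (csw_p_nonneg n m E)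
    rw [csw_var] at h2
    calc 3 / w ^ 2 * _ ≤ 3 / w ^ 2 * (2 / 9 * m) := mul_le_mul_of_nonneg_left h2 (by positivity)
      _ = _ := by ring
  · -- inside the window
    have hWc : (#W : ℝ) ≤ 2 * w + 1 := by
      rcases W.eq_empty_or_nonempty with h0 | hne
      · rw [h0]
        simp
        linarith
      · obtain ⟨a, ha, hmin⟩ := W.exists_min_image id hne
        obtain ⟨b, hb, hmax⟩ := W.exists_max_image id hne
        have h1 : W ⊆ Finset.Icc a b := fun x hx => Finset.mem_Icc.2 ⟨hmin x hx, hmax x hx⟩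
        have h2 := Finset.card_le_card h1
        rw [Nat.card_Icc] at h2
        have hab : a ≤ b := hmin b hb
        have h3 := abs_le.1 (Finset.mem_filter.1 ha).2
        have h4 := abs_le.1 (Finset.mem_filter.1 hb).2
        have h5 : (#W : ℝ) ≤ (b : ℝ) - a + 1 := by
          have : #W + a ≤ b + 1 := by omega
          have : ((#W + a : ℕ) : ℝ) ≤ ((b + 1 : ℕ) : ℝ) := by exact_mod_cast this
          push_cast at this
          linarith
        linarith [h3.1, h4.2]
    apply Real.le_sqrt_of_sq_le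
    have h1 : (∑ E ∈ W, ∑ g : G n, |perp (bE m E) g|) =
        ∑ q ∈ W ×ˢ (Finset.univ : Finset (G n)), 1 * |perp (bE m q.1) q.2| := by
      rw [Finset.sum_product]
      simp
    have h2 := Finset.sum_mul_sq_le_sq_mul_sq (W ×ˢ (Finset.univ : Finset (G n)))
      (fun _ => (1 : ℝ)) (fun q => |perp (bE m q.1) q.2|)
    rw [h1]
    refine h2.trans ?_
    have h3 : ∑ q ∈ W ×ˢ (Finset.univ : Finset (G n)), (1 : ℝ) ^ 2 =
        (#W : ℝ) * (n.factorial : ℝ) := by
      rw [one_pow, Finset.sum_const, Finset.card_product, Finset.card_univ, nsmul_eq_mul, mul_one]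
      push_cast
      rw [hcard]
    have h4 : ∑ q ∈ W ×ˢ (Finset.univ : Finset (G n)), |perp (bE m q.1) q.2| ^ 2 ≤
        ∑ E ∈ range (m + 1), ∑ g : G n, (perp (bE m E) g) ^ 2 := by
      rw [Finset.sum_product]
      simp only [sq_abs]
      exact Finset.sum_le_sum_of_subset_of_nonneg (Finset.filter_subset _ _) fun E _ _ =>
        Finset.sum_nonneg fun g _ => sq_nonneg _
    rw [h3]
    have h5 : (0 : ℝ) ≤ (n.factorial : ℝ) := by positivity
    have h6 : (0 : ℝ) ≤ ∑ E ∈ range (m + 1), ∑ g : G n, (perp (bE m E) g) ^ 2 :=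
      Finset.sum_nonneg fun E _ => Finset.sum_nonneg fun g _ => sq_nonneg _
    exact mul_le_mul (mul_le_mul_of_nonneg_right hWc h5) h4
      (Finset.sum_nonneg fun q _ => sq_nonneg _) (by positivity)

end Pool.Agent.Lib.MP_cad76e_pr
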