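import Pool.Agent.Lib.MP_cad76e_pr.Defs

/-! Module D0: exact dissipation identities for the round operator `S`. -/

set_option autoImplicit false

namespace Pool.Agent.Lib.MP_cad76e_pr.D0

open Finset

/-! ### The norm -/

/-- the norm `√(nsq f)` -/
noncomputable def nrm {ι : Type*} [Fintype ι] (f : ι → ℂ) : ℝ := Real.sqrt (nsq f)

theorem nsq_nonneg {ι : Type*} [Fintype ι] (f : ι → ℂ) : 0 ≤ nsq f :=
  Finset.sum_nonneg fun _ _ => by positivity

theorem nrm_nonneg {ι : Type*} [Fintype ι] (f : ι → ℂ) : 0 ≤ nrm f := Real.sqrt_nonneg _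

theorem nrm_sq {ι : Type*} [Fintype ι] (f : ι → ℂ) : nrm f ^ 2 = nsq f :=
  Real.sq_sqrt (nsq_nonneg f)

theorem nrm_eq {ι : Type*} [Fintype ι] (f : ι → ℂ) : nrm f = ‖WithLp.toLp 2 f‖ := by
  rw [EuclideanSpace.norm_eq]
  rfl

theorem nrm_add_le {ι : Type*} [Fintype ι] (f g : ι → ℂ) : nrm (f + g) ≤ nrm f + nrm g := by
  simp only [nrm_eq]
  rw [WithLp.toLp_add]
  exact norm_add_le _ _

theorem nrm_smul {ι : Type*} [Fintype ι] (c : ℂ) (f : ι → ℂ) : nrm (c • f) = ‖c‖ * nrm f := by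
  simp only [nrm_eq]
  rw [WithLp.toLp_smul]
  exact norm_smul _ _

theorem nrm_sub_le {ι : Type*} [Fintype ι] (f g : ι → ℂ) : nrm (f - g) ≤ nrm f + nrm g := by
  simp only [nrm_eq]
  rw [WithLp.toLp_sub]
  exact norm_sub_le _ _

theorem nrm_le_of_nsq {ι κ : Type*} [Fintype ι] [Fintype κ] {f : ι → ℂ} {g : κ → ℂ}
    (h : nsq f ≤ nsq g) : nrm f ≤ nrm g := Real.sqrt_le_sqrt h

theorem nrm_zero {ι : Type*} [Fintype ι] : nrm (0 : ι → ℂ) = 0 := by
  simp [nrm, nsq]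

variable {n : ℕ}

/-! ### Translations -/

theorem Lg_apply (g : G n) (f : G n → ℂ) (σ : G n) : Lg g f σ = f (g⁻¹ * σ) := rfl

theorem nsq_Lg (g : G n) (f : G n → ℂ) : nsq (Lg g f) = nsq f := by
  unfold nsq
  exact Fintype.sum_equiv (Equiv.mulLeft g⁻¹) _ _ fun σ => rfl

theorem nrm_Lg (g : G n) (f : G n → ℂ) : nrm (Lg g f) = nrm f := by
  unfold nrm
  rw [nsq_Lg]

theorem Lg_mem_FA (A : Finset (Fin n)) (g : G n) {f : G n → ℂ} (hf : f ∈ FA A) :
    Lg g f ∈ FA A := by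
  intro σ σ' h
  rw [Lg_apply, Lg_apply]
  refine hf _ _ fun a ha => ?_
  rw [Equiv.Perm.mul_apply, Equiv.Perm.mul_apply, h a ha]

variable [NeZero n]

theorem sj_inv (j : Fin n) : (sj j)⁻¹ = sj j := Equiv.swap_inv _ _

theorem sj_mul_self (j : Fin n) : sj j * sj j = 1 := Equiv.swap_mul_self _ _

theorem piE_apply (j : Fin n) (f : G n → ℂ) (σ : G n) :
    piE j f σ = (1 / 2) * (f σ - f (sj j * σ)) := by
  have : piE j f σ = (1 / 2 : ℂ) * (f σ - Lg (sj j) f σ) := rfl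
  rw [this, Lg_apply, sj_inv]

theorem PE_apply (b : ℂ) (j : Fin n) (f : G n → ℂ) (σ : G n) :
    PE b j f σ = f σ - b * ((1 / 2) * (f σ - f (sj j * σ))) := by
  have : PE b j f σ = f σ - b * piE j f σ := rfl
  rw [this, piE_apply]

theorem PE_eq (b : ℂ) (j : Fin n) (f : G n → ℂ) : PE b j f = f - b • piE j f := rfl

theorem PE_eq' (b : ℂ) (j : Fin n) (f : G n → ℂ) :
    PE b j f = (1 - b / 2) • f + (b / 2) • Lg (sj j) f := by
  funext σ
  rw [PE_apply]
  simp only [Pi.add_apply, Pi.smul_apply, smul_eq_mul, Lg_apply, sj_inv]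
  ring

theorem sum_sj (j : Fin n) (F : G n → ℝ) : ∑ σ, F (sj j * σ) = ∑ σ, F σ :=
  Fintype.sum_equiv (Equiv.mulLeft (sj j)) _ _ fun σ => rfl

theorem sj_sj_mul (j : Fin n) (σ : G n) : sj j * (sj j * σ) = σ := by
  rw [← mul_assoc, sj_mul_self, one_mul]

/-- the exact dissipation of one factor -/
theorem nsq_PE (b : ℂ) (j : Fin n) (f : G n → ℂ) :
    nsq (PE b j f) = nsq f - (1 - ‖1 - b‖ ^ 2) * nsq (piE j f) := by
  have key : ∀ x y : ℂ, ‖x - b * (1 / 2 * (x - y))‖ ^ 2 + ‖y - b * (1 / 2 * (y - x))‖ ^ 2 =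
      ‖x‖ ^ 2 + ‖y‖ ^ 2 - (1 - ‖1 - b‖ ^ 2) * (‖(1 / 2) * (x - y)‖ ^ 2 + ‖(1 / 2) * (y - x)‖ ^ 2) := by
    intro x y
    simp only [Complex.sq_norm, Complex.normSq_apply, Complex.sub_re, Complex.sub_im,
      Complex.mul_re, Complex.mul_im, Complex.one_re, Complex.one_im, Complex.div_re,
      Complex.div_im, Complex.re_ofNat, Complex.im_ofNat]
    norm_num
    ring
  have h1 : ∑ σ, (‖PE b j f σ‖ ^ 2 + ‖PE b j f (sj j * σ)‖ ^ 2) =
      ∑ σ, (‖f σ‖ ^ 2 + ‖f (sj j * σ)‖ ^ 2 -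
        (1 - ‖1 - b‖ ^ 2) * (‖piE j f σ‖ ^ 2 + ‖piE j f (sj j * σ)‖ ^ 2)) := by
    refine Finset.sum_congr rfl fun σ _ => ?_
    rw [PE_apply, PE_apply, piE_apply, piE_apply, sj_sj_mul]
    exact key _ _
  rw [Finset.sum_add_distrib, sum_sj j fun σ => ‖PE b j f σ‖ ^ 2, Finset.sum_sub_distrib,
    ← Finset.mul_sum, Finset.sum_add_distrib, Finset.sum_add_distrib,
    sum_sj j fun σ => ‖f σ‖ ^ 2, sum_sj j fun σ => ‖piE j f σ‖ ^ 2] at h1
  unfold nsq
  linarith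

theorem nsq_PE_le (b : ℂ) (hb : ‖1 - b‖ ≤ 1) (j : Fin n) (f : G n → ℂ) :
    nsq (PE b j f) ≤ nsq f := by
  rw [nsq_PE]
  have h1 : 0 ≤ 1 - ‖1 - b‖ ^ 2 := by nlinarith [norm_nonneg (1 - b)]
  nlinarith [mul_nonneg h1 (nsq_nonneg (piE j f))]

theorem nrm_PE_le (b : ℂ) (hb : ‖1 - b‖ ≤ 1) (j : Fin n) (f : G n → ℂ) :
    nrm (PE b j f) ≤ nrm f := nrm_le_of_nsq (nsq_PE_le b hb j f)

theorem nsq_piE_le (j : Fin n) (f : G n → ℂ) : nsq (piE j f) ≤ nsq f := by
  have h := nsq_PE_le (1 : ℂ) (by simp) j f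
  have h2 := nsq_PE (1 : ℂ) j f
  simp only [sub_self, norm_zero] at h2
  have h3 := nsq_nonneg (PE (1 : ℂ) j f)
  nlinarith

theorem nrm_piE_le (j : Fin n) (f : G n → ℂ) : nrm (piE j f) ≤ nrm f :=
  nrm_le_of_nsq (nsq_piE_le j f)

theorem piE_piE (j : Fin n) (f : G n → ℂ) : piE j (piE j f) = piE j f := by
  funext σ
  rw [piE_apply, piE_apply, piE_apply, sj_sj_mul]
  ring

theorem piE_PE (b : ℂ) (j : Fin n) (f : G n → ℂ) : piE j (PE b j f) = (1 - b) • piE j f := by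
  rw [PE_eq, map_sub, map_smul, piE_piE, sub_smul, one_smul]

theorem piE_anti (j : Fin n) (f : G n → ℂ) (σ : G n) : piE j f (sj j * σ) = - piE j f σ := by
  rw [piE_apply, piE_apply, sj_sj_mul]
  ring

theorem piE_mem_FA (A : Finset (Fin n)) (j : Fin n) {f : G n → ℂ} (hf : f ∈ FA A) :
    piE j f ∈ FA A := by
  have : piE j f = (1 / 2 : ℂ) • (f - Lg (sj j) f) := rfl
  rw [this]
  exact (FA A).smul_mem _ ((FA A).sub_mem hf (Lg_mem_FA A _ hf))

theorem PE_mem_FA (A : Finset (Fin n)) (b : ℂ) (j : Fin n) {f : G n → ℂ} (hf : f ∈ FA A) :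
    PE b j f ∈ FA A := by
  rw [PE_eq]
  exact (FA A).sub_mem hf ((FA A).smul_mem _ (piE_mem_FA A j hf))

/-! ### Commutation -/

/-- the transpositions `s_i`, `s_j` commute when they do not meet -/
theorem sj_comm {i j : Fin n} (h1 : i ≠ j) (h2 : i + 1 ≠ j) (h3 : i ≠ j + 1)
    (h4 : i + 1 ≠ j + 1) (h5 : i ≠ i + 1) (h6 : j ≠ j + 1) : sj i * sj j = sj j * sj i := by
  have : [i, i + 1, j, j + 1].Nodup := by
    simp [h1, h2, h3, h5, h6]
  exact (Equiv.Perm.disjoint_swap_swap this).commute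

theorem piE_PE_comm {i j : Fin n} (b : ℂ) (h : sj i * sj j = sj j * sj i) (f : G n → ℂ) :
    piE j (PE b i f) = PE b i (piE j f) := by
  funext σ
  rw [piE_apply, PE_apply, PE_apply, PE_apply, piE_apply, piE_apply]
  have h1 : sj j * (sj i * σ) = sj i * (sj j * σ) := by
    rw [← mul_assoc, ← h, mul_assoc]
  rw [h1]
  ring

/-! ### Products of factors -/

/-- `P_i P_{i+1} ⋯ P_{i+k-1}` -/
noncomputable def PP (b : ℂ) (i : ℕ) : ℕ → Module.End ℂ (G n → ℂ)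
  | 0 => 1
  | k + 1 => PP b i k * PE b (Fin.ofNat n (i + k))

theorem PP_zero (b : ℂ) (i : ℕ) : (PP b i 0 : Module.End ℂ (G n → ℂ)) = 1 := rfl

theorem PP_succ (b : ℂ) (i k : ℕ) :
    (PP b i (k + 1) : Module.End ℂ (G n → ℂ)) = PP b i k * PE b (Fin.ofNat n (i + k)) := rfl

theorem PP_add (b : ℂ) (i k l : ℕ) :
    (PP b i (k + l) : Module.End ℂ (G n → ℂ)) = PP b i k * PP b (i + k) l := by
  induction l with
  | zero => rw [add_zero, PP_zero, mul_one]
  | succ l ih => rw [← add_assoc, PP_succ, ih, PP_succ, mul_assoc, add_assoc]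

theorem PP_succ' (b : ℂ) (i k : ℕ) :
    (PP b i (k + 1) : Module.End ℂ (G n → ℂ)) = PE b (Fin.ofNat n i) * PP b (i + 1) k := by
  rw [add_comm k 1, PP_add, PP_succ, PP_zero, one_mul, add_zero]

theorem SE_eq_PP (b : ℂ) : (SE b : Module.End ℂ (G n → ℂ)) = PP b 0 n := by
  have h : ∀ k : ℕ, ((List.range k).map (fun j => PE b (Fin.ofNat n j))).prod =
      (PP b 0 k : Module.End ℂ (G n → ℂ)) := by
    intro k
    induction k with
    | zero => simp [PP_zero]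
    | succ k ih => rw [List.range_succ, List.map_append, List.prod_append, ih, PP_succ]; simp
  exact h n

theorem nrm_PP_le (b : ℂ) (hb : ‖1 - b‖ ≤ 1) (i k : ℕ) (f : G n → ℂ) :
    nrm (PP b i k f) ≤ nrm f := by
  induction k generalizing f with
  | zero => exact le_rfl
  | succ k ih =>
    rw [PP_succ, Module.End.mul_apply]
    exact (ih _).trans (nrm_PE_le b hb _ f)

theorem PP_mem_FA (A : Finset (Fin n)) (b : ℂ) (i k : ℕ) {f : G n → ℂ} (hf : f ∈ FA A) :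
    PP b i k f ∈ FA A := by
  induction k generalizing f with
  | zero => exact hf
  | succ k ih =>
    rw [PP_succ, Module.End.mul_apply]
    exact ih (PE_mem_FA A b _ hf)

/-- the partial products `X_j = P_j ⋯ P_{n-1} f` -/
noncomputable def XX (b : ℂ) (f : G n → ℂ) (j : ℕ) : G n → ℂ := PP b j (n - j) f

/-- `u_j = π_j X_{j+1}` -/
noncomputable def uu (b : ℂ) (f : G n → ℂ) (j : ℕ) : G n → ℂ :=
  piE (Fin.ofNat n j) (XX b f (j + 1))

theorem XX_zero (b : ℂ) (f : G n → ℂ) : XX b f 0 = SE b f := by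
  rw [XX, SE_eq_PP, Nat.sub_zero]

theorem XX_last (b : ℂ) (f : G n → ℂ) : XX b f n = f := by
  rw [XX, Nat.sub_self]
  rfl

theorem XX_eq (b : ℂ) (f : G n → ℂ) {j : ℕ} (hj : j < n) :
    XX b f j = PE b (Fin.ofNat n j) (XX b f (j + 1)) := by
  rw [XX, XX, show n - j = (n - (j + 1)) + 1 by omega, PP_succ', Module.End.mul_apply]

theorem XX_split (b : ℂ) (f : G n → ℂ) {i j : ℕ} (hij : i ≤ j) (hj : j ≤ n) :
    XX b f i = PP b i (j - i) (XX b f j) := by
  rw [XX, XX, show n - i = (j - i) + (n - j) by omega, PP_add, Module.End.mul_apply,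
    show i + (j - i) = j by omega]

theorem XX_mem_FA (A : Finset (Fin n)) (b : ℂ) {f : G n → ℂ} (hf : f ∈ FA A) (j : ℕ) :
    XX b f j ∈ FA A := PP_mem_FA A b _ _ hf

theorem uu_mem_FA (A : Finset (Fin n)) (b : ℂ) {f : G n → ℂ} (hf : f ∈ FA A) (j : ℕ) :
    uu b f j ∈ FA A := piE_mem_FA A _ (XX_mem_FA A b hf _)

theorem uu_anti (b : ℂ) (f : G n → ℂ) (j : ℕ) (σ : G n) :
    uu b f j (sj (Fin.ofNat n j) * σ) = - uu b f j σ := piE_anti _ _ _

theorem piE_XX (b : ℂ) (f : G n → ℂ) {j : ℕ} (hj : j < n) :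
    piE (Fin.ofNat n j) (XX b f j) = (1 - b) • uu b f j := by
  rw [XX_eq b f hj, piE_PE]
  rfl

/-- the exact dissipation of a round -/
theorem dissipation (b : ℂ) (f : G n → ℂ) :
    nsq f - nsq (SE b f) = (1 - ‖1 - b‖ ^ 2) * ∑ j ∈ range n, nsq (uu b f j) := by
  have h : ∀ k ≤ n, nsq (XX b f k) - nsq (XX b f 0) =
      (1 - ‖1 - b‖ ^ 2) * ∑ j ∈ range k, nsq (uu b f j) := by
    intro k
    induction k with
    | zero => intro _; simp
    | succ k ih =>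
      intro hk
      have h1 := ih (by omega)
      rw [Finset.sum_range_succ, mul_add, ← h1, XX_eq b f (show k < n by omega), nsq_PE]
      unfold uu
      ring
  have := h n le_rfl
  rwa [XX_last, XX_zero] at this

/-! ### Positions -/

theorem ofNat_add_one (j : ℕ) : Fin.ofNat n j + 1 = Fin.ofNat n (j + 1) := by
  ext
  simp [Fin.val_add, Fin.ofNat]

theorem ofNat_inj {i j : ℕ} (hi : i < n) (hj : j < n) :
    Fin.ofNat n i = Fin.ofNat n j ↔ i = j := by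
  rw [Fin.ext_iff]
  simp [Fin.ofNat, Nat.mod_eq_of_lt hi, Nat.mod_eq_of_lt hj]

theorem ofNat_self : Fin.ofNat n n = Fin.ofNat n 0 := by
  ext
  simp [Fin.ofNat]

theorem sj_comm_nat {i j : ℕ} (hij : i + 1 < j) (hj : j + 1 < n) :
    sj (Fin.ofNat n i) * sj (Fin.ofNat n j) = sj (Fin.ofNat n j) * sj (Fin.ofNat n i) := by
  have h1 : i < n := by omega
  have h2 : i + 1 < n := by omega
  have h3 : j < n := by omega
  apply sj_comm <;> simp only [ofNat_add_one, Ne, ofNat_inj, h1, h2, h3, hj] <;> omega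

/-- `s_i` and `s_{n-1}` commute for `1 ≤ i ≤ n - 3` -/
theorem sj_comm_last {i : ℕ} (hi : 1 ≤ i) (hin : i + 3 ≤ n) :
    sj (Fin.ofNat n i) * sj (Fin.ofNat n (n - 1)) =
      sj (Fin.ofNat n (n - 1)) * sj (Fin.ofNat n i) := by
  have h0 : Fin.ofNat n (n - 1) + 1 = Fin.ofNat n 0 := by
    rw [ofNat_add_one, show n - 1 + 1 = n by omega, ofNat_self]
  have h1 : i < n := by omega
  have h2 : i + 1 < n := by omega
  have h3 : n - 1 < n := by omega
  have h4 : 0 < n := by omega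
  apply sj_comm <;> simp only [h0, ofNat_add_one, Ne, ofNat_inj, h1, h2, h3, h4] <;> omega

theorem piE_PP_comm (b : ℂ) {i k : ℕ} {p : Fin n}
    (h : ∀ l, i ≤ l → l < i + k → sj (Fin.ofNat n l) * sj p = sj p * sj (Fin.ofNat n l))
    (f : G n → ℂ) : piE p (PP b i k f) = PP b i k (piE p f) := by
  induction k generalizing f with
  | zero => rfl
  | succ k ih =>
    rw [PP_succ, Module.End.mul_apply, Module.End.mul_apply,
      ih (fun l h1 h2 => h l h1 (by omega)), piE_PE_comm b (h (i + k) (by omega) (by omega))]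

/-- `v_j = (1 - b) u_j - b π_j u_{j-1}` -/
noncomputable def ww (b : ℂ) (f : G n → ℂ) (j : ℕ) : G n → ℂ :=
  (1 - b) • uu b f j - b • piE (Fin.ofNat n j) (uu b f (j - 1))

/-- formula for `π_j S f`, `1 ≤ j ≤ n - 2` -/
theorem piE_SE (b : ℂ) (f : G n → ℂ) {j : ℕ} (hj : 1 ≤ j) (hjn : j + 2 ≤ n) :
    piE (Fin.ofNat n j) (SE b f) = PP b 0 (j - 1) (ww b f j) := by
  rw [← XX_zero, XX_split b f (Nat.zero_le (j - 1)) (by omega), Nat.sub_zero,
    piE_PP_comm b (fun l _ h2 => sj_comm_nat (by omega) (by omega)),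
    XX_eq b f (show j - 1 < n by omega), show j - 1 + 1 = j by omega, PE_eq, map_sub, map_smul,
    piE_XX b f (by omega)]
  have : piE (Fin.ofNat n (j - 1)) (XX b f j) = uu b f (j - 1) := by
    rw [uu, show j - 1 + 1 = j by omega]
  rw [this]
  rfl

/-- formula for `π_0 S f` -/
theorem piE_SE_zero (b : ℂ) (f : G n → ℂ) (hn : 0 < n) :
    piE (Fin.ofNat n 0) (SE b f) = (1 - b) • uu b f 0 := by
  rw [← XX_zero, piE_XX b f hn]

/-- formula for `π_{n-1} S f` -/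
theorem piE_SE_last (b : ℂ) (f : G n → ℂ) (hn : 3 ≤ n) :
    piE (Fin.ofNat n (n - 1)) (SE b f) =
      PP b 1 (n - 3) ((1 - b) • uu b f (n - 1) - b • piE (Fin.ofNat n (n - 1)) (uu b f (n - 2)))
        - b • piE (Fin.ofNat n (n - 1)) (uu b f 0) := by
  have h1 : SE b f = XX b f 1 - b • uu b f 0 := by
    rw [← XX_zero, XX_eq b f (show 0 < n by omega), PE_eq]
    rfl
  rw [h1, map_sub, map_smul]
  congr 1
  rw [XX_split b f (show 1 ≤ n - 2 by omega) (by omega), show n - 2 - 1 = n - 3 by omega,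
    piE_PP_comm b (fun l h1 h2 => sj_comm_last h1 (by omega)),
    XX_eq b f (show n - 2 < n by omega), show n - 2 + 1 = n - 1 by omega, PE_eq, map_sub, map_smul,
    piE_XX b f (by omega)]
  have : piE (Fin.ofNat n (n - 2)) (XX b f (n - 1)) = uu b f (n - 2) := by
    rw [uu, show n - 2 + 1 = n - 1 by omega]
  rw [this]

end Pool.Agent.Lib.MP_cad76e_pr.D0
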