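import Pool.Agent.Lib.MP_cad76e_pr.D0

/-! Module D2: sharp form of the dissipation inequality. -/

set_option autoImplicit false

namespace Pool.Agent.Lib.MP_cad76e_pr

open Finset D0

namespace D2

variable {n : ℕ}

open Classical in
/-- restriction of a function to a set of arrangements -/
noncomputable def cut (p : G n → Prop) (f : G n → ℂ) : G n → ℂ := fun σ => if p σ then f σ else 0

theorem cut_apply_pos {p : G n → Prop} (f : G n → ℂ) {σ : G n} (h : p σ) : cut p f σ = f σ :=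
  if_pos h

theorem cut_apply_neg {p : G n → Prop} (f : G n → ℂ) {σ : G n} (h : ¬ p σ) : cut p f σ = 0 :=
  if_neg h

theorem cut_add (p : G n → Prop) (f g : G n → ℂ) : cut p (f + g) = cut p f + cut p g := by
  funext σ
  by_cases h : p σ
  · simp only [Pi.add_apply, cut_apply_pos _ h]
  · simp only [Pi.add_apply, cut_apply_neg _ h, add_zero]

theorem cut_sub (p : G n → Prop) (f g : G n → ℂ) : cut p (f - g) = cut p f - cut p g := by
  funext σ
  by_cases h : p σ
  · simp only [Pi.sub_apply, cut_apply_pos _ h]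
  · simp only [Pi.sub_apply, cut_apply_neg _ h, sub_zero]

theorem cut_smul (p : G n → Prop) (c : ℂ) (f : G n → ℂ) : cut p (c • f) = c • cut p f := by
  funext σ
  by_cases h : p σ
  · simp only [Pi.smul_apply, cut_apply_pos _ h]
  · simp only [Pi.smul_apply, cut_apply_neg _ h, smul_zero]

theorem cut_cut (p q : G n → Prop) (f : G n → ℂ) : cut p (cut q f) = cut (fun σ => p σ ∧ q σ) f := by
  funext σ
  by_cases h : p σ
  · by_cases h' : q σ
    · rw [cut_apply_pos _ h, cut_apply_pos _ h', cut_apply_pos _ ⟨h, h'⟩]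
    · rw [cut_apply_pos _ h, cut_apply_neg _ h', cut_apply_neg _ fun h2 => h' h2.2]
  · rw [cut_apply_neg _ h, cut_apply_neg _ fun h2 => h h2.1]

theorem cut_add_compl (p : G n → Prop) (f : G n → ℂ) :
    f = cut (fun σ => ¬ p σ) f + cut p f := by
  funext σ
  by_cases h : p σ
  · rw [Pi.add_apply, cut_apply_pos _ h, cut_apply_neg _ (not_not.2 h), zero_add]
  · rw [Pi.add_apply, cut_apply_neg _ h, cut_apply_pos _ h, add_zero]

theorem nsq_cut_mono {p q : G n → Prop} (h : ∀ σ, p σ → q σ) (f : G n → ℂ) :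
    nsq (cut p f) ≤ nsq (cut q f) := by
  refine Finset.sum_le_sum fun σ _ => ?_
  by_cases h' : p σ
  · rw [cut_apply_pos _ h', cut_apply_pos _ (h σ h')]
  · rw [cut_apply_neg _ h', norm_zero, zero_pow two_ne_zero]
    exact sq_nonneg _

theorem nsq_cut_le (p : G n → Prop) (f : G n → ℂ) : nsq (cut p f) ≤ nsq f := by
  refine Finset.sum_le_sum fun σ _ => ?_
  by_cases h' : p σ
  · rw [cut_apply_pos _ h']
  · rw [cut_apply_neg _ h', norm_zero, zero_pow two_ne_zero]
    exact sq_nonneg _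

theorem nrm_cut_mono {p q : G n → Prop} (h : ∀ σ, p σ → q σ) (f : G n → ℂ) :
    nrm (cut p f) ≤ nrm (cut q f) := nrm_le_of_nsq (nsq_cut_mono h f)

theorem nrm_cut_le (p : G n → Prop) (f : G n → ℂ) : nrm (cut p f) ≤ nrm f :=
  nrm_le_of_nsq (nsq_cut_le p f)

variable [NeZero n]

theorem cut_PE {p : G n → Prop} {j : Fin n} (h : ∀ σ, p (sj j * σ) ↔ p σ) (b : ℂ)
    (f : G n → ℂ) : cut p (PE b j f) = PE b j (cut p f) := by
  funext σ
  rw [PE_apply]
  by_cases h' : p σ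
  · rw [cut_apply_pos _ h', PE_apply, cut_apply_pos _ h', cut_apply_pos _ ((h σ).2 h')]
  · rw [cut_apply_neg _ h', cut_apply_neg _ h', cut_apply_neg _ fun h2 => h' ((h σ).1 h2)]
    ring

theorem cut_PP {p : G n → Prop} {i k : ℕ}
    (h : ∀ l, i ≤ l → l < i + k → ∀ σ, p (sj (Fin.ofNat n l) * σ) ↔ p σ) (b : ℂ)
    (f : G n → ℂ) : cut p (PP b i k f) = PP b i k (cut p f) := by
  induction k generalizing f with
  | zero => rfl
  | succ k ih =>
    rw [PP_succ, Module.End.mul_apply, Module.End.mul_apply,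
      ih (fun l h1 h2 => h l h1 (by omega)), cut_PE (h (i + k) (by omega) (by omega))]

/-- the position `i` is occupied by a card of `A` -/
def occ (A : Finset (Fin n)) (i : ℕ) (σ : G n) : Prop := σ.symm (Fin.ofNat n i) ∈ A

theorem occ_sj_self (A : Finset (Fin n)) (i : ℕ) (σ : G n) :
    occ A i (sj (Fin.ofNat n i) * σ) ↔ occ A (i + 1) σ := by
  have h1 : (sj (Fin.ofNat n i) * σ).symm (Fin.ofNat n i) =
      σ.symm ((sj (Fin.ofNat n i)).symm (Fin.ofNat n i)) := rfl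
  unfold occ
  rw [h1, sj, Equiv.symm_swap, Equiv.swap_apply_left, ofNat_add_one]

theorem occ_sj_succ (A : Finset (Fin n)) (i : ℕ) (σ : G n) :
    occ A (i + 1) (sj (Fin.ofNat n i) * σ) ↔ occ A i σ := by
  have h1 : (sj (Fin.ofNat n i) * σ).symm (Fin.ofNat n (i + 1)) =
      σ.symm ((sj (Fin.ofNat n i)).symm (Fin.ofNat n (i + 1))) := rfl
  unfold occ
  rw [h1, sj, Equiv.symm_swap, ofNat_add_one, Equiv.swap_apply_right]

theorem occ_sj_of_ne (A : Finset (Fin n)) {i j : ℕ} (hi : i < n) (hj : j + 1 < n) (h1 : i ≠ j)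
    (h2 : i ≠ j + 1) (σ : G n) : occ A i (sj (Fin.ofNat n j) * σ) ↔ occ A i σ := by
  have h3 : (sj (Fin.ofNat n j) * σ).symm (Fin.ofNat n i) =
      σ.symm ((sj (Fin.ofNat n j)).symm (Fin.ofNat n i)) := rfl
  unfold occ
  rw [h3, sj, Equiv.symm_swap, ofNat_add_one, Equiv.swap_apply_of_ne_of_ne]
  · rwa [Ne, ofNat_inj hi (by omega)]
  · rwa [Ne, ofNat_inj hi hj]

/-- the positions `i, i - 1, …, i - d + 1` (as far as they are `≥ 0`) are free -/
def free (A : Finset (Fin n)) (d i : ℕ) (σ : G n) : Prop := ∀ t < d, t ≤ i → ¬ occ A (i - t) σ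

theorem Lg_cut (A : Finset (Fin n)) (i : ℕ) (v : G n → ℂ) :
    Lg (sj (Fin.ofNat n i)) (cut (occ A (i + 1)) v) =
      cut (occ A i) (Lg (sj (Fin.ofNat n i)) v) := by
  funext σ
  rw [Lg_apply, sj_inv]
  by_cases h : occ A i σ
  · rw [cut_apply_pos _ h, cut_apply_pos _ ((occ_sj_succ A i σ).2 h), Lg_apply, sj_inv]
  · rw [cut_apply_neg _ h, cut_apply_neg _ fun h2 => h ((occ_sj_succ A i σ).1 h2)]

/-- the mass moves by one position with the factor `|b|/2` -/
theorem propagation (A : Finset (Fin n)) (b : ℂ) (hb : ‖1 - b‖ ≤ 1) (d i : ℕ) (hi : i < n)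
    (v : G n → ℂ) :
    nrm (cut (free A d i) (PP b 0 i (cut (occ A i) v))) ≤ (‖b‖ / 2) ^ d * nrm v := by
  induction d generalizing i v with
  | zero =>
    rw [pow_zero, one_mul]
    exact (nrm_cut_le _ _).trans ((nrm_PP_le b hb _ _ _).trans (nrm_cut_le _ _))
  | succ d ih =>
    have hnn : 0 ≤ (‖b‖ / 2) ^ (d + 1) * nrm v := by
      have := nrm_nonneg v
      positivity
    rcases i with _ | i
    · have h1 : cut (free A (d + 1) 0) (PP b 0 0 (cut (occ A 0) v)) = 0 := by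
        rw [PP_zero, Module.End.one_apply, cut_cut]
        funext σ
        refine cut_apply_neg _ fun h => ?_
        exact h.1 0 (by omega) le_rfl h.2
      rw [h1, nrm_zero]
      exact hnn
    · rw [PP_succ, Module.End.mul_apply, zero_add, PE_eq', map_add, map_smul, map_smul, cut_add,
        cut_smul, cut_smul]
      have h1 : cut (free A (d + 1) (i + 1)) (PP b 0 i (cut (occ A (i + 1)) v)) = 0 := by
        rw [← cut_PP (p := occ A (i + 1)) (fun l _ h2 σ =>
          occ_sj_of_ne A hi (by omega) (by omega) (by omega) σ), cut_cut]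
        funext σ
        refine cut_apply_neg _ fun h => ?_
        exact h.1 0 (by omega) (by omega) h.2
      rw [h1, smul_zero, zero_add, nrm_smul, Lg_cut, norm_div, Complex.norm_ofNat]
      have h2 : nrm (cut (free A (d + 1) (i + 1)) (PP b 0 i (cut (occ A i)
          (Lg (sj (Fin.ofNat n i)) v)))) ≤ (‖b‖ / 2) ^ d * nrm v := by
        have h3 := ih i (by omega) (Lg (sj (Fin.ofNat n i)) v)
        rw [nrm_Lg] at h3
        refine (nrm_cut_mono (fun σ h => ?_) _).trans h3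
        intro t ht hti
        have := h (t + 1) (by omega) (by omega)
        rwa [show i + 1 - (t + 1) = i - t by omega] at this
      have h4 := mul_le_mul_of_nonneg_left h2 (show 0 ≤ ‖b‖ / 2 by positivity)
      refine h4.trans (le_of_eq ?_)
      ring

/-- a function of `FA A` antisymmetric under `s_i` vanishes where `i`, `i + 1` are free -/
theorem eq_zero_of_free (A : Finset (Fin n)) {i : ℕ} {u : G n → ℂ}
    (hu : u ∈ FA A) (hanti : ∀ σ, u (sj (Fin.ofNat n i) * σ) = - u σ) {σ : G n}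
    (h1 : ¬ occ A i σ) (h2 : ¬ occ A (i + 1) σ) : u σ = 0 := by
  have h3 : u (sj (Fin.ofNat n i) * σ) = u σ := by
    refine hu _ _ fun a ha => ?_
    rw [Equiv.Perm.mul_apply, sj, ofNat_add_one]
    refine Equiv.swap_apply_of_ne_of_ne ?_ ?_
    · intro h
      apply h1
      unfold occ
      rw [← h, Equiv.symm_apply_apply]
      exact ha
    · intro h
      apply h2
      unfold occ
      rw [← h, Equiv.symm_apply_apply]
      exact ha
  rw [hanti] at h3
  have h4 : (2 : ℂ) * u σ = 0 := by linear_combination -h3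
  rcases mul_eq_zero.1 h4 with h5 | h5
  · norm_num at h5
  · exact h5

theorem nsq_cut_sj {p q : G n → Prop} {j : Fin n} (h : ∀ σ, p (sj j * σ) ↔ q σ) {u : G n → ℂ}
    (hanti : ∀ σ, u (sj j * σ) = - u σ) : nsq (cut p u) = nsq (cut q u) := by
  unfold nsq
  rw [← sum_sj j fun σ => ‖cut p u σ‖ ^ 2]
  refine Finset.sum_congr rfl fun σ _ => ?_
  by_cases h' : q σ
  · rw [cut_apply_pos _ h', cut_apply_pos _ ((h σ).2 h'), hanti, norm_neg]
  · rw [cut_apply_neg _ h', cut_apply_neg _ fun h2 => h' ((h σ).1 h2)]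

omit [NeZero n] in
theorem nsq_cut_disj {p q r : G n → Prop} (hpq : ∀ σ, p σ → ¬ q σ) (hr : ∀ σ, r σ ↔ (p σ ∨ q σ))
    (u : G n → ℂ) : nsq (cut r u) = nsq (cut p u) + nsq (cut q u) := by
  unfold nsq
  rw [← Finset.sum_add_distrib]
  refine Finset.sum_congr rfl fun σ _ => ?_
  by_cases h1 : p σ
  · rw [cut_apply_pos _ h1, cut_apply_pos _ ((hr σ).2 (Or.inl h1)), cut_apply_neg _ (hpq σ h1)]
    simp
  · by_cases h2 : q σ
    · rw [cut_apply_neg _ h1, cut_apply_pos _ h2, cut_apply_pos _ ((hr σ).2 (Or.inr h2))]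
      simp
    · rw [cut_apply_neg _ h1, cut_apply_neg _ h2, cut_apply_neg _ fun h => ((hr σ).1 h).elim h1 h2]
      simp

/-- exactly one of the positions `i + 1`, `i + 2` is occupied -/
def one (A : Finset (Fin n)) (i : ℕ) (σ : G n) : Prop :=
  (occ A (i + 1) σ ∧ ¬ occ A (i + 2) σ) ∨ (¬ occ A (i + 1) σ ∧ occ A (i + 2) σ)

theorem half (A : Finset (Fin n)) {i : ℕ} (hi : i + 3 ≤ n) {u : G n → ℂ} (hu : u ∈ FA A)
    (hanti : ∀ σ, u (sj (Fin.ofNat n i) * σ) = - u σ) :
    nrm (cut (fun σ => one A i σ ∧ ¬ occ A i σ) (piE (Fin.ofNat n (i + 1)) u)) ≤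
      (1 / 2) * nrm u := by
  set B1 : G n → Prop := fun σ => ¬ occ A i σ ∧ occ A (i + 1) σ ∧ ¬ occ A (i + 2) σ with hB1
  set B2 : G n → Prop := fun σ => occ A i σ ∧ ¬ occ A (i + 1) σ ∧ ¬ occ A (i + 2) σ with hB2
  set B3 : G n → Prop := fun σ => ¬ occ A i σ ∧ ¬ occ A (i + 1) σ ∧ occ A (i + 2) σ with hB3
  set w := piE (Fin.ofNat n (i + 1)) u with hw
  have hs1 : ∀ σ, occ A (i + 1) (sj (Fin.ofNat n (i + 1)) * σ) ↔ occ A (i + 2) σ :=
    fun σ => occ_sj_self A (i + 1) σ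
  have hs2 : ∀ σ, occ A (i + 2) (sj (Fin.ofNat n (i + 1)) * σ) ↔ occ A (i + 1) σ :=
    fun σ => occ_sj_succ A (i + 1) σ
  have hs0 : ∀ σ, occ A i (sj (Fin.ofNat n (i + 1)) * σ) ↔ occ A i σ :=
    fun σ => occ_sj_of_ne A (by omega) (by omega) (by omega) (by omega) σ
  have ht1 : ∀ σ, occ A (i + 1) (sj (Fin.ofNat n i) * σ) ↔ occ A i σ :=
    fun σ => occ_sj_succ A i σ
  have ht0 : ∀ σ, occ A i (sj (Fin.ofNat n i) * σ) ↔ occ A (i + 1) σ :=
    fun σ => occ_sj_self A i σ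
  have ht2 : ∀ σ, occ A (i + 2) (sj (Fin.ofNat n i) * σ) ↔ occ A (i + 2) σ :=
    fun σ => occ_sj_of_ne A (by omega) (by omega) (by omega) (by omega) σ
  -- the two pieces
  have h1 : nsq (cut (fun σ => one A i σ ∧ ¬ occ A i σ) w) = nsq (cut B1 w) + nsq (cut B3 w) := by
    refine nsq_cut_disj (fun σ h h' => h'.2.1 h.2.1) (fun σ => ?_) w
    simp only [one, hB1, hB3]
    tauto
  have h2 : nsq (cut B3 w) = nsq (cut B1 w) := by
    refine (nsq_cut_sj (j := Fin.ofNat n (i + 1)) (fun σ => ?_) (piE_anti _ _)).symm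
    simp only [hB1, hB3, hs0, hs1, hs2]
    tauto
  have h3 : nsq (cut B1 w) = (1 / 4) * nsq (cut B1 u) := by
    unfold nsq
    rw [Finset.mul_sum]
    refine Finset.sum_congr rfl fun σ _ => ?_
    by_cases h : B1 σ
    · rw [cut_apply_pos _ h, cut_apply_pos _ h, hw, piE_apply]
      have h4 : u (sj (Fin.ofNat n (i + 1)) * σ) = 0 := by
        refine eq_zero_of_free A hu hanti ?_ ?_
        · rw [hs0]
          exact h.1
        · rw [hs1]
          exact h.2.2
      rw [h4, sub_zero, norm_mul, mul_pow]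
      norm_num
    · rw [cut_apply_neg _ h, cut_apply_neg _ h]
      simp
  have h4 : nsq (cut B1 u) = nsq (cut B2 u) := by
    refine nsq_cut_sj (j := Fin.ofNat n i) (fun σ => ?_) hanti
    simp only [hB1, hB2, ht0, ht1, ht2]
    tauto
  have h5 : nsq (cut (fun σ => B1 σ ∨ B2 σ) u) = nsq (cut B1 u) + nsq (cut B2 u) :=
    nsq_cut_disj (fun σ h h' => h.1 h'.1) (fun σ => Iff.rfl) u
  have h6 := nsq_cut_le (fun σ => B1 σ ∨ B2 σ) u
  have h7 : nsq (cut (fun σ => one A i σ ∧ ¬ occ A i σ) w) ≤ (1 / 4) * nsq u := by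
    rw [h1, h2, h3]
    linarith
  have h8 : nsq ((1 / 2 : ℂ) • u) = (1 / 4) * nsq u := by
    rw [← nrm_sq, nrm_smul, mul_pow, nrm_sq]
    norm_num
  rw [← h8] at h7
  have h9 := nrm_le_of_nsq h7
  rw [nrm_smul] at h9
  norm_num at h9 ⊢
  exact h9

/-- the estimate at one position -/
theorem one_position (A : Finset (Fin n)) (b : ℂ) (hb : ‖1 - b‖ ≤ 1) (hb' : ‖b‖ ≤ 1) (x : ℝ)
    (d : ℕ) (hx1 : ‖1 - b‖ + (‖b‖ / 2) ^ d ≤ x) (hx2 : ‖b‖ / 2 + (‖b‖ / 2) ^ d ≤ x)
    {f : G n → ℂ} (hf : f ∈ FA A) {i : ℕ} (hi : i + 3 ≤ n) :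
    nsq (cut (fun σ => one A i σ ∧ free A d i σ) (piE (Fin.ofNat n (i + 1)) (SE b f))) ≤
      2 * x ^ 2 * (nsq (uu b f (i + 1)) + nsq (uu b f i)) := by
  have hx0 : 0 ≤ x := by
    refine le_trans ?_ hx1
    positivity
  have h1 := piE_SE b f (show 1 ≤ i + 1 by omega) (show i + 1 + 2 ≤ n by omega)
  rw [Nat.add_sub_cancel] at h1
  have hww : ww b f (i + 1) = (1 - b) • uu b f (i + 1) -
      b • piE (Fin.ofNat n (i + 1)) (uu b f i) := by
    rw [ww, Nat.add_sub_cancel]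
  set w := ww b f (i + 1) with hw
  have hw1 : nrm w ≤ nrm (uu b f (i + 1)) + nrm (uu b f i) := by
    rw [hww]
    refine (nrm_sub_le _ _).trans ?_
    rw [nrm_smul, nrm_smul]
    have q1 := mul_le_of_le_one_left (nrm_nonneg (uu b f (i + 1))) hb
    have q2 := mul_le_of_le_one_left (nrm_nonneg (piE (Fin.ofNat n (i + 1)) (uu b f i))) hb'
    have q3 := nrm_piE_le (Fin.ofNat n (i + 1)) (uu b f i)
    linarith
  have key : nrm (cut (fun σ => one A i σ ∧ free A d i σ)
      (piE (Fin.ofNat n (i + 1)) (SE b f))) ≤ x * (nrm (uu b f (i + 1)) + nrm (uu b f i)) := by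
    rw [h1]
    have h2 : w = cut (fun σ => ¬ occ A i σ) w + cut (occ A i) w := cut_add_compl _ _
    have h3 : nrm (cut (fun σ => one A i σ ∧ free A d i σ)
        (PP b 0 i (cut (fun σ => ¬ occ A i σ) w))) ≤
        ‖1 - b‖ * nrm (uu b f (i + 1)) + ‖b‖ * ((1 / 2) * nrm (uu b f i)) := by
      refine (nrm_cut_mono (q := one A i) (fun σ h => h.1) _).trans ?_
      rw [cut_PP (p := one A i) (fun l _ h2 σ => ?_), cut_cut]
      · refine (nrm_PP_le b hb _ _ _).trans ?_
        rw [hww, cut_sub, cut_smul, cut_smul]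
        refine (nrm_sub_le _ _).trans ?_
        rw [nrm_smul, nrm_smul]
        have q1 := mul_le_mul_of_nonneg_left (nrm_cut_le (fun σ => one A i σ ∧ ¬ occ A i σ)
          (uu b f (i + 1))) (norm_nonneg (1 - b))
        have q2 := mul_le_mul_of_nonneg_left (half A hi (uu_mem_FA A b hf i) (uu_anti b f i))
          (norm_nonneg b)
        linarith
      · unfold one
        rw [occ_sj_of_ne A (show i + 1 < n by omega) (show l + 1 < n by omega) (by omega)
          (by omega) σ, occ_sj_of_ne A (show i + 2 < n by omega) (show l + 1 < n by omega)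
          (by omega) (by omega) σ]
    have h4 : nrm (cut (fun σ => one A i σ ∧ free A d i σ)
        (PP b 0 i (cut (occ A i) w))) ≤ (‖b‖ / 2) ^ d * (nrm (uu b f (i + 1)) + nrm (uu b f i)) := by
      refine (nrm_cut_mono (q := free A d i) (fun σ h => h.2) _).trans ?_
      refine (propagation A b hb d i (by omega) w).trans ?_
      exact mul_le_mul_of_nonneg_left hw1 (by positivity)
    have h5 : nrm (cut (fun σ => one A i σ ∧ free A d i σ) (PP b 0 i w)) ≤
        nrm (cut (fun σ => one A i σ ∧ free A d i σ)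
          (PP b 0 i (cut (fun σ => ¬ occ A i σ) w))) +
        nrm (cut (fun σ => one A i σ ∧ free A d i σ) (PP b 0 i (cut (occ A i) w))) := by
      conv_lhs => rw [h2, map_add, cut_add]
      exact nrm_add_le _ _
    have q1 := nrm_nonneg (uu b f (i + 1))
    have q2 := nrm_nonneg (uu b f i)
    have q3 := mul_le_mul_of_nonneg_right hx1 q1
    have q4 := mul_le_mul_of_nonneg_right hx2 q2
    linarith
  rw [← nrm_sq, ← nrm_sq, ← nrm_sq]
  refine (pow_le_pow_left₀ (nrm_nonneg _) key 2).trans ?_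
  rw [mul_pow]
  nlinarith [mul_nonneg (sq_nonneg x) (sq_nonneg (nrm (uu b f (i + 1)) - nrm (uu b f i)))]

theorem norm_sub_sq (g : G n → ℂ) (j : Fin n) (σ : G n) :
    ‖g (sj j * σ) - g σ‖ ^ 2 = 4 * ‖piE j g σ‖ ^ 2 := by
  rw [piE_apply, norm_mul, mul_pow, norm_sub_rev]
  norm_num
  ring

open Classical in
/-- the good steps at one arrangement -/
theorem good_at (A : Finset (Fin n)) (d : ℕ) (g : G n → ℂ) (σ : G n) :
    ∑ a ∈ A, (if Good d A a σ then ‖g (stepFwd a σ) - g σ‖ ^ 2 else 0) ≤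
      ∑ i ∈ range (n - 2), 4 * ‖cut (fun σ => occ A (i + 1) σ ∧ ¬ occ A (i + 2) σ ∧ free A d i σ)
        (piE (Fin.ofNat n (i + 1)) g) σ‖ ^ 2 := by
  rw [← Finset.sum_filter]
  set S := A.filter (fun a => Good d A a σ) with hS
  set H : ℕ → ℝ := fun i =>
    4 * ‖cut (fun σ => occ A (i + 1) σ ∧ ¬ occ A (i + 2) σ ∧ free A d i σ)
        (piE (Fin.ofNat n (i + 1)) g) σ‖ ^ 2 with hH
  have hH0 : ∀ i, 0 ≤ H i := fun i => by
    simp only [hH]
    positivity
  have hval : ∀ a ∈ S, ((σ a : Fin n) : ℕ) - 1 + 1 = (σ a : ℕ) ∧ (σ a : ℕ) + 2 ≤ n := by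
    intro a ha
    rw [hS, Finset.mem_filter] at ha
    have h1 : 1 ≤ (σ a : ℕ) := ha.2.1
    exact ⟨by omega, ha.2.2.1⟩
  have hterm : ∀ a ∈ S, ‖g (stepFwd a σ) - g σ‖ ^ 2 = H ((σ a : ℕ) - 1) := by
    intro a ha
    obtain ⟨h1, h2⟩ := hval a ha
    have h3 : Fin.ofNat n ((σ a : ℕ) - 1 + 1) = σ a := by
      rw [h1]
      ext
      simp [Fin.ofNat, Nat.mod_eq_of_lt (σ a).2]
    rw [hS, Finset.mem_filter] at ha
    obtain ⟨haA, h4, h5, h6, h7⟩ := ha
    have h8 : stepFwd a σ = sj (σ a) * σ := rfl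
    have hK : occ A ((σ a : ℕ) - 1 + 1) σ ∧ ¬ occ A ((σ a : ℕ) - 1 + 2) σ ∧
        free A d ((σ a : ℕ) - 1) σ := by
      refine ⟨?_, ?_, ?_⟩
      · unfold occ
        rw [h3, Equiv.symm_apply_apply]
        exact haA
      · unfold occ
        rw [show (σ a : ℕ) - 1 + 2 = ((σ a : ℕ) - 1 + 1) + 1 by omega, ← ofNat_add_one, h3]
        exact h6
      · intro t ht htj
        have h9 := h7 (t + 1) (by omega) (by omega)
        unfold occ
        have h10 : Fin.ofNat n ((σ a : ℕ) - 1 - t) = σ a - Fin.ofNat n (t + 1) := by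
          rw [eq_sub_iff_add_eq]
          ext
          have h11 : (σ a : ℕ) < n := (σ a).2
          simp only [Fin.val_add, Fin.ofNat, Nat.add_mod_mod, Nat.mod_add_mod]
          rw [show (σ a : ℕ) - 1 - t + (t + 1) = (σ a : ℕ) by omega, Nat.mod_eq_of_lt h11]
        rw [h10]
        exact h9
    simp only [hH]
    rw [cut_apply_pos _ hK, h3, h8, norm_sub_sq]
  rw [Finset.sum_congr rfl hterm]
  have hinj : Set.InjOn (fun a : Fin n => (σ a : ℕ) - 1) S := by
    intro a ha a' ha' h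
    have h1 := hval a ha
    have h2 := hval a' ha'
    dsimp only at h
    have h3 : (σ a : ℕ) = (σ a' : ℕ) := by omega
    exact σ.injective (Fin.ext h3)
  rw [← Finset.sum_image (f := H) (g := fun a : Fin n => (σ a : ℕ) - 1) hinj]
  refine Finset.sum_le_sum_of_subset_of_nonneg ?_ fun i _ _ => hH0 i
  intro i hi
  rw [Finset.mem_image] at hi
  obtain ⟨a, ha, rfl⟩ := hi
  have h1 := hval a ha
  rw [mem_range]
  omega

open Classical in
theorem good_sum (A : Finset (Fin n)) (d : ℕ) (g : G n → ℂ) :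
    ∑ a ∈ A, ∑ σ : G n, (if Good d A a σ then ‖g (stepFwd a σ) - g σ‖ ^ 2 else 0) ≤
      ∑ i ∈ range (n - 2), 2 * nsq (cut (fun σ => one A i σ ∧ free A d i σ)
        (piE (Fin.ofNat n (i + 1)) g)) := by
  rw [Finset.sum_comm]
  refine (Finset.sum_le_sum fun σ _ => good_at A d g σ).trans ?_
  rw [Finset.sum_comm]
  refine Finset.sum_le_sum fun i hi => ?_
  rw [mem_range] at hi
  set w := piE (Fin.ofNat n (i + 1)) g with hw
  set K : G n → Prop := fun σ => occ A (i + 1) σ ∧ ¬ occ A (i + 2) σ ∧ free A d i σ with hK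
  set K' : G n → Prop := fun σ => ¬ occ A (i + 1) σ ∧ occ A (i + 2) σ ∧ free A d i σ with hK'
  have h1 : nsq (cut (fun σ => one A i σ ∧ free A d i σ) w) = nsq (cut K w) + nsq (cut K' w) := by
    refine nsq_cut_disj (fun σ h h' => h'.1 h.1) (fun σ => ?_) w
    simp only [one, hK, hK']
    tauto
  have hfree : ∀ σ, free A d i (sj (Fin.ofNat n (i + 1)) * σ) ↔ free A d i σ := by
    intro σ
    unfold free
    refine forall_congr' fun t => forall_congr' fun ht => forall_congr' fun hti => ?_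
    rw [occ_sj_of_ne A (by omega) (by omega) (by omega) (by omega) σ]
  have h2 : nsq (cut K w) = nsq (cut K' w) := by
    have hs1 : ∀ σ, occ A (i + 1) (sj (Fin.ofNat n (i + 1)) * σ) ↔ occ A (i + 2) σ :=
      fun σ => occ_sj_self A (i + 1) σ
    have hs2 : ∀ σ, occ A (i + 2) (sj (Fin.ofNat n (i + 1)) * σ) ↔ occ A (i + 1) σ :=
      fun σ => occ_sj_succ A (i + 1) σ
    refine nsq_cut_sj (j := Fin.ofNat n (i + 1)) (fun σ => ?_) (piE_anti _ _)
    simp only [hK, hK', hfree, hs1, hs2]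
    tauto
  have h3 : ∑ σ, 4 * ‖cut K w σ‖ ^ 2 = 4 * nsq (cut K w) := by
    rw [nsq, Finset.mul_sum]
  rw [h3, h1, ← h2]
  linarith

end D2

open D2

open Classical in
theorem diss_sharp (η : ℝ) (hη : 0 < η) : ∃ δ : ℝ, 0 < δ ∧ ∃ d : ℕ, ∀ (n : ℕ) [NeZero n],
    d + 3 ≤ n → ∀ b : ℂ, ‖b - 2 / 3‖ ≤ δ → ∀ A : Finset (Fin n), ∀ f ∈ FA A,
    ∑ a ∈ A, ∑ σ : G n, (if Good d A a σ then ‖SE b f (stepFwd a σ) - SE b f σ‖ ^ 2 else 0)
      ≤ (1 + η) * (nsq f - nsq (SE b f)) := by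
  set y : ℝ := min (1 / 3) (8 * η / (9 * (9 + η))) with hy
  have hy0 : 0 < y := lt_min (by norm_num) (by positivity)
  have hy1 : y ≤ 1 / 3 := min_le_left _ _
  have hy2 : (9 + η) * y ≤ 8 * η / 9 := by
    have h1 : y ≤ 8 * η / (9 * (9 + η)) := min_le_right _ _
    have h2 := mul_le_mul_of_nonneg_left h1 (show 0 ≤ 9 + η by positivity)
    refine h2.trans (le_of_eq ?_)
    field_simp
  obtain ⟨d, hd⟩ := exists_pow_lt_of_lt_one (show 0 < y / 2 by positivity)
    (show (1 / 2 : ℝ) < 1 by norm_num)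
  refine ⟨y / 2, by positivity, d, ?_⟩
  intro n _ hn b hb A f hf
  have ha : ‖1 - b‖ ≤ 1 / 3 + y / 2 := by
    have h1 : (1 - b : ℂ) = (1 / 3 : ℂ) - (b - 2 / 3) := by ring
    rw [h1]
    refine (norm_sub_le _ _).trans ?_
    have h2 : ‖(1 / 3 : ℂ)‖ = 1 / 3 := by norm_num
    rw [h2]
    linarith
  have hc : ‖b‖ ≤ 2 / 3 + y / 2 := by
    have h1 : (b : ℂ) = (2 / 3 : ℂ) + (b - 2 / 3) := by ring
    rw [h1]
    refine (norm_add_le _ _).trans ?_
    have h2 : ‖(2 / 3 : ℂ)‖ = 2 / 3 := by norm_num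
    rw [h2]
    linarith
  have hpow : (‖b‖ / 2) ^ d ≤ y / 2 := by
    have h1 : ‖b‖ / 2 ≤ 1 / 2 := by linarith
    exact (pow_le_pow_left₀ (by positivity) h1 d).trans hd.le
  set x : ℝ := 1 / 3 + y with hx
  have hx1 : ‖1 - b‖ + (‖b‖ / 2) ^ d ≤ x := by linarith
  have hx2 : ‖b‖ / 2 + (‖b‖ / 2) ^ d ≤ x := by linarith
  refine (good_sum A d (SE b f)).trans ?_
  have h1 : ∀ i ∈ range (n - 2), 2 * nsq (cut (fun σ => one A i σ ∧ free A d i σ)
      (piE (Fin.ofNat n (i + 1)) (SE b f))) ≤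
      4 * x ^ 2 * (nsq (uu b f (i + 1)) + nsq (uu b f i)) := by
    intro i hi
    rw [mem_range] at hi
    have := one_position A b (by linarith) (by linarith) x d hx1 hx2 hf (show i + 3 ≤ n by omega)
    linarith
  refine (Finset.sum_le_sum h1).trans ?_
  rw [← Finset.mul_sum, Finset.sum_add_distrib, dissipation b f]
  obtain ⟨m, rfl⟩ : ∃ m, n = m + 3 := ⟨n - 3, by omega⟩
  rw [show m + 3 - 2 = m + 1 by omega]
  have hU0 : ∀ j, 0 ≤ nsq (uu b f j) := fun j => nsq_nonneg _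
  have h2 : ∑ i ∈ range (m + 1), nsq (uu b f (i + 1)) ≤ ∑ j ∈ range (m + 3), nsq (uu b f j) := by
    rw [Finset.sum_range_succ _ (m + 2), Finset.sum_range_succ' _ (m + 1)]
    have := hU0 0
    have := hU0 (m + 2)
    linarith
  have h3 : ∑ i ∈ range (m + 1), nsq (uu b f i) ≤ ∑ j ∈ range (m + 3), nsq (uu b f j) := by
    rw [Finset.sum_range_succ _ (m + 2), Finset.sum_range_succ _ (m + 1)]
    have := hU0 (m + 1)
    have := hU0 (m + 2)
    linarith
  set S := ∑ j ∈ range (m + 3), nsq (uu b f j) with hS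
  have hS0 : 0 ≤ S := Finset.sum_nonneg fun i _ => hU0 _
  have hxx : 8 * x ^ 2 ≤ (1 + η) * (1 - ‖1 - b‖ ^ 2) := by
    have h4 : ‖1 - b‖ ^ 2 ≤ x ^ 2 :=
      pow_le_pow_left₀ (norm_nonneg _) (by linarith) 2
    have h5 : x ^ 2 ≤ 1 / 9 + y := by
      rw [hx]
      nlinarith
    have h6 : (9 + η) * x ^ 2 ≤ 1 + η := by
      have := mul_le_mul_of_nonneg_left h5 (show 0 ≤ 9 + η by positivity)
      linarith
    have h7 := mul_le_mul_of_nonneg_left h4 (show 0 ≤ 1 + η by positivity)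
    linarith
  have h8 := mul_le_mul_of_nonneg_right hxx hS0
  have h9 := mul_le_mul_of_nonneg_left (add_le_add h2 h3) (show 0 ≤ 4 * x ^ 2 by positivity)
  linarith

end Pool.Agent.Lib.MP_cad76e_pr
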