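import Pool.Agent.Lib.MP_cad76e_pr.LA1

/-! Module DOM: pointwise domination of `(Dy y)^m` by `(Dy 1)^m`. -/

set_option autoImplicit false

namespace Pool.Agent.Lib.MP_cad76e_pr

open Finset

theorem Dy_apply_DOM {n : ℕ} [NeZero n] (y : ℂ) (f : G n → ℂ) (σ : G n) :
    Dy y f σ = (2 / 3 : ℂ) * f ((finRotate n)⁻¹ * σ) +
      (y / 3) * f (tau⁻¹ * ((finRotate n)⁻¹ * σ)) := by
  rfl

theorem Dy_dom {n : ℕ} [NeZero n] (y : ℂ) (hy : ‖y‖ = 1) (f : G n → ℂ) (F : G n → ℝ)
    (hF : ∀ σ, ‖f σ‖ ≤ F σ) (σ : G n) :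
    ‖Dy y f σ‖ ≤ (2 / 3) * F ((finRotate n)⁻¹ * σ) +
      (1 / 3) * F (tau⁻¹ * ((finRotate n)⁻¹ * σ)) := by
  rw [Dy_apply_DOM]
  refine (norm_add_le _ _).trans ?_
  have h1 : ‖(2 / 3 : ℂ) * f ((finRotate n)⁻¹ * σ)‖ ≤ (2 / 3) * F ((finRotate n)⁻¹ * σ) := by
    rw [norm_mul]
    have : ‖(2 / 3 : ℂ)‖ = 2 / 3 := by
      rw [norm_div]; norm_num
    rw [this]
    exact mul_le_mul_of_nonneg_left (hF _) (by norm_num)
  have h2 : ‖(y / 3) * f (tau⁻¹ * ((finRotate n)⁻¹ * σ))‖ ≤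
      (1 / 3) * F (tau⁻¹ * ((finRotate n)⁻¹ * σ)) := by
    rw [norm_mul]
    have : ‖(y / 3 : ℂ)‖ = 1 / 3 := by
      rw [norm_div, hy]; norm_num
    rw [this]
    exact mul_le_mul_of_nonneg_left (hF _) (by norm_num)
  exact add_le_add h1 h2

theorem Dy_pow_dom {n : ℕ} [NeZero n] (y : ℂ) (hy : ‖y‖ = 1) (f : G n → ℂ) (F : G n → ℝ)
    (hf : f = fun σ => (F σ : ℂ)) (hF : ∀ σ, 0 ≤ F σ) (m : ℕ) :
    ∃ H : G n → ℝ, (∀ σ, 0 ≤ H σ) ∧ (((Dy 1) ^ m) f = fun σ => (H σ : ℂ)) ∧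
      ∀ σ, ‖((Dy y) ^ m) f σ‖ ≤ H σ := by
  induction m with
  | zero =>
    refine ⟨F, hF, ?_, ?_⟩
    · simpa using hf
    · intro σ
      simp only [pow_zero, Module.End.one_apply]
      rw [hf]
      simp only [Complex.norm_real, Real.norm_eq_abs]
      rw [abs_of_nonneg (hF σ)]
  | succ m ih =>
    obtain ⟨H, hH0, hH1, hH2⟩ := ih
    refine ⟨fun σ => (2 / 3) * H ((finRotate n)⁻¹ * σ) +
      (1 / 3) * H (tau⁻¹ * ((finRotate n)⁻¹ * σ)), ?_, ?_, ?_⟩
    · intro σ
      have h1 := hH0 ((finRotate n)⁻¹ * σ)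
      have h2 := hH0 (tau⁻¹ * ((finRotate n)⁻¹ * σ))
      show 0 ≤ (2 / 3) * H ((finRotate n)⁻¹ * σ) + (1 / 3) * H (tau⁻¹ * ((finRotate n)⁻¹ * σ))
      positivity
    · rw [pow_succ', Module.End.mul_apply, hH1]
      funext σ
      rw [Dy_apply_DOM]
      push_cast
      ring
    · intro σ
      rw [pow_succ', Module.End.mul_apply]
      exact Dy_dom y hy _ H hH2 σ

/-- the restriction of an arrangement to the cards of `A` -/
def resA {n : ℕ} (A : Finset (Fin n)) (σ : G n) : ↥A → Fin n := fun a => σ a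

open Classical in
/-- normalised indicator of a fibre of `resA` -/
noncomputable def vA {n : ℕ} (A : Finset (Fin n)) (k : ↥A → Fin n) : G n → ℂ :=
  fun σ => (((if resA A σ = k then
    (Real.sqrt ((Finset.univ.filter (fun τ : G n => resA A τ = k)).card : ℝ))⁻¹ else 0 : ℝ)) : ℂ)

theorem mem_FA_iff {n : ℕ} (A : Finset (Fin n)) (f : G n → ℂ) :
    f ∈ FA A ↔ ∀ σ σ' : G n, resA A σ = resA A σ' → f σ = f σ' := by
  constructor
  · intro h σ σ' hs
    exact h σ σ' (fun a ha => congrFun hs ⟨a, ha⟩)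
  · intro h σ σ' hs
    exact h σ σ' (funext fun a => hs a a.2)

theorem vA_mem {n : ℕ} (A : Finset (Fin n)) (k : ↥A → Fin n) : vA A k ∈ FA A := by
  rw [mem_FA_iff]
  intro σ σ' h
  simp only [vA, h]

theorem vA_ON {n : ℕ} (A : Finset (Fin n)) :
    ON (fun k : {k : ↥A → Fin n // ∃ σ : G n, resA A σ = k} => vA A k.1) := by
  classical
  rintro ⟨i, hi⟩ ⟨j, hj⟩
  unfold ip
  by_cases hij : i = j
  · subst hij
    simp only [if_true]
    obtain ⟨σ₀, hσ₀⟩ := hi
    have hN : 0 < (Finset.univ.filter (fun τ : G n => resA A τ = i)).card :=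
      Finset.card_pos.mpr ⟨σ₀, by simp [hσ₀]⟩
    set N := (Finset.univ.filter (fun τ : G n => resA A τ = i)).card with hNdef
    have hval : ∀ σ : G n, (starRingEnd ℂ) (vA A i σ) * vA A i σ =
        if resA A σ = i then ((N : ℂ))⁻¹ else 0 := by
      intro σ
      unfold vA
      rw [Complex.conj_ofReal]
      split_ifs with h
      · rw [← Complex.ofReal_mul, ← mul_inv, Real.mul_self_sqrt (Nat.cast_nonneg _)]
        rw [Complex.ofReal_inv, Complex.ofReal_natCast]
      · simp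
    rw [Finset.sum_congr rfl (fun σ _ => hval σ), ← Finset.sum_filter, Finset.sum_const]
    rw [← hNdef, nsmul_eq_mul]
    exact mul_inv_cancel₀ (by exact_mod_cast hN.ne')
  · have hne : ¬ ((⟨i, hi⟩ : {k : ↥A → Fin n // ∃ σ : G n, resA A σ = k}) = ⟨j, hj⟩) := by
      intro h
      exact hij (congrArg Subtype.val h)
    rw [if_neg hne]
    apply Finset.sum_eq_zero
    intro σ _
    unfold vA
    by_cases h1 : resA A σ = i
    · have h2 : ¬ resA A σ = j := fun h => hij (h1.symm.trans h)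
      simp only [if_neg h2, Complex.ofReal_zero, mul_zero]
    · simp only [if_neg h1, Complex.ofReal_zero, map_zero, zero_mul]

theorem vA_span {n : ℕ} (A : Finset (Fin n)) :
    Submodule.span ℂ (Set.range
      (fun k : {k : ↥A → Fin n // ∃ σ : G n, resA A σ = k} => vA A k.1)) = FA A := by
  classical
  apply le_antisymm
  · rw [Submodule.span_le]
    rintro _ ⟨k, rfl⟩
    exact vA_mem A k.1
  · intro f hf
    rw [mem_FA_iff] at hf
    have key : f = ∑ k : {k : ↥A → Fin n // ∃ σ : G n, resA A σ = k},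
        (f k.2.choose * ((Real.sqrt ((Finset.univ.filter
          (fun τ : G n => resA A τ = k.1)).card : ℝ) : ℝ) : ℂ)) • vA A k.1 := by
      funext σ
      rw [Finset.sum_apply]
      rw [Finset.sum_eq_single (⟨resA A σ, σ, rfl⟩ :
        {k : ↥A → Fin n // ∃ σ : G n, resA A σ = k})]
      · simp only [Pi.smul_apply, smul_eq_mul]
        have h1 : f (Exists.choose (⟨σ, rfl⟩ : ∃ σ' : G n, resA A σ' = resA A σ)) = f σ := by
          apply hf
          exact Exists.choose_spec (⟨σ, rfl⟩ : ∃ σ' : G n, resA A σ' = resA A σ)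
        rw [h1]
        have hN : 0 < (Finset.univ.filter (fun τ : G n => resA A τ = resA A σ)).card :=
          Finset.card_pos.mpr ⟨σ, by simp⟩
        have hs : Real.sqrt ((Finset.univ.filter
            (fun τ : G n => resA A τ = resA A σ)).card : ℝ) ≠ 0 := by
          rw [Real.sqrt_ne_zero']
          exact_mod_cast hN
        unfold vA
        rw [if_pos rfl, mul_assoc, ← Complex.ofReal_mul, mul_inv_cancel₀ hs]
        simp
      · intro k _ hk
        have : ¬ resA A σ = k.1 := by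
          intro h
          apply hk
          exact Subtype.ext h.symm
        simp only [Pi.smul_apply, smul_eq_mul, vA, if_neg this, Complex.ofReal_zero, mul_zero]
      · intro h
        exact absurd (Finset.mem_univ _) h
    rw [key]
    apply Submodule.sum_mem
    intro k _
    apply Submodule.smul_mem
    exact Submodule.subset_span ⟨k, rfl⟩

theorem hs_FA_Dy_le {n : ℕ} [NeZero n] (A : Finset (Fin n)) (y : ℂ) (hy : ‖y‖ = 1) (m : ℕ) :
    hs (FA A) ((Dy y) ^ m) ≤ hs (FA A) ((Dy 1) ^ m) := by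
  classical
  rw [hs_eq_of_ON (FA A) ((Dy y) ^ m) _ (vA_ON A) (vA_span A),
    hs_eq_of_ON (FA A) ((Dy 1) ^ m) _ (vA_ON A) (vA_span A)]
  apply Finset.sum_le_sum
  intro k _
  obtain ⟨H, hH0, hH1, hH2⟩ := Dy_pow_dom y hy (vA A k.1)
    (fun σ => if resA A σ = k.1 then
      (Real.sqrt ((Finset.univ.filter (fun τ : G n => resA A τ = k.1)).card : ℝ))⁻¹ else 0)
    rfl (fun σ => by
      show 0 ≤ (if resA A σ = k.1 then
        (Real.sqrt ((Finset.univ.filter (fun τ : G n => resA A τ = k.1)).card : ℝ))⁻¹ else 0)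
      split_ifs
      · positivity
      · exact le_rfl) m
  unfold nsq
  rw [hH1]
  apply Finset.sum_le_sum
  intro σ _
  have h3 : ‖((H σ : ℝ) : ℂ)‖ = H σ := by
    rw [Complex.norm_real, Real.norm_eq_abs, abs_of_nonneg (hH0 σ)]
  rw [h3]
  exact pow_le_pow_left₀ (norm_nonneg _) (hH2 σ) 2

end Pool.Agent.Lib.MP_cad76e_pr
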