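import Mathlib

/-! Common definitions for the cut-off proof (MP_cad76e_pr, S19637).
Arrangements are `σ : Perm (Fin n)`, `σ a` is the position of card `a`; the walk multiplies
on the left.  Functions are plain functions `Perm (Fin n) → ℂ`. -/

set_option autoImplicit false

namespace Pool.Agent.Lib.MP_cad76e_pr

open Finset

/-- arrangements of `n` cards: `σ a` is the position of card `a` -/
abbrev G (n : ℕ) := Equiv.Perm (Fin n)

/-- squared norm of a complex function on a finite type -/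
noncomputable def nsq {ι : Type*} [Fintype ι] (f : ι → ℂ) : ℝ := ∑ x, ‖f x‖ ^ 2

/-- inner product, conjugate linear in the first variable -/
noncomputable def ip {ι : Type*} [Fintype ι] (f g : ι → ℂ) : ℂ :=
  ∑ x, (starRingEnd ℂ) (f x) * g x

/-- `T'` is the adjoint of `T` -/
def IsAdj {ι : Type*} [Fintype ι] (T T' : Module.End ℂ (ι → ℂ)) : Prop :=
  ∀ f g : ι → ℂ, ip (T f) g = ip f (T' g)

/-- orthonormal family of functions -/
def ON {ι κ : Type*} [Fintype ι] [DecidableEq κ] (v : κ → (ι → ℂ)) : Prop :=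
  ∀ i j, ip (v i) (v j) = if i = j then 1 else 0

/-- squared Hilbert-Schmidt norm of `T` restricted to the subspace `U` -/
noncomputable def hs {ι : Type*} [Fintype ι] (U : Submodule ℂ (ι → ℂ))
    (T : Module.End ℂ (ι → ℂ)) : ℝ :=
  ∑ i, nsq (T ((WithLp.linearEquiv 2 ℂ (ι → ℂ))
    ((stdOrthonormalBasis ℂ (U.map (WithLp.linearEquiv 2 ℂ (ι → ℂ)).symm.toLinearMap) i :
      U.map (WithLp.linearEquiv 2 ℂ (ι → ℂ)).symm.toLinearMap) : EuclideanSpace ℂ ι)))

/-- left translation: `(Lg g f) σ = f (g⁻¹ σ)` -/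
def Lg {n : ℕ} (g : G n) : Module.End ℂ (G n → ℂ) where
  toFun f := fun σ => f (g⁻¹ * σ)
  map_add' _ _ := rfl
  map_smul' _ _ := rfl

/-- the transposition of the positions `j, j+1` (cyclically) -/
def sj {n : ℕ} [NeZero n] (j : Fin n) : G n := Equiv.swap j (j + 1)

/-- the projection `π_j = (1 - s_j)/2` -/
noncomputable def piE {n : ℕ} [NeZero n] (j : Fin n) : Module.End ℂ (G n → ℂ) :=
  (1 / 2 : ℂ) • (1 - Lg (sj j))

/-- `P_j = 1 - b π_j` -/
noncomputable def PE {n : ℕ} [NeZero n] (b : ℂ) (j : Fin n) : Module.End ℂ (G n → ℂ) :=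
  1 - b • piE j

/-- the round operator `S = P_0 P_1 ⋯ P_{n-1}` -/
noncomputable def SE {n : ℕ} [NeZero n] (b : ℂ) : Module.End ℂ (G n → ℂ) :=
  ((List.range n).map (fun j => PE b (Fin.ofNat n j))).prod

/-- functions of the positions of the cards in `A` -/
def FA {n : ℕ} (A : Finset (Fin n)) : Submodule ℂ (G n → ℂ) where
  carrier := {f | ∀ σ σ' : G n, (∀ a ∈ A, σ a = σ' a) → f σ = f σ'}
  add_mem' := by
    intro f g hf hg σ σ' h
    simp only [Pi.add_apply, hf σ σ' h, hg σ σ' h]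
  zero_mem' := by
    intro σ σ' _
    rfl
  smul_mem' := by
    intro c f hf σ σ' h
    simp only [Pi.smul_apply, hf σ σ' h]

/-- functions of the positions of the cards in `A` all of whose one-card marginals vanish -/
def UA {n : ℕ} (A : Finset (Fin n)) : Submodule ℂ (G n → ℂ) where
  carrier := {f | f ∈ FA A ∧ ∀ a ∈ A, ∀ σ : G n, ∑ c ∈ (A.erase a)ᶜ, f (σ * Equiv.swap a c) = 0}
  add_mem' := by
    rintro f g ⟨hf, hf'⟩ ⟨hg, hg'⟩
    refine ⟨(FA A).add_mem hf hg, fun a ha σ => ?_⟩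
    simp only [Pi.add_apply, Finset.sum_add_distrib, hf' a ha σ, hg' a ha σ, add_zero]
  zero_mem' := ⟨(FA A).zero_mem, fun a _ σ => by simp⟩
  smul_mem' := by
    rintro c f ⟨hf, hf'⟩
    refine ⟨(FA A).smul_mem c hf, fun a ha σ => ?_⟩
    simp only [Pi.smul_apply, ← Finset.smul_sum, hf' a ha σ, smul_zero]

/-- card `a` moves one position forward, exchanging its place with the card it meets -/
def stepFwd {n : ℕ} [NeZero n] (a : Fin n) (σ : G n) : G n := Equiv.swap (σ a) (σ a + 1) * σ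

/-- total energy of the labelled cards -/
noncomputable def Etot {n : ℕ} [NeZero n] (A : Finset (Fin n)) (g : G n → ℂ) : ℝ :=
  ∑ a ∈ A, ∑ σ, ‖g (stepFwd a σ) - g σ‖ ^ 2

/-- good steps: card `a` is at `j` with `1 ≤ j ≤ n-2`, the position in front of it is not
occupied by a card of `A`, nor are the `d` positions behind it -/
def Good {n : ℕ} [NeZero n] (d : ℕ) (A : Finset (Fin n)) (a : Fin n) (σ : G n) : Prop :=
  1 ≤ (σ a : ℕ) ∧ (σ a : ℕ) + 2 ≤ n ∧ σ.symm (σ a + 1) ∉ A ∧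
    ∀ t : ℕ, 1 ≤ t → t ≤ d → σ.symm (σ a - (Fin.ofNat n t)) ∉ A

/-- average over one turn of card `a` -/
noncomputable def avgO {n : ℕ} [NeZero n] (a : Fin n) (g : G n → ℂ) : G n → ℂ :=
  fun σ => (1 / (n : ℂ)) * ∑ i ∈ Finset.range n, g ((stepFwd a)^[i] σ)

/-- functions of mean zero -/
def V0 (n : ℕ) : Submodule ℂ (G n → ℂ) where
  carrier := {f | ∑ σ, f σ = 0}
  add_mem' := by
    intro f g hf hg
    simp only [Set.mem_ofPred_eq, Pi.add_apply, Finset.sum_add_distrib] at *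
    rw [hf, hg, add_zero]
  zero_mem' := by simp
  smul_mem' := by
    intro c f hf
    simp only [Set.mem_ofPred_eq, Pi.smul_apply, ← Finset.smul_sum] at *
    rw [hf, smul_zero]

/-- block number of a position (blocks of length `L`) -/
def blk {n : ℕ} (L : ℕ) (p : Fin n) : ℕ := (p : ℕ) / L

/-- functions supported where each card `a ∈ A` lies in block `α a`, depending there only on
the positions of the cards of `B` -/
def FB {n r : ℕ} (L : ℕ) (A : Finset (Fin n)) (α : ↥A → Fin r) (B : Finset (Fin n)) :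
    Submodule ℂ (G n → ℂ) where
  carrier := {f | (∀ σ : G n, (¬ ∀ a : ↥A, blk L (σ a) = (α a : ℕ)) → f σ = 0) ∧
    ∀ σ σ' : G n, (∀ a : ↥A, blk L (σ a) = (α a : ℕ)) → (∀ a : ↥A, blk L (σ' a) = (α a : ℕ)) →
      (∀ b ∈ B, σ b = σ' b) → f σ = f σ'}
  add_mem' := by
    rintro f g ⟨hf, hf'⟩ ⟨hg, hg'⟩
    refine ⟨fun σ h => ?_, fun σ σ' h h' h'' => ?_⟩
    · simp only [Pi.add_apply, hf σ h, hg σ h, add_zero]
    · simp only [Pi.add_apply, hf' σ σ' h h' h'', hg' σ σ' h h' h'']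
  zero_mem' := ⟨fun _ _ => rfl, fun _ _ _ _ _ => rfl⟩
  smul_mem' := by
    rintro c f ⟨hf, hf'⟩
    refine ⟨fun σ h => ?_, fun σ σ' h h' h'' => ?_⟩
    · simp only [Pi.smul_apply, hf σ h, smul_zero]
    · simp only [Pi.smul_apply, hf' σ σ' h h' h'']

/-- functions in `FB` with vanishing one-card marginals (within the blocks) -/
def UB {n r : ℕ} (L : ℕ) (A : Finset (Fin n)) (α : ↥A → Fin r) (B : Finset (Fin n)) :
    Submodule ℂ (G n → ℂ) where
  carrier := {f | f ∈ FB L A α B ∧ ∀ b ∈ B, ∀ σ : G n,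
    ∑ c ∈ (B.erase b)ᶜ.filter (fun c => blk L (σ c) = blk L (σ b)), f (σ * Equiv.swap b c) = 0}
  add_mem' := by
    rintro f g ⟨hf, hf'⟩ ⟨hg, hg'⟩
    refine ⟨(FB L A α B).add_mem hf hg, fun a ha σ => ?_⟩
    simp only [Pi.add_apply, Finset.sum_add_distrib, hf' a ha σ, hg' a ha σ, add_zero]
  zero_mem' := ⟨(FB L A α B).zero_mem, fun a _ σ => by simp⟩
  smul_mem' := by
    rintro c f ⟨hf, hf'⟩
    refine ⟨(FB L A α B).smul_mem c hf, fun a ha σ => ?_⟩
    simp only [Pi.smul_apply, ← Finset.smul_sum, hf' a ha σ, smul_zero]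

/-- `(1/4) ∑ π_j` over the `j` such that `j, j+1` lie in the same block -/
noncomputable def H0 {n : ℕ} [NeZero n] (L : ℕ) : Module.End ℂ (G n → ℂ) :=
  (1 / 4 : ℂ) • ∑ j ∈ Finset.univ.filter (fun j : Fin n => (j : ℕ) + 1 < n ∧
    blk L j = ((j : ℕ) + 1) / L), piE j

/-- the two generators -/
def tau {n : ℕ} [NeZero n] : G n := Equiv.swap 0 1

/-- law of the walk after `T` steps -/
noncomputable def mu {n : ℕ} [NeZero n] : ℕ → G n → ℝ
  | 0 => fun g => if g = 1 then 1 else 0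
  | T + 1 => fun g => (1 / 2) * mu T (tau⁻¹ * g) + (1 / 2) * mu T ((finRotate n)⁻¹ * g)

/-- sub-law of the words of length `T` with exactly `j` letters `c` -/
noncomputable def eT {n : ℕ} [NeZero n] : ℕ → ℕ → G n → ℝ
  | 0 => fun j g => if j = 0 ∧ g = 1 then 1 else 0
  | T + 1 => fun j g => (1 / 2) * eT T j (tau⁻¹ * g) +
      (if j = 0 then 0 else (1 / 2) * eT T (j - 1) ((finRotate n)⁻¹ * g))

/-- `∑ E, y ^ E * bE m E = (c (2/3 + y τ/3)) ^ m` as a function on the group -/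
noncomputable def bE {n : ℕ} [NeZero n] : ℕ → ℕ → G n → ℝ
  | 0 => fun E g => if E = 0 ∧ g = 1 then 1 else 0
  | m + 1 => fun E g => (2 / 3) * bE m E ((finRotate n)⁻¹ * g) +
      (if E = 0 then 0 else (1 / 3) * bE m (E - 1) ((finRotate n * tau)⁻¹ * g))

/-- `D_y = c (2/3 + y τ/3)` as a left translation operator -/
noncomputable def Dy {n : ℕ} [NeZero n] (y : ℂ) : Module.End ℂ (G n → ℂ) :=
  Lg (finRotate n) * ((2 / 3 : ℂ) • 1 + (y / 3) • Lg tau)

/-- real part orthogonal to the trivial and the sign character -/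
noncomputable def perp {n : ℕ} (x : G n → ℝ) : G n → ℝ := fun g =>
  x g - (∑ h, x h) / (n.factorial : ℝ) -
    ((Equiv.Perm.sign g : ℤ) : ℝ) * (∑ h : G n, ((Equiv.Perm.sign h : ℤ) : ℝ) * x h) / (n.factorial : ℝ)

/-- complex version of `perp` -/
noncomputable def perpC {n : ℕ} (x : G n → ℂ) : G n → ℂ := fun g =>
  x g - (∑ h, x h) / (n.factorial : ℂ) -
    ((Equiv.Perm.sign g : ℤ) : ℂ) * (∑ h : G n, ((Equiv.Perm.sign h : ℤ) : ℂ) * x h) / (n.factorial : ℂ)

/-- the point mass at the identity -/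
noncomputable def dlt {n : ℕ} : G n → ℂ := fun g => if g = 1 then 1 else 0

/-- `θ = exp (iκ - κ²/(2n))`, `κ = 2π/n` -/
noncomputable def th (n : ℕ) : ℂ :=
  Complex.exp (Complex.I * (2 * Real.pi / n) - (2 * Real.pi / n) ^ 2 / (2 * n))

/-- approximate one-card eigenfunction -/
noncomputable def vv (n : ℕ) (y : Fin n) : ℂ :=
  if (y : ℕ) = 0 then (th n + 1) / (3 * th n - 1)
  else if (y : ℕ) = 1 then 2 * th n / (3 * th n - 1)
  else th n ^ ((y : ℕ) - 1)

/-- the test statistic of the lower bound -/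
noncomputable def ph (n : ℕ) (σ : G n) : ℂ := ∑ a, (starRingEnd ℂ) (vv n a) * vv n (σ a)

end Pool.Agent.Lib.MP_cad76e_pr
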