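import Pool.Agent.Lib.MP_cad76e_pr.Defs

/-! Module LA1: basic facts on the Hilbert-Schmidt norm `hs`. -/

set_option autoImplicit false
set_option linter.unusedSectionVars false

namespace Pool.Agent.Lib.MP_cad76e_pr

open Finset Filter Topology

section ip
variable {ι : Type*} [Fintype ι]

theorem la_nsq_nonneg (f : ι → ℂ) : 0 ≤ nsq f := by
  unfold nsq; positivity

theorem la_ip_add_right (f g h : ι → ℂ) : ip f (g + h) = ip f g + ip f h := by
  simp [ip, mul_add, Finset.sum_add_distrib]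

theorem la_ip_add_left (f g h : ι → ℂ) : ip (f + g) h = ip f h + ip g h := by
  simp [ip, add_mul, Finset.sum_add_distrib]

theorem la_ip_smul_right (f g : ι → ℂ) (c : ℂ) : ip f (c • g) = c * ip f g := by
  simp only [ip, Pi.smul_apply, smul_eq_mul, Finset.mul_sum]
  exact Finset.sum_congr rfl fun x _ => by ring

theorem la_ip_smul_left (f g : ι → ℂ) (c : ℂ) : ip (c • f) g = (starRingEnd ℂ) c * ip f g := by
  simp only [ip, Pi.smul_apply, smul_eq_mul, Finset.mul_sum, map_mul]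
  exact Finset.sum_congr rfl fun x _ => by ring

theorem la_ip_zero_right (f : ι → ℂ) : ip f 0 = 0 := by simp [ip]

theorem la_ip_zero_left (f : ι → ℂ) : ip 0 f = 0 := by simp [ip]

theorem la_ip_neg_right (f g : ι → ℂ) : ip f (-g) = -ip f g := by
  simp [ip, Finset.sum_neg_distrib]

theorem la_ip_neg_left (f g : ι → ℂ) : ip (-f) g = -ip f g := by
  simp [ip, Finset.sum_neg_distrib]

theorem la_ip_sub_right (f g h : ι → ℂ) : ip f (g - h) = ip f g - ip f h := by
  rw [sub_eq_add_neg, la_ip_add_right, la_ip_neg_right, sub_eq_add_neg]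

theorem la_ip_sub_left (f g h : ι → ℂ) : ip (f - g) h = ip f h - ip g h := by
  rw [sub_eq_add_neg, la_ip_add_left, la_ip_neg_left, sub_eq_add_neg]

theorem la_ip_sum_right {κ : Type*} (s : Finset κ) (f : ι → ℂ) (g : κ → (ι → ℂ)) :
    ip f (∑ k ∈ s, g k) = ∑ k ∈ s, ip f (g k) := by
  classical
  induction s using Finset.induction_on with
  | empty => simp [la_ip_zero_right]
  | insert a s ha ih => rw [Finset.sum_insert ha, Finset.sum_insert ha, la_ip_add_right, ih]

theorem la_ip_sum_left {κ : Type*} (s : Finset κ) (f : κ → (ι → ℂ)) (g : ι → ℂ) :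
    ip (∑ k ∈ s, f k) g = ∑ k ∈ s, ip (f k) g := by
  classical
  induction s using Finset.induction_on with
  | empty => simp [la_ip_zero_left]
  | insert a s ha ih => rw [Finset.sum_insert ha, Finset.sum_insert ha, la_ip_add_left, ih]

theorem la_ip_conj (f g : ι → ℂ) : (starRingEnd ℂ) (ip f g) = ip g f := by
  simp only [ip, map_sum, map_mul, Complex.conj_conj]
  exact Finset.sum_congr rfl fun x _ => by ring

theorem la_norm_ip_comm (f g : ι → ℂ) : ‖ip f g‖ = ‖ip g f‖ := by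
  rw [← la_ip_conj f g, Complex.norm_conj]

theorem la_ip_self (f : ι → ℂ) : ip f f = (nsq f : ℂ) := by
  simp only [ip, nsq, Complex.ofReal_sum]
  refine Finset.sum_congr rfl fun x _ => ?_
  rw [mul_comm, Complex.mul_conj, Complex.normSq_eq_norm_sq]

theorem la_ip_self_re (f : ι → ℂ) : (ip f f).re = nsq f := by
  rw [la_ip_self, Complex.ofReal_re]

theorem la_nsq_add (f g : ι → ℂ) : nsq (f + g) = nsq f + 2 * (ip f g).re + nsq g := by
  have h : ip (f + g) (f + g) = ip f f + (ip f g + ip g f) + ip g g := by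
    rw [la_ip_add_left, la_ip_add_right, la_ip_add_right]; ring
  have h1 := congrArg Complex.re h
  rw [la_ip_self_re, Complex.add_re, Complex.add_re, Complex.add_re, la_ip_self_re, la_ip_self_re] at h1
  have h2 : (ip g f).re = (ip f g).re := by rw [← la_ip_conj f g, Complex.conj_re]
  rw [h1, h2]; ring

theorem la_nsq_sub (f g : ι → ℂ) : nsq (f - g) = nsq f - 2 * (ip f g).re + nsq g := by
  have h : ip (f - g) (f - g) = ip f f - (ip f g + ip g f) + ip g g := by
    rw [la_ip_sub_left, la_ip_sub_right, la_ip_sub_right]; ring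
  have h1 := congrArg Complex.re h
  rw [la_ip_self_re, Complex.add_re, Complex.sub_re, Complex.add_re, la_ip_self_re, la_ip_self_re] at h1
  have h2 : (ip g f).re = (ip f g).re := by rw [← la_ip_conj f g, Complex.conj_re]
  rw [h1, h2]; ring

theorem la_nsq_smul (c : ℂ) (f : ι → ℂ) : nsq (c • f) = ‖c‖ ^ 2 * nsq f := by
  simp only [nsq, Pi.smul_apply, smul_eq_mul, norm_mul, mul_pow, Finset.mul_sum]

theorem la_nsq_eq_zero {f : ι → ℂ} (h : nsq f = 0) : f = 0 := by
  funext x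
  unfold nsq at h
  rw [Finset.sum_eq_zero_iff_of_nonneg (fun x _ => by positivity)] at h
  have := h x (Finset.mem_univ x)
  simpa using this

/-- Riesz representation of the coordinates of `T f` -/
theorem la_apply_eq_ip [DecidableEq ι] (T : Module.End ℂ (ι → ℂ)) (f : ι → ℂ) (x : ι) :
    T f x = ip (fun y => (starRingEnd ℂ) (T (Pi.single y 1) x)) f := by
  have h : f = ∑ y, f y • (Pi.single y (1 : ℂ) : ι → ℂ) := by
    funext z
    simp [Finset.sum_apply, Pi.single_apply]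
  conv_lhs => rw [h]
  rw [map_sum, Finset.sum_apply]
  unfold ip
  refine Finset.sum_congr rfl fun y _ => ?_
  rw [map_smul, Pi.smul_apply, smul_eq_mul, Complex.conj_conj, mul_comm]

theorem la_nsq_apply_eq [DecidableEq ι] (T : Module.End ℂ (ι → ℂ)) (f : ι → ℂ) :
    nsq (T f) = ∑ x, ‖ip (fun y => (starRingEnd ℂ) (T (Pi.single y 1) x)) f‖ ^ 2 := by
  unfold nsq
  exact Finset.sum_congr rfl fun x _ => by rw [← la_apply_eq_ip T f x]

end ip

section on
variable {ι κ κ' : Type*} [Fintype ι] [Fintype κ] [DecidableEq κ] [Fintype κ'] [DecidableEq κ']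

theorem ON.expand {v : κ → (ι → ℂ)} (hv : ON v) {p : ι → ℂ}
    (hp : p ∈ Submodule.span ℂ (Set.range v)) : p = ∑ k, ip (v k) p • v k := by
  obtain ⟨c, hc⟩ := (Submodule.mem_span_range_iff_exists_fun ℂ).1 hp
  have h : ∀ k, ip (v k) p = c k := by
    intro k
    rw [← hc, la_ip_sum_right]
    simp only [la_ip_smul_right]
    rw [Finset.sum_eq_single k]
    · rw [hv k k, if_pos rfl, mul_one]
    · intro l _ hl
      rw [hv k l, if_neg hl.symm, mul_zero]
    · intro h
      exact absurd (Finset.mem_univ k) h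
  simp only [h]
  exact hc.symm

theorem ON.nsq_one {v : κ → (ι → ℂ)} (hv : ON v) (k : κ) : nsq (v k) = 1 := by
  have h := hv k k
  rw [if_pos rfl, la_ip_self] at h
  exact_mod_cast h

/-- the projection on the span of an orthonormal family -/
theorem ON.ip_proj {v : κ → (ι → ℂ)} (hv : ON v) (a : ι → ℂ) {u : ι → ℂ}
    (hu : u ∈ Submodule.span ℂ (Set.range v)) : ip (∑ k, ip (v k) a • v k) u = ip a u := by
  conv_rhs => rw [hv.expand hu]
  rw [la_ip_sum_left, la_ip_sum_right]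
  refine Finset.sum_congr rfl fun k _ => ?_
  rw [la_ip_smul_left, la_ip_smul_right, la_ip_conj, mul_comm]

theorem ON.nsq_proj {v : κ → (ι → ℂ)} (hv : ON v) (a : ι → ℂ) :
    nsq (∑ k, ip (v k) a • v k) = ∑ k, ‖ip (v k) a‖ ^ 2 := by
  have h1 : ip (∑ k, ip (v k) a • v k) (∑ k, ip (v k) a • v k) =
      ((∑ k, ‖ip (v k) a‖ ^ 2 : ℝ) : ℂ) := by
    rw [hv.ip_proj a (Submodule.sum_mem _ fun k _ =>
      Submodule.smul_mem _ _ (Submodule.subset_span ⟨k, rfl⟩)), la_ip_sum_right]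
    push_cast
    refine Finset.sum_congr rfl fun k _ => ?_
    rw [la_ip_smul_right, ← la_ip_conj (v k) a, Complex.mul_conj, Complex.normSq_eq_norm_sq]
    push_cast
    rfl
  rw [la_ip_self] at h1
  exact_mod_cast h1

/-- Bessel's inequality -/
theorem ON.bessel {v : κ → (ι → ℂ)} (hv : ON v) (a : ι → ℂ) :
    ∑ k, ‖ip (v k) a‖ ^ 2 ≤ nsq a := by
  have h0 := la_nsq_nonneg (a - ∑ k, ip (v k) a • v k)
  have hm : (∑ k, ip (v k) a • v k) ∈ Submodule.span ℂ (Set.range v) :=
    Submodule.sum_mem _ fun k _ => Submodule.smul_mem _ _ (Submodule.subset_span ⟨k, rfl⟩)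
  rw [la_nsq_sub, ← hv.ip_proj a hm, la_ip_self_re, hv.nsq_proj] at h0
  linarith

/-- comparison of two orthonormal families -/
theorem ON.compare {v : κ → (ι → ℂ)} (hv : ON v) {w : κ' → (ι → ℂ)} (hw : ON w)
    (h : ∀ k, v k ∈ Submodule.span ℂ (Set.range w)) (a : ι → ℂ) :
    ∑ k, ‖ip a (v k)‖ ^ 2 ≤ ∑ l, ‖ip a (w l)‖ ^ 2 := by
  have h1 : ∀ k, ‖ip a (v k)‖ = ‖ip (v k) (∑ l, ip (w l) a • w l)‖ := by
    intro k
    rw [← hw.ip_proj a (h k), la_norm_ip_comm]
  simp only [h1]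
  refine (hv.bessel _).trans (le_of_eq ?_)
  rw [hw.nsq_proj]
  exact Finset.sum_congr rfl fun l _ => by rw [la_norm_ip_comm]

theorem ON.compare_T {v : κ → (ι → ℂ)} (hv : ON v) {w : κ' → (ι → ℂ)} (hw : ON w)
    (h : ∀ k, v k ∈ Submodule.span ℂ (Set.range w)) (T : Module.End ℂ (ι → ℂ)) :
    ∑ k, nsq (T (v k)) ≤ ∑ l, nsq (T (w l)) := by
  classical
  rw [Finset.sum_congr rfl fun k _ => la_nsq_apply_eq T (v k),
    Finset.sum_congr rfl fun k _ => la_nsq_apply_eq T (w k), Finset.sum_comm]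
  conv_rhs => rw [Finset.sum_comm]
  exact Finset.sum_le_sum fun x _ => hv.compare hw h _

theorem ON.linearIndependent {v : κ → (ι → ℂ)} (hv : ON v) : LinearIndependent ℂ v := by
  rw [Fintype.linearIndependent_iff]
  intro c hc k
  have h1 : ip (v k) (∑ l, c l • v l) = c k := by
    rw [la_ip_sum_right]
    simp only [la_ip_smul_right]
    rw [Finset.sum_eq_single k]
    · rw [hv k k, if_pos rfl, mul_one]
    · intro l _ hl
      rw [hv k l, if_neg hl.symm, mul_zero]
    · intro h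
      exact absurd (Finset.mem_univ k) h
  rw [hc, la_ip_zero_right] at h1
  exact h1.symm

end on

/-- the orthonormal basis used in the definition of `hs` -/
theorem exists_std_ON {ι : Type*} [Fintype ι] (U : Submodule ℂ (ι → ℂ)) :
    ∃ (d : ℕ) (v : Fin d → (ι → ℂ)), ON v ∧ Submodule.span ℂ (Set.range v) = U ∧
      ∀ T : Module.End ℂ (ι → ℂ), hs U T = ∑ k, nsq (T (v k)) := by
  set e : (ι → ℂ) ≃ₗ[ℂ] EuclideanSpace ℂ ι := (WithLp.linearEquiv 2 ℂ (ι → ℂ)).symm with he
  set U' := U.map e.toLinearMap with hU'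
  refine ⟨_, fun i => (WithLp.linearEquiv 2 ℂ (ι → ℂ))
    ((stdOrthonormalBasis ℂ U' i : U') : EuclideanSpace ℂ ι), ?_, ?_, fun T => rfl⟩
  · intro i j
    have h1 := (stdOrthonormalBasis ℂ U').orthonormal
    rw [orthonormal_iff_ite] at h1
    have h2 := h1 i j
    rw [Submodule.coe_inner, PiLp.inner_apply] at h2
    rw [← h2]
    unfold ip
    refine Finset.sum_congr rfl fun x _ => ?_
    rw [RCLike.inner_apply, mul_comm]
    rfl
  · have h1 := (stdOrthonormalBasis ℂ U').toBasis.span_eq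
    have h2 : Submodule.span ℂ (Set.range fun i =>
        ((stdOrthonormalBasis ℂ U' i : U') : EuclideanSpace ℂ ι)) = U' := by
      have h3 := congrArg (Submodule.map U'.subtype) h1
      rw [Submodule.map_span, Submodule.map_top, Submodule.range_subtype, ← Set.range_comp] at h3
      refine Eq.trans ?_ h3
      congr 2
    have h4 := congrArg (Submodule.map e.symm.toLinearMap) h2
    have h5 : Submodule.map e.symm.toLinearMap U' = U := by
      have h6 : e.symm.toLinearMap ∘ₗ e.toLinearMap = LinearMap.id := by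
        ext x
        simp
      rw [hU', ← Submodule.map_comp, h6, Submodule.map_id]
    rw [Submodule.map_span, ← Set.range_comp, h5] at h4
    exact h4

theorem hs_eq_of_ON {ι κ : Type*} [Fintype ι] [Fintype κ] [DecidableEq κ]
    (U : Submodule ℂ (ι → ℂ)) (T : Module.End ℂ (ι → ℂ)) (v : κ → (ι → ℂ)) (hv : ON v)
    (hspan : Submodule.span ℂ (Set.range v) = U) : hs U T = ∑ k, nsq (T (v k)) := by
  obtain ⟨d, w, hw, hwU, hT⟩ := exists_std_ON U
  rw [hT]
  apply le_antisymm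
  · refine hw.compare_T hv (fun k => ?_) T
    rw [hspan, ← hwU]
    exact Submodule.subset_span ⟨k, rfl⟩
  · refine hv.compare_T hw (fun k => ?_) T
    rw [hwU, ← hspan]
    exact Submodule.subset_span ⟨k, rfl⟩

theorem exists_ON {ι : Type*} [Fintype ι] (U : Submodule ℂ (ι → ℂ)) :
    ∃ v : Fin (Module.finrank ℂ U) → (ι → ℂ), ON v ∧ Submodule.span ℂ (Set.range v) = U := by
  obtain ⟨d, w, hw, hwU, -⟩ := exists_std_ON U
  have hd : d = Module.finrank ℂ U := by
    have h1 := finrank_span_eq_card hw.linearIndependent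
    rw [hwU, Fintype.card_fin] at h1
    exact h1.symm
  subst hd
  exact ⟨w, hw, hwU⟩

theorem hs_nonneg {ι : Type*} [Fintype ι] (U : Submodule ℂ (ι → ℂ))
    (T : Module.End ℂ (ι → ℂ)) : 0 ≤ hs U T := by
  unfold hs
  exact Finset.sum_nonneg fun i _ => la_nsq_nonneg _

theorem hs_mono {ι : Type*} [Fintype ι] {U U' : Submodule ℂ (ι → ℂ)} (h : U ≤ U')
    (T : Module.End ℂ (ι → ℂ)) : hs U T ≤ hs U' T := by
  obtain ⟨v, hv, hvU⟩ := exists_ON U
  obtain ⟨w, hw, hwU⟩ := exists_ON U'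
  rw [hs_eq_of_ON U T v hv hvU, hs_eq_of_ON U' T w hw hwU]
  refine hv.compare_T hw (fun k => ?_) T
  rw [hwU]
  apply h
  rw [← hvU]
  exact Submodule.subset_span ⟨k, rfl⟩

theorem hs_comp_le {ι : Type*} [Fintype ι] {U U' : Submodule ℂ (ι → ℂ)}
    (R T : Module.End ℂ (ι → ℂ)) (C : ℝ) (hC : 0 ≤ C) (hT : ∀ f ∈ U, T f ∈ U')
    (hR : ∀ f ∈ U', nsq (R f) ≤ C * nsq f) : hs U (R * T) ≤ C * hs U T := by
  obtain ⟨v, hv, hvU⟩ := exists_ON U
  rw [hs_eq_of_ON U _ v hv hvU, hs_eq_of_ON U T v hv hvU, Finset.mul_sum]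
  refine Finset.sum_le_sum fun k _ => ?_
  refine hR _ (hT _ ?_)
  rw [← hvU]
  exact Submodule.subset_span ⟨k, rfl⟩

theorem hs_smul {ι : Type*} [Fintype ι] (U : Submodule ℂ (ι → ℂ))
    (T : Module.End ℂ (ι → ℂ)) (c : ℂ) : hs U (c • T) = ‖c‖ ^ 2 * hs U T := by
  obtain ⟨v, hv, hvU⟩ := exists_ON U
  rw [hs_eq_of_ON U _ v hv hvU, hs_eq_of_ON U T v hv hvU, Finset.mul_sum]
  refine Finset.sum_congr rfl fun k _ => ?_
  rw [LinearMap.smul_apply, la_nsq_smul]

theorem hs_le_finrank {ι : Type*} [Fintype ι] (U : Submodule ℂ (ι → ℂ))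
    (T : Module.End ℂ (ι → ℂ)) (C : ℝ) (hR : ∀ f ∈ U, nsq (T f) ≤ C * nsq f) :
    hs U T ≤ C * Module.finrank ℂ U := by
  obtain ⟨v, hv, hvU⟩ := exists_ON U
  rw [hs_eq_of_ON U _ v hv hvU]
  have h : ∀ k ∈ (Finset.univ : Finset (Fin (Module.finrank ℂ U))), nsq (T (v k)) ≤ C := by
    intro k _
    have h1 := hR (v k) (by rw [← hvU]; exact Submodule.subset_span ⟨k, rfl⟩)
    rwa [hv.nsq_one, mul_one] at h1
  refine (Finset.sum_le_card_nsmul _ _ C h).trans (le_of_eq ?_)
  rw [Finset.card_univ, Fintype.card_fin, nsmul_eq_mul, mul_comm]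

/-- polarisation -/
theorem la_ip_of_nsq {ι : Type*} [Fintype ι] (Q : Module.End ℂ (ι → ℂ))
    (hQ : ∀ f, nsq (Q f) = nsq f) (f g : ι → ℂ) : ip (Q f) (Q g) = ip f g := by
  have hre : ∀ f g : ι → ℂ, (ip (Q f) (Q g)).re = (ip f g).re := by
    intro f g
    have h1 := hQ (f + g)
    rw [map_add, la_nsq_add, la_nsq_add, hQ, hQ] at h1
    linarith
  apply Complex.ext
  · exact hre f g
  · have h1 := hre (Complex.I • f) g
    rw [map_smul, la_ip_smul_left, la_ip_smul_left, Complex.conj_I] at h1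
    simpa using h1

theorem hs_comp_isometry {ι : Type*} [Fintype ι] (U : Submodule ℂ (ι → ℂ))
    (T Q : Module.End ℂ (ι → ℂ)) (hQ : ∀ f, nsq (Q f) = nsq f) (hQU : ∀ f ∈ U, Q f ∈ U) :
    hs U (T * Q) = hs U T := by
  obtain ⟨v, hv, hvU⟩ := exists_ON U
  have hw : ON (fun k => Q (v k)) := by
    intro i j
    rw [la_ip_of_nsq Q hQ]
    exact hv i j
  have hle : Submodule.span ℂ (Set.range fun k => Q (v k)) ≤ U := by
    rw [Submodule.span_le]
    rintro _ ⟨k, rfl⟩
    refine hQU _ ?_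
    rw [← hvU]
    exact Submodule.subset_span ⟨k, rfl⟩
  have hspan : Submodule.span ℂ (Set.range fun k => Q (v k)) = U := by
    refine Submodule.eq_of_le_of_finrank_eq hle ?_
    have := finrank_span_eq_card hw.linearIndependent
    rw [Fintype.card_fin] at this
    exact this
  rw [hs_eq_of_ON U _ v hv hvU, hs_eq_of_ON U T _ hw hspan]
  rfl

theorem hs_proj {ι : Type*} [Fintype ι] [DecidableEq ι] (W : Submodule ℂ (ι → ℂ))
    (T ω : Module.End ℂ (ι → ℂ)) (hadj : IsAdj ω ω) (hid : ω * ω = ω) (hW : ∀ f, ω f ∈ W) :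
    ∑ x, nsq (T (ω (Pi.single x 1))) ≤ hs W T := by
  obtain ⟨w, hw, hwW⟩ := exists_ON W
  rw [hs_eq_of_ON W T w hw hwW,
    Finset.sum_congr rfl fun x _ => la_nsq_apply_eq T (ω (Pi.single x 1)),
    Finset.sum_congr rfl fun k _ => la_nsq_apply_eq T (w k), Finset.sum_comm]
  conv_rhs => rw [Finset.sum_comm]
  refine Finset.sum_le_sum fun y _ => ?_
  set a : ι → ℂ := fun z => (starRingEnd ℂ) (T (Pi.single z 1) y) with ha
  have hid' : ∀ f, ω (ω f) = ω f := by
    intro f
    have := congrArg (fun S : Module.End ℂ (ι → ℂ) => S f) hid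
    exact this
  have h1 : ∀ x : ι, ‖ip a (ω (Pi.single x 1))‖ ^ 2 = ‖ω a x‖ ^ 2 := by
    intro x
    rw [← hadj]
    have : ip (ω a) (Pi.single x 1) = (starRingEnd ℂ) (ω a x) := by
      unfold ip
      rw [Finset.sum_eq_single x]
      · simp
      · intro z _ hz
        simp [hz]
      · intro h
        exact absurd (Finset.mem_univ x) h
    rw [this, Complex.norm_conj]
  have h2 : ∑ x, ‖ip a (ω (Pi.single x 1))‖ ^ 2 = nsq (ω a) := by
    unfold nsq
    exact Finset.sum_congr rfl fun x _ => h1 x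
  have h3 : ω a ∈ Submodule.span ℂ (Set.range w) := by
    rw [hwW]
    exact hW a
  have h4 := la_nsq_nonneg ((∑ k, ip (w k) a • w k) - ω a)
  rw [la_nsq_sub, hw.ip_proj a h3, hw.nsq_proj] at h4
  have h5 : ip a (ω a) = ip (ω a) (ω a) := by
    rw [hadj, hid']
  rw [h5, la_ip_self_re] at h4
  have h6 : ∑ k, ‖ip a (w k)‖ ^ 2 = ∑ k, ‖ip (w k) a‖ ^ 2 :=
    Finset.sum_congr rfl fun k _ => by rw [la_norm_ip_comm]
  rw [h6]
  refine (le_of_eq h2).trans ?_
  linarith

end Pool.Agent.Lib.MP_cad76e_pr
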