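import Pool.Agent.Lib.MP_cad76e_pr.LAM

/-! Trace inequality for sums of invariant subspaces. -/

set_option autoImplicit false

namespace Pool.Agent.Lib.MP_cad76e_pr

open Finset

section
variable {ι : Type*} [Fintype ι]

/-- trace of the restriction of `P` to an invariant subspace -/
noncomputable def trP (P : Module.End ℂ (ι → ℂ)) (U : Submodule ℂ (ι → ℂ))
    (hU : ∀ f ∈ U, P f ∈ U) : ℂ := LinearMap.trace ℂ U (P.restrict hU)

theorem trP_eq {κ : Type*} [Fintype κ] [DecidableEq κ] {v : κ → ι → ℂ} (hv : ON v)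
    {U : Submodule ℂ (ι → ℂ)} (hspan : Submodule.span ℂ (Set.range v) = U)
    (P : Module.End ℂ (ι → ℂ)) (hU : ∀ f ∈ U, P f ∈ U) :
    trP P U hU = ∑ i, ip (v i) (P (v i)) := by
  subst hspan
  unfold trP
  set b := Module.Basis.span hv.linearIndependent with hb
  rw [LinearMap.trace_eq_matrix_trace ℂ b, Matrix.trace]
  refine Finset.sum_congr rfl (fun i _ => ?_)
  rw [Matrix.diag_apply, LinearMap.toMatrix_apply]
  have hbi : ∀ j, ((b j : Submodule.span ℂ (Set.range v)) : ι → ℂ) = v j := by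
    intro j
    rw [hb, Module.Basis.span_apply]
  have hrepr : ∀ (x : Submodule.span ℂ (Set.range v)), b.repr x i = ip (v i) (x : ι → ℂ) := by
    intro x
    have h1 := congrArg (Submodule.subtype _) (b.sum_repr x)
    rw [map_sum] at h1
    conv_rhs => rw [show (x : ι → ℂ) = (Submodule.subtype _) x from rfl, ← h1]
    rw [la_ip_sum_right]
    simp only [map_smul, la_ip_smul_right, Submodule.subtype_apply, hbi, hv i]
    simp
  rw [hrepr, LinearMap.coe_restrict_apply, hbi]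

theorem hs_eq_trP (T T' : Module.End ℂ (ι → ℂ)) (hT : IsAdj T T') (U : Submodule ℂ (ι → ℂ))
    (hU : ∀ f ∈ U, (T' * T) f ∈ U) : hs U T = (trP (T' * T) U hU).re := by
  obtain ⟨v, hv, hspan⟩ := exists_ON U
  rw [hs_eq_of_ON U T v hv hspan, trP_eq hv hspan, Complex.re_sum]
  refine Finset.sum_congr rfl (fun i _ => ?_)
  rw [← la_ip_self_re, hT]
  rfl

theorem trP_add (P : Module.End ℂ (ι → ℂ)) (A B : Submodule ℂ (ι → ℂ))
    (hA : ∀ f ∈ A, P f ∈ A) (hB : ∀ f ∈ B, P f ∈ B) (hAB : ∀ f ∈ A ⊔ B, P f ∈ A ⊔ B)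
    (hd : Disjoint A B) : trP P (A ⊔ B) hAB = trP P A hA + trP P B hB := by
  have hinj : Function.Injective (A.subtype.coprod B.subtype) := by
    rw [← LinearMap.ker_eq_bot, LinearMap.ker_coprod_of_disjoint_range]
    · simp
    · rw [Submodule.range_subtype, Submodule.range_subtype]
      exact hd
  set e : (A × B) ≃ₗ[ℂ] (A ⊔ B : Submodule ℂ (ι → ℂ)) :=
    (LinearEquiv.ofInjective _ hinj).trans (LinearEquiv.ofEq _ _ (Submodule.sup_eq_range A B).symm)
    with he
  have hcoe : ∀ y : A × B, ((e y : (A ⊔ B : Submodule ℂ (ι → ℂ))) : ι → ℂ) =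
      (y.1 : ι → ℂ) + (y.2 : ι → ℂ) := fun y => rfl
  have hconj : P.restrict hAB = e.conj ((P.restrict hA).prodMap (P.restrict hB)) := by
    apply LinearMap.ext
    intro x
    obtain ⟨y, rfl⟩ := e.surjective x
    rw [LinearEquiv.conj_apply_apply, LinearEquiv.symm_apply_apply]
    apply Subtype.ext
    rw [LinearMap.coe_restrict_apply, hcoe, hcoe, map_add]
    rfl
  unfold trP
  rw [hconj, LinearMap.trace_conj', LinearMap.trace_prodMap']

/-- orthogonal complement -/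
def la2_orth (I : Submodule ℂ (ι → ℂ)) : Submodule ℂ (ι → ℂ) where
  carrier := {x | ∀ y ∈ I, ip y x = 0}
  add_mem' := by
    intro a b ha hb y hy
    rw [la_ip_add_right, ha y hy, hb y hy, add_zero]
  zero_mem' := fun y _ => la_ip_zero_right y
  smul_mem' := by
    intro c a ha y hy
    rw [la_ip_smul_right, ha y hy, mul_zero]

theorem la2_orth_inv {T T' : Module.End ℂ (ι → ℂ)} (hT : IsAdj T T') {I : Submodule ℂ (ι → ℂ)}
    (h2 : ∀ f ∈ I, T' f ∈ I) : ∀ f ∈ la2_orth I, T f ∈ la2_orth I := by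
  intro f hf y hy
  rw [← lx_adj_symm hT y f]
  exact hf _ (h2 y hy)

theorem hs_sup_le (U W : Submodule ℂ (ι → ℂ)) (T T' : Module.End ℂ (ι → ℂ)) (hT : IsAdj T T')
    (hU : ∀ f ∈ U, T f ∈ U) (hU' : ∀ f ∈ U, T' f ∈ U) (hW : ∀ f ∈ W, T f ∈ W)
    (hW' : ∀ f ∈ W, T' f ∈ W) : hs (U ⊔ W) T ≤ hs U T + hs W T := by
  set I := U ⊓ W with hI
  set X := W ⊓ la2_orth I with hX
  have hII : ∀ f ∈ I, T f ∈ I := fun f hf => ⟨hU f hf.1, hW f hf.2⟩
  have hII' : ∀ f ∈ I, T' f ∈ I := fun f hf => ⟨hU' f hf.1, hW' f hf.2⟩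
  have hXX : ∀ f ∈ X, T f ∈ X := fun f hf => ⟨hW f hf.1, la2_orth_inv hT hII' f hf.2⟩
  have hXX' : ∀ f ∈ X, T' f ∈ X :=
    fun f hf => ⟨hW' f hf.1, la2_orth_inv (lx_adj_symm hT) hII f hf.2⟩
  have hsup : U ⊔ W = U ⊔ X := by
    apply le_antisymm
    · refine sup_le le_sup_left (fun w hw => ?_)
      obtain ⟨v, hv, hspan⟩ := exists_ON I
      have hp : (∑ k, ip (v k) w • v k) ∈ I := by
        exact Submodule.sum_mem _ fun k _ =>
          Submodule.smul_mem _ _ (hspan.le (Submodule.subset_span ⟨k, rfl⟩))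
      have hwp : w - (∑ k, ip (v k) w • v k) ∈ X := by
        refine ⟨W.sub_mem hw hp.2, fun y hy => ?_⟩
        have h1 : ip (∑ k, ip (v k) w • v k) y = ip w y := hv.ip_proj w (by rw [hspan]; exact hy)
        rw [la_ip_sub_right, ← la_ip_conj w y, ← la_ip_conj (∑ k, ip (v k) w • v k) y, h1,
          sub_self]
      have h2 : w = (∑ k, ip (v k) w • v k) + (w - (∑ k, ip (v k) w • v k)) := by abel
      rw [h2]
      exact Submodule.add_mem_sup hp.1 hwp
    · exact sup_le_sup_left inf_le_left _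
  have hdisj : Disjoint U X := by
    rw [Submodule.disjoint_def]
    intro x hxU hxX
    have h1 : ip x x = 0 := hxX.2 x ⟨hxU, hxX.1⟩
    rw [la_ip_self] at h1
    exact la_nsq_eq_zero (by exact_mod_cast h1)
  have hPU : ∀ f ∈ U, (T' * T) f ∈ U := fun f hf => hU' _ (hU f hf)
  have hPX : ∀ f ∈ X, (T' * T) f ∈ X := fun f hf => hXX' _ (hXX f hf)
  have hPS : ∀ f ∈ U ⊔ X, (T' * T) f ∈ U ⊔ X := by
    intro f hf
    obtain ⟨u, hu, x, hx, rfl⟩ := Submodule.mem_sup.1 hf
    rw [map_add]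
    exact Submodule.add_mem_sup (hPU u hu) (hPX x hx)
  rw [hsup, hs_eq_trP T T' hT _ hPS, trP_add _ U X hPU hPX hPS hdisj, Complex.add_re,
    ← hs_eq_trP T T' hT, ← hs_eq_trP T T' hT]
  exact add_le_add le_rfl (hs_mono inf_le_left T)

end

theorem hs_iSup_le {ι κ : Type*} [Fintype ι] [Fintype κ] (U : κ → Submodule ℂ (ι → ℂ))
    (T T' : Module.End ℂ (ι → ℂ)) (hT : IsAdj T T') (h1 : ∀ k, ∀ f ∈ U k, T f ∈ U k)
    (h2 : ∀ k, ∀ f ∈ U k, T' f ∈ U k) (V : Submodule ℂ (ι → ℂ)) (hV : V ≤ ⨆ k, U k) :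
    hs V T ≤ ∑ k, hs (U k) T := by
  classical
  refine (hs_mono hV T).trans ?_
  have hsup : ∀ (S : Module.End ℂ (ι → ℂ)) (hS : ∀ k, ∀ f ∈ U k, S f ∈ U k) (s : Finset κ),
      ∀ f ∈ s.sup U, S f ∈ s.sup U := by
    intro S hS s
    induction s using Finset.induction_on with
    | empty =>
      intro f hf
      rw [Finset.sup_empty, Submodule.mem_bot] at hf ⊢
      rw [hf, map_zero]
    | insert a s ha ih =>
      intro f hf
      rw [Finset.sup_insert] at hf ⊢
      obtain ⟨u, hu, x, hx, rfl⟩ := Submodule.mem_sup.1 hf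
      rw [map_add]
      exact Submodule.add_mem_sup (hS a u hu) (ih x hx)
  have key : ∀ s : Finset κ, hs (s.sup U) T ≤ ∑ k ∈ s, hs (U k) T := by
    intro s
    induction s using Finset.induction_on with
    | empty =>
      rw [Finset.sup_empty, Finset.sum_empty]
      have := hs_le_finrank (⊥ : Submodule ℂ (ι → ℂ)) T 0 (by
        intro f hf
        rw [Submodule.mem_bot] at hf
        rw [hf, map_zero]
        simp [nsq])
      simpa using this
    | insert a s ha ih =>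
      rw [Finset.sup_insert, Finset.sum_insert ha]
      refine (hs_sup_le (U a) (s.sup U) T T' hT (h1 a) (h2 a) (hsup T h1 s)
        (hsup T' h2 s)).trans ?_
      exact add_le_add le_rfl ih
  have h3 := key univ
  rwa [Finset.sup_univ_eq_iSup] at h3

end Pool.Agent.Lib.MP_cad76e_pr
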