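import Pool.Agent.Lib.MP_cad76e_pr.LAM

/-! Weyl majorisation for powers of two. -/

set_option autoImplicit false

namespace Pool.Agent.Lib.MP_cad76e_pr

open Finset Matrix

section mat
variable {m : Type*} [Fintype m] [DecidableEq m]

/-- real part of the trace -/
noncomputable def rtr (M : Matrix m m ℂ) : ℝ := (trace M).re

theorem rtr_frob (M : Matrix m m ℂ) : rtr (Mᴴ * M) = frob M := by
  rw [rtr, ← frob_eq, Complex.ofReal_re]

theorem rtr_frob' {M : Matrix m m ℂ} (h : Mᴴ = M) : rtr (M * M) = frob M := by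
  rw [← rtr_frob, h]

theorem rtr_mul_comm (A B : Matrix m m ℂ) : rtr (A * B) = rtr (B * A) := by
  rw [rtr, trace_mul_comm, rtr]

theorem la3_pow_comm (A B : Matrix m m ℂ) (k : ℕ) :
    rtr ((A * B) ^ (k + 1)) = rtr ((B * A) ^ (k + 1)) := by
  have h1 : (A * B) ^ (k + 1) = A * ((B * A) ^ k * B) := by
    rw [pow_succ, ← mul_assoc, ← mul_assoc]
    congr 1
    induction k with
    | zero => simp
    | succ k ih => rw [pow_succ', pow_succ', mul_assoc, ih]; simp only [mul_assoc]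
  rw [h1, rtr_mul_comm, mul_assoc, ← pow_succ]

/-- the trace of a square is at most the squared Frobenius norm -/
theorem la3_sq (Z : Matrix m m ℂ) : rtr (Z * Z) ≤ frob Z := by
  have h1 : 0 ≤ frob (Z - Zᴴ) := frob_nonneg _
  rw [← rtr_frob] at h1
  have h2 : (Z - Zᴴ)ᴴ * (Z - Zᴴ) = Zᴴ * Z + Z * Zᴴ - Z * Z - Zᴴ * Zᴴ := by
    rw [conjTranspose_sub, conjTranspose_conjTranspose]
    noncomm_ring
  rw [h2] at h1
  have h3 : rtr (Zᴴ * Zᴴ) = rtr (Z * Z) := by
    rw [← conjTranspose_mul, rtr, trace_conjTranspose, rtr]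
    simp
  have h4 : rtr (Zᴴ * Z + Z * Zᴴ - Z * Z - Zᴴ * Zᴴ) =
      rtr (Zᴴ * Z) + rtr (Z * Zᴴ) - rtr (Z * Z) - rtr (Zᴴ * Zᴴ) := by
    simp [rtr]
  rw [h4, h3, rtr_mul_comm Z Zᴴ, rtr_frob] at h1
  linarith

/-- arithmetic-geometric mean for the trace form -/
theorem la3_amgm {A B : Matrix m m ℂ} (hA : Aᴴ = A) (hB : Bᴴ = B) :
    2 * rtr (A * B) ≤ frob A + frob B := by
  have h1 : 0 ≤ frob (A - B) := frob_nonneg _
  rw [← rtr_frob] at h1
  have h2 : (A - B)ᴴ * (A - B) = A * A + B * B - A * B - B * A := by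
    rw [conjTranspose_sub, hA, hB]
    noncomm_ring
  rw [h2] at h1
  have h4 : rtr (A * A + B * B - A * B - B * A) =
      rtr (A * A) + rtr (B * B) - rtr (A * B) - rtr (B * A) := by
    simp [rtr]
  rw [h4, rtr_mul_comm B A, rtr_frob' hA, rtr_frob' hB] at h1
  linarith

theorem la3_herm_pow {A : Matrix m m ℂ} (hA : Aᴴ = A) (k : ℕ) : (A ^ k)ᴴ = A ^ k := by
  rw [conjTranspose_pow, hA]

/-- the two inequalities, for the exponent `2 ^ a` -/
theorem la3_main (a : ℕ) :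
    (∀ T : Matrix m m ℂ, frob (T ^ (2 ^ a)) ≤ rtr ((Tᴴ * T) ^ (2 ^ a))) ∧
    (∀ X Y : Matrix m m ℂ, Xᴴ = X → Yᴴ = Y →
      rtr ((X * Y) ^ (2 ^ a)) ≤ rtr (X ^ (2 ^ a) * Y ^ (2 ^ a))) := by
  induction a with
  | zero =>
    refine ⟨fun T => ?_, fun X Y _ _ => ?_⟩
    · rw [pow_zero, pow_one, pow_one, rtr_frob]
    · rw [pow_zero, pow_one, pow_one, pow_one]
  | succ a ih =>
    obtain ⟨L1, L2⟩ := ih
    obtain ⟨k, hk⟩ : ∃ k, 2 ^ a = k + 1 := ⟨2 ^ a - 1, by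
      have : 0 < 2 ^ a := by positivity
      omega⟩
    have hpow : ∀ A : Matrix m m ℂ, A ^ (2 ^ (a + 1)) = A ^ (2 ^ a) * A ^ (2 ^ a) := by
      intro A
      rw [← pow_add, pow_succ, mul_two]
    refine ⟨fun T => ?_, fun X Y hX hY => ?_⟩
    · have hT1 : (Tᴴ * T)ᴴ = Tᴴ * T := by rw [conjTranspose_mul, conjTranspose_conjTranspose]
      have hT2 : (T * Tᴴ)ᴴ = T * Tᴴ := by rw [conjTranspose_mul, conjTranspose_conjTranspose]
      have e1 : T ^ (2 ^ (a + 1)) = (T * T) ^ (2 ^ a) := by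
        rw [← pow_two, ← pow_mul, pow_succ, mul_comm]
      have e2 : rtr (((T * T)ᴴ * (T * T)) ^ (2 ^ a)) =
          rtr (((Tᴴ * T) * (T * Tᴴ)) ^ (2 ^ a)) := by
        rw [hk]
        have : (T * T)ᴴ * (T * T) = Tᴴ * (Tᴴ * T * T) := by
          rw [conjTranspose_mul]
          simp only [mul_assoc]
        rw [this, la3_pow_comm]
        simp only [mul_assoc]
      have e3 : frob ((T * Tᴴ) ^ (2 ^ a)) = frob ((Tᴴ * T) ^ (2 ^ a)) := by
        rw [← rtr_frob' (la3_herm_pow hT2 _), ← rtr_frob' (la3_herm_pow hT1 _), ← hpow, ← hpow]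
        have : 2 ^ (a + 1) = (2 ^ (a + 1) - 1) + 1 := by
          have : 0 < 2 ^ (a + 1) := by positivity
          omega
        rw [this, la3_pow_comm]
      rw [e1]
      refine (L1 (T * T)).trans ?_
      rw [e2]
      refine (L2 _ _ hT1 hT2).trans ?_
      have h1 := la3_amgm (la3_herm_pow hT1 (2 ^ a)) (la3_herm_pow hT2 (2 ^ a))
      rw [e3] at h1
      rw [hpow, rtr_frob' (la3_herm_pow hT1 _)]
      linarith
    · rw [hpow]
      refine (la3_sq _).trans ?_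
      refine (L1 (X * Y)).trans ?_
      have e1 : rtr (((X * Y)ᴴ * (X * Y)) ^ (2 ^ a)) = rtr (((X * X) * (Y * Y)) ^ (2 ^ a)) := by
        rw [hk, conjTranspose_mul, hX, hY]
        have : Y * X * (X * Y) = Y * (X * X * Y) := by simp only [mul_assoc]
        rw [this, la3_pow_comm]
        simp only [mul_assoc]
      have hXX : (X * X)ᴴ = X * X := by rw [conjTranspose_mul, hX]
      have hYY : (Y * Y)ᴴ = Y * Y := by rw [conjTranspose_mul, hY]
      rw [e1]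
      refine (L2 _ _ hXX hYY).trans (le_of_eq ?_)
      rw [← pow_two, ← pow_two, ← pow_mul, ← pow_mul, pow_succ, mul_comm]

end mat

theorem hs_pow_le {ι : Type*} [Fintype ι] (F : Submodule ℂ (ι → ℂ))
    (T T' : Module.End ℂ (ι → ℂ)) (hT : IsAdj T T') (h1 : ∀ f ∈ F, T f ∈ F)
    (h2 : ∀ f ∈ F, T' f ∈ F) (a : ℕ) :
    hs F (T ^ (2 ^ (a + 1))) ≤ hs F ((T' * T) ^ (2 ^ a)) := by
  obtain ⟨v, hv, hspan⟩ := exists_ON F
  have hmem : ∀ j, v j ∈ F := fun j => hspan ▸ Submodule.subset_span ⟨j, rfl⟩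
  have h12 : ∀ f ∈ F, (T' * T) f ∈ F := fun f hf => h2 _ (h1 f hf)
  rw [hs_eq_frob hv hspan _ (lx_pow_mem h1 _), hs_eq_frob hv hspan _ (lx_pow_mem h12 _),
    mtx_pow hv (by rw [hspan]; exact h1), mtx_pow hv (by rw [hspan]; exact h12),
    mtx_mul hv _ _ (fun j => by rw [hspan]; exact h1 _ (hmem j)), mtx_adj hT]
  refine ((la3_main (a + 1)).1 (mtx v T)).trans (le_of_eq ?_)
  have hM : ((mtx v T)ᴴ * mtx v T)ᴴ = (mtx v T)ᴴ * mtx v T := by
    rw [conjTranspose_mul, conjTranspose_conjTranspose]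
  rw [← rtr_frob' (la3_herm_pow hM _), ← pow_add, pow_succ, mul_two]

end Pool.Agent.Lib.MP_cad76e_pr
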