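import Pool.Agent.Lib.MP_cad76e_pr.LA2
import Pool.Agent.Lib.MP_cad76e_pr.LA3

/-! Abstract smoothing. -/

set_option autoImplicit false

namespace Pool.Agent.Lib.MP_cad76e_pr

open Finset Matrix

section
variable {ι : Type*} [Fintype ι]

/-- orthonormal eigenbasis of a self-adjoint operator on an invariant subspace -/
theorem la4_eigen (F : Submodule ℂ (ι → ℂ)) (P : Module.End ℂ (ι → ℂ)) (hP : IsAdj P P)
    (hF : ∀ f ∈ F, P f ∈ F) : ∃ (m : ℕ) (w : Fin m → ι → ℂ) (α : Fin m → ℝ), ON w ∧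
      Submodule.span ℂ (Set.range w) = F ∧ ∀ i, P (w i) = (α i : ℂ) • w i := by
  obtain ⟨v, hv, hspan⟩ := exists_ON F
  have hvF : ∀ j, v j ∈ F := fun j => hspan.le (Submodule.subset_span ⟨j, rfl⟩)
  set M := mtx v P with hM
  have hherm : M.IsHermitian := (mtx_adj hP).symm
  set u := hherm.eigenvectorBasis with hu
  have huu : ∀ i k, ∑ j, (starRingEnd ℂ) (u i j) * u k j = if i = k then 1 else 0 := by
    intro i k
    have h1 := hherm.eigenvectorBasis.orthonormal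
    rw [orthonormal_iff_ite] at h1
    have h2 := h1 i k
    rw [PiLp.inner_apply] at h2
    rw [← h2]
    refine Finset.sum_congr rfl (fun j _ => ?_)
    rw [RCLike.inner_apply, mul_comm]
  set w : Fin (Module.finrank ℂ F) → ι → ℂ := fun i => ∑ j, (u i j) • v j with hw
  have hvw : ∀ l i, ip (v l) (w i) = u i l := by
    intro l i
    rw [hw]
    show ip (v l) (∑ j, (u i j) • v j) = u i l
    rw [la_ip_sum_right]
    simp only [la_ip_smul_right, hv l]
    simp
  have hON : ON w := by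
    intro i k
    rw [← huu i k]
    show ip (∑ j, (u i j) • v j) (w k) = _
    rw [la_ip_sum_left]
    refine Finset.sum_congr rfl (fun j _ => ?_)
    rw [la_ip_smul_left, hvw]
  have hwF : ∀ i, w i ∈ F := fun i => Submodule.sum_mem _ (fun j _ => F.smul_mem _ (hvF j))
  refine ⟨_, w, hherm.eigenvalues, hON, ?_, fun i => ?_⟩
  · apply Submodule.eq_of_le_of_finrank_eq
    · rw [Submodule.span_le]
      rintro _ ⟨i, rfl⟩
      exact hwF i
    · rw [finrank_span_eq_card hON.linearIndependent, Fintype.card_fin]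
  · have h1 : P (w i) ∈ Submodule.span ℂ (Set.range v) := by
      rw [hspan]
      exact hF _ (hwF i)
    have h2 : ∀ l, ip (v l) (P (w i)) = (hherm.eigenvalues i : ℂ) * u i l := by
      intro l
      have h3 : P (w i) = ∑ j, (u i j) • P (v j) := by
        show P (∑ j, (u i j) • v j) = _
        rw [map_sum]
        exact Finset.sum_congr rfl (fun j _ => map_smul _ _ _)
      rw [h3, la_ip_sum_right]
      have h4 := congrFun (hherm.mulVec_eigenvectorBasis i) l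
      simp only [Matrix.mulVec, dotProduct, Pi.smul_apply] at h4
      have h5 : ∑ j, M l j * u i j = (hherm.eigenvalues i : ℂ) * u i l := by
        rw [hu]
        refine h4.trans ?_
        rw [RCLike.real_smul_eq_coe_mul]
        rfl
      rw [← h5]
      refine Finset.sum_congr rfl (fun j _ => ?_)
      rw [la_ip_smul_right, mul_comm]
      rfl
    rw [hv.expand h1, hw]
    show _ = (hherm.eigenvalues i : ℂ) • ∑ j, (u i j) • v j
    rw [Finset.smul_sum]
    refine Finset.sum_congr rfl (fun l _ => ?_)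
    rw [h2, mul_smul]

/-- inverse of `1 + H` -/
theorem la4_inv (H : Module.End ℂ (ι → ℂ)) (hH : IsAdj H H) (hpos : ∀ f, 0 ≤ (ip f (H f)).re) :
    ∃ B : Module.End ℂ (ι → ℂ), IsAdj B B ∧ (∀ f, (1 + H) (B f) = f) ∧
      (∀ U : Submodule ℂ (ι → ℂ), (∀ f ∈ U, H f ∈ U) → ∀ f ∈ U, B f ∈ U) := by
  have hA : IsAdj (1 + H) (1 + H) := lx_adj_add lx_adj_one hH
  have hinj : Function.Injective (1 + H : Module.End ℂ (ι → ℂ)) := by
    rw [← LinearMap.ker_eq_bot, LinearMap.ker_eq_bot']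
    intro f hf
    have h1 : (ip f ((1 + H) f)).re = nsq f + (ip f (H f)).re := by
      rw [LinearMap.add_apply, la_ip_add_right, Complex.add_re, ← la_ip_self_re f]
      rfl
    rw [hf, la_ip_zero_right] at h1
    have h2 := hpos f
    have h3 := la_nsq_nonneg f
    exact la_nsq_eq_zero (by simp at h1; linarith)
  set e := LinearEquiv.ofInjectiveEndo (1 + H : Module.End ℂ (ι → ℂ)) hinj with he
  have h1 : ∀ f, (1 + H) (e.symm f) = f := fun f => e.apply_symm_apply f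
  have h2 : ∀ f, e.symm ((1 + H) f) = f := fun f => e.symm_apply_apply f
  refine ⟨e.symm.toLinearMap, fun f g => ?_, h1, fun U hU f hf => ?_⟩
  · show ip (e.symm f) g = ip f (e.symm g)
    conv_lhs => rw [← h1 g]
    rw [← hA, h1]
  · have hAU : ∀ f ∈ U, (1 + H) f ∈ U := fun f hf => U.add_mem hf (hU f hf)
    have hmap : U.map (1 + H : Module.End ℂ (ι → ℂ)) = U := by
      apply Submodule.eq_of_le_of_finrank_eq
      · rintro _ ⟨f, hf, rfl⟩
        exact hAU f hf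
      · exact (Submodule.equivMapOfInjective _ hinj U).symm.finrank_eq
    rw [← hmap] at hf
    obtain ⟨g, hg, rfl⟩ := hf
    show e.symm ((1 + H) g) ∈ U
    rw [h2]
    exact hg

end

theorem hs_smooth {ι κ : Type*} [Fintype ι] [Fintype κ] (F : Submodule ℂ (ι → ℂ))
    (T T' H : Module.End ℂ (ι → ℂ)) (hT : IsAdj T T') (hH : IsAdj H H)
    (h1 : ∀ f ∈ F, T f ∈ F) (h2 : ∀ f ∈ F, T' f ∈ F) (h3 : ∀ f ∈ F, H f ∈ F)
    (hpos : ∀ f, 0 ≤ (ip f (H f)).re)
    (hdiss : ∀ f ∈ F, nsq (T f) + (ip (T f) (H (T f))).re ≤ nsq f)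
    (U : κ → Submodule ℂ (ι → ℂ)) (h : κ → ℝ) (hh : ∀ k, 0 ≤ h k)
    (hU : ∀ k, ∀ f ∈ U k, H f ∈ U k)
    (hUh : ∀ k, ∀ f ∈ U k, h k * nsq f ≤ (ip f (H f)).re)
    (hcover : F ≤ ⨆ k, U k) (a : ℕ) :
    hs F (T ^ (2 ^ (a + 1))) ≤
      ∑ k, (Module.finrank ℂ (U k) : ℝ) * ((1 + h k)⁻¹) ^ (2 ^ (a + 1)) := by
  obtain ⟨B, hB, hAB, hBU⟩ := la4_inv H hH hpos
  have hA : IsAdj (1 + H) (1 + H) := lx_adj_add lx_adj_one hH
  have hAf : ∀ f, (ip f ((1 + H) f)).re = nsq f + (ip f (H f)).re := by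
    intro f
    rw [LinearMap.add_apply, la_ip_add_right, Complex.add_re, ← la_ip_self_re f]
    rfl
  -- comparison of `T T'` and `B` on `F`
  have hcomp : ∀ g ∈ F, nsq (T' g) ≤ (ip g (B g)).re := by
    intro x hx
    set w := B x with hw
    set g := T (T' x) with hg
    have e1 : nsq g + (ip g (H g)).re ≤ nsq (T' x) := hdiss _ (h2 x hx)
    have e2 : 0 ≤ (ip (w - g) ((1 + H) (w - g))).re := by
      rw [hAf]
      exact add_nonneg (la_nsq_nonneg _) (hpos _)
    have e3 : ip (w - g) ((1 + H) (w - g)) = ip x w - ip x g - (ip g x - ip g ((1 + H) g)) := by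
      rw [map_sub, la_ip_sub_left, la_ip_sub_right, la_ip_sub_right, hAB x, ← hA w g, hAB x, hB]
    have e4 : ip x g = (nsq (T' x) : ℂ) := by
      rw [hg, ← lx_adj_symm hT, la_ip_self]
    have e5 : ip g x = (nsq (T' x) : ℂ) := by
      rw [← la_ip_conj x g, e4, Complex.conj_ofReal]
    rw [e3, e4, e5] at e2
    simp only [Complex.sub_re, Complex.ofReal_re, hAf] at e2
    linarith
  -- eigenbasis of `T T'`
  have hP : IsAdj (T * T') (T * T') := by
    have := lx_adj_mul hT (lx_adj_symm hT)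
    exact this
  have hPF : ∀ f ∈ F, (T * T') f ∈ F := fun f hf => h1 _ (h2 f hf)
  obtain ⟨m, w, α, hw, hwspan, hα⟩ := la4_eigen F (T * T') hP hPF
  have hwF : ∀ i, w i ∈ F := fun i => hwspan.le (Submodule.subset_span ⟨i, rfl⟩)
  have hαeq : ∀ i, α i = nsq (T' (w i)) := by
    intro i
    have e1 : ip (w i) ((T * T') (w i)) = (nsq (T' (w i)) : ℂ) := by
      show ip (w i) (T (T' (w i))) = _
      rw [← lx_adj_symm hT, la_ip_self]
    rw [hα, la_ip_smul_right, la_ip_self, hw.nsq_one] at e1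
    have e2 : ((α i : ℝ) : ℂ) = ((nsq (T' (w i)) : ℝ) : ℂ) := by simpa using e1
    exact_mod_cast e2
  have hαpow : ∀ (i : Fin m) (j : ℕ), ((T * T') ^ j) (w i) = ((α i : ℂ) ^ j) • w i := by
    intro i j
    induction j with
    | zero => simp
    | succ j ih =>
      rw [pow_succ]
      show ((T * T') ^ j) ((T * T') (w i)) = _
      rw [hα, map_smul, ih, smul_smul, pow_succ, mul_comm]
  -- powers of `B`
  have hBpow : ∀ (i : Fin m) (s : ℕ), (ip (w i) (B (w i))).re ^ (2 ^ s) ≤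
      (ip (w i) ((B ^ (2 ^ s)) (w i))).re := by
    intro i s
    have hβ0 : 0 ≤ (ip (w i) (B (w i))).re := (la_nsq_nonneg _).trans (hcomp _ (hwF i))
    induction s with
    | zero => simp
    | succ s ih =>
      set c := (ip (w i) ((B ^ (2 ^ s)) (w i))).re with hc
      have e1 : (ip (w i) ((B ^ (2 ^ (s + 1))) (w i))).re = nsq ((B ^ (2 ^ s)) (w i)) := by
        have : B ^ (2 ^ (s + 1)) = B ^ (2 ^ s) * B ^ (2 ^ s) := by
          rw [← pow_add, pow_succ, mul_two]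
        rw [this]
        show (ip (w i) ((B ^ (2 ^ s)) ((B ^ (2 ^ s)) (w i)))).re = _
        rw [← lx_adj_pow hB, la_ip_self_re]
      have e2 : 0 ≤ nsq ((B ^ (2 ^ s)) (w i) - (c : ℂ) • w i) := la_nsq_nonneg _
      rw [la_nsq_sub, la_nsq_smul, hw.nsq_one, la_ip_smul_right,
        ← la_ip_conj (w i) ((B ^ (2 ^ s)) (w i)), Complex.re_ofReal_mul, Complex.conj_re,
        ← hc] at e2
      have e3 : ‖(c : ℂ)‖ ^ 2 = c ^ 2 := by rw [Complex.norm_real, Real.norm_eq_abs, sq_abs]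
      rw [e3] at e2
      have e4 : ((ip (w i) (B (w i))).re ^ (2 ^ s)) ^ 2 ≤ c ^ 2 :=
        pow_le_pow_left₀ (pow_nonneg hβ0 _) ih 2
      rw [e1, pow_succ 2 s, pow_mul]
      nlinarith
  -- contraction of `B` on `U k`
  have hBk : ∀ k, ∀ f ∈ U k, nsq (B f) ≤ ((1 + h k)⁻¹) ^ 2 * nsq f := by
    intro k f hf
    set g := B f with hg
    have hgU : g ∈ U k := hBU _ (hU k) f hf
    have hp : 0 < 1 + h k := by linarith [hh k]
    have e1 : (1 + h k) * nsq g ≤ (ip g f).re := by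
      have e2 : (ip g ((1 + H) g)).re = (ip g f).re := by rw [hg, hAB]
      rw [← e2, hAf]
      linarith [hUh k g hgU]
    have e3 : 0 ≤ nsq (f - ((1 + h k : ℝ) : ℂ) • g) := la_nsq_nonneg _
    rw [la_nsq_sub, la_nsq_smul, la_ip_smul_right, ← la_ip_conj g f, Complex.re_ofReal_mul,
      Complex.conj_re, Complex.norm_real, Real.norm_eq_abs, sq_abs] at e3
    have e4 : (1 + h k) ^ 2 * nsq g ≤ nsq f := by nlinarith
    rw [inv_pow, inv_mul_eq_div, le_div_iff₀ (by positivity)]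
    linarith
  have hBkpow : ∀ k, ∀ (j : ℕ), ∀ f ∈ U k, nsq ((B ^ j) f) ≤ (((1 + h k)⁻¹) ^ j) ^ 2 * nsq f := by
    intro k j
    induction j with
    | zero => intro f _; simp
    | succ j ih =>
      intro f hf
      rw [pow_succ]
      show nsq ((B ^ j) (B f)) ≤ _
      refine (ih _ (hBU _ (hU k) f hf)).trans ?_
      refine (mul_le_mul_of_nonneg_left (hBk k f hf) (by positivity)).trans (le_of_eq ?_)
      ring
  -- assembly
  have s1 : hs F (T ^ (2 ^ (a + 1))) = hs F (T' ^ (2 ^ (a + 1))) :=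
    hs_adj F (lx_adj_pow (lx_adj_symm hT) _) (lx_pow_mem h2 _) (lx_pow_mem h1 _)
  have s2 : hs F (T' ^ (2 ^ (a + 1))) ≤ hs F ((T * T') ^ (2 ^ a)) :=
    hs_pow_le F T' T (lx_adj_symm hT) h2 h1 a
  have s3 : hs F ((T * T') ^ (2 ^ a)) ≤ hs F (B ^ (2 ^ a)) := by
    rw [hs_eq_of_ON F _ w hw hwspan, hs_eq_of_ON F _ w hw hwspan]
    refine Finset.sum_le_sum (fun i _ => ?_)
    rw [hαpow, la_nsq_smul, hw.nsq_one, mul_one]
    have e1 : nsq ((B ^ (2 ^ a)) (w i)) = (ip (w i) ((B ^ (2 ^ (a + 1))) (w i))).re := by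
      have : B ^ (2 ^ (a + 1)) = B ^ (2 ^ a) * B ^ (2 ^ a) := by
        rw [← pow_add, pow_succ, mul_two]
      rw [this]
      show _ = (ip (w i) ((B ^ (2 ^ a)) ((B ^ (2 ^ a)) (w i)))).re
      rw [← lx_adj_pow hB, la_ip_self_re]
    rw [e1]
    refine le_trans ?_ (hBpow i (a + 1))
    have e2 : ‖(α i : ℂ) ^ 2 ^ a‖ ^ 2 = α i ^ (2 ^ (a + 1)) := by
      rw [norm_pow, Complex.norm_real, Real.norm_eq_abs, ← pow_mul, ← pow_succ]
      exact Even.pow_abs (by rw [pow_succ]; exact even_two.mul_left _) _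
    rw [e2]
    refine pow_le_pow_left₀ ?_ ?_ _
    · rw [hαeq]
      exact la_nsq_nonneg _
    · rw [hαeq]
      exact hcomp _ (hwF i)
  have s4 : hs F (B ^ (2 ^ a)) ≤ ∑ k, hs (U k) (B ^ (2 ^ a)) :=
    hs_iSup_le U (B ^ (2 ^ a)) (B ^ (2 ^ a)) (lx_adj_pow hB _)
      (fun k => lx_pow_mem (hBU _ (hU k)) _) (fun k => lx_pow_mem (hBU _ (hU k)) _) F hcover
  have s5 : ∀ k, hs (U k) (B ^ (2 ^ a)) ≤
      (Module.finrank ℂ (U k) : ℝ) * ((1 + h k)⁻¹) ^ (2 ^ (a + 1)) := by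
    intro k
    have e1 := hs_le_finrank (U k) (B ^ (2 ^ a)) ((((1 + h k)⁻¹) ^ (2 ^ a)) ^ 2) (hBkpow k _)
    rw [← pow_mul, ← pow_succ, mul_comm] at e1
    exact e1
  calc hs F (T ^ (2 ^ (a + 1))) = hs F (T' ^ (2 ^ (a + 1))) := s1
    _ ≤ hs F ((T * T') ^ (2 ^ a)) := s2
    _ ≤ hs F (B ^ (2 ^ a)) := s3
    _ ≤ ∑ k, hs (U k) (B ^ (2 ^ a)) := s4
    _ ≤ _ := Finset.sum_le_sum (fun k _ => s5 k)

end Pool.Agent.Lib.MP_cad76e_pr
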