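import Pool.Agent.Lib.MP_cad76e_pr.LA1

/-! Matrices of operators with respect to orthonormal families (used by LA2, LA3, LA4). -/

set_option autoImplicit false

namespace Pool.Agent.Lib.MP_cad76e_pr

open Finset

section ip
variable {ι : Type*} [Fintype ι]

theorem lx_adj_symm {T T' : Module.End ℂ (ι → ℂ)} (h : IsAdj T T') : IsAdj T' T := by
  intro f g
  rw [← la_ip_conj g (T' f), ← h g f, la_ip_conj]

theorem lx_adj_mul {A A' B B' : Module.End ℂ (ι → ℂ)} (hA : IsAdj A A') (hB : IsAdj B B') :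
    IsAdj (A * B) (B' * A') := by
  intro f g
  show ip (A (B f)) g = ip f (B' (A' g))
  rw [hA, hB]

theorem lx_adj_one : IsAdj (1 : Module.End ℂ (ι → ℂ)) 1 := fun _ _ => rfl

theorem lx_adj_add {A A' B B' : Module.End ℂ (ι → ℂ)} (hA : IsAdj A A') (hB : IsAdj B B') :
    IsAdj (A + B) (A' + B') := by
  intro f g
  rw [LinearMap.add_apply, LinearMap.add_apply, la_ip_add_left, la_ip_add_right, hA, hB]

theorem lx_adj_pow {T T' : Module.End ℂ (ι → ℂ)} (h : IsAdj T T') (k : ℕ) :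
    IsAdj (T ^ k) (T' ^ k) := by
  induction k with
  | zero => exact lx_adj_one
  | succ k ih =>
    rw [pow_succ, pow_succ']
    exact lx_adj_mul ih h

theorem lx_pow_mem {T : Module.End ℂ (ι → ℂ)} {U : Submodule ℂ (ι → ℂ)}
    (h : ∀ f ∈ U, T f ∈ U) (k : ℕ) : ∀ f ∈ U, (T ^ k) f ∈ U := by
  induction k with
  | zero => intro f hf; simpa using hf
  | succ k ih =>
    intro f hf
    rw [pow_succ]
    exact ih _ (h f hf)

end ip

section ON
variable {ι κ : Type*} [Fintype ι] [Fintype κ] [DecidableEq κ] {v : κ → ι → ℂ}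

theorem lx_parseval (hv : ON v) {x : ι → ℂ} (hx : x ∈ Submodule.span ℂ (Set.range v)) :
    nsq x = ∑ i, ‖ip (v i) x‖ ^ 2 := by
  conv_lhs => rw [hv.expand hx]
  exact hv.nsq_proj x

/-- matrix of an operator with respect to an orthonormal family -/
noncomputable def mtx (v : κ → ι → ℂ) (S : Module.End ℂ (ι → ℂ)) : Matrix κ κ ℂ :=
  Matrix.of fun i j => ip (v i) (S (v j))

/-- squared Frobenius norm -/
noncomputable def frob {κ : Type*} [Fintype κ] (M : Matrix κ κ ℂ) : ℝ := ∑ i, ∑ j, ‖M i j‖ ^ 2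

theorem frob_eq {κ : Type*} [Fintype κ] (M : Matrix κ κ ℂ) :
    ((frob M : ℝ) : ℂ) = Matrix.trace (M.conjTranspose * M) := by
  simp only [frob, Matrix.trace, Matrix.diag_apply, Matrix.mul_apply, Matrix.conjTranspose_apply,
    Complex.ofReal_sum]
  rw [Finset.sum_comm]
  refine Finset.sum_congr rfl (fun i _ => Finset.sum_congr rfl (fun j _ => ?_))
  rw [← Complex.normSq_eq_norm_sq, mul_comm, ← Complex.mul_conj]
  rfl

theorem frob_nonneg {κ : Type*} [Fintype κ] (M : Matrix κ κ ℂ) : 0 ≤ frob M :=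
  Finset.sum_nonneg (fun _ _ => Finset.sum_nonneg (fun _ _ => by positivity))

theorem frob_conjTranspose {κ : Type*} [Fintype κ] (M : Matrix κ κ ℂ) :
    frob M.conjTranspose = frob M := by
  simp only [frob, Matrix.conjTranspose_apply, norm_star]
  rw [Finset.sum_comm]

theorem mtx_mul (hv : ON v) (S R : Module.End ℂ (ι → ℂ))
    (hR : ∀ j, R (v j) ∈ Submodule.span ℂ (Set.range v)) :
    mtx v (S * R) = mtx v S * mtx v R := by
  ext i j
  rw [Matrix.mul_apply]
  show ip (v i) (S (R (v j))) = ∑ k, ip (v i) (S (v k)) * ip (v k) (R (v j))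
  conv_lhs => rw [hv.expand (hR j)]
  rw [map_sum, la_ip_sum_right]
  refine Finset.sum_congr rfl (fun k _ => ?_)
  rw [map_smul, la_ip_smul_right, mul_comm]

theorem mtx_adj {S S' : Module.End ℂ (ι → ℂ)} (h : IsAdj S S') :
    mtx v S' = (mtx v S).conjTranspose := by
  ext i j
  show ip (v i) (S' (v j)) = star (ip (v j) (S (v i)))
  rw [← h, ← la_ip_conj]
  rfl

theorem mtx_one (hv : ON v) : mtx v (1 : Module.End ℂ (ι → ℂ)) = 1 := by
  ext i j
  show ip (v i) (v j) = _
  rw [hv i j, Matrix.one_apply]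

theorem mtx_pow (hv : ON v) {S : Module.End ℂ (ι → ℂ)}
    (hS : ∀ f ∈ Submodule.span ℂ (Set.range v), S f ∈ Submodule.span ℂ (Set.range v)) (k : ℕ) :
    mtx v (S ^ k) = mtx v S ^ k := by
  induction k with
  | zero => rw [pow_zero, pow_zero, mtx_one hv]
  | succ k ih =>
    rw [pow_succ, pow_succ, mtx_mul hv, ih]
    exact fun j => hS _ (Submodule.subset_span ⟨j, rfl⟩)

/-- `hs` as a Frobenius norm -/
theorem hs_eq_frob (hv : ON v) {U : Submodule ℂ (ι → ℂ)}
    (hspan : Submodule.span ℂ (Set.range v) = U)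
    (S : Module.End ℂ (ι → ℂ)) (hS : ∀ f ∈ U, S f ∈ U) :
    hs U S = frob (mtx v S) := by
  rw [hs_eq_of_ON _ S v hv hspan, frob, Finset.sum_comm]
  subst hspan
  exact Finset.sum_congr rfl (fun j _ => lx_parseval hv (hS _ (Submodule.subset_span ⟨j, rfl⟩)))

end ON

/-- the Hilbert-Schmidt norms of an operator and its adjoint coincide -/
theorem hs_adj {ι : Type*} [Fintype ι] (U : Submodule ℂ (ι → ℂ))
    {S S' : Module.End ℂ (ι → ℂ)} (h : IsAdj S S') (h1 : ∀ f ∈ U, S f ∈ U)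
    (h2 : ∀ f ∈ U, S' f ∈ U) : hs U S' = hs U S := by
  obtain ⟨v, hv, hspan⟩ := exists_ON U
  rw [hs_eq_frob hv hspan _ h1, hs_eq_frob hv hspan _ h2, mtx_adj h, frob_conjTranspose]

end Pool.Agent.Lib.MP_cad76e_pr
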