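import Pool.Agent.Lib.MP_cad76e_pr.Defs

/-! Module LB1: estimates for the approximate one-card eigenfunction. -/

set_option autoImplicit false

namespace Pool.Agent.Lib.MP_cad76e_pr

open Finset Filter Topology

namespace LB1

/-- the exponent -/
noncomputable def ex (κ N : ℝ) : ℂ := Complex.I * (κ : ℂ) - ((κ ^ 2 / (2 * N) : ℝ) : ℂ)

theorem th_eq (n : ℕ) : th n = Complex.exp (ex (2 * Real.pi / n) n) := by
  unfold th ex
  push_cast
  ring_nf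

theorem norm_ex_le (κ N : ℝ) (hκ : 0 ≤ κ) (hκ1 : κ ≤ 1 / 100) (hN : 1 ≤ N) :
    ‖ex κ N‖ ≤ 2 * κ := by
  unfold ex
  refine (norm_sub_le _ _).trans ?_
  have h1 : ‖Complex.I * (κ : ℂ)‖ = κ := by
    rw [norm_mul, Complex.norm_I, one_mul, Complex.norm_real, Real.norm_of_nonneg hκ]
  have h2 : ‖((κ ^ 2 / (2 * N) : ℝ) : ℂ)‖ ≤ κ := by
    rw [Complex.norm_real, Real.norm_of_nonneg (by positivity), div_le_iff₀ (by positivity)]
    nlinarith
  rw [h1]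
  linarith

theorem exp_two (x : ℂ) (hx : ‖x‖ ≤ 1) : ‖Complex.exp x - (1 + x + x ^ 2 / 2)‖ ≤ ‖x‖ ^ 3 := by
  have h := Complex.exp_bound hx (n := 3) (by norm_num)
  simp only [Finset.sum_range_succ, Finset.sum_range_zero, Nat.factorial] at h
  have h3 : ‖x‖ ^ 3 * ((Nat.succ 3 : ℕ) * (((Nat.succ 2) * ((Nat.succ 1) * ((Nat.succ 0) * 1) : ℕ) : ℕ) * ((3 : ℕ) : ℝ) : ℝ)⁻¹) ≤ ‖x‖ ^ 3 := by
    have : (0:ℝ) ≤ ‖x‖ ^ 3 := by positivity
    norm_num
    nlinarith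
  refine le_trans (le_of_eq ?_) (h.trans ?_)
  · congr 1
    push_cast
    ring
  · refine le_trans (le_of_eq ?_) h3
    push_cast
    ring

theorem exp_one (x : ℂ) (hx : ‖x‖ ≤ 1) : ‖Complex.exp x - (1 + x)‖ ≤ ‖x‖ ^ 2 := by
  have h := Complex.norm_exp_sub_one_sub_id_le hx
  refine le_trans (le_of_eq ?_) h
  congr 1
  ring

theorem ex_sq (κ N : ℝ) (hκ : 0 ≤ κ) (hκ1 : κ ≤ 1 / 100) (hN : 1 ≤ N) :
    ‖(ex κ N) ^ 2 + (κ : ℂ) ^ 2‖ ≤ 2 * κ ^ 3 := by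
  have e : (ex κ N) ^ 2 + (κ : ℂ) ^ 2 =
      ((κ ^ 4 / (4 * N ^ 2) : ℝ) : ℂ) - ((κ ^ 3 / N : ℝ) : ℂ) * Complex.I := by
    unfold ex
    have hN0 : (N : ℂ) ≠ 0 := by
      exact_mod_cast (by linarith : N ≠ 0)
    push_cast
    field_simp
    ring_nf
    rw [Complex.I_sq]
    ring
  rw [e]
  refine (norm_sub_le _ _).trans ?_
  rw [norm_mul, Complex.norm_I, mul_one, Complex.norm_real, Complex.norm_real,
    Real.norm_of_nonneg (by positivity), Real.norm_of_nonneg (by positivity)]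
  have hk3 : 0 ≤ κ ^ 3 := by positivity
  have h1 : κ ^ 4 / (4 * N ^ 2) ≤ κ ^ 3 := by
    rw [div_le_iff₀ (by positivity)]
    have : κ ^ 4 ≤ κ ^ 3 * 1 := by
      have : κ ^ 4 = κ ^ 3 * κ := by ring
      rw [this]
      exact mul_le_mul_of_nonneg_left (by linarith) hk3
    refine this.trans (mul_le_mul_of_nonneg_left ?_ hk3)
    nlinarith
  have h2 : κ ^ 3 / N ≤ κ ^ 3 := div_le_self hk3 hN
  linarith

/-- the crucial cancellation -/
theorem E_bound (κ N : ℝ) (hκ : 0 ≤ κ) (hκ1 : κ ≤ 1 / 100) (hN : 1 ≤ N) (θ q : ℂ)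
    (hθ : θ = Complex.exp (ex κ N)) (hq : q = Complex.exp (-((κ : ℂ) ^ 2 / 2))) :
    ‖θ ^ 2 + θ - q * (3 * θ - 1)‖ ≤ 100 * κ ^ 3 := by
  set s := ex κ N with hs
  have hsn : ‖s‖ ≤ 2 * κ := norm_ex_le κ N hκ hκ1 hN
  have hs1 : ‖s‖ ≤ 1 := by linarith
  set r1 := Complex.exp s - (1 + s + s ^ 2 / 2) with hr1
  set r2 := Complex.exp (2 * s) - (1 + 2 * s + (2 * s) ^ 2 / 2) with hr2
  set r3 := Complex.exp (-((κ : ℂ) ^ 2 / 2)) - (1 + (-((κ : ℂ) ^ 2 / 2))) with hr3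
  have hk2 : 0 ≤ κ ^ 2 := by positivity
  have hk3 : 0 ≤ κ ^ 3 := by positivity
  have b1 : ‖r1‖ ≤ 8 * κ ^ 3 := by
    refine (exp_two s hs1).trans ?_
    calc ‖s‖ ^ 3 ≤ (2 * κ) ^ 3 := pow_le_pow_left₀ (norm_nonneg _) hsn 3
      _ = 8 * κ ^ 3 := by ring
  have h2s : ‖2 * s‖ ≤ 4 * κ := by
    rw [norm_mul]
    simp only [Complex.norm_ofNat]
    linarith
  have b2 : ‖r2‖ ≤ 64 * κ ^ 3 := by
    refine (exp_two (2 * s) (by linarith)).trans ?_
    calc ‖2 * s‖ ^ 3 ≤ (4 * κ) ^ 3 := pow_le_pow_left₀ (norm_nonneg _) h2s 3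
      _ = 64 * κ ^ 3 := by ring
  have hkn : ‖(-((κ : ℂ) ^ 2 / 2))‖ = κ ^ 2 / 2 := by
    rw [norm_neg, norm_div, norm_pow, Complex.norm_real, Real.norm_of_nonneg hκ]
    simp
  have b3 : ‖r3‖ ≤ κ ^ 3 / 4 := by
    refine (exp_one _ (by rw [hkn]; nlinarith)).trans ?_
    rw [hkn]
    have : (κ ^ 2 / 2) ^ 2 = κ ^ 3 * κ / 4 := by ring
    rw [this]
    nlinarith
  have hθ2 : θ ^ 2 = Complex.exp (2 * s) := by
    rw [hθ, ← Complex.exp_nat_mul]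
    norm_num
  have e1 : Complex.exp s = 1 + s + s ^ 2 / 2 + r1 := by rw [hr1]; ring
  have e2 : Complex.exp (2 * s) = 1 + 2 * s + (2 * s) ^ 2 / 2 + r2 := by rw [hr2]; ring
  have e3 : q = 1 + (-((κ : ℂ) ^ 2 / 2)) + r3 := by rw [hr3, hq]; ring
  have key : θ ^ 2 + θ - q * (3 * θ - 1) = (s ^ 2 + (κ : ℂ) ^ 2) + r2 - 2 * r1
      + ((κ : ℂ) ^ 2 / 2) * (3 * s + 3 / 2 * s ^ 2 + 3 * r1)
      - r3 * (2 + 3 * s + 3 / 2 * s ^ 2 + 3 * r1) := by
    rw [hθ2, e2, e3, hθ, e1]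
    ring
  rw [key]
  have c1 : ‖3 * s + 3 / 2 * s ^ 2 + 3 * r1‖ ≤ 8 * κ := by
    refine (norm_add₃_le).trans ?_
    rw [norm_mul, norm_mul, norm_mul, norm_pow]
    have h32 : ‖(3 / 2 : ℂ)‖ = 3 / 2 := by
      rw [norm_div]; simp
    rw [h32]
    simp only [Complex.norm_ofNat]
    have hs2 : ‖s‖ ^ 2 ≤ (2 * κ) ^ 2 := pow_le_pow_left₀ (norm_nonneg _) hsn 2
    have hk3' : κ ^ 3 ≤ κ / 10000 := by nlinarith [mul_nonneg hκ hκ]
    nlinarith
  have c2 : ‖2 + 3 * s + 3 / 2 * s ^ 2 + 3 * r1‖ ≤ 3 := by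
    have : (2 : ℂ) + 3 * s + 3 / 2 * s ^ 2 + 3 * r1 = 2 + (3 * s + 3 / 2 * s ^ 2 + 3 * r1) := by ring
    rw [this]
    refine (norm_add_le _ _).trans ?_
    simp only [Complex.norm_ofNat]
    linarith
  have d0 := ex_sq κ N hκ hκ1 hN
  rw [← hs] at d0
  have d4 : ‖((κ : ℂ) ^ 2 / 2) * (3 * s + 3 / 2 * s ^ 2 + 3 * r1)‖ ≤ 4 * κ ^ 3 := by
    rw [norm_mul]
    have : ‖((κ : ℂ) ^ 2 / 2)‖ = κ ^ 2 / 2 := by rw [← hkn, norm_neg]
    rw [this]
    calc κ ^ 2 / 2 * ‖3 * s + 3 / 2 * s ^ 2 + 3 * r1‖ ≤ κ ^ 2 / 2 * (8 * κ) :=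
          mul_le_mul_of_nonneg_left c1 (by positivity)
      _ = 4 * κ ^ 3 := by ring
  have d5 : ‖r3 * (2 + 3 * s + 3 / 2 * s ^ 2 + 3 * r1)‖ ≤ κ ^ 3 := by
    rw [norm_mul]
    calc ‖r3‖ * ‖2 + 3 * s + 3 / 2 * s ^ 2 + 3 * r1‖ ≤ (κ ^ 3 / 4) * 3 :=
          mul_le_mul b3 c2 (norm_nonneg _) (by positivity)
      _ ≤ κ ^ 3 := by linarith
  have d2 : ‖2 * r1‖ ≤ 16 * κ ^ 3 := by
    rw [norm_mul]
    simp only [Complex.norm_ofNat]
    linarith
  calc ‖(s ^ 2 + (κ : ℂ) ^ 2) + r2 - 2 * r1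
      + ((κ : ℂ) ^ 2 / 2) * (3 * s + 3 / 2 * s ^ 2 + 3 * r1)
      - r3 * (2 + 3 * s + 3 / 2 * s ^ 2 + 3 * r1)‖
      ≤ ‖(s ^ 2 + (κ : ℂ) ^ 2) + r2 - 2 * r1
      + ((κ : ℂ) ^ 2 / 2) * (3 * s + 3 / 2 * s ^ 2 + 3 * r1)‖
      + ‖r3 * (2 + 3 * s + 3 / 2 * s ^ 2 + 3 * r1)‖ := norm_sub_le _ _
    _ ≤ ‖(s ^ 2 + (κ : ℂ) ^ 2) + r2 - 2 * r1‖
      + ‖((κ : ℂ) ^ 2 / 2) * (3 * s + 3 / 2 * s ^ 2 + 3 * r1)‖
      + ‖r3 * (2 + 3 * s + 3 / 2 * s ^ 2 + 3 * r1)‖ := by gcongr; exact norm_add_le _ _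
    _ ≤ ‖(s ^ 2 + (κ : ℂ) ^ 2) + r2‖ + ‖2 * r1‖
      + ‖((κ : ℂ) ^ 2 / 2) * (3 * s + 3 / 2 * s ^ 2 + 3 * r1)‖
      + ‖r3 * (2 + 3 * s + 3 / 2 * s ^ 2 + 3 * r1)‖ := by gcongr; exact norm_sub_le _ _
    _ ≤ ‖(s ^ 2 + (κ : ℂ) ^ 2)‖ + ‖r2‖ + ‖2 * r1‖
      + ‖((κ : ℂ) ^ 2 / 2) * (3 * s + 3 / 2 * s ^ 2 + 3 * r1)‖
      + ‖r3 * (2 + 3 * s + 3 / 2 * s ^ 2 + 3 * r1)‖ := by gcongr; exact norm_add_le _ _
    _ ≤ 100 * κ ^ 3 := by linarith

theorem abs_im_le (κ N : ℝ) (hκ : 0 ≤ κ) : κ ≤ ‖ex κ N‖ := by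
  have h : (ex κ N).im = κ := by
    unfold ex
    rw [Complex.sub_im, Complex.ofReal_im, Complex.mul_im, Complex.I_re, Complex.I_im,
      Complex.ofReal_re]
    ring
  calc κ = |(ex κ N).im| := by rw [h, abs_of_nonneg hκ]
    _ ≤ ‖ex κ N‖ := Complex.abs_im_le_norm _

theorem th_sub_one (κ N : ℝ) (hκ : 0 ≤ κ) (hκ1 : κ ≤ 1 / 100) (hN : 1 ≤ N) :
    κ / 2 ≤ ‖Complex.exp (ex κ N) - 1‖ ∧ ‖Complex.exp (ex κ N) - 1‖ ≤ 3 * κ := by
  set s := ex κ N with hs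
  have hsn : ‖s‖ ≤ 2 * κ := norm_ex_le κ N hκ hκ1 hN
  have hlow : κ ≤ ‖s‖ := abs_im_le κ N hκ
  have h1 := exp_one s (by linarith)
  set r := Complex.exp s - (1 + s) with hr
  have hr2 : ‖r‖ ≤ κ / 4 := by
    refine h1.trans ?_
    calc ‖s‖ ^ 2 ≤ (2 * κ) ^ 2 := pow_le_pow_left₀ (norm_nonneg _) hsn 2
      _ ≤ κ / 4 := by nlinarith
  have e : Complex.exp s - 1 = s + r := by rw [hr]; ring
  rw [e]
  constructor
  · have := norm_sub_le (s + r) r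
    have e2 : s + r - r = s := by ring
    rw [e2] at this
    linarith
  · refine (norm_add_le _ _).trans ?_
    linarith

/-- `vv` as a function of a natural number -/
noncomputable def vN (θ : ℂ) (k : ℕ) : ℂ :=
  if k = 0 then (θ + 1) / (3 * θ - 1) else if k = 1 then 2 * θ / (3 * θ - 1) else θ ^ (k - 1)

theorem vv_eq (n : ℕ) (y : Fin n) : vv n y = vN (th n) y := rfl

theorem tau_val (n : ℕ) [NeZero n] (hn : 3 ≤ n) (y : Fin n) :
    ((tau y : Fin n) : ℕ) = if (y : ℕ) = 0 then 1 else if (y : ℕ) = 1 then 0 else (y : ℕ) := by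
  have h0 : ((0 : Fin n) : ℕ) = 0 := rfl
  have h1 : ((1 : Fin n) : ℕ) = 1 := by
    rw [Fin.val_one', Nat.mod_eq_of_lt (by omega)]
  unfold tau
  rw [Equiv.swap_apply_def]
  have e0 : y = 0 ↔ (y : ℕ) = 0 := by rw [Fin.ext_iff, h0]
  have e1 : y = 1 ↔ (y : ℕ) = 1 := by rw [Fin.ext_iff, h1]
  simp only [e0, e1]
  split_ifs <;> simp_all

theorem rot_val (n : ℕ) [NeZero n] (y : Fin n) :
    ((finRotate n y : Fin n) : ℕ) = if (y : ℕ) + 1 = n then 0 else (y : ℕ) + 1 := by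
  obtain ⟨m, rfl⟩ : ∃ m, n = m + 1 := Nat.exists_eq_succ_of_ne_zero (NeZero.ne n)
  split_ifs with h
  · have : y = Fin.last m := by
      apply Fin.ext
      simp only [Fin.val_last]
      omega
    rw [this, finRotate_last]
    rfl
  · have hy : (y : ℕ) < m := by
      have := y.isLt
      omega
    rw [coe_finRotate_of_ne_last]
    intro hl
    rw [hl] at hy
    simp at hy

/-- the eigenvector equation away from the last position -/
theorem eig_eq (n : ℕ) [NeZero n] (hn : 3 ≤ n) (θ : ℂ) (hθ : θ ≠ 0) (h3 : 3 * θ - 1 ≠ 0)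
    (y : Fin n) : (1 / 2 : ℂ) * vN θ (tau y : Fin n) + (1 / 2 : ℂ) * θ⁻¹ * vN θ (finRotate n y)
      - vN θ y = if (y : ℕ) + 1 = n then
        (θ ^ 2 + θ - θ ^ n * (3 * θ - 1)) / (2 * θ ^ 2 * (3 * θ - 1)) else 0 := by
  rw [tau_val n hn, rot_val n]
  have hy := y.isLt
  generalize (y : ℕ) = k at *
  by_cases h0 : k = 0
  · subst h0
    rw [if_pos rfl, if_neg (by omega), if_neg (by omega)]
    simp only [vN, if_true, if_neg (show ¬ (1 : ℕ) = 0 by norm_num)]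
    norm_num
    field_simp
    ring
  by_cases h1 : k = 1
  · subst h1
    rw [if_neg (by omega), if_pos rfl, if_neg (by omega), if_neg (by omega)]
    simp only [vN]
    norm_num
    generalize hd : 3 * θ - 1 = d at *
    field_simp
    rw [← hd]
    ring
  rw [if_neg h0, if_neg h1]
  obtain ⟨j, rfl⟩ : ∃ j, k = j + 2 := ⟨k - 2, by omega⟩
  by_cases h2 : j + 2 + 1 = n
  · rw [if_pos h2, if_pos h2]
    simp only [vN, if_neg h0, if_neg h1, if_true]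
    rw [← h2, show j + 2 - 1 = j + 1 by omega]
    generalize hd : 3 * θ - 1 = d at *
    field_simp
    ring
  · rw [if_neg h2, if_neg h2]
    simp only [vN, if_neg h0, if_neg h1]
    rw [if_neg (by omega), if_neg (by omega), show j + 2 - 1 = j + 1 by omega,
      show j + 2 + 1 - 1 = j + 1 + 1 by omega, pow_succ θ (j + 1)]
    field_simp
    ring

theorem th_pow (n : ℕ) (hn : 1 ≤ n) :
    th n ^ n = Complex.exp (-((((2 * Real.pi / n : ℝ)) : ℂ) ^ 2 / 2)) := by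
  have hn0 : (n : ℂ) ≠ 0 := by exact_mod_cast (by omega : n ≠ 0)
  unfold th
  rw [← Complex.exp_nat_mul]
  have e : (n : ℂ) * (Complex.I * (2 * Real.pi / n) - (2 * Real.pi / n) ^ 2 / (2 * n)) =
      2 * Real.pi * Complex.I + -((((2 * Real.pi / n : ℝ)) : ℂ) ^ 2 / 2) := by
    push_cast
    field_simp
    ring
  rw [e, Complex.exp_add, Complex.exp_two_pi_mul_I, one_mul]

end LB1

theorem vv_props : ∃ C : ℝ, 0 < C ∧ ∃ n₀ : ℕ, 3 ≤ n₀ ∧ ∀ (n : ℕ) [NeZero n], n₀ ≤ n →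
    (∀ y, ‖vv n y‖ ≤ 2) ∧
    (∀ y : Fin n, ‖(1 / 2 : ℂ) * vv n (tau y) + (1 / 2 : ℂ) * (th n)⁻¹ * vv n (finRotate n y)
      - vv n y‖ ≤ if (y : ℕ) + 1 = n then C / (n : ℝ) ^ 3 else 0) ∧
    ((n : ℝ) / 2 ≤ ∑ y, ‖vv n y‖ ^ 2) ∧
    ‖vv n 1 - vv n 0‖ ≤ C / n ∧
    ‖∑ y, vv n y‖ ≤ C := by
  refine ⟨30000, by norm_num, 1000, by norm_num, ?_⟩
  intro n _ hn
  have hnR : (1000 : ℝ) ≤ n := by exact_mod_cast hn
  have hn0 : (0 : ℝ) < n := by linarith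
  set κ : ℝ := 2 * Real.pi / n with hκdef
  have hpi1 := Real.pi_gt_three
  have hpi2 := Real.pi_lt_d2
  have hκ0 : 0 < κ := by positivity
  have hκn : κ * n = 2 * Real.pi := by
    rw [hκdef]; field_simp
  have hκ1 : κ ≤ 1 / 100 := by
    rw [hκdef, div_le_iff₀ hn0]
    linarith
  have hN1 : (1 : ℝ) ≤ n := by linarith
  set θ : ℂ := th n with hθdef
  have hθ : θ = Complex.exp (LB1.ex κ n) := LB1.th_eq n
  have hpow : θ ^ n = Complex.exp (-((κ : ℂ) ^ 2 / 2)) := LB1.th_pow n (by omega)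
  obtain ⟨hl, hu⟩ := LB1.th_sub_one κ n hκ0.le hκ1 hN1
  rw [← hθ] at hl hu
  have hu' : ‖θ - 1‖ ≤ 3 / 100 := by linarith
  have hnorm1 : ‖θ‖ ≤ 1 := by
    rw [hθ, Complex.norm_exp]
    rw [Real.exp_le_one_iff]
    unfold LB1.ex
    rw [Complex.sub_re, Complex.ofReal_re, Complex.mul_re, Complex.I_re, Complex.I_im,
      Complex.ofReal_im]
    have : 0 ≤ κ ^ 2 / (2 * n) := by positivity
    linarith
  have hnormlow : 97 / 100 ≤ ‖θ‖ := by
    have := norm_sub_norm_le (1 : ℂ) (1 - θ)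
    have e : (1 : ℂ) - (1 - θ) = θ := by ring
    rw [e, norm_one, ← norm_neg (1 - θ), neg_sub] at this
    linarith
  have hθ0 : θ ≠ 0 := by
    intro h
    rw [h, norm_zero] at hnormlow
    linarith
  have h3low : 1 ≤ ‖3 * θ - 1‖ := by
    have e : (3 : ℂ) * θ - 1 = 2 - 3 * (1 - θ) := by ring
    rw [e]
    have h := norm_sub_norm_le (2 : ℂ) (3 * (1 - θ))
    rw [norm_mul, ← norm_neg (1 - θ), neg_sub] at h
    simp only [Complex.norm_ofNat] at h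
    linarith
  have h30 : 3 * θ - 1 ≠ 0 := by
    intro h
    rw [h, norm_zero] at h3low
    linarith
  have hE := LB1.E_bound κ n hκ0.le hκ1 hN1 θ (θ ^ n) hθ hpow
  have hk3 : 100 * κ ^ 3 ≤ 26000 / (n : ℝ) ^ 3 := by
    rw [le_div_iff₀ (by positivity)]
    have : 100 * κ ^ 3 * (n : ℝ) ^ 3 = 100 * (κ * n) ^ 3 := by ring
    rw [this, hκn]
    have : (2 * Real.pi) ^ 3 ≤ 6.3 ^ 3 := by
      apply pow_le_pow_left₀ (by positivity)
      linarith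
    norm_num at this ⊢
    linarith
  have herr : ‖(θ ^ 2 + θ - θ ^ n * (3 * θ - 1)) / (2 * θ ^ 2 * (3 * θ - 1))‖ ≤
      26000 / (n : ℝ) ^ 3 := by
    rw [norm_div, norm_mul, norm_mul, norm_pow]
    simp only [Complex.norm_ofNat]
    refine le_trans (div_le_self (norm_nonneg _) ?_) (hE.trans hk3)
    have h1 : (1:ℝ) ≤ 2 * ‖θ‖ ^ 2 := by nlinarith
    nlinarith
  have hvb : ∀ y : Fin n, ‖vv n y‖ ≤ 2 := by
    intro y
    rw [LB1.vv_eq]
    unfold LB1.vN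
    rw [← hθdef]
    split_ifs
    · rw [norm_div]
      refine (div_le_self (norm_nonneg _) h3low).trans ?_
      refine (norm_add_le _ _).trans ?_
      rw [norm_one]
      linarith
    · rw [norm_div, norm_mul]
      simp only [Complex.norm_ofNat]
      refine (div_le_self (by positivity) h3low).trans ?_
      linarith
    · rw [norm_pow]
      exact (pow_le_one₀ (norm_nonneg _) hnorm1).trans (by norm_num)
  have heig : ∀ y : Fin n, (1 / 2 : ℂ) * vv n (tau y) +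
      (1 / 2 : ℂ) * (th n)⁻¹ * vv n (finRotate n y) - vv n y = if (y : ℕ) + 1 = n then
        (θ ^ 2 + θ - θ ^ n * (3 * θ - 1)) / (2 * θ ^ 2 * (3 * θ - 1)) else 0 := by
    intro y
    simp only [LB1.vv_eq]
    exact LB1.eig_eq n (by omega) θ hθ0 h30 y
  refine ⟨hvb, ?_, ?_, ?_, ?_⟩
  · intro y
    rw [heig y]
    split_ifs
    · refine herr.trans ?_
      gcongr
      norm_num
    · rw [norm_zero]
  · -- lower bound of the norm
    have hq : ‖θ‖ ^ n ≥ 99 / 100 := by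
      rw [← norm_pow, hpow, Complex.norm_exp]
      have hre : (-((κ : ℂ) ^ 2 / 2)).re = -(κ ^ 2 / 2) := by
        rw [Complex.neg_re]
        norm_cast
      rw [hre]
      have := Real.add_one_le_exp (-(κ ^ 2 / 2))
      nlinarith
    have hterm : ∀ y : Fin n, (9 / 10 : ℝ) - (if y = 0 then 1 else 0) - (if y = 1 then 1 else 0)
        ≤ ‖vv n y‖ ^ 2 := by
      intro y
      by_cases h0 : y = 0
      · rw [if_pos h0]
        have : (0:ℝ) ≤ ‖vv n y‖ ^ 2 := by positivity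
        split_ifs <;> linarith
      by_cases h1 : y = 1
      · rw [if_neg h0, if_pos h1]
        have : (0:ℝ) ≤ ‖vv n y‖ ^ 2 := by positivity
        linarith
      rw [if_neg h0, if_neg h1]
      have h0' : ¬ (y : ℕ) = 0 := by
        intro h
        exact h0 (Fin.ext h)
      have h1' : ¬ (y : ℕ) = 1 := by
        intro h
        apply h1
        apply Fin.ext
        rw [h, Fin.val_one', Nat.mod_eq_of_lt (by omega)]
      rw [LB1.vv_eq]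
      unfold LB1.vN
      rw [← hθdef, if_neg h0', if_neg h1', norm_pow]
      have hle : ‖θ‖ ^ n ≤ ‖θ‖ ^ ((y : ℕ) - 1) := by
        apply pow_le_pow_of_le_one (norm_nonneg _) hnorm1
        have := y.isLt
        omega
      nlinarith
    have hsum := Finset.sum_le_sum (fun (y : Fin n) (_ : y ∈ Finset.univ) => hterm y)
    rw [Finset.sum_sub_distrib, Finset.sum_sub_distrib] at hsum
    simp only [Finset.sum_const, Finset.card_univ, Fintype.card_fin, nsmul_eq_mul,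
      Finset.sum_ite_eq', Finset.mem_univ, if_true] at hsum
    linarith
  · have h0 : vv n 0 = (θ + 1) / (3 * θ - 1) := by
      rw [LB1.vv_eq]
      simp [LB1.vN, hθdef]
    have h1 : vv n 1 = 2 * θ / (3 * θ - 1) := by
      rw [LB1.vv_eq]
      have : ((1 : Fin n) : ℕ) = 1 := by rw [Fin.val_one', Nat.mod_eq_of_lt (by omega)]
      rw [this]
      simp [LB1.vN, hθdef]
    rw [h0, h1, ← sub_div, norm_div]
    refine (div_le_self (norm_nonneg _) h3low).trans ?_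
    have e : 2 * θ - (θ + 1) = θ - 1 := by ring
    rw [e, le_div_iff₀ hn0]
    calc ‖θ - 1‖ * n ≤ 3 * κ * n := by gcongr
      _ = 3 * (2 * Real.pi) := by rw [mul_assoc, hκn]
      _ ≤ 30000 := by linarith
  · -- the sum
    have hs := Finset.sum_congr rfl (fun (y : Fin n) (_ : y ∈ Finset.univ) => heig y)
    rw [Finset.sum_sub_distrib, Finset.sum_add_distrib, ← Finset.mul_sum, ← Finset.mul_sum] at hs
    rw [Equiv.sum_comp (tau : Equiv.Perm (Fin n)) (fun y => vv n y),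
      Equiv.sum_comp (finRotate n) (fun y => vv n y)] at hs
    have hR : ‖∑ y : Fin n, (if (y : ℕ) + 1 = n then
        (θ ^ 2 + θ - θ ^ n * (3 * θ - 1)) / (2 * θ ^ 2 * (3 * θ - 1)) else 0)‖ ≤
        26000 / (n : ℝ) ^ 3 := by
      have : ∀ y : Fin n, ((y : ℕ) + 1 = n) ↔ y = ⟨n - 1, by omega⟩ := by
        intro y
        rw [Fin.ext_iff]
        have := y.isLt
        simp only
        omega
      simp only [this]
      rw [Finset.sum_ite_eq']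
      simpa using herr
    rw [← hs] at hR
    set V := ∑ y, vv n y with hV
    have e : (1 / 2 : ℂ) * V + 1 / 2 * (th n)⁻¹ * V - V = -((θ - 1) * V / (2 * θ)) := by
      rw [← hθdef]
      field_simp
      ring
    rw [e, norm_neg, norm_div, norm_mul, norm_mul] at hR
    simp only [Complex.norm_ofNat] at hR
    rw [div_le_iff₀ (by positivity)] at hR
    have h1 : κ / 2 * ‖V‖ ≤ 26000 / (n : ℝ) ^ 3 * 2 := by
      calc κ / 2 * ‖V‖ ≤ ‖θ - 1‖ * ‖V‖ := by gcongr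
        _ ≤ 26000 / (n : ℝ) ^ 3 * (2 * ‖θ‖) := hR
        _ ≤ 26000 / (n : ℝ) ^ 3 * (2 * 1) := by gcongr
        _ = _ := by ring
    have h2 : κ / 2 * n = Real.pi := by
      have : κ / 2 * n = (κ * n) / 2 := by ring
      rw [this, hκn]; ring
    have h3 : 26000 / (n : ℝ) ^ 3 * 2 * n ≤ 26000 := by
      have : 26000 / (n : ℝ) ^ 3 * 2 * n = 52000 / (n : ℝ) ^ 2 := by
        field_simp
        norm_num
      rw [this, div_le_iff₀ (by positivity)]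
      nlinarith
    have h4 : Real.pi * ‖V‖ ≤ 26000 := by
      calc Real.pi * ‖V‖ = (κ / 2 * ‖V‖) * n := by rw [← h2]; ring
        _ ≤ (26000 / (n : ℝ) ^ 3 * 2) * n := by gcongr
        _ ≤ 26000 := h3
    nlinarith [norm_nonneg V]

end Pool.Agent.Lib.MP_cad76e_pr
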