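import Pool.Agent.Lib.MP_cad76e_pr.Defs
import Pool.Agent.Lib.MP_cad76e_pr.LB1

/-! # Properties of the test statistic (LB3) -/

set_option autoImplicit false

namespace Pool.Agent.Lib.MP_cad76e_pr

open Finset

namespace LB3

/-! ### Two-point averages over the symmetric group -/

theorem exists_perm_pair {n : ℕ} {a b a' b' : Fin n} (hab : a ≠ b) (hab' : a' ≠ b') :
    ∃ π : G n, π a = a' ∧ π b = b' := by
  set b1 := Equiv.swap a a' b with hb1
  have h1 : b1 ≠ a' := by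
    intro h
    apply hab
    apply (Equiv.swap a a').injective
    rw [← hb1, h, Equiv.swap_apply_left]
  refine ⟨Equiv.swap b1 b' * Equiv.swap a a', ?_, ?_⟩
  · rw [Equiv.Perm.mul_apply, Equiv.swap_apply_left, Equiv.swap_apply_of_ne_of_ne h1.symm hab']
  · rw [Equiv.Perm.mul_apply, ← hb1, Equiv.swap_apply_left]

/-- two-point sums -/
noncomputable def Sab {n : ℕ} (v : Fin n → ℂ) (a b : Fin n) : ℂ :=
  ∑ σ : G n, v (σ a) * (starRingEnd ℂ) (v (σ b))

theorem Sab_perm {n : ℕ} (v : Fin n → ℂ) (π : G n) (a b : Fin n) :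
    Sab v (π a) (π b) = Sab v a b := by
  unfold Sab
  exact Equiv.sum_comp (Equiv.mulRight π) (fun σ : G n => v (σ a) * (starRingEnd ℂ) (v (σ b)))

theorem Sab_total {n : ℕ} (v : Fin n → ℂ) : ∑ a, ∑ b, Sab v a b =
    (n.factorial : ℂ) * ((∑ y, v y) * (starRingEnd ℂ) (∑ y, v y)) := by
  unfold Sab
  have h1 : ∀ σ : G n, ∑ a, ∑ b, v (σ a) * (starRingEnd ℂ) (v (σ b)) =
      (∑ y, v y) * (starRingEnd ℂ) (∑ y, v y) := by
    intro σ
    have e1 : ∀ a, ∑ b, v (σ a) * (starRingEnd ℂ) (v (σ b)) =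
        v (σ a) * (starRingEnd ℂ) (∑ y, v y) := by
      intro a
      rw [← mul_sum, map_sum]
      congr 1
      exact Equiv.sum_comp σ (fun y => (starRingEnd ℂ) (v y))
    rw [sum_congr rfl (fun a _ => e1 a), ← sum_mul]
    congr 1
    exact Equiv.sum_comp σ (fun y => v y)
  calc ∑ a, ∑ b, ∑ σ : G n, v (σ a) * (starRingEnd ℂ) (v (σ b))
      = ∑ a, ∑ σ : G n, ∑ b, v (σ a) * (starRingEnd ℂ) (v (σ b)) :=
        sum_congr rfl (fun a _ => sum_comm)
    _ = ∑ σ : G n, ∑ a, ∑ b, v (σ a) * (starRingEnd ℂ) (v (σ b)) := sum_comm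
    _ = ∑ _σ : G n, (∑ y, v y) * (starRingEnd ℂ) (∑ y, v y) := sum_congr rfl (fun σ _ => h1 σ)
    _ = _ := by
      rw [sum_const, card_univ, Fintype.card_perm, Fintype.card_fin, nsmul_eq_mul]

theorem Sab_diag_total {n : ℕ} (v : Fin n → ℂ) : ∑ a, Sab v a a =
    (n.factorial : ℂ) * ((∑ y, ‖v y‖ ^ 2 : ℝ) : ℂ) := by
  unfold Sab
  have h1 : ∀ σ : G n, ∑ a, v (σ a) * (starRingEnd ℂ) (v (σ a)) =
      ((∑ y, ‖v y‖ ^ 2 : ℝ) : ℂ) := by
    intro σ
    have e1 : ∀ y, v y * (starRingEnd ℂ) (v y) = ((‖v y‖ ^ 2 : ℝ) : ℂ) := by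
      intro y
      rw [Complex.mul_conj, Complex.normSq_eq_norm_sq]
    rw [Equiv.sum_comp σ (fun y => v y * (starRingEnd ℂ) (v y)), sum_congr rfl (fun y _ => e1 y)]
    push_cast
    rfl
  rw [sum_comm, sum_congr rfl (fun σ _ => h1 σ), sum_const, card_univ, Fintype.card_perm,
    Fintype.card_fin, nsmul_eq_mul]

/-- second moment of the statistic under the uniform law -/
theorem second_moment {n : ℕ} (hn : 2 ≤ n) (v : Fin n → ℂ) :
    ∑ σ : G n, ‖∑ a, (starRingEnd ℂ) (v a) * v (σ a)‖ ^ 2 =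
      (n.factorial : ℝ) * ((∑ y, ‖v y‖ ^ 2) ^ 2 / n +
        (‖∑ y, v y‖ ^ 2 - ∑ y, ‖v y‖ ^ 2) ^ 2 / ((n : ℝ) * ((n : ℝ) - 1))) := by
  set Q : ℝ := ∑ y, ‖v y‖ ^ 2 with hQ
  set V : ℂ := ∑ y, v y with hV
  have hn0 : (n : ℝ) ≠ 0 := by
    have : 0 < n := by omega
    exact_mod_cast this.ne'
  have hn1 : (n : ℝ) - 1 ≠ 0 := by
    have : (2 : ℝ) ≤ n := by exact_mod_cast hn
    linarith
  have hn0c : (n : ℂ) ≠ 0 := by exact_mod_cast hn0
  have hn1c : (n : ℂ) - 1 ≠ 0 := by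
    intro h
    apply hn1
    have : (((n : ℝ) - 1 : ℝ) : ℂ) = 0 := by push_cast; exact h
    exact_mod_cast this
  set i0 : Fin n := ⟨0, by omega⟩ with hi0
  set i1 : Fin n := ⟨1, by omega⟩ with hi1
  have h01 : i0 ≠ i1 := by
    rw [hi0, hi1]; intro h; rw [Fin.ext_iff] at h; simp at h
  have hdiag : ∀ a, Sab v a a = Sab v i0 i0 := by
    intro a
    have := Sab_perm v (Equiv.swap i0 a) i0 i0
    rwa [Equiv.swap_apply_left] at this
  have hoff : ∀ a b, a ≠ b → Sab v a b = Sab v i0 i1 := by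
    intro a b hab
    obtain ⟨π, h1, h2⟩ := exists_perm_pair h01 hab
    have := Sab_perm v π i0 i1
    rwa [h1, h2] at this
  set dd : ℂ := Sab v i0 i0 with hdd
  set ss : ℂ := Sab v i0 i1 with hss
  have hVV : V * (starRingEnd ℂ) V = ((‖V‖ ^ 2 : ℝ) : ℂ) := by
    rw [Complex.mul_conj, Complex.normSq_eq_norm_sq]
  have ed : (n : ℂ) * dd = (n.factorial : ℂ) * (Q : ℂ) := by
    have := Sab_diag_total v
    rw [sum_congr rfl (fun a _ => hdiag a), sum_const, card_univ, Fintype.card_fin,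
      nsmul_eq_mul] at this
    exact this
  have hsplit : ∀ F : Fin n → Fin n → ℂ, ∑ a, ∑ b, F a b * Sab v a b =
      dd * ∑ a, F a a + ss * (∑ a, ∑ b, F a b - ∑ a, F a a) := by
    intro F
    have e1 : ∀ a, ∑ b, F a b * Sab v a b = F a a * dd + ss * (∑ b, F a b - F a a) := by
      intro a
      rw [← add_sum_erase _ _ (mem_univ a), ← add_sum_erase (f := fun b => F a b) _ (mem_univ a),
        hdiag a, add_sub_cancel_left, mul_sum]
      congr 1
      apply sum_congr rfl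
      intro b hb
      rw [mem_erase] at hb
      rw [hoff a b hb.1.symm, mul_comm]
    rw [sum_congr rfl (fun a _ => e1 a), sum_add_distrib, ← mul_sum, sum_sub_distrib, ← sum_mul]
    ring
  have es : (n : ℂ) * ((n : ℂ) - 1) * ss = (n.factorial : ℂ) * ((‖V‖ ^ 2 : ℝ) - Q) := by
    have h1 := hsplit (fun _ _ => 1)
    simp only [one_mul] at h1
    rw [Sab_total v, ← hV, hVV] at h1
    simp only [sum_const, card_univ, Fintype.card_fin, nsmul_eq_mul, mul_one] at h1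
    have h2 : (n : ℂ) * dd = (n.factorial : ℂ) * (Q : ℂ) := ed
    linear_combination -h1 - h2
  -- expand
  have hmain : ((∑ σ : G n, ‖∑ a, (starRingEnd ℂ) (v a) * v (σ a)‖ ^ 2 : ℝ) : ℂ) =
      ∑ a, ∑ b, ((starRingEnd ℂ) (v a) * v b) * Sab v a b := by
    push_cast
    have e1 : ∀ σ : G n, ((‖∑ a, (starRingEnd ℂ) (v a) * v (σ a)‖ : ℂ)) ^ 2 =
        ∑ a, ∑ b, ((starRingEnd ℂ) (v a) * v b) * (v (σ a) * (starRingEnd ℂ) (v (σ b))) := by
      intro σ
      have : ((‖∑ a, (starRingEnd ℂ) (v a) * v (σ a)‖ : ℂ)) ^ 2 =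
          (∑ a, (starRingEnd ℂ) (v a) * v (σ a)) *
            (starRingEnd ℂ) (∑ a, (starRingEnd ℂ) (v a) * v (σ a)) := by
        rw [Complex.mul_conj, Complex.normSq_eq_norm_sq]
        push_cast; rfl
      rw [this, map_sum, sum_mul_sum]
      apply sum_congr rfl
      intro a _
      apply sum_congr rfl
      intro b _
      rw [map_mul, Complex.conj_conj]
      ring
    rw [sum_congr rfl (fun σ _ => e1 σ)]
    unfold Sab
    calc ∑ σ : G n, ∑ a, ∑ b, ((starRingEnd ℂ) (v a) * v b) * (v (σ a) * (starRingEnd ℂ) (v (σ b)))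
        = ∑ a, ∑ σ : G n, ∑ b,
          ((starRingEnd ℂ) (v a) * v b) * (v (σ a) * (starRingEnd ℂ) (v (σ b))) := sum_comm
      _ = ∑ a, ∑ b, ∑ σ : G n,
          ((starRingEnd ℂ) (v a) * v b) * (v (σ a) * (starRingEnd ℂ) (v (σ b))) :=
          sum_congr rfl (fun a _ => sum_comm)
      _ = _ := by
          apply sum_congr rfl
          intro a _
          apply sum_congr rfl
          intro b _
          rw [mul_sum]
  have hFF : ∑ a, ∑ b, (starRingEnd ℂ) (v a) * v b = ((‖V‖ ^ 2 : ℝ) : ℂ) := by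
    rw [← hVV, hV, map_sum, mul_comm, sum_mul_sum]
  have hFd : ∑ a, (starRingEnd ℂ) (v a) * v a = (Q : ℂ) := by
    rw [hQ]
    push_cast
    apply sum_congr rfl
    intro a _
    rw [mul_comm, Complex.mul_conj, Complex.normSq_eq_norm_sq]
    push_cast; rfl
  rw [hsplit, hFF, hFd] at hmain
  have hcomplex : ((∑ σ : G n, ‖∑ a, (starRingEnd ℂ) (v a) * v (σ a)‖ ^ 2 : ℝ) : ℂ) =
      (((n.factorial : ℝ) * (Q ^ 2 / n + (‖V‖ ^ 2 - Q) ^ 2 / ((n : ℝ) * ((n : ℝ) - 1))) : ℝ) : ℂ) := by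
    rw [hmain]
    have ed' : dd = (n.factorial : ℂ) * (Q : ℂ) / n := by
      rw [eq_div_iff hn0c, mul_comm]; exact ed
    have es' : ss = (n.factorial : ℂ) * ((‖V‖ ^ 2 : ℝ) - Q) / ((n : ℂ) * ((n : ℂ) - 1)) := by
      rw [eq_div_iff (mul_ne_zero hn0c hn1c), mul_comm]; exact es
    rw [ed', es']
    push_cast
    ring
  exact_mod_cast hcomplex

end LB3

theorem ph_props : ∃ C : ℝ, 0 < C ∧ ∃ n₀ : ℕ, 3 ≤ n₀ ∧ ∀ (n : ℕ) [NeZero n], n₀ ≤ n →
    (∀ σ : G n, ‖(1 / 2 : ℂ) * ph n (tau * σ) + (1 / 2 : ℂ) * (th n)⁻¹ * ph n (finRotate n * σ)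
      - ph n σ‖ ≤ C / (n : ℝ) ^ 3) ∧
    ((n : ℝ) / 2 ≤ ‖ph n 1‖) ∧
    (∀ σ : G n, ‖ph n (tau * σ) - ph n σ‖ ≤ C / n) ∧
    (∀ σ : G n, ‖ph n σ‖ ≤ C * n) ∧
    ((∑ σ : G n, ‖ph n σ‖ ^ 2) / (n.factorial : ℝ) ≤ C * n) := by
  obtain ⟨C, hC, n₀, hn₀, hv⟩ := vv_props
  refine ⟨4 * C + 4 + 16 + 2 * (C ^ 2 + 4) ^ 2, by positivity, n₀, hn₀, ?_⟩
  intro n _ hn
  obtain ⟨hv1, hv2, hv3, hv4, hv5⟩ := hv n hn
  have hn3 : 3 ≤ n := hn₀.trans hn
  have hnr : (3 : ℝ) ≤ n := by exact_mod_cast hn3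
  have hnpos : (0 : ℝ) < n := by linarith
  set C' : ℝ := 4 * C + 4 + 16 + 2 * (C ^ 2 + 4) ^ 2 with hC'
  have hC4 : 4 * C ≤ C' := by rw [hC']; nlinarith [sq_nonneg (C ^ 2 + 4)]
  have hC2 : 2 * C ≤ C' := by linarith
  have hC44 : 4 ≤ C' := by rw [hC']; nlinarith [sq_nonneg (C ^ 2 + 4)]
  have hC16 : 16 + 2 * (C ^ 2 + 4) ^ 2 ≤ C' := by rw [hC']; nlinarith
  refine ⟨?_, ?_, ?_, ?_, ?_⟩
  · intro σ
    have e1 : (1 / 2 : ℂ) * ph n (tau * σ) + (1 / 2 : ℂ) * (th n)⁻¹ * ph n (finRotate n * σ)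
        - ph n σ = ∑ a, (starRingEnd ℂ) (vv n a) * ((1 / 2 : ℂ) * vv n (tau (σ a)) +
          (1 / 2 : ℂ) * (th n)⁻¹ * vv n (finRotate n (σ a)) - vv n (σ a)) := by
      unfold ph
      rw [mul_sum, mul_sum, ← sum_add_distrib, ← sum_sub_distrib]
      apply sum_congr rfl
      intro a _
      rw [Equiv.Perm.mul_apply, Equiv.Perm.mul_apply]
      ring
    rw [e1]
    calc _ ≤ ∑ a, ‖(starRingEnd ℂ) (vv n a) * ((1 / 2 : ℂ) * vv n (tau (σ a)) +
          (1 / 2 : ℂ) * (th n)⁻¹ * vv n (finRotate n (σ a)) - vv n (σ a))‖ := norm_sum_le _ _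
      _ ≤ ∑ a : Fin n, 2 * (if ((σ a : Fin n) : ℕ) + 1 = n then C / (n : ℝ) ^ 3 else 0) := by
          apply sum_le_sum
          intro a _
          rw [norm_mul, RCLike.norm_conj]
          exact mul_le_mul (hv1 a) (hv2 (σ a)) (norm_nonneg _) (by norm_num)
      _ = ∑ y : Fin n, 2 * (if ((y : Fin n) : ℕ) + 1 = n then C / (n : ℝ) ^ 3 else 0) :=
          Equiv.sum_comp σ (fun y : Fin n => 2 * (if ((y : Fin n) : ℕ) + 1 = n then
            C / (n : ℝ) ^ 3 else 0))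
      _ = 2 * C / (n : ℝ) ^ 3 := by
          rw [sum_eq_single (⟨n - 1, by omega⟩ : Fin n)]
          · rw [if_pos (by simp only; omega)]; ring
          · intro y _ hy
            rw [if_neg, mul_zero]
            intro h
            apply hy
            apply Fin.ext
            simp only
            omega
          · intro h; exact absurd (mem_univ _) h
      _ ≤ C' / (n : ℝ) ^ 3 := by gcongr
  · have e1 : ph n 1 = ((∑ y, ‖vv n y‖ ^ 2 : ℝ) : ℂ) := by
      unfold ph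
      push_cast
      apply sum_congr rfl
      intro a _
      show (starRingEnd ℂ) (vv n a) * vv n a = _
      rw [mul_comm, Complex.mul_conj, Complex.normSq_eq_norm_sq]
      push_cast; rfl
    rw [e1, Complex.norm_real, Real.norm_of_nonneg (by positivity)]
    exact hv3
  · intro σ
    have e1 : ph n (tau * σ) - ph n σ = ∑ a, (starRingEnd ℂ) (vv n a) *
        (vv n (tau (σ a)) - vv n (σ a)) := by
      unfold ph
      rw [← sum_sub_distrib]
      apply sum_congr rfl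
      intro a _
      rw [Equiv.Perm.mul_apply]
      ring
    rw [e1]
    have hstep : ∀ y : Fin n, ‖vv n (tau y) - vv n y‖ ≤
        (if y = 0 then C / n else 0) + (if y = 1 then C / n else 0) := by
      intro y
      have hCn : 0 ≤ C / n := by positivity
      unfold tau
      by_cases h0 : y = 0
      · rw [h0, Equiv.swap_apply_left, if_pos rfl]
        have : 0 ≤ (if (0 : Fin n) = 1 then C / n else 0) := by split_ifs <;> positivity
        linarith
      · by_cases h1 : y = 1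
        · rw [h1, Equiv.swap_apply_right, if_pos rfl, norm_sub_rev]
          have : 0 ≤ (if (1 : Fin n) = 0 then C / n else 0) := by split_ifs <;> positivity
          linarith
        · rw [Equiv.swap_apply_of_ne_of_ne h0 h1, sub_self, norm_zero, if_neg h0, if_neg h1]
          simp
    calc _ ≤ ∑ a, ‖(starRingEnd ℂ) (vv n a) * (vv n (tau (σ a)) - vv n (σ a))‖ :=
          norm_sum_le _ _
      _ ≤ ∑ a : Fin n, 2 * ((if σ a = 0 then C / n else 0) + (if σ a = 1 then C / n else 0)) := by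
          apply sum_le_sum
          intro a _
          rw [norm_mul, RCLike.norm_conj]
          exact mul_le_mul (hv1 a) (hstep (σ a)) (norm_nonneg _) (by norm_num)
      _ = ∑ y : Fin n, 2 * ((if y = 0 then C / n else 0) + (if y = 1 then C / n else 0)) :=
          Equiv.sum_comp σ (fun y : Fin n =>
            2 * ((if y = 0 then C / n else 0) + (if y = 1 then C / n else 0)))
      _ = 4 * C / n := by
          rw [← mul_sum, sum_add_distrib, sum_ite_eq', sum_ite_eq', if_pos (mem_univ _),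
            if_pos (mem_univ _)]
          ring
      _ ≤ C' / n := by gcongr
  · intro σ
    unfold ph
    calc _ ≤ ∑ a, ‖(starRingEnd ℂ) (vv n a) * vv n (σ a)‖ := norm_sum_le _ _
      _ ≤ ∑ _a : Fin n, (4 : ℝ) := by
          apply sum_le_sum
          intro a _
          rw [norm_mul, RCLike.norm_conj]
          calc ‖vv n a‖ * ‖vv n (σ a)‖ ≤ 2 * 2 :=
                mul_le_mul (hv1 a) (hv1 _) (norm_nonneg _) (by norm_num)
            _ = 4 := by norm_num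
      _ = 4 * n := by rw [sum_const, card_univ, Fintype.card_fin, nsmul_eq_mul]; ring
      _ ≤ C' * n := by gcongr
  · have h2 := LB3.second_moment (by omega : 2 ≤ n) (vv n)
    have hfac : (0 : ℝ) < n.factorial := by exact_mod_cast Nat.factorial_pos n
    have e1 : ∑ σ : G n, ‖ph n σ‖ ^ 2 = ∑ σ : G n, ‖∑ a, (starRingEnd ℂ) (vv n a) * vv n (σ a)‖ ^ 2 :=
      rfl
    rw [e1, h2, mul_div_assoc, ← mul_div_assoc, mul_div_cancel_left₀ _ hfac.ne']
    set Q : ℝ := ∑ y, ‖vv n y‖ ^ 2 with hQ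
    set V : ℝ := ‖∑ y, vv n y‖ with hV
    have hQ0 : 0 ≤ Q := by rw [hQ]; positivity
    have hQ4 : Q ≤ 4 * n := by
      rw [hQ]
      calc ∑ y, ‖vv n y‖ ^ 2 ≤ ∑ _y : Fin n, (4 : ℝ) := by
            apply sum_le_sum
            intro y _
            calc ‖vv n y‖ ^ 2 ≤ 2 ^ 2 := pow_le_pow_left₀ (norm_nonneg _) (hv1 y) 2
              _ = 4 := by norm_num
        _ = 4 * n := by rw [sum_const, card_univ, Fintype.card_fin, nsmul_eq_mul]; ring
    have hV0 : 0 ≤ V := norm_nonneg _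
    have hV2 : V ^ 2 ≤ C ^ 2 := pow_le_pow_left₀ hV0 hv5 2
    have t1 : Q ^ 2 / n ≤ 16 * n := by
      rw [div_le_iff₀ hnpos]
      nlinarith
    have habs : (V ^ 2 - Q) ^ 2 ≤ (n * (C ^ 2 + 4)) ^ 2 := by
      apply sq_le_sq'
      · nlinarith [sq_nonneg V, sq_nonneg C]
      · nlinarith [sq_nonneg V, sq_nonneg C]
    have t2 : (V ^ 2 - Q) ^ 2 / ((n : ℝ) * ((n : ℝ) - 1)) ≤ 2 * (C ^ 2 + 4) ^ 2 := by
      have hd : 0 < (n : ℝ) * ((n : ℝ) - 1) := by nlinarith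
      rw [div_le_iff₀ hd]
      have h3 : (n : ℝ) ^ 2 ≤ 2 * ((n : ℝ) * ((n : ℝ) - 1)) := by nlinarith
      calc (V ^ 2 - Q) ^ 2 ≤ (n * (C ^ 2 + 4)) ^ 2 := habs
        _ = (C ^ 2 + 4) ^ 2 * (n : ℝ) ^ 2 := by ring
        _ ≤ (C ^ 2 + 4) ^ 2 * (2 * ((n : ℝ) * ((n : ℝ) - 1))) := by gcongr
        _ = _ := by ring
    have t3 : 2 * (C ^ 2 + 4) ^ 2 ≤ 2 * (C ^ 2 + 4) ^ 2 * n := by
      nlinarith [sq_nonneg (C ^ 2 + 4)]
    calc _ ≤ 16 * n + 2 * (C ^ 2 + 4) ^ 2 := by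
          refine le_trans (le_of_eq ?_) (add_le_add t1 t2)
          ring
      _ ≤ (16 + 2 * (C ^ 2 + 4) ^ 2) * n := by nlinarith
      _ ≤ C' * n := by gcongr

end Pool.Agent.Lib.MP_cad76e_pr
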