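import Pool.Agent.Lib.MP_cad76e_pr.LB2a
import Pool.Agent.Lib.MP_cad76e_pr.LB3

set_option autoImplicit false

namespace Pool.Agent.Lib.MP_cad76e_pr

open Finset Filter Topology

theorem moment_bound : ∃ C : ℝ, 0 < C ∧ ∃ n₀ : ℕ, 3 ≤ n₀ ∧ ∀ (n : ℕ) [NeZero n], n₀ ≤ n →
    ∀ T : ℕ, (T : ℝ) ≤ (n : ℝ) ^ 4 →
    ∑ j ∈ range (T + 1), ∑ g : G n, eT T j g * ‖(th n)⁻¹ ^ j * ph n g - ph n 1‖ ^ 2 ≤
      C * n * Real.exp ((2 * Real.pi / n) ^ 2 * T / (2 * n)) :=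
  moment_bound_of ph_props

end Pool.Agent.Lib.MP_cad76e_pr
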