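import Pool.Agent.Lib.MP_cad76e_pr.Defs

/-! Module LB2: the second moment of the tilted martingale, from the properties of `ph`. -/

set_option autoImplicit false

namespace Pool.Agent.Lib.MP_cad76e_pr

open Finset Filter Topology

theorem lb2_eT_nonneg {n : ℕ} [NeZero n] : ∀ (T j : ℕ) (g : G n), 0 ≤ eT T j g
  | 0, j, g => by
    simp only [eT]
    split_ifs <;> norm_num
  | T + 1, j, g => by
    simp only [eT]
    have h1 := lb2_eT_nonneg T j (tau⁻¹ * g)
    split_ifs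
    · linarith
    · have h2 := lb2_eT_nonneg T (j - 1) ((finRotate n)⁻¹ * g)
      linarith

theorem lb2_eT_zero {n : ℕ} [NeZero n] : ∀ (T j : ℕ) (g : G n), T < j → eT T j g = 0
  | 0, j, g => by
    intro h
    simp only [eT]
    rw [if_neg (by omega)]
  | T + 1, j, g => by
    intro h
    simp only [eT]
    rw [if_neg (by omega), lb2_eT_zero T j _ (by omega), lb2_eT_zero T (j - 1) _ (by omega)]
    norm_num

/-- expectation of a function of the number of rotations and of the arrangement -/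
noncomputable def lb2_E {n : ℕ} [NeZero n] {E : Type*} [AddCommGroup E] [Module ℝ E] (T : ℕ)
    (F : ℕ → G n → E) : E := ∑ j ∈ range (T + 1), ∑ g : G n, eT T j g • F j g

section
variable {n : ℕ} [NeZero n] {E : Type*} [AddCommGroup E] [Module ℝ E]

theorem lb2_E_zero (F : ℕ → G n → E) : lb2_E 0 F = F 0 1 := by
  simp only [lb2_E, eT]
  rw [zero_add, sum_range_one, Finset.sum_eq_single 1]
  · simp
  · intro g _ hg
    rw [if_neg (by tauto), zero_smul]
  · simp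

theorem lb2_E_succ (T : ℕ) (F : ℕ → G n → E) :
    lb2_E (T + 1) F = lb2_E T fun j g =>
      (1 / 2 : ℝ) • F j (tau * g) + (1 / 2 : ℝ) • F (j + 1) (finRotate n * g) := by
  have h1 : lb2_E (T + 1) F =
      ∑ j ∈ range (T + 1 + 1), ∑ g : G n, ((1 / 2) * eT T j (tau⁻¹ * g)) • F j g +
      ∑ j ∈ range (T + 1 + 1), ∑ g : G n, (if j = 0 then (0 : ℝ) else
        (1 / 2) * eT T (j - 1) ((finRotate n)⁻¹ * g)) • F j g := by
    rw [lb2_E, ← sum_add_distrib]
    refine sum_congr rfl fun j _ => ?_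
    rw [← sum_add_distrib]
    refine sum_congr rfl fun g _ => ?_
    rw [← add_smul]
    rfl
  have h2 : ∀ j, ∑ g : G n, ((1 / 2) * eT T j (tau⁻¹ * g)) • F j g =
      ∑ g : G n, eT T j g • ((1 / 2 : ℝ) • F j (tau * g)) := by
    intro j
    rw [← Equiv.sum_comp (Equiv.mulLeft (tau : G n))]
    refine sum_congr rfl fun g _ => ?_
    simp only [Equiv.coe_mulLeft, inv_mul_cancel_left]
    rw [smul_smul, mul_comm]
  have h3 : ∀ j, ∑ g : G n, (if j + 1 = 0 then (0 : ℝ) else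
        (1 / 2) * eT T (j + 1 - 1) ((finRotate n)⁻¹ * g)) • F (j + 1) g =
      ∑ g : G n, eT T j g • ((1 / 2 : ℝ) • F (j + 1) (finRotate n * g)) := by
    intro j
    rw [← Equiv.sum_comp (Equiv.mulLeft (finRotate n : G n))]
    refine sum_congr rfl fun g _ => ?_
    rw [if_neg (by omega)]
    simp only [Equiv.coe_mulLeft, inv_mul_cancel_left, Nat.add_sub_cancel]
    rw [smul_smul, mul_comm]
  rw [h1, sum_range_succ, sum_range_succ' _ (T + 1)]
  have h4 : ∑ g : G n, ((1 / 2) * eT T (T + 1) (tau⁻¹ * g)) • F (T + 1) g = 0 := by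
    refine sum_eq_zero fun g _ => ?_
    rw [lb2_eT_zero T (T + 1) _ (by omega), mul_zero, zero_smul]
  rw [h4, add_zero]
  have h5 : ∑ g : G n, (if 0 = 0 then (0 : ℝ) else
        (1 / 2) * eT T (0 - 1) ((finRotate n)⁻¹ * g)) • F 0 g = 0 := by
    refine sum_eq_zero fun g _ => ?_
    rw [if_pos rfl, zero_smul]
  rw [h5, add_zero]
  simp only [h2, h3]
  rw [lb2_E, ← sum_add_distrib]
  refine sum_congr rfl fun j _ => ?_
  rw [← sum_add_distrib]
  refine sum_congr rfl fun g _ => ?_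
  rw [smul_add]

theorem lb2_E_add (T : ℕ) (F F' : ℕ → G n → E) :
    lb2_E T (fun j g => F j g + F' j g) = lb2_E T F + lb2_E T F' := by
  simp only [lb2_E, smul_add, sum_add_distrib]

theorem lb2_E_sub (T : ℕ) (F F' : ℕ → G n → E) :
    lb2_E T (fun j g => F j g - F' j g) = lb2_E T F - lb2_E T F' := by
  simp only [lb2_E, smul_sub, sum_sub_distrib]

theorem lb2_E_mono (T : ℕ) {F F' : ℕ → G n → ℝ} (h : ∀ j g, F j g ≤ F' j g) :
    lb2_E T F ≤ lb2_E T F' := by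
  refine sum_le_sum fun j _ => sum_le_sum fun g _ => ?_
  exact mul_le_mul_of_nonneg_left (h j g) (lb2_eT_nonneg T j g)

theorem lb2_E_mul (T : ℕ) (c : ℝ) (F : ℕ → G n → ℝ) :
    lb2_E T (fun j g => c * F j g) = c * lb2_E T F := by
  simp only [lb2_E, mul_sum, smul_eq_mul]
  refine sum_congr rfl fun j _ => sum_congr rfl fun g _ => ?_
  ring

theorem lb2_E_cmul (T : ℕ) (c : ℂ) (F : ℕ → G n → ℂ) :
    lb2_E T (fun j g => c * F j g) = c * lb2_E T F := by
  simp only [lb2_E, mul_sum]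
  refine sum_congr rfl fun j _ => sum_congr rfl fun g _ => ?_
  rw [mul_smul_comm]

theorem lb2_E_norm (T : ℕ) (F : ℕ → G n → ℂ) :
    ‖lb2_E T F‖ ≤ lb2_E T fun j g => ‖F j g‖ := by
  refine (norm_sum_le _ _).trans (sum_le_sum fun j _ => (norm_sum_le _ _).trans
    (sum_le_sum fun g _ => ?_))
  rw [norm_smul, Real.norm_eq_abs, abs_of_nonneg (lb2_eT_nonneg T j g), smul_eq_mul]

theorem lb2_E_re (T : ℕ) (F : ℕ → G n → ℂ) :
    (lb2_E T F).re = lb2_E T fun j g => (F j g).re := by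
  simp only [lb2_E, Complex.re_sum, Complex.real_smul, Complex.re_ofReal_mul, smul_eq_mul]

theorem lb2_E_pow (T : ℕ) (r : ℝ) :
    lb2_E T (fun j (_ : G n) => r ^ j) = ((1 + r) / 2) ^ T := by
  induction T with
  | zero => rw [lb2_E_zero, pow_zero, pow_zero]
  | succ T ih =>
    rw [lb2_E_succ]
    have : (fun j (_ : G n) => (1 / 2 : ℝ) • r ^ j + (1 / 2 : ℝ) • r ^ (j + 1)) =
        fun j (_ : G n) => ((1 + r) / 2) * r ^ j := by
      funext j _
      simp only [smul_eq_mul]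
      ring
    rw [this, lb2_E_mul, ih]
    ring

theorem lb2_E_one (T : ℕ) : lb2_E T (fun _ (_ : G n) => (1 : ℝ)) = 1 := by
  have := lb2_E_pow (n := n) T 1
  simp only [one_pow] at this
  rw [this]
  norm_num

theorem lb2_E_const (T : ℕ) (c : ℝ) : lb2_E T (fun _ (_ : G n) => c) = c := by
  have := lb2_E_mul (n := n) T c (fun _ _ => 1)
  rw [lb2_E_one, mul_one] at this
  simpa using this

end

/-- the parallelogram identity -/
theorem lb2_par (x y : ℂ) : (1 / 2) * ‖x‖ ^ 2 + (1 / 2) * ‖y‖ ^ 2 =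
    ‖(1 / 2 : ℂ) * x + (1 / 2 : ℂ) * y‖ ^ 2 + ‖x - ((1 / 2 : ℂ) * x + (1 / 2 : ℂ) * y)‖ ^ 2 := by
  simp only [← Complex.normSq_eq_norm_sq, Complex.normSq_apply, Complex.add_re, Complex.sub_re,
    Complex.mul_re, Complex.mul_im, Complex.add_im, Complex.sub_im]
  norm_num
  ring

/-- `|θ|⁻¹` -/
theorem lb2_norm_th (n : ℕ) : ‖(th n)⁻¹‖ = Real.exp ((2 * Real.pi / n) ^ 2 / (2 * n)) := by
  rw [norm_inv, th, Complex.norm_exp, ← Real.exp_neg]
  congr 1
  have h1 : (Complex.I * (2 * (Real.pi : ℂ) / (n : ℂ)) - (2 * (Real.pi : ℂ) / (n : ℂ)) ^ 2 /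
      (2 * (n : ℂ))) = Complex.I * ((2 * Real.pi / n : ℝ) : ℂ) -
      (((2 * Real.pi / n) ^ 2 / (2 * n) : ℝ) : ℂ) := by
    push_cast
    ring
  rw [h1, Complex.sub_re, Complex.ofReal_re, Complex.mul_re, Complex.I_re, Complex.I_im,
    Complex.ofReal_im]
  ring

theorem moment_bound_of (hph : ∃ C : ℝ, 0 < C ∧ ∃ n₀ : ℕ, 3 ≤ n₀ ∧
    ∀ (n : ℕ) [NeZero n], n₀ ≤ n →
    (∀ σ : G n, ‖(1 / 2 : ℂ) * ph n (tau * σ) + (1 / 2 : ℂ) * (th n)⁻¹ * ph n (finRotate n * σ)
      - ph n σ‖ ≤ C / (n : ℝ) ^ 3) ∧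
    ((n : ℝ) / 2 ≤ ‖ph n 1‖) ∧
    (∀ σ : G n, ‖ph n (tau * σ) - ph n σ‖ ≤ C / n) ∧
    (∀ σ : G n, ‖ph n σ‖ ≤ C * n) ∧
    ((∑ σ : G n, ‖ph n σ‖ ^ 2) / (n.factorial : ℝ) ≤ C * n)) :
    ∃ C : ℝ, 0 < C ∧ ∃ n₀ : ℕ, 3 ≤ n₀ ∧ ∀ (n : ℕ) [NeZero n], n₀ ≤ n →
    ∀ T : ℕ, (T : ℝ) ≤ (n : ℝ) ^ 4 →
    ∑ j ∈ range (T + 1), ∑ g : G n, eT T j g * ‖(th n)⁻¹ ^ j * ph n g - ph n 1‖ ^ 2 ≤
      C * n * Real.exp ((2 * Real.pi / n) ^ 2 * T / (2 * n)) := by
  obtain ⟨C, hC, n₀, hn₀, H⟩ := hph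
  refine ⟨2 * C ^ 2 * Real.exp 200, by positivity, n₀, hn₀, ?_⟩
  intro n _ hn T hT
  obtain ⟨hdr, -, hta, hbd, -⟩ := H n hn
  have hn3 : 3 ≤ n := hn₀.trans hn
  have hnR : (3 : ℝ) ≤ n := by exact_mod_cast hn3
  have hn0 : (0 : ℝ) < n := by linarith
  set κ : ℝ := 2 * Real.pi / n with hκ
  set x : ℝ := κ ^ 2 / n with hx
  have hκ0 : 0 < κ := by positivity
  have hx0 : 0 < x := by positivity
  set ρ : ℝ := ‖(th n)⁻¹‖ with hρ
  have hρe : ρ = Real.exp (x / 2) := by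
    rw [hρ, lb2_norm_th]
    congr 1
    rw [hx, hκ]
    field_simp
  have hρ1 : 1 ≤ ρ := by
    rw [hρe]
    exact Real.one_le_exp (by positivity)
  have hρ0 : 0 < ρ := by linarith
  have hρ2 : ρ ^ 2 = Real.exp x := by
    rw [hρe, ← Real.exp_nat_mul]
    congr 1
    push_cast
    ring
  set K : ℝ := (1 + ρ ^ 2) / 2 with hK
  have hK1 : x / 2 ≤ K - 1 := by
    have := Real.add_one_le_exp x
    rw [hK, hρ2]
    linarith
  have hK0 : 1 ≤ K := by linarith
  have hKexp : K ≤ Real.exp (x / 2) * Real.exp (x ^ 2 / 8) := by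
    have h1 : K = Real.exp (x / 2) * Real.cosh (x / 2) := by
      rw [hK, hρ2, Real.cosh_eq, show Real.exp x = Real.exp (x / 2) * Real.exp (x / 2) by
        rw [← Real.exp_add]; congr 1; ring]
      have h2 : Real.exp (x / 2) * Real.exp (-(x / 2)) = 1 := by
        rw [← Real.exp_add]
        simp
      linear_combination (-1 / 2 : ℝ) * h2
    rw [h1]
    refine mul_le_mul_of_nonneg_left ?_ (Real.exp_pos _).le
    have h3 := Real.cosh_le_exp_half_sq (x / 2)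
    refine h3.trans (le_of_eq ?_)
    congr 1
    ring
  have hKT : K ^ T ≤ Real.exp 200 * Real.exp (κ ^ 2 * T / (2 * n)) := by
    have h1 : K ^ T ≤ (Real.exp (x / 2) * Real.exp (x ^ 2 / 8)) ^ T :=
      pow_le_pow_left₀ (by linarith) hKexp T
    refine h1.trans ?_
    rw [← Real.exp_add, ← Real.exp_nat_mul, ← Real.exp_add]
    apply Real.exp_le_exp.2
    have h2 : κ ^ 2 * T / (2 * n) = T * (x / 2) := by
      rw [hx]
      field_simp
    rw [h2, mul_add]
    have h3 : (T : ℝ) * (x ^ 2 / 8) ≤ 200 := by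
      have h4 : x ^ 2 = 16 * Real.pi ^ 4 / (n : ℝ) ^ 6 := by
        rw [hx, hκ]
        field_simp
        ring
      rw [h4]
      have h5 : Real.pi ^ 4 ≤ 100 := by
        have h6 : Real.pi < 3.15 := Real.pi_lt_d2
        have h7 : 0 < Real.pi := Real.pi_pos
        have h8 : Real.pi ^ 4 ≤ 3.15 ^ 4 := pow_le_pow_left₀ h7.le h6.le 4
        refine h8.trans ?_
        norm_num
      have h9 : (T : ℝ) * (16 * Real.pi ^ 4 / (n : ℝ) ^ 6 / 8) =
          2 * Real.pi ^ 4 * (T / (n : ℝ) ^ 6) := by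
        field_simp
        ring
      rw [h9]
      have h10 : (T : ℝ) / (n : ℝ) ^ 6 ≤ 1 := by
        rw [div_le_one (by positivity)]
        refine hT.trans ?_
        exact pow_le_pow_right₀ (by linarith) (by norm_num)
      have h11 : 0 ≤ (T : ℝ) / (n : ℝ) ^ 6 := by positivity
      have h12 : 0 ≤ Real.pi ^ 4 := by positivity
      nlinarith
    linarith
  -- geometric sums
  have hgeo : ∀ T : ℕ, ∑ t ∈ range T, K ^ t ≤ K ^ T * ((n : ℝ) ^ 3 / (2 * Real.pi ^ 2)) := by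
    intro T
    have h1 : (K - 1) * ∑ t ∈ range T, K ^ t = K ^ T - 1 := by
      rw [mul_comm]
      exact geom_sum_mul K T
    have h2 : 0 ≤ ∑ t ∈ range T, K ^ t := sum_nonneg fun t _ => by positivity
    have h3 : x / 2 = 2 * Real.pi ^ 2 / (n : ℝ) ^ 3 := by
      rw [hx, hκ]
      field_simp
    have h4 : (2 * Real.pi ^ 2 / (n : ℝ) ^ 3) * ∑ t ∈ range T, K ^ t ≤ K ^ T := by
      rw [← h3]
      have := mul_le_mul_of_nonneg_right hK1 h2
      linarith
    have h5 : 0 < 2 * Real.pi ^ 2 / (n : ℝ) ^ 3 := by positivity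
    calc ∑ t ∈ range T, K ^ t = ((2 * Real.pi ^ 2 / (n : ℝ) ^ 3) * ∑ t ∈ range T, K ^ t) *
          ((n : ℝ) ^ 3 / (2 * Real.pi ^ 2)) := by
          field_simp
      _ ≤ K ^ T * ((n : ℝ) ^ 3 / (2 * Real.pi ^ 2)) :=
          mul_le_mul_of_nonneg_right h4 (by positivity)
  -- the drift term
  set er : G n → ℂ := fun g => (1 / 2 : ℂ) * ph n (tau * g) +
    (1 / 2 : ℂ) * (th n)⁻¹ * ph n (finRotate n * g) - ph n g with her
  -- first moment
  have hM1 : ∀ T : ℕ, ‖lb2_E T (fun j g => (th n)⁻¹ ^ j * ph n g) - ph n 1‖ ≤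
      (C / (n : ℝ) ^ 3) * ∑ t ∈ range T, K ^ t := by
    intro T
    induction T with
    | zero => simp [lb2_E_zero]
    | succ T ih =>
      have h1 : lb2_E (T + 1) (fun j g => (th n)⁻¹ ^ j * ph n g) =
          lb2_E T (fun j g => (th n)⁻¹ ^ j * ph n g) +
          lb2_E T (fun j g => (th n)⁻¹ ^ j * er g) := by
        rw [lb2_E_succ, ← lb2_E_add]
        congr 1
        funext j g
        rw [her]
        simp only [Complex.real_smul]
        push_cast
        ring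
      have h2 : ‖lb2_E T (fun j g => (th n)⁻¹ ^ j * er g)‖ ≤ (C / (n : ℝ) ^ 3) * K ^ T := by
        refine (lb2_E_norm T _).trans ?_
        have h3 : ∀ (j : ℕ) (g : G n), ‖(th n)⁻¹ ^ j * er g‖ ≤ (C / (n : ℝ) ^ 3) * (ρ ^ 2) ^ j := by
          intro j g
          rw [norm_mul, norm_pow, mul_comm]
          have h4 : ρ ^ j ≤ (ρ ^ 2) ^ j := by
            apply pow_le_pow_left₀ hρ0.le
            nlinarith
          exact mul_le_mul (hdr g) h4 (by positivity) (by positivity)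
        refine (lb2_E_mono T h3).trans ?_
        rw [lb2_E_mul, lb2_E_pow]
      rw [h1, sum_range_succ, mul_add]
      calc ‖lb2_E T (fun j g => (th n)⁻¹ ^ j * ph n g) +
          lb2_E T (fun j g => (th n)⁻¹ ^ j * er g) - ph n 1‖
          = ‖(lb2_E T (fun j g => (th n)⁻¹ ^ j * ph n g) - ph n 1) +
            lb2_E T (fun j g => (th n)⁻¹ ^ j * er g)‖ := by
            congr 1
            ring
        _ ≤ _ := norm_add_le _ _
        _ ≤ _ := add_le_add ih h2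
  -- second moment
  have hM2 : ∀ T : ℕ, lb2_E T (fun j g => ‖(th n)⁻¹ ^ j * ph n g‖ ^ 2) ≤
      ‖ph n 1‖ ^ 2 + (7 * C ^ 2 / (n : ℝ) ^ 2) * ∑ t ∈ range T, K ^ t := by
    intro T
    induction T with
    | zero => simp [lb2_E_zero]
    | succ T ih =>
      have h1 : ∀ (j : ℕ) (g : G n), (1 / 2 : ℝ) • ‖(th n)⁻¹ ^ j * ph n (tau * g)‖ ^ 2 +
          (1 / 2 : ℝ) • ‖(th n)⁻¹ ^ (j + 1) * ph n (finRotate n * g)‖ ^ 2 ≤
          ‖(th n)⁻¹ ^ j * ph n g‖ ^ 2 + (7 * C ^ 2 / (n : ℝ) ^ 2) * (ρ ^ 2) ^ j := by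
        intro j g
        have h2 := lb2_par (ph n (tau * g)) ((th n)⁻¹ * ph n (finRotate n * g))
        have h3 : (1 / 2 : ℂ) * ph n (tau * g) + (1 / 2 : ℂ) * ((th n)⁻¹ *
            ph n (finRotate n * g)) = ph n g + er g := by
          rw [her]
          ring
        rw [h3] at h2
        have h4 : ‖er g‖ ≤ C / (n : ℝ) ^ 3 := hdr g
        have h5 : ‖ph n g + er g‖ ^ 2 ≤ ‖ph n g‖ ^ 2 + 3 * C ^ 2 / (n : ℝ) ^ 2 := by
          have h6 : ‖ph n g + er g‖ ≤ ‖ph n g‖ + C / (n : ℝ) ^ 3 :=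
            (norm_add_le _ _).trans (by linarith)
          have h7 : ‖ph n g + er g‖ ^ 2 ≤ (‖ph n g‖ + C / (n : ℝ) ^ 3) ^ 2 :=
            pow_le_pow_left₀ (norm_nonneg _) h6 2
          have h8 : ‖ph n g‖ * (C / (n : ℝ) ^ 3) ≤ C ^ 2 / (n : ℝ) ^ 2 := by
            have h9 : ‖ph n g‖ * (C / (n : ℝ) ^ 3) ≤ (C * n) * (C / (n : ℝ) ^ 3) :=
              mul_le_mul_of_nonneg_right (hbd g) (by positivity)
            refine h9.trans (le_of_eq ?_)
            field_simp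
          have h10 : (C / (n : ℝ) ^ 3) ^ 2 ≤ C ^ 2 / (n : ℝ) ^ 2 := by
            rw [div_pow, ← pow_mul]
            apply div_le_div_of_nonneg_left (by positivity) (by positivity)
            exact pow_le_pow_right₀ (by linarith) (by norm_num)
          calc ‖ph n g + er g‖ ^ 2 ≤ (‖ph n g‖ + C / (n : ℝ) ^ 3) ^ 2 := h7
            _ = ‖ph n g‖ ^ 2 + 2 * (‖ph n g‖ * (C / (n : ℝ) ^ 3)) + (C / (n : ℝ) ^ 3) ^ 2 := by
              ring
            _ ≤ ‖ph n g‖ ^ 2 + 2 * (C ^ 2 / (n : ℝ) ^ 2) + C ^ 2 / (n : ℝ) ^ 2 := by linarith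
            _ = _ := by ring
        have h6 : ‖ph n (tau * g) - (ph n g + er g)‖ ^ 2 ≤ 4 * C ^ 2 / (n : ℝ) ^ 2 := by
          have h7 : ‖ph n (tau * g) - (ph n g + er g)‖ ≤ 2 * (C / n) := by
            have h8 : ph n (tau * g) - (ph n g + er g) = (ph n (tau * g) - ph n g) - er g := by
              ring
            rw [h8]
            have h9 : C / (n : ℝ) ^ 3 ≤ C / n := by
              apply div_le_div_of_nonneg_left hC.le hn0
              calc (n : ℝ) = (n : ℝ) ^ 1 := by ring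
                _ ≤ (n : ℝ) ^ 3 := pow_le_pow_right₀ (by linarith) (by norm_num)
            have h10 := norm_sub_le (ph n (tau * g) - ph n g) (er g)
            have h11 := hta g
            linarith
          have h8 := pow_le_pow_left₀ (norm_nonneg _) h7 2
          refine h8.trans (le_of_eq ?_)
          ring
        have h7 : (1 / 2) * ‖ph n (tau * g)‖ ^ 2 +
            (1 / 2) * ‖(th n)⁻¹ * ph n (finRotate n * g)‖ ^ 2 ≤
            ‖ph n g‖ ^ 2 + 7 * C ^ 2 / (n : ℝ) ^ 2 := by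
          rw [h2]
          have : 7 * C ^ 2 / (n : ℝ) ^ 2 = 3 * C ^ 2 / (n : ℝ) ^ 2 + 4 * C ^ 2 / (n : ℝ) ^ 2 := by
            ring
          rw [this]
          linarith
        have h8 : (1 / 2 : ℝ) • ‖(th n)⁻¹ ^ j * ph n (tau * g)‖ ^ 2 +
          (1 / 2 : ℝ) • ‖(th n)⁻¹ ^ (j + 1) * ph n (finRotate n * g)‖ ^ 2 =
          (ρ ^ 2) ^ j * ((1 / 2) * ‖ph n (tau * g)‖ ^ 2 +
            (1 / 2) * ‖(th n)⁻¹ * ph n (finRotate n * g)‖ ^ 2) := by
          simp only [norm_mul, norm_pow, smul_eq_mul, ← hρ]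
          ring
        rw [h8]
        have h9 := mul_le_mul_of_nonneg_left h7 (show 0 ≤ (ρ ^ 2) ^ j by positivity)
        refine h9.trans (le_of_eq ?_)
        simp only [norm_mul, norm_pow, ← hρ]
        ring
      rw [lb2_E_succ]
      refine (lb2_E_mono T h1).trans ?_
      rw [lb2_E_add, lb2_E_mul, lb2_E_pow, sum_range_succ, mul_add]
      linarith
  -- conclusion
  have hfin : lb2_E T (fun j g => ‖(th n)⁻¹ ^ j * ph n g - ph n 1‖ ^ 2) ≤
      2 * C ^ 2 * n * K ^ T := by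
    have h1 : (fun j (g : G n) => ‖(th n)⁻¹ ^ j * ph n g - ph n 1‖ ^ 2) =
        fun j (g : G n) => (‖(th n)⁻¹ ^ j * ph n g‖ ^ 2 + ‖ph n 1‖ ^ 2) -
          (2 * ((starRingEnd ℂ) (ph n 1)) * ((th n)⁻¹ ^ j * ph n g)).re := by
      funext j g
      rw [← Complex.normSq_eq_norm_sq, ← Complex.normSq_eq_norm_sq, ← Complex.normSq_eq_norm_sq,
        Complex.normSq_sub]
      have h2 : (2 * ((starRingEnd ℂ) (ph n 1)) * ((th n)⁻¹ ^ j * ph n g)).re =
          2 * ((th n)⁻¹ ^ j * ph n g * (starRingEnd ℂ) (ph n 1)).re := by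
        rw [show 2 * ((starRingEnd ℂ) (ph n 1)) * ((th n)⁻¹ ^ j * ph n g) =
          ((2 : ℝ) : ℂ) * ((th n)⁻¹ ^ j * ph n g * (starRingEnd ℂ) (ph n 1)) by push_cast; ring,
          Complex.re_ofReal_mul]
      rw [h2]
    rw [h1, lb2_E_sub, lb2_E_add, lb2_E_const, ← lb2_E_re, lb2_E_cmul]
    have h2 := hM1 T
    have h3 := hM2 T
    have h4 := hgeo T
    set m := lb2_E T (fun j g => (th n)⁻¹ ^ j * ph n g) with hm
    have h5 : (2 * (starRingEnd ℂ) (ph n 1) * m).re =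
        2 * ‖ph n 1‖ ^ 2 + (2 * (starRingEnd ℂ) (ph n 1) * (m - ph n 1)).re := by
      have h6 : 2 * (starRingEnd ℂ) (ph n 1) * m = 2 * ((starRingEnd ℂ) (ph n 1) * ph n 1) +
          2 * (starRingEnd ℂ) (ph n 1) * (m - ph n 1) := by ring
      rw [h6, Complex.add_re]
      congr 1
      rw [mul_comm ((starRingEnd ℂ) (ph n 1)), Complex.mul_conj, Complex.normSq_eq_norm_sq]
      rw [show (2 : ℂ) * ((‖ph n 1‖ ^ 2 : ℝ) : ℂ) = ((2 * ‖ph n 1‖ ^ 2 : ℝ) : ℂ) by push_cast; ring,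
        Complex.ofReal_re]
    have h6 : |(2 * (starRingEnd ℂ) (ph n 1) * (m - ph n 1)).re| ≤
        2 * ‖ph n 1‖ * ‖m - ph n 1‖ := by
      refine (Complex.abs_re_le_norm _).trans (le_of_eq ?_)
      rw [norm_mul, norm_mul, Complex.norm_conj]
      norm_num
    have h7 := (abs_le.1 h6).1
    have h8 : ∑ t ∈ range T, K ^ t ≤ K ^ T * ((n : ℝ) ^ 3 / 18) := by
      refine h4.trans ?_
      refine mul_le_mul_of_nonneg_left ?_ (by positivity)
      apply div_le_div_of_nonneg_left (by positivity) (by norm_num)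
      have : 3 < Real.pi := Real.pi_gt_three
      nlinarith
    have h9 : (C / (n : ℝ) ^ 3) * ∑ t ∈ range T, K ^ t ≤ C / 18 * K ^ T := by
      refine (mul_le_mul_of_nonneg_left h8 (by positivity)).trans (le_of_eq ?_)
      field_simp
    have h10 : (7 * C ^ 2 / (n : ℝ) ^ 2) * ∑ t ∈ range T, K ^ t ≤ 7 * C ^ 2 / 18 * n * K ^ T := by
      refine (mul_le_mul_of_nonneg_left h8 (by positivity)).trans (le_of_eq ?_)
      field_simp
    have h11 : 2 * ‖ph n 1‖ * ‖m - ph n 1‖ ≤ 2 * (C * n) * (C / 18 * K ^ T) := by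
      apply mul_le_mul _ (h2.trans h9) (norm_nonneg _) (by positivity)
      have := hbd 1
      linarith
    have h12 : 0 ≤ C ^ 2 * n * K ^ T := by positivity
    rw [h5]
    nlinarith
  have hE : ∑ j ∈ range (T + 1), ∑ g : G n, eT T j g * ‖(th n)⁻¹ ^ j * ph n g - ph n 1‖ ^ 2 =
      lb2_E T (fun j g => ‖(th n)⁻¹ ^ j * ph n g - ph n 1‖ ^ 2) := by
    simp only [lb2_E, smul_eq_mul]
  rw [hE]
  refine hfin.trans ?_
  have h1 : 2 * C ^ 2 * n * K ^ T ≤
      2 * C ^ 2 * n * (Real.exp 200 * Real.exp (κ ^ 2 * T / (2 * n))) :=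
    mul_le_mul_of_nonneg_left hKT (by positivity)
  refine h1.trans (le_of_eq ?_)
  ring

end Pool.Agent.Lib.MP_cad76e_pr
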