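import Pool.Agent.Lib.MP_cad76e_pr.Defs
import Pool.Agent.Lib.MP_cad76e_pr.LB2
import Pool.Agent.Lib.MP_cad76e_pr.LB3

/-! Module LB4: the lower bound (assembly). -/

set_option autoImplicit false
set_option linter.unusedSectionVars false

namespace Pool.Agent.Lib.MP_cad76e_pr

open Finset Filter Topology

section words
variable {n : ℕ} [NeZero n]

theorem lb4_eT_nonneg (T : ℕ) : ∀ (j : ℕ) (g : G n), 0 ≤ eT T j g := by
  induction T with
  | zero =>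
    intro j g
    unfold eT
    split_ifs <;> norm_num
  | succ T ih =>
    intro j g
    unfold eT
    have h1 := ih j (tau⁻¹ * g)
    have h2 := ih (j - 1) ((finRotate n)⁻¹ * g)
    split_ifs <;> positivity

theorem lb4_eT_zero (T : ℕ) : ∀ (j : ℕ) (g : G n), T < j → eT T j g = 0 := by
  induction T with
  | zero =>
    intro j g hj
    unfold eT
    rw [if_neg]
    rintro ⟨h, _⟩
    omega
  | succ T ih =>
    intro j g hj
    unfold eT
    rw [ih j _ (by omega), ih (j - 1) _ (by omega), if_neg (by omega)]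
    ring

theorem lb4_mu_eq (T : ℕ) : ∀ g : G n, mu T g = ∑ j ∈ range (T + 1), eT T j g := by
  induction T with
  | zero =>
    intro g
    rw [zero_add, Finset.sum_range_one]
    unfold mu eT
    by_cases h : g = 1 <;> simp [h]
  | succ T ih =>
    intro g
    have h1 : mu (T + 1) g = (1 / 2) * mu T (tau⁻¹ * g) + (1 / 2) * mu T ((finRotate n)⁻¹ * g) :=
      rfl
    rw [h1, ih, ih]
    have h2 : ∑ j ∈ range (T + 1 + 1), eT (T + 1) j g =
        ∑ j ∈ range (T + 1 + 1), (1 / 2) * eT T j (tau⁻¹ * g) +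
        ∑ j ∈ range (T + 1 + 1),
          (if j = 0 then 0 else (1 / 2) * eT T (j - 1) ((finRotate n)⁻¹ * g)) := by
      rw [← Finset.sum_add_distrib]
      rfl
    rw [h2, Finset.sum_range_succ (fun j => (1 / 2) * eT T j (tau⁻¹ * g)) (T + 1),
      lb4_eT_zero T (T + 1) _ (by omega), mul_zero, add_zero,
      Finset.sum_range_succ' _ (T + 1), if_pos rfl, add_zero, Finset.mul_sum, Finset.mul_sum]
    congr 1

theorem lb4_sum_shift (a : G n) (f : G n → ℝ) : ∑ g, f (a⁻¹ * g) = ∑ g, f g :=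
  Equiv.sum_comp (Equiv.mulLeft a⁻¹) f

/-- expectation of a function of the number of letters `c` -/
theorem lb4_exp_succ (T : ℕ) (φ : ℕ → ℝ) :
    ∑ j ∈ range (T + 1 + 1), (∑ g : G n, eT (T + 1) j g) * φ j =
      (1 / 2) * ∑ j ∈ range (T + 1), (∑ g : G n, eT T j g) * φ j +
      (1 / 2) * ∑ j ∈ range (T + 1), (∑ g : G n, eT T j g) * φ (j + 1) := by
  have h0 : ∀ j, ∑ g : G n, eT (T + 1) j g = (1 / 2) * ∑ g : G n, eT T j g +
      (if j = 0 then 0 else (1 / 2) * ∑ g : G n, eT T (j - 1) g) := by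
    intro j
    have h1 : ∀ g : G n, eT (T + 1) j g = (1 / 2) * eT T j (tau⁻¹ * g) +
      (if j = 0 then 0 else (1 / 2) * eT T (j - 1) ((finRotate n)⁻¹ * g)) := fun g => rfl
    simp only [h1]
    rw [Finset.sum_add_distrib, ← Finset.mul_sum, lb4_sum_shift tau (fun g => eT T j g)]
    congr 1
    split_ifs
    · simp
    · rw [← Finset.mul_sum, lb4_sum_shift (finRotate n) (fun g => eT T (j - 1) g)]
  have h2 : ∑ g : G n, eT T (T + 1) g = 0 :=
    Finset.sum_eq_zero fun g _ => lb4_eT_zero T (T + 1) g (by omega)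
  simp only [h0, add_mul]
  rw [Finset.sum_add_distrib, Finset.sum_range_succ, h2, mul_zero, zero_mul, add_zero,
    Finset.sum_range_succ' (n := T + 1), if_pos rfl, zero_mul, add_zero, Finset.mul_sum,
    Finset.mul_sum]
  congr 1
  · exact Finset.sum_congr rfl fun j _ => by ring
  · refine Finset.sum_congr rfl fun j _ => ?_
    rw [if_neg (by omega), Nat.add_sub_cancel]
    ring

theorem lb4_total (T : ℕ) : ∑ j ∈ range (T + 1), (∑ g : G n, eT T j g) = 1 := by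
  induction T with
  | zero =>
    rw [zero_add, Finset.sum_range_one, Finset.sum_eq_single 1]
    · unfold eT
      simp
    · intro g _ hg
      unfold eT
      simp [hg]
    · intro h
      exact absurd (Finset.mem_univ _) h
  | succ T ih =>
    have h := lb4_exp_succ (n := n) T (fun _ => 1)
    simp only [mul_one] at h
    rw [h, ih]
    norm_num

/-- variance of the number of letters `c` -/
theorem lb4_var (T : ℕ) :
    ∑ j ∈ range (T + 1), (∑ g : G n, eT T j g) * (2 * (j : ℝ) - (T : ℝ)) ^ 2 = (T : ℝ) := by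
  induction T with
  | zero =>
    rw [zero_add, Finset.sum_range_one]
    simp
  | succ T ih =>
    rw [lb4_exp_succ T (fun j => (2 * (j : ℝ) - ((T + 1 : ℕ) : ℝ)) ^ 2), ← mul_add, ← Finset.sum_add_distrib]
    have h1 : ∀ j ∈ range (T + 1), (∑ g : G n, eT T j g) * (2 * (j : ℝ) - ((T + 1 : ℕ) : ℝ)) ^ 2 +
        (∑ g : G n, eT T j g) * (2 * ((j + 1 : ℕ) : ℝ) - ((T + 1 : ℕ) : ℝ)) ^ 2 =
        2 * ((∑ g : G n, eT T j g) * (2 * (j : ℝ) - T) ^ 2) + 2 * (∑ g : G n, eT T j g) := by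
      intro j _
      push_cast
      ring
    rw [Finset.sum_congr rfl h1, Finset.sum_add_distrib, ← Finset.mul_sum, ← Finset.mul_sum, ih,
      lb4_total]
    push_cast
    ring

theorem lb4_mu_nonneg (T : ℕ) (g : G n) : 0 ≤ mu T g := by
  rw [lb4_mu_eq]
  exact Finset.sum_nonneg fun j _ => lb4_eT_nonneg T j g

theorem lb4_mu_sum (T : ℕ) : ∑ g : G n, mu T g = 1 := by
  simp only [lb4_mu_eq]
  rw [Finset.sum_comm, lb4_total]

theorem lb4_unif_sum : ∑ _g : G n, 1 / (n.factorial : ℝ) = 1 := by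
  rw [Finset.sum_const, Finset.card_univ, Fintype.card_perm, Fintype.card_fin, nsmul_eq_mul]
  have : (n.factorial : ℝ) ≠ 0 := by exact_mod_cast n.factorial_ne_zero
  field_simp

theorem lb4_le_one (T : ℕ) : (1 / 2 : ℝ) * ∑ g : G n, |mu T g - 1 / (n.factorial : ℝ)| ≤ 1 := by
  have h1 : ∀ g : G n, |mu T g - 1 / (n.factorial : ℝ)| ≤ mu T g + 1 / (n.factorial : ℝ) := by
    intro g
    have h2 := lb4_mu_nonneg T g
    have h3 : 0 ≤ 1 / (n.factorial : ℝ) := by positivity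
    rw [abs_le]
    constructor <;> linarith
  have h4 := Finset.sum_le_sum (s := (Finset.univ : Finset (G n))) fun g _ => h1 g
  rw [Finset.sum_add_distrib, lb4_mu_sum, lb4_unif_sum] at h4
  linarith

open Classical in
theorem lb4_tv (T : ℕ) (B : G n → Prop) (x y : ℝ)
    (hx : ∑ g ∈ Finset.univ.filter (fun g => ¬ B g), mu T g ≤ x)
    (hy : ∑ g ∈ Finset.univ.filter (fun g => B g), 1 / (n.factorial : ℝ) ≤ y) :
    1 - x - y ≤ (1 / 2 : ℝ) * ∑ g : G n, |mu T g - 1 / (n.factorial : ℝ)| := by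
  have h1 := Finset.sum_filter_add_sum_filter_not (Finset.univ : Finset (G n)) B
    (fun g => |mu T g - 1 / (n.factorial : ℝ)|)
  have h2 := Finset.sum_filter_add_sum_filter_not (Finset.univ : Finset (G n)) B
    (fun g => mu T g)
  have h3 := Finset.sum_filter_add_sum_filter_not (Finset.univ : Finset (G n)) B
    (fun _ => 1 / (n.factorial : ℝ))
  rw [lb4_mu_sum] at h2
  rw [lb4_unif_sum] at h3
  have h4 : ∑ g ∈ Finset.univ.filter (fun g => B g), (mu T g - 1 / (n.factorial : ℝ)) ≤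
      ∑ g ∈ Finset.univ.filter (fun g => B g), |mu T g - 1 / (n.factorial : ℝ)| :=
    Finset.sum_le_sum fun g _ => le_abs_self _
  have h5 : ∑ g ∈ Finset.univ.filter (fun g => ¬ B g), (1 / (n.factorial : ℝ) - mu T g) ≤
      ∑ g ∈ Finset.univ.filter (fun g => ¬ B g), |mu T g - 1 / (n.factorial : ℝ)| :=
    Finset.sum_le_sum fun g _ => by rw [abs_sub_comm]; exact le_abs_self _
  rw [Finset.sum_sub_distrib] at h4 h5
  linarith

open Classical in
theorem lb4_finite (T : ℕ) (hT : 0 < T) (ε : ℝ) (hε : 0 < ε) (M C' r : ℝ) (hr : 0 < r)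
    (hmom : ∑ j ∈ range (T + 1), ∑ g : G n,
      eT T j g * ‖(th n)⁻¹ ^ j * ph n g - ph n 1‖ ^ 2 ≤ M)
    (hph1 : (n : ℝ) / 2 ≤ ‖ph n 1‖)
    (hunif : (∑ σ : G n, ‖ph n σ‖ ^ 2) / (n.factorial : ℝ) ≤ C' * n)
    (hθ : ∀ j : ℕ, 2 * (j : ℝ) ≤ (1 + ε) * T → r ≤ ‖th n‖ ^ j * n / 4) :
    1 - (16 / (n : ℝ) ^ 2 * M + 1 / (ε ^ 2 * T)) - C' * n / r ^ 2 ≤
      (1 / 2 : ℝ) * ∑ g : G n, |mu T g - 1 / (n.factorial : ℝ)| := by
  have hn : (0 : ℝ) < n := by exact_mod_cast Nat.pos_of_ne_zero (NeZero.ne n)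
  have hTr : (0 : ℝ) < T := by exact_mod_cast hT
  refine lb4_tv T (fun g => r ≤ ‖ph n g‖) _ _ ?_ ?_
  · -- the walk
    have h1 : ∑ g ∈ Finset.univ.filter (fun g : G n => ¬ r ≤ ‖ph n g‖), mu T g ≤
        ∑ g : G n, ∑ j ∈ range (T + 1), eT T j g *
          (16 / (n : ℝ) ^ 2 * ‖(th n)⁻¹ ^ j * ph n g - ph n 1‖ ^ 2 +
            1 / (ε ^ 2 * (T : ℝ) ^ 2) * (2 * (j : ℝ) - T) ^ 2) := by
      refine (Finset.sum_le_sum (g := fun g : G n => ∑ j ∈ range (T + 1), eT T j g *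
          (16 / (n : ℝ) ^ 2 * ‖(th n)⁻¹ ^ j * ph n g - ph n 1‖ ^ 2 +
            1 / (ε ^ 2 * (T : ℝ) ^ 2) * (2 * (j : ℝ) - T) ^ 2)) fun g hg => ?_).trans
        (Finset.sum_le_sum_of_subset_of_nonneg (Finset.filter_subset _ _) fun g _ _ => ?_)
      · rw [Finset.mem_filter] at hg
        have hg' := not_le.1 hg.2
        rw [lb4_mu_eq]
        refine Finset.sum_le_sum fun j _ => ?_
        refine le_mul_of_one_le_right (lb4_eT_nonneg T j g) ?_
        by_cases hj : 2 * (j : ℝ) ≤ (1 + ε) * T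
        · have h2 := hθ j hj
          have hth : 0 < ‖th n‖ := by
            rw [norm_pos_iff]
            unfold th
            exact Complex.exp_ne_zero _
          have h3 : ‖(th n)⁻¹ ^ j * ph n g‖ ≤ n / 4 := by
            rw [norm_mul, norm_pow, norm_inv, inv_pow, inv_mul_le_iff₀ (by positivity)]
            linarith
          have h4 : (n : ℝ) / 4 ≤ ‖(th n)⁻¹ ^ j * ph n g - ph n 1‖ := by
            have h5 := norm_sub_norm_le (ph n 1) ((th n)⁻¹ ^ j * ph n g)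
            rw [norm_sub_rev] at h5
            linarith
          have h5 : 1 ≤ 16 / (n : ℝ) ^ 2 * ‖(th n)⁻¹ ^ j * ph n g - ph n 1‖ ^ 2 := by
            have h6 : ((n : ℝ) / 4) ^ 2 ≤ ‖(th n)⁻¹ ^ j * ph n g - ph n 1‖ ^ 2 :=
              pow_le_pow_left₀ (by positivity) h4 2
            calc (1 : ℝ) = 16 / (n : ℝ) ^ 2 * ((n : ℝ) / 4) ^ 2 := by
                  field_simp
                  norm_num
              _ ≤ _ := by gcongr
          have h6 : 0 ≤ 1 / (ε ^ 2 * (T : ℝ) ^ 2) * (2 * (j : ℝ) - T) ^ 2 := by positivity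
          linarith
        · have h2 : ε * T ≤ 2 * (j : ℝ) - T := by linarith [not_le.1 hj]
          have h3 : (ε * T) ^ 2 ≤ (2 * (j : ℝ) - T) ^ 2 :=
            pow_le_pow_left₀ (by positivity) h2 2
          have h4 : 1 ≤ 1 / (ε ^ 2 * (T : ℝ) ^ 2) * (2 * (j : ℝ) - T) ^ 2 := by
            calc (1 : ℝ) = 1 / (ε ^ 2 * (T : ℝ) ^ 2) * (ε * T) ^ 2 := by
                  field_simp
              _ ≤ _ := by gcongr
          have h5 : 0 ≤ 16 / (n : ℝ) ^ 2 * ‖(th n)⁻¹ ^ j * ph n g - ph n 1‖ ^ 2 := by positivity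
          linarith
      · exact Finset.sum_nonneg fun j _ => mul_nonneg (lb4_eT_nonneg T j g) (by positivity)
    refine h1.trans ?_
    have h2 : ∑ g : G n, ∑ j ∈ range (T + 1), eT T j g *
          (16 / (n : ℝ) ^ 2 * ‖(th n)⁻¹ ^ j * ph n g - ph n 1‖ ^ 2 +
            1 / (ε ^ 2 * (T : ℝ) ^ 2) * (2 * (j : ℝ) - T) ^ 2) =
        16 / (n : ℝ) ^ 2 * ∑ j ∈ range (T + 1), ∑ g : G n,
          eT T j g * ‖(th n)⁻¹ ^ j * ph n g - ph n 1‖ ^ 2 +
        1 / (ε ^ 2 * (T : ℝ) ^ 2) *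
          ∑ j ∈ range (T + 1), (∑ g : G n, eT T j g) * (2 * (j : ℝ) - T) ^ 2 := by
      rw [Finset.sum_comm, Finset.mul_sum, Finset.mul_sum, ← Finset.sum_add_distrib]
      refine Finset.sum_congr rfl fun j _ => ?_
      rw [Finset.mul_sum, Finset.sum_mul, Finset.mul_sum, ← Finset.sum_add_distrib]
      exact Finset.sum_congr rfl fun g _ => by ring
    rw [h2, lb4_var]
    have h3 : 1 / (ε ^ 2 * (T : ℝ) ^ 2) * T = 1 / (ε ^ 2 * T) := by
      field_simp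
    rw [h3]
    gcongr
  · -- the uniform law
    have hf : (0 : ℝ) < n.factorial := by exact_mod_cast n.factorial_pos
    have h1 : ∑ g ∈ Finset.univ.filter (fun g : G n => r ≤ ‖ph n g‖), 1 / (n.factorial : ℝ) ≤
        ∑ g : G n, 1 / r ^ 2 * (‖ph n g‖ ^ 2 / (n.factorial : ℝ)) := by
      refine (Finset.sum_le_sum (g := fun g : G n =>
        1 / r ^ 2 * (‖ph n g‖ ^ 2 / (n.factorial : ℝ))) fun g hg => ?_).trans
        (Finset.sum_le_sum_of_subset_of_nonneg (Finset.filter_subset _ _) fun g _ _ => by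
          positivity)
      rw [Finset.mem_filter] at hg
      have h2 : r ^ 2 ≤ ‖ph n g‖ ^ 2 := pow_le_pow_left₀ hr.le hg.2 2
      calc 1 / (n.factorial : ℝ) = 1 / r ^ 2 * (r ^ 2 / (n.factorial : ℝ)) := by
            field_simp
        _ ≤ _ := by gcongr
    refine h1.trans ?_
    rw [← Finset.mul_sum, ← Finset.sum_div]
    calc 1 / r ^ 2 * ((∑ σ : G n, ‖ph n σ‖ ^ 2) / (n.factorial : ℝ)) ≤ 1 / r ^ 2 * (C' * n) := by
          gcongr
      _ = _ := by ring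

end words

/-- one value of `n` -/
theorem lb4_bound {n : ℕ} [NeZero n] (hn : 2 ≤ n) (ε : ℝ) (hε : 0 < ε) (hε1 : ε < 1) (C C' : ℝ)
    (hC : 0 < C) (T : ℕ) (hT : 0 < T)
    (hTn : (T : ℝ) ≤ (1 - ε) * ((n : ℝ) ^ 3 * Real.log n / (2 * Real.pi ^ 2)))
    (hmom : ∑ j ∈ range (T + 1), ∑ g : G n,
      eT T j g * ‖(th n)⁻¹ ^ j * ph n g - ph n 1‖ ^ 2 ≤
        C * n * Real.exp ((2 * Real.pi / n) ^ 2 * T / (2 * n)))
    (hph1 : (n : ℝ) / 2 ≤ ‖ph n 1‖)
    (hunif : (∑ σ : G n, ‖ph n σ‖ ^ 2) / (n.factorial : ℝ) ≤ C' * n) :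
    1 - (16 * C * (n : ℝ) ^ (-ε) + 1 / (ε ^ 2 * T)) - 16 * C' * (n : ℝ) ^ (-ε ^ 2) ≤
      (1 / 2 : ℝ) * ∑ g : G n, |mu T g - 1 / (n.factorial : ℝ)| := by
  have hn0 : (0 : ℝ) < n := by exact_mod_cast (by omega : 0 < n)
  have hpi := Real.pi_pos
  -- the exponent
  have hexp : (2 * Real.pi / n) ^ 2 * T / (2 * n) ≤ (1 - ε) * Real.log n := by
    have h1 : (2 * Real.pi / n) ^ 2 * T / (2 * n) = 2 * Real.pi ^ 2 / (n : ℝ) ^ 3 * T := by
      field_simp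
    rw [h1]
    calc 2 * Real.pi ^ 2 / (n : ℝ) ^ 3 * T ≤ 2 * Real.pi ^ 2 / (n : ℝ) ^ 3 *
          ((1 - ε) * ((n : ℝ) ^ 3 * Real.log n / (2 * Real.pi ^ 2))) := by gcongr
      _ = (1 - ε) * Real.log n := by
          field_simp
  have hexp' : Real.exp ((2 * Real.pi / n) ^ 2 * T / (2 * n)) ≤ (n : ℝ) ^ (1 - ε) := by
    rw [Real.rpow_def_of_pos hn0]
    refine Real.exp_le_exp.2 (hexp.trans (le_of_eq (by ring)))
  have hth : ‖th n‖ = Real.exp (-((2 * Real.pi / n) ^ 2 / (2 * n))) := by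
    unfold th
    rw [Complex.norm_exp]
    have h1 : Complex.I * (2 * Real.pi / n) - (2 * Real.pi / n) ^ 2 / (2 * n) =
        ((-((2 * Real.pi / n) ^ 2 / (2 * n)) : ℝ) : ℂ) + ((2 * Real.pi / n : ℝ) : ℂ) * Complex.I := by
      push_cast
      ring
    rw [h1, Complex.add_re, Complex.ofReal_re, Complex.re_ofReal_mul, Complex.I_re, mul_zero,
      add_zero]
  set r : ℝ := (n : ℝ) ^ ((1 + ε ^ 2) / 2) / 4 with hr
  have hrpos : 0 < r := by positivity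
  have hθ : ∀ j : ℕ, 2 * (j : ℝ) ≤ (1 + ε) * T → r ≤ ‖th n‖ ^ j * n / 4 := by
    intro j hj
    rw [hr, hth, ← Real.exp_nat_mul]
    have h2 : (n : ℝ) ^ ((1 + ε ^ 2) / 2) = Real.exp (Real.log n * (-(1 - ε ^ 2) / 2)) * n := by
      nth_rewrite 3 [← Real.exp_log hn0]
      rw [← Real.exp_add, Real.rpow_def_of_pos hn0]
      congr 1
      ring
    rw [h2]
    have h3 : Real.log n * (-(1 - ε ^ 2) / 2) ≤ (j : ℝ) * -((2 * Real.pi / n) ^ 2 / (2 * n)) := by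
      have h4 : (j : ℝ) * ((2 * Real.pi / n) ^ 2 / (2 * n)) ≤
          (1 + ε) / 2 * ((2 * Real.pi / n) ^ 2 * T / (2 * n)) := by
        calc (j : ℝ) * ((2 * Real.pi / n) ^ 2 / (2 * n)) ≤
              ((1 + ε) * T / 2) * ((2 * Real.pi / n) ^ 2 / (2 * n)) := by
              gcongr
              linarith
          _ = _ := by ring
      have h5 : (1 + ε) / 2 * ((2 * Real.pi / n) ^ 2 * T / (2 * n)) ≤
          (1 + ε) / 2 * ((1 - ε) * Real.log n) := by gcongr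
      nlinarith
    gcongr
  have h1 := lb4_finite T hT ε hε _ C' r hrpos hmom hph1 hunif hθ
  have h2 : 16 / (n : ℝ) ^ 2 * (C * n * Real.exp ((2 * Real.pi / n) ^ 2 * T / (2 * n))) ≤
      16 * C * (n : ℝ) ^ (-ε) := by
    calc 16 / (n : ℝ) ^ 2 * (C * n * Real.exp ((2 * Real.pi / n) ^ 2 * T / (2 * n))) ≤
          16 / (n : ℝ) ^ 2 * (C * n * (n : ℝ) ^ (1 - ε)) := by gcongr
      _ = 16 * C * (n : ℝ) ^ (-ε) := by
          rw [Real.rpow_sub hn0, Real.rpow_one, Real.rpow_neg hn0.le]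
          field_simp
  have h3 : C' * n / r ^ 2 = 16 * C' * (n : ℝ) ^ (-ε ^ 2) := by
    have h4 : r ^ 2 = (n : ℝ) * (n : ℝ) ^ (ε ^ 2) / 16 := by
      rw [hr, div_pow, ← Real.rpow_natCast ((n : ℝ) ^ ((1 + ε ^ 2) / 2)) 2, ← Real.rpow_mul hn0.le]
      have h5 : (1 + ε ^ 2) / 2 * ((2 : ℕ) : ℝ) = 1 + ε ^ 2 := by
        push_cast; ring
      rw [h5, Real.rpow_add hn0, Real.rpow_one]
      norm_num
    rw [h4, Real.rpow_neg hn0.le]
    field_simp
  rw [h3] at h1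
  linarith

theorem lower_bound (ε : ℝ) (hε : 0 < ε) (hε1 : ε < 1) :
    Tendsto (fun m : ℕ => (1 / 2 : ℝ) * ∑ g : G (2 * m + 3),
      |mu ⌊(1 - ε) * (((2 * m + 3 : ℕ) : ℝ) ^ 3 * Real.log ((2 * m + 3 : ℕ) : ℝ) /
        (2 * Real.pi ^ 2))⌋₊ g - 1 / ((2 * m + 3).factorial : ℝ)|) atTop (𝓝 1) := by
  obtain ⟨C, hC, n₁, hn₁, hmom⟩ := moment_bound
  obtain ⟨C', hC', n₂, hn₂, hph⟩ := ph_props
  have hpi := Real.pi_pos
  -- `n → ∞`
  have hn : Tendsto (fun m : ℕ => ((2 * m + 3 : ℕ) : ℝ)) atTop atTop := by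
    refine tendsto_natCast_atTop_atTop.comp ?_
    refine tendsto_atTop_mono (fun m => ?_) tendsto_id
    dsimp only [id]
    omega
  -- the time
  have hτ : Tendsto (fun m : ℕ => (1 - ε) * (((2 * m + 3 : ℕ) : ℝ) ^ 3 *
      Real.log ((2 * m + 3 : ℕ) : ℝ) / (2 * Real.pi ^ 2))) atTop atTop := by
    have h1 : Tendsto (fun x : ℝ => (1 - ε) * (x ^ 3 * Real.log x / (2 * Real.pi ^ 2)))
        atTop atTop := by
      refine Tendsto.const_mul_atTop (by linarith) ?_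
      refine Tendsto.atTop_div_const (by positivity) ?_
      exact (tendsto_pow_atTop (by norm_num)).atTop_mul_atTop₀ Real.tendsto_log_atTop
    exact h1.comp hn
  have hT : Tendsto (fun m : ℕ => ⌊(1 - ε) * (((2 * m + 3 : ℕ) : ℝ) ^ 3 *
      Real.log ((2 * m + 3 : ℕ) : ℝ) / (2 * Real.pi ^ 2))⌋₊) atTop atTop :=
    tendsto_nat_floor_atTop.comp hτ
  have hT' : Tendsto (fun m : ℕ => ((⌊(1 - ε) * (((2 * m + 3 : ℕ) : ℝ) ^ 3 *
      Real.log ((2 * m + 3 : ℕ) : ℝ) / (2 * Real.pi ^ 2))⌋₊ : ℕ) : ℝ)) atTop atTop :=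
    tendsto_natCast_atTop_atTop.comp hT
  refine tendsto_of_tendsto_of_tendsto_of_le_of_le'
    (g := fun m : ℕ => 1 - (16 * C * ((2 * m + 3 : ℕ) : ℝ) ^ (-ε) +
      1 / (ε ^ 2 * ((⌊(1 - ε) * (((2 * m + 3 : ℕ) : ℝ) ^ 3 *
      Real.log ((2 * m + 3 : ℕ) : ℝ) / (2 * Real.pi ^ 2))⌋₊ : ℕ) : ℝ))) -
      16 * C' * ((2 * m + 3 : ℕ) : ℝ) ^ (-ε ^ 2)) ?_ tendsto_const_nhds ?_ ?_
  · have h1 : Tendsto (fun m : ℕ => ((2 * m + 3 : ℕ) : ℝ) ^ (-ε)) atTop (𝓝 0) :=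
      (tendsto_rpow_neg_atTop hε).comp hn
    have h2 : Tendsto (fun m : ℕ => ((2 * m + 3 : ℕ) : ℝ) ^ (-ε ^ 2)) atTop (𝓝 0) :=
      (tendsto_rpow_neg_atTop (by positivity)).comp hn
    have h3 : Tendsto (fun m : ℕ => 1 / (ε ^ 2 * ((⌊(1 - ε) * (((2 * m + 3 : ℕ) : ℝ) ^ 3 *
      Real.log ((2 * m + 3 : ℕ) : ℝ) / (2 * Real.pi ^ 2))⌋₊ : ℕ) : ℝ))) atTop (𝓝 0) := by
      refine Tendsto.div_atTop tendsto_const_nhds ?_
      exact Tendsto.const_mul_atTop (by positivity) hT'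
    have h4 := ((h1.const_mul (16 * C)).add h3).const_sub 1 |>.sub (h2.const_mul (16 * C'))
    simpa using h4
  · have h1 : ∀ᶠ m : ℕ in atTop, 0 < ⌊(1 - ε) * (((2 * m + 3 : ℕ) : ℝ) ^ 3 *
      Real.log ((2 * m + 3 : ℕ) : ℝ) / (2 * Real.pi ^ 2))⌋₊ := hT.eventually_gt_atTop 0
    filter_upwards [h1, eventually_ge_atTop n₁, eventually_ge_atTop n₂] with m hm hm1 hm2
    obtain ⟨-, h3, -, -, h4⟩ := hph (2 * m + 3) (by omega)
    have hn0 : (0 : ℝ) < ((2 * m + 3 : ℕ) : ℝ) := by positivity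
    have hn3 : (1 : ℝ) ≤ ((2 * m + 3 : ℕ) : ℝ) := by exact_mod_cast (by omega : 1 ≤ 2 * m + 3)
    have hlog : 0 ≤ Real.log ((2 * m + 3 : ℕ) : ℝ) := Real.log_nonneg hn3
    have h5 : ((⌊(1 - ε) * (((2 * m + 3 : ℕ) : ℝ) ^ 3 *
      Real.log ((2 * m + 3 : ℕ) : ℝ) / (2 * Real.pi ^ 2))⌋₊ : ℕ) : ℝ) ≤
      (1 - ε) * (((2 * m + 3 : ℕ) : ℝ) ^ 3 *
      Real.log ((2 * m + 3 : ℕ) : ℝ) / (2 * Real.pi ^ 2)) := by
      refine Nat.floor_le ?_
      have : 0 ≤ 1 - ε := by linarith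
      positivity
    have h6 : (1 - ε) * (((2 * m + 3 : ℕ) : ℝ) ^ 3 *
      Real.log ((2 * m + 3 : ℕ) : ℝ) / (2 * Real.pi ^ 2)) ≤ ((2 * m + 3 : ℕ) : ℝ) ^ 4 := by
      have h7 : Real.log ((2 * m + 3 : ℕ) : ℝ) ≤ ((2 * m + 3 : ℕ) : ℝ) := by
        have := Real.log_le_sub_one_of_pos hn0
        linarith
      have h8 : ((2 * m + 3 : ℕ) : ℝ) ^ 3 * Real.log ((2 * m + 3 : ℕ) : ℝ) ≤
          ((2 * m + 3 : ℕ) : ℝ) ^ 4 := by
        calc ((2 * m + 3 : ℕ) : ℝ) ^ 3 * Real.log ((2 * m + 3 : ℕ) : ℝ) ≤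
            ((2 * m + 3 : ℕ) : ℝ) ^ 3 * ((2 * m + 3 : ℕ) : ℝ) := by gcongr
          _ = _ := by ring
      have h9 : (1 : ℝ) ≤ 2 * Real.pi ^ 2 := by
        have := Real.pi_gt_three
        nlinarith
      have h10 : ((2 * m + 3 : ℕ) : ℝ) ^ 3 * Real.log ((2 * m + 3 : ℕ) : ℝ) / (2 * Real.pi ^ 2) ≤
          ((2 * m + 3 : ℕ) : ℝ) ^ 4 := by
        rw [div_le_iff₀ (by positivity)]
        have : (0 : ℝ) ≤ ((2 * m + 3 : ℕ) : ℝ) ^ 4 := by positivity
        nlinarith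
      have h11 : 0 ≤ ((2 * m + 3 : ℕ) : ℝ) ^ 3 * Real.log ((2 * m + 3 : ℕ) : ℝ) /
          (2 * Real.pi ^ 2) := by positivity
      nlinarith
    exact lb4_bound (by omega) ε hε hε1 C C' hC _ hm h5
      (hmom (2 * m + 3) (by omega) _ (h5.trans h6)) h3 h4
  · exact Filter.Eventually.of_forall fun m => lb4_le_one _

end Pool.Agent.Lib.MP_cad76e_pr
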