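import Pool.Agent.Lib.MP_cad76e_pr.ROT

/-! Module MEAN: the average over one turn of a labelled card. -/

set_option autoImplicit false

namespace Pool.Agent.Lib.MP_cad76e_pr

open Finset

/-- the card at position `σ a + i`, as `i` runs through `range n`, runs through all cards -/
theorem sum_range_cards {n : ℕ} [NeZero n] {M : Type*} [AddCommMonoid M] (a : Fin n) (σ : G n)
    (f : ℕ → Fin n → M) :
    ∑ i ∈ range n, f i (σ.symm (σ a + Fin.ofNat n i)) =
      ∑ h : Fin n, f ((σ h - σ a : Fin n) : ℕ) h := by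
  rw [Finset.sum_range]
  refine Fintype.sum_equiv ((Equiv.addLeft (σ a)).trans σ.symm) _ _ fun j => ?_
  have h1 : Fin.ofNat n (j : ℕ) = j := by
    apply Fin.ext
    simp [Fin.ofNat, Nat.mod_eq_of_lt j.isLt]
  have h2 : ((Equiv.addLeft (σ a)).trans σ.symm) j = σ.symm (σ a + j) := rfl
  rw [h1, h2, Equiv.apply_symm_apply, add_sub_cancel_left]

theorem mean_bound {n : ℕ} [NeZero n] (hn : 3 ≤ n) (A : Finset (Fin n)) (g : G n → ℂ)
    (hg : g ∈ UA A) (a : Fin n) (ha : a ∈ A) :
    nsq (avgO a g) ≤ 2 * (#A : ℝ) * Etot A g + (2 * (#A : ℝ) / n) * nsq g := by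
  classical
  obtain ⟨hgF, hgm⟩ := hg
  have hn0 : (0 : ℝ) < n := by
    have : 0 < n := by omega
    exact_mod_cast this
  -- the sum over one turn, with the vanishing marginal subtracted
  set c : G n → ℕ → Fin n := fun σ i => σ.symm (σ a + Fin.ofNat n i) with hc
  set D1 : G n → ℕ → ℂ := fun σ i => if c σ i ∉ A then
    g ((stepFwd a)^[i] σ) - g (σ * Equiv.swap a (c σ i)) else 0 with hD1
  set D2 : G n → ℕ → ℂ := fun σ i => if c σ i ∈ A ∧ c σ i ≠ a then
    g ((stepFwd a)^[i] σ) else 0 with hD2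
  have hc0 : ∀ σ, c σ 0 = a := by
    intro σ
    simp [hc]
  have hca : ∀ σ i, i < n → c σ i = a → i = 0 := by
    intro σ i hi h
    have h1 : σ a + Fin.ofNat n i = σ a := by
      have h2 : σ (c σ i) = σ a := by rw [h]
      rwa [hc, Equiv.apply_symm_apply] at h2
    have h2 : Fin.ofNat n i = (0 : Fin n) := by simpa using h1
    have h3 := congrArg Fin.val h2
    simpa [Fin.ofNat, Nat.mod_eq_of_lt hi] using h3
  have hmarg : ∀ σ, ∑ i ∈ range n, (if c σ i ∉ A ∨ c σ i = a then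
      g (σ * Equiv.swap a (c σ i)) else 0) = 0 := by
    intro σ
    rw [sum_range_cards a σ (fun _ h => if h ∉ A ∨ h = a then g (σ * Equiv.swap a h) else 0)]
    refine Eq.trans ?_ (hgm a ha σ)
    rw [← Finset.sum_subset (Finset.subset_univ ((A.erase a)ᶜ))]
    · refine Finset.sum_congr rfl fun h hh => ?_
      have h3 : h ∉ A.erase a := Finset.mem_compl.mp hh
      have h4 : h ∉ A ∨ h = a := by
        by_contra hcon
        rw [not_or, not_not] at hcon
        exact h3 (Finset.mem_erase.mpr ⟨hcon.2, hcon.1⟩)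
      rw [if_pos h4]
    · intro h _ hh
      have h3 : h ∈ A.erase a := by
        by_contra hcon
        exact hh (Finset.mem_compl.mpr hcon)
      have h4 := Finset.mem_erase.mp h3
      rw [if_neg]
      rintro (h1 | h1)
      · exact h1 h4.2
      · exact h4.1 h1
  have hsum : ∀ σ, ∑ i ∈ range n, g ((stepFwd a)^[i] σ) =
      ∑ i ∈ range n, D1 σ i + ∑ i ∈ range n, D2 σ i := by
    intro σ
    rw [← sub_zero (∑ i ∈ range n, g ((stepFwd a)^[i] σ)), ← hmarg σ, ← Finset.sum_sub_distrib,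
      ← Finset.sum_add_distrib]
    refine Finset.sum_congr rfl fun i hi => ?_
    have hi' : i < n := Finset.mem_range.mp hi
    simp only [hD1, hD2]
    by_cases h1 : c σ i = a
    · have h2 := hca σ i hi' h1
      subst h2
      rw [h1, if_pos (Or.inr rfl), if_neg (fun h => h ha), if_neg (fun h => h.2 rfl),
        Equiv.swap_self]
      show g σ - g (σ * 1) = 0 + 0
      rw [mul_one, sub_self, add_zero]
    · by_cases h2 : c σ i ∈ A
      · rw [if_neg (by rintro (h | h); exacts [h h2, h1 h]), if_neg (by simpa using h2),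
          if_pos ⟨h2, h1⟩]
        ring
      · rw [if_pos (Or.inl h2), if_pos h2, if_neg (fun h => h2 h.1)]
        ring
  -- bound of the first sum
  have hB1 : ∀ σ i, i < n → ‖D1 σ i‖ ^ 2 ≤ if c σ i ∉ A then
      #A * turnE g (c σ i) (σ * Equiv.swap a (c σ i)) else 0 := by
    intro σ i hi
    simp only [hD1]
    by_cases h : c σ i ∈ A
    · rw [if_neg (fun h' => h' h), if_neg (fun h' => h' h)]
      simp
    · rw [if_pos h, if_pos h]
      have h0 : 1 ≤ i := by
        rcases Nat.eq_zero_or_pos i with h0 | h0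
        · subst h0
          rw [hc0] at h
          exact absurd ha h
        · exact h0
      rw [stepFwd_swap a σ i h0 hi]
      exact few_terms A g hgF (c σ i) h (σ * Equiv.swap a (c σ i)) (i - 1) (by omega)
  have hS1 : ∑ σ, ∑ i ∈ range n, ‖D1 σ i‖ ^ 2 ≤ #A * (((n : ℝ) - 1) * Etot A g) := by
    calc ∑ σ, ∑ i ∈ range n, ‖D1 σ i‖ ^ 2
        ≤ ∑ σ, ∑ i ∈ range n, (if c σ i ∉ A then
            #A * turnE g (c σ i) (σ * Equiv.swap a (c σ i)) else 0) :=
          Finset.sum_le_sum fun σ _ => Finset.sum_le_sum fun i hi =>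
            hB1 σ i (Finset.mem_range.mp hi)
      _ = ∑ σ : G n, ∑ h : Fin n, (if h ∉ A then #A * turnE g h (σ * Equiv.swap a h) else 0) :=
          Finset.sum_congr rfl fun σ _ => sum_range_cards a σ
            (fun _ h => if h ∉ A then #A * turnE g h (σ * Equiv.swap a h) else 0)
      _ = ∑ h : Fin n, ∑ σ : G n, (if h ∉ A then #A * turnE g h (σ * Equiv.swap a h) else 0) :=
          Finset.sum_comm
      _ = ∑ h ∈ Aᶜ, ∑ σ : G n, #A * turnE g h (σ * Equiv.swap a h) := by
          rw [← Finset.sum_subset (Finset.subset_univ Aᶜ)]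
          · refine Finset.sum_congr rfl fun h hh => Finset.sum_congr rfl fun σ _ => ?_
            rw [if_pos (by simpa using hh)]
          · intro h _ hh
            refine Finset.sum_eq_zero fun σ _ => ?_
            rw [if_neg (by simpa using hh)]
      _ = ∑ h ∈ Aᶜ, #A * (((n : ℝ) - 1) * ∑ σ : G n, ‖g (stepFwd h σ) - g σ‖ ^ 2) := by
          refine Finset.sum_congr rfl fun h _ => ?_
          rw [← Finset.mul_sum, ← sum_turnE]
          congr 1
          exact Equiv.sum_comp (Equiv.mulRight (Equiv.swap a h)) (turnE g h)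
      _ ≤ #A * (((n : ℝ) - 1) * Etot A g) := by
          rw [← Finset.mul_sum, ← Finset.mul_sum]
          have hn' : (0 : ℝ) ≤ (n : ℝ) - 1 := by
            have : (3 : ℝ) ≤ n := by exact_mod_cast hn
            linarith
          exact mul_le_mul_of_nonneg_left (mul_le_mul_of_nonneg_left (energy_compl A g hgF) hn')
            (by positivity)
  -- bound of the second sum
  have hS2 : ∑ σ, ‖∑ i ∈ range n, D2 σ i‖ ^ 2 ≤ #A * ((n : ℝ) * nsq g) := by
    have h1 : ∀ σ, ‖∑ i ∈ range n, D2 σ i‖ ^ 2 ≤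
        #A * ∑ i ∈ range n, ‖g ((stepFwd a)^[i] σ)‖ ^ 2 := by
      intro σ
      refine (norm_sum_sq_le_few (range n) (D2 σ) (fun i => c σ i ∈ A) #A ?_ ?_).trans ?_
      · have h2 : #((range n).filter (fun i => c σ i ∈ A)) = #A := by
          rw [Finset.card_filter, sum_range_cards a σ (fun _ h => if h ∈ A then 1 else 0)]
          simp
        rw [h2]
      · intro i _ hi
        simp only [hD2]
        rw [if_neg (fun h => hi h.1)]
      · refine mul_le_mul_of_nonneg_left (Finset.sum_le_sum fun i _ => ?_) (by positivity)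
        simp only [hD2]
        split_ifs
        · exact le_rfl
        · rw [norm_zero]
          simp
    refine (Finset.sum_le_sum fun σ _ => h1 σ).trans ?_
    rw [← Finset.mul_sum, Finset.sum_comm]
    refine mul_le_mul_of_nonneg_left ?_ (by positivity)
    have h3 : ∀ i ∈ range n, ∑ σ : G n, ‖g ((stepFwd a)^[i] σ)‖ ^ 2 = nsq g := by
      intro i _
      have hb : Function.Bijective ((stepFwd a)^[i] : G n → G n) := (stepFwd_bijective a).iterate i
      exact (Equiv.ofBijective _ hb).sum_comp (fun σ => ‖g σ‖ ^ 2)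
    rw [Finset.sum_congr rfl h3, Finset.sum_const, Finset.card_range, nsmul_eq_mul]
  -- assembly
  have hpt : ∀ σ, ‖avgO a g σ‖ ^ 2 ≤ (2 / (n : ℝ) ^ 2) *
      (n * ∑ i ∈ range n, ‖D1 σ i‖ ^ 2 + ‖∑ i ∈ range n, D2 σ i‖ ^ 2) := by
    intro σ
    have e1 : avgO a g σ = (1 / (n : ℂ)) * (∑ i ∈ range n, D1 σ i + ∑ i ∈ range n, D2 σ i) := by
      rw [← hsum σ]; rfl
    have e2 : ‖∑ i ∈ range n, D1 σ i‖ ^ 2 ≤ n * ∑ i ∈ range n, ‖D1 σ i‖ ^ 2 := by
      have := norm_sum_sq_le_few (range n) (D1 σ) (fun _ => True) n (by simp) (by simp)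
      exact this
    have e3 : ‖avgO a g σ‖ ^ 2 = (1 / (n : ℝ) ^ 2) *
        ‖∑ i ∈ range n, D1 σ i + ∑ i ∈ range n, D2 σ i‖ ^ 2 := by
      rw [e1, norm_mul, mul_pow, norm_div, norm_one, Complex.norm_natCast, div_pow, one_pow]
    have e4 : ‖∑ i ∈ range n, D1 σ i + ∑ i ∈ range n, D2 σ i‖ ^ 2 ≤
        2 * (‖∑ i ∈ range n, D1 σ i‖ ^ 2 + ‖∑ i ∈ range n, D2 σ i‖ ^ 2) := by
      have h1 := norm_add_le (∑ i ∈ range n, D1 σ i) (∑ i ∈ range n, D2 σ i)
      have h2 := norm_nonneg (∑ i ∈ range n, D1 σ i + ∑ i ∈ range n, D2 σ i)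
      nlinarith [sq_nonneg (‖∑ i ∈ range n, D1 σ i‖ - ‖∑ i ∈ range n, D2 σ i‖),
        pow_le_pow_left₀ h2 h1 2]
    rw [e3]
    have hp : (0 : ℝ) < 1 / (n : ℝ) ^ 2 := by positivity
    calc (1 / (n : ℝ) ^ 2) * ‖∑ i ∈ range n, D1 σ i + ∑ i ∈ range n, D2 σ i‖ ^ 2
        ≤ (1 / (n : ℝ) ^ 2) * (2 * (n * ∑ i ∈ range n, ‖D1 σ i‖ ^ 2 +
            ‖∑ i ∈ range n, D2 σ i‖ ^ 2)) := by
          refine mul_le_mul_of_nonneg_left (e4.trans ?_) hp.le
          linarith
      _ = _ := by ring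
  calc nsq (avgO a g) ≤ ∑ σ, (2 / (n : ℝ) ^ 2) *
        (n * ∑ i ∈ range n, ‖D1 σ i‖ ^ 2 + ‖∑ i ∈ range n, D2 σ i‖ ^ 2) :=
        Finset.sum_le_sum fun σ _ => hpt σ
    _ = (2 / (n : ℝ) ^ 2) * (n * (∑ σ, ∑ i ∈ range n, ‖D1 σ i‖ ^ 2) +
        ∑ σ, ‖∑ i ∈ range n, D2 σ i‖ ^ 2) := by
        rw [← Finset.mul_sum, Finset.sum_add_distrib, ← Finset.mul_sum]
    _ ≤ (2 / (n : ℝ) ^ 2) * (n * (#A * (((n : ℝ) - 1) * Etot A g)) + #A * ((n : ℝ) * nsq g)) := by
        refine mul_le_mul_of_nonneg_left ?_ (by positivity)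
        exact add_le_add (mul_le_mul_of_nonneg_left hS1 hn0.le) hS2
    _ ≤ 2 * (#A : ℝ) * Etot A g + (2 * (#A : ℝ) / n) * nsq g := by
        have hE : 0 ≤ Etot A g := Finset.sum_nonneg fun _ _ => Finset.sum_nonneg fun _ _ => by
          positivity
        have hk : (0 : ℝ) ≤ #A := by positivity
        have e5 : (2 / (n : ℝ) ^ 2) * (n * (#A * (((n : ℝ) - 1) * Etot A g)) +
            #A * ((n : ℝ) * nsq g)) =
            2 * (#A : ℝ) * Etot A g * (((n : ℝ) - 1) / n) + (2 * (#A : ℝ) / n) * nsq g := by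
          field_simp
        rw [e5]
        have e6 : ((n : ℝ) - 1) / n ≤ 1 := by
          rw [div_le_one hn0]; linarith
        have e7 : 2 * (#A : ℝ) * Etot A g * (((n : ℝ) - 1) / n) ≤ 2 * (#A : ℝ) * Etot A g :=
          mul_le_of_le_one_right (by positivity) e6
        linarith

end Pool.Agent.Lib.MP_cad76e_pr
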