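import Pool.Agent.Lib.MP_cad76e_pr.Defs

/-! Module PHI1: combinatorics of the moves `stepFwd`. -/

set_option autoImplicit false

namespace Pool.Agent.Lib.MP_cad76e_pr

open Finset Filter Topology

theorem phi_ofNat_add {n : ℕ} [NeZero n] (x y : ℕ) :
    Fin.ofNat n (x + y) = Fin.ofNat n x + Fin.ofNat n y := by
  apply Fin.ext
  simp [Fin.ofNat, Fin.val_add, Nat.add_mod]

theorem phi_ofNat_one {n : ℕ} [NeZero n] : Fin.ofNat n 1 = 1 := rfl

theorem phi_ofNat_inj {n : ℕ} [NeZero n] {x y : ℕ} (hx : x < n) (hy : y < n)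
    (h : Fin.ofNat n x = Fin.ofNat n y) : x = y := by
  have := congrArg Fin.val h
  simpa [Fin.ofNat, Nat.mod_eq_of_lt hx, Nat.mod_eq_of_lt hy] using this

theorem phi_ofNat_val {n : ℕ} [NeZero n] (x : Fin n) : Fin.ofNat n (x : ℕ) = x := by
  apply Fin.ext
  simp [Fin.ofNat, Nat.mod_eq_of_lt x.2]

theorem phi_val_ofNat {n : ℕ} [NeZero n] {x : ℕ} (hx : x < n) : ((Fin.ofNat n x : Fin n) : ℕ) = x := by
  simp [Fin.ofNat, Nat.mod_eq_of_lt hx]

theorem phi_ofNat_self {n : ℕ} [NeZero n] : Fin.ofNat n n = 0 := by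
  apply Fin.ext
  simp [Fin.ofNat]

theorem phi_ofNat_zero {n : ℕ} [NeZero n] : Fin.ofNat n 0 = 0 := by
  apply Fin.ext
  simp [Fin.ofNat]

theorem stepFwd_bijective {n : ℕ} [NeZero n] (a : Fin n) :
    Function.Bijective (stepFwd a : G n → G n) := by
  rw [← Finite.injective_iff_bijective]
  intro σ τ h
  have h1 : σ a + 1 = τ a + 1 := by
    have := congrArg (fun ρ : G n => ρ a) h
    simpa [stepFwd] using this
  have h2 : σ a = τ a := add_right_cancel h1
  have h3 : Equiv.swap (σ a) (σ a + 1) * σ = Equiv.swap (σ a) (σ a + 1) * τ := by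
    have := h
    simp only [stepFwd] at this
    rw [h2] at this ⊢
    exact this
  exact mul_left_cancel h3

theorem stepFwd_iter_apply {n : ℕ} [NeZero n] (a : Fin n) (σ : G n) (i : ℕ) (hi : i < n)
    (b : Fin n) : ((stepFwd a)^[i] σ) b =
      if b = a then σ a + Fin.ofNat n i else if ((σ b - σ a : Fin n) : ℕ) ≤ i then σ b - 1
        else σ b := by
  induction i generalizing b with
  | zero =>
    by_cases hb : b = a
    · subst hb
      rw [if_pos rfl, phi_ofNat_zero, add_zero]
      rfl
    · have hd : ¬ ((σ b - σ a : Fin n) : ℕ) ≤ 0 := by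
        intro h
        apply hb
        apply σ.injective
        rw [← sub_eq_zero]
        apply Fin.ext
        simpa using h
      rw [if_neg hb, if_neg hd]
      rfl
  | succ i ih =>
    have hi' : i < n := by omega
    have iha := ih hi' a
    rw [if_pos rfl] at iha
    have ihb := ih hi' b
    rw [Function.iterate_succ_apply']
    set ρ := (stepFwd a)^[i] σ with hρ
    have e1 : (stepFwd a ρ) b = Equiv.swap (ρ a) (ρ a + 1) (ρ b) := rfl
    rw [e1]
    have e2 : ρ a + 1 = σ a + Fin.ofNat n (i + 1) := by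
      rw [iha, phi_ofNat_add, phi_ofNat_one, add_assoc]
    by_cases hb : b = a
    · subst hb
      rw [if_pos rfl, Equiv.swap_apply_left, e2]
    · rw [if_neg hb] at ihb ⊢
      have hne : ρ b ≠ ρ a := fun h => hb (ρ.injective h)
      have hσb : σ b = σ a + Fin.ofNat n ((σ b - σ a : Fin n) : ℕ) := by
        rw [phi_ofNat_val]; abel
      have hd0 : ((σ b - σ a : Fin n) : ℕ) ≠ 0 := by
        intro h
        apply hb
        apply σ.injective
        rw [← sub_eq_zero]
        apply Fin.ext
        simpa using h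
      have hdn : ((σ b - σ a : Fin n) : ℕ) < n := (σ b - σ a).2
      set d := ((σ b - σ a : Fin n) : ℕ) with hd
      rcases lt_trichotomy d (i + 1) with hlt | heq | hgt
      · rw [if_pos (by omega)] at ihb
        rw [if_pos (by omega)]
        rw [Equiv.swap_apply_of_ne_of_ne hne, ihb]
        rw [e2, ihb]
        intro h
        have h2 : Fin.ofNat n d = Fin.ofNat n (i + 2) := by
          have h3 : σ b = σ a + Fin.ofNat n (i + 1) + 1 := by
            rw [← h]; abel
          rw [hσb] at h3
          have h4 : Fin.ofNat n d = Fin.ofNat n (i + 1) + 1 := by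
            have h5 : σ a + Fin.ofNat n d = σ a + (Fin.ofNat n (i + 1) + 1) := by
              rw [h3]; abel
            exact add_left_cancel h5
          rw [h4, phi_ofNat_add (i + 1) 1, phi_ofNat_one]
        by_cases hin : i + 2 < n
        · have := phi_ofNat_inj hdn hin h2
          omega
        · have h6 : i + 2 = n := by omega
          rw [h6, phi_ofNat_self, ← phi_ofNat_zero] at h2
          have := phi_ofNat_inj hdn (by omega) h2
          omega
      · rw [if_neg (by omega)] at ihb
        rw [if_pos (by omega)]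
        have e3 : σ b = ρ a + 1 := by
          rw [e2, hσb, heq]
        rw [ihb, e3, Equiv.swap_apply_right]
        abel
      · rw [if_neg (by omega)] at ihb
        rw [if_neg (by omega)]
        rw [Equiv.swap_apply_of_ne_of_ne hne, ihb]
        rw [e2, ihb, hσb]
        intro h
        have := phi_ofNat_inj hdn hi (add_left_cancel h)
        omega

theorem phi_finRotate_inv {n : ℕ} [NeZero n] (x : Fin n) : (finRotate n)⁻¹ x = x - 1 := by
  obtain ⟨m, rfl⟩ : ∃ m, n = m + 1 := ⟨n - 1, by have := NeZero.pos n; omega⟩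
  rw [Equiv.Perm.inv_eq_iff_eq, finRotate_apply]
  abel

theorem stepFwd_turn {n : ℕ} [NeZero n] (a : Fin n) (σ : G n) :
    (stepFwd a)^[n - 1] σ = (finRotate n)⁻¹ * σ := by
  have hn := NeZero.pos n
  ext b : 1
  rw [stepFwd_iter_apply a σ (n - 1) (by omega) b, Equiv.Perm.mul_apply, phi_finRotate_inv]
  by_cases hb : b = a
  · subst hb
    rw [if_pos rfl]
    have h1 : Fin.ofNat n (n - 1) + 1 = 0 := by
      rw [← phi_ofNat_one, ← phi_ofNat_add, Nat.sub_add_cancel hn, phi_ofNat_self]
    have h2 : Fin.ofNat n (n - 1) = -1 := eq_neg_of_add_eq_zero_left h1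
    rw [h2]
    abel
  · rw [if_neg hb, if_pos]
    have := (σ b - σ a).2
    omega

/-- the card met at step `i` -/
theorem stepFwd_met {n : ℕ} [NeZero n] (a : Fin n) (σ : G n) (i : ℕ) (hi : i + 1 < n) :
    ((stepFwd a)^[i] σ).symm (((stepFwd a)^[i] σ) a + 1) =
      σ.symm (σ a + Fin.ofNat n (i + 1)) := by
  rw [Equiv.symm_apply_eq]
  have h1 : σ.symm (σ a + Fin.ofNat n (i + 1)) ≠ a := by
    intro h
    rw [Equiv.symm_apply_eq] at h
    have h2 : Fin.ofNat n (i + 1) = Fin.ofNat n 0 := by
      rw [phi_ofNat_zero]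
      exact add_eq_left.mp h
    have := phi_ofNat_inj hi (by omega) h2
    omega
  rw [stepFwd_iter_apply a σ i (by omega) _, stepFwd_iter_apply a σ i (by omega) _, if_pos rfl,
    if_neg h1, if_neg, Equiv.apply_symm_apply, phi_ofNat_add, phi_ofNat_one, add_assoc]
  rw [Equiv.apply_symm_apply, add_sub_cancel_left, phi_val_ofNat hi]
  omega

theorem stepFwd_pass {n : ℕ} [NeZero n] (A : Finset (Fin n)) (a : Fin n) (σ : G n) :
    #((range (n - 1)).filter (fun i =>
      ((stepFwd a)^[i] σ).symm (((stepFwd a)^[i] σ) a + 1) ∈ A)) ≤ #A := by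
  apply Finset.card_le_card_of_injOn (fun i => σ.symm (σ a + Fin.ofNat n (i + 1)))
  · intro i hi
    simp only [Finset.coe_filter, Finset.mem_range, Set.mem_ofPred_eq] at hi
    have := hi.2
    rw [stepFwd_met a σ i (by omega)] at this
    exact this
  · intro i hi j hj h
    simp only [Finset.coe_filter, Finset.mem_range, Set.mem_ofPred_eq] at hi hj
    have h1 := add_left_cancel (σ.symm.injective h)
    have := phi_ofNat_inj (by omega) (by omega) h1
    omega

theorem stepFwd_swap {n : ℕ} [NeZero n] (a : Fin n) (σ : G n) (i : ℕ) (hi : 1 ≤ i) (hin : i < n) :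
    (stepFwd a)^[i] σ =
      (stepFwd (σ.symm (σ a + Fin.ofNat n i)))^[i - 1]
        (σ * Equiv.swap a (σ.symm (σ a + Fin.ofNat n i))) := by
  set h := σ.symm (σ a + Fin.ofNat n i) with hh
  have hσh : σ h = σ a + Fin.ofNat n i := by rw [hh, Equiv.apply_symm_apply]
  have hne : h ≠ a := by
    intro e
    rw [e] at hσh
    have h2 : Fin.ofNat n i = Fin.ofNat n 0 := by
      rw [phi_ofNat_zero]
      exact add_eq_left.mp hσh.symm
    have := phi_ofNat_inj hin (by omega) h2
    omega
  ext b : 1
  rw [stepFwd_iter_apply a σ i hin b, stepFwd_iter_apply h _ (i - 1) (by omega) b]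
  simp only [Equiv.Perm.mul_apply, Equiv.swap_apply_right]
  by_cases hba : b = a
  · subst hba
    rw [if_pos rfl, if_neg (Ne.symm hne), Equiv.swap_apply_left, if_neg, hσh]
    rw [hσh, add_sub_cancel_left, phi_val_ofNat hin]
    omega
  · by_cases hbh : b = h
    · subst hbh
      rw [if_neg hne, if_pos rfl, if_pos]
      · rw [hσh]
        have h3 : Fin.ofNat n i = Fin.ofNat n (i - 1) + 1 := by
          rw [← phi_ofNat_one, ← phi_ofNat_add, Nat.sub_add_cancel hi]
        rw [h3]
        abel
      · rw [hσh, add_sub_cancel_left, phi_val_ofNat hin]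
    · rw [if_neg hba, if_neg hbh, Equiv.swap_apply_of_ne_of_ne hba hbh]
      have hd : ((σ b - σ a : Fin n) : ℕ) ≠ i := by
        intro e
        apply hbh
        rw [hh, Equiv.eq_symm_apply, ← e, phi_ofNat_val]
        abel
      by_cases hle : ((σ b - σ a : Fin n) : ℕ) ≤ i
      · rw [if_pos hle, if_pos (by omega)]
      · rw [if_neg hle, if_neg (by omega)]

end Pool.Agent.Lib.MP_cad76e_pr
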