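import Pool.Agent.Lib.MP_cad76e_pr.W1

set_option autoImplicit false

namespace Pool.Agent.Lib.MP_cad76e_pr

open Finset

/-- `wirtinger_cycle` for sequences -/
lemma w2_range (N : ℕ) (hN : 1 ≤ N) (h : ℕ → ℂ) :
    (2 - 2 * Real.cos (2 * Real.pi / N)) *
      (∑ i ∈ range N, ‖h i‖ ^ 2 - ‖∑ i ∈ range N, h i‖ ^ 2 / N)
      ≤ ∑ i ∈ range (N - 1), ‖h (i + 1) - h i‖ ^ 2 + ‖h 0 - h (N - 1)‖ ^ 2 := by
  obtain ⟨m, rfl⟩ : ∃ m, N = m + 1 := ⟨N - 1, by omega⟩
  have h1 := wirtinger_cycle (m + 1) (fun i => h i)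
  have e1 : ∑ i : Fin (m + 1), ‖h i‖ ^ 2 = ∑ i ∈ range (m + 1), ‖h i‖ ^ 2 :=
    (sum_range (fun i => ‖h i‖ ^ 2)).symm
  have e2 : ∑ i : Fin (m + 1), h i = ∑ i ∈ range (m + 1), h i := (sum_range h).symm
  have e3 : ∑ i : Fin (m + 1), ‖h ((i + 1 : Fin (m + 1)) : ℕ) - h i‖ ^ 2
      = ∑ i ∈ range m, ‖h (i + 1) - h i‖ ^ 2 + ‖h 0 - h m‖ ^ 2 := by
    rw [Fin.sum_univ_castSucc]
    congr 1
    · rw [sum_range]
      refine sum_congr rfl fun i _ => ?_
      have : ((Fin.castSucc i + 1 : Fin (m + 1)) : ℕ) = (i : ℕ) + 1 := by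
        rw [Fin.val_add_one]
        rw [if_neg]
        · simp
        · intro hc
          have := congrArg Fin.val hc
          simp at this
          have := i.2
          omega
      rw [this]
      simp
    · have : ((Fin.last m + 1 : Fin (m + 1)) : ℕ) = 0 := by simp
      rw [this]
      simp
  rw [e1, e2, e3] at h1
  simpa using h1

/-- variance identity -/
lemma w2_var (n : ℕ) (hn : 1 ≤ n) (h : ℕ → ℂ) (c : ℂ) :
    ∑ i ∈ range n, ‖h i - c‖ ^ 2 =
      (∑ i ∈ range n, ‖h i‖ ^ 2 - ‖∑ i ∈ range n, h i‖ ^ 2 / n) +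
        n * ‖c - (∑ i ∈ range n, h i) / n‖ ^ 2 := by
  have hn' : (n : ℝ) ≠ 0 := by
    have : 0 < n := hn
    exact_mod_cast this.ne'
  have key : ∀ a b : ℂ, ‖a - b‖ ^ 2 = ‖a‖ ^ 2 - 2 * (a.re * b.re + a.im * b.im) + ‖b‖ ^ 2 := by
    intro a b
    rw [← Complex.normSq_eq_norm_sq, ← Complex.normSq_eq_norm_sq, ← Complex.normSq_eq_norm_sq,
      Complex.normSq_apply, Complex.normSq_apply, Complex.normSq_apply, Complex.sub_re,
      Complex.sub_im]
    ring
  set S := ∑ i ∈ range n, h i with hS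
  have e1 : ∑ i ∈ range n, ‖h i - c‖ ^ 2
      = ∑ i ∈ range n, ‖h i‖ ^ 2 - 2 * (S.re * c.re + S.im * c.im) + n * ‖c‖ ^ 2 := by
    simp_rw [key]
    rw [sum_add_distrib, sum_sub_distrib, sum_const, card_range, nsmul_eq_mul, ← mul_sum,
      sum_add_distrib, ← sum_mul, ← sum_mul, hS, Complex.re_sum, Complex.im_sum]
  have e2 : ‖c - S / n‖ ^ 2
      = ‖c‖ ^ 2 - 2 * (c.re * S.re + c.im * S.im) / n + ‖S‖ ^ 2 / n ^ 2 := by
    rw [key]
    have r1 : (S / (n : ℂ)).re = S.re / n := by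
      rw [← Complex.ofReal_natCast, Complex.div_ofReal_re]
    have r2 : (S / (n : ℂ)).im = S.im / n := by
      rw [← Complex.ofReal_natCast, Complex.div_ofReal_im]
    have r3 : ‖S / (n : ℂ)‖ = ‖S‖ / n := by
      rw [norm_div, Complex.norm_natCast]
    rw [r1, r2, r3, div_pow]
    field_simp
  rw [e1, e2]
  field_simp
  ring

/-- sum over consecutive blocks -/
lemma w2_blocks (ℓ : ℕ → ℕ) (f : ℕ → ℝ) (n : ℕ) :
    ∑ m ∈ range (∑ i ∈ range n, ℓ i), f m =
      ∑ i ∈ range n, ∑ t ∈ range (ℓ i), f (∑ j ∈ range i, ℓ j + t) := by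
  induction n with
  | zero => simp
  | succ n ih => rw [sum_range_succ, sum_range_add, ih, sum_range_succ]

theorem wirtinger_weighted (n N' : ℕ) (hn : 1 ≤ n) (hN' : 2 ≤ N') (h : ℕ → ℂ) (ℓ : ℕ → ℕ)
    (hℓ : ∀ i < n, 1 ≤ ℓ i) (hsum : ∑ i ∈ range n, ℓ i ≤ N') :
    (2 - 2 * Real.cos (2 * Real.pi / N')) *
      (∑ i ∈ range n, ‖h i‖ ^ 2 - ‖∑ i ∈ range n, h i‖ ^ 2 / n)
      ≤ ∑ i ∈ range (n - 1), ‖h (i + 1) - h i‖ ^ 2 / ℓ i + ‖h 0 - h (n - 1)‖ ^ 2 / ℓ (n - 1) := by
  -- prefix sums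
  set L : ℕ → ℕ := fun i => ∑ j ∈ range i, ℓ j with hL
  have hLs : ∀ i, L (i + 1) = L i + ℓ i := fun i => by simp only [hL, sum_range_succ]
  have hLmono : Monotone L := monotone_nat_of_le_succ fun i => by rw [hLs]; omega
  have hLlt : ∀ i j, i < j → j ≤ n → L i < L j := by
    intro i j hij hj
    have h1 : L (i + 1) ≤ L j := hLmono hij
    have h2 := hLs i
    have h3 := hℓ i (by omega)
    omega
  set M := L n with hM
  have hM1 : n ≤ M := by
    have : ∀ i, i ≤ n → i ≤ L i := by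
      intro i
      induction i with
      | zero => intro _; exact Nat.zero_le _
      | succ i ih =>
        intro hi
        have h1 := ih (by omega)
        have h2 := hLs i
        have h3 := hℓ i (by omega)
        omega
    exact this n le_rfl
  -- closed sequence
  set g : ℕ → ℂ := fun j => if j = n then h 0 else h j with hg
  -- block index
  set b : ℕ → ℕ := fun m => ((range n).filter (fun j => L (j + 1) ≤ m)).card with hb
  have hbi : ∀ i t, i < n → t < ℓ i → b (L i + t) = i := by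
    intro i t hi ht
    have : (range n).filter (fun j => L (j + 1) ≤ L i + t) = range i := by
      ext j
      rw [mem_filter, mem_range, mem_range]
      constructor
      · rintro ⟨hj, hj2⟩
        by_contra hcon
        have h1 : L (i + 1) ≤ L (j + 1) := hLmono (by omega)
        have h2 := hLs i
        omega
      · intro hj
        have h1 : L (j + 1) ≤ L i := hLmono (by omega)
        exact ⟨by omega, by omega⟩
    simp only [hb]
    rw [this, card_range]
  have hbM : b M = n := by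
    have : (range n).filter (fun j => L (j + 1) ≤ M) = range n := by
      apply filter_true_of_mem
      intro j hj
      rw [mem_range] at hj
      exact hLmono (by omega)
    simp only [hb]
    rw [this, card_range]
  -- interpolation
  set H : ℕ → ℂ := fun m =>
    g (b m) + (((m - L (b m) : ℕ) : ℂ) / (ℓ (b m) : ℂ)) * (g (b m + 1) - g (b m)) with hH
  have hHi : ∀ i t, i < n → t < ℓ i →
      H (L i + t) = g i + ((t : ℂ) / (ℓ i : ℂ)) * (g (i + 1) - g i) := by
    intro i t hi ht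
    simp only [hH]
    rw [hbi i t hi ht]
    have : L i + t - L i = t := by omega
    rw [this]
  have hH0 : ∀ i, i ≤ n → H (L i) = g i := by
    intro i hi
    rcases Nat.lt_or_ge i n with h1 | h1
    · have := hHi i 0 h1 (hℓ i h1)
      simpa using this
    · have h2 : i = n := by omega
      subst h2
      simp only [hH]
      rw [hbM, Nat.sub_self]
      simp
  have hg0 : ∀ i, i < n → g i = h i := by
    intro i hi
    simp only [hg]
    rw [if_neg (by omega)]
  have hgn : g n = h 0 := by simp [hg]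
  have hdiff : ∀ i t, i < n → t < ℓ i →
      H (L i + t + 1) - H (L i + t) = (g (i + 1) - g i) / (ℓ i : ℂ) := by
    intro i t hi ht
    have hℓ0 : (ℓ i : ℂ) ≠ 0 := by
      have := hℓ i hi
      exact_mod_cast (by omega : ℓ i ≠ 0)
    rw [hHi i t hi ht]
    rcases Nat.lt_or_ge (t + 1) (ℓ i) with h1 | h1
    · rw [add_assoc, hHi i (t + 1) hi h1]
      push_cast
      field_simp
      ring
    · have h2 : t + 1 = ℓ i := by omega
      have h3 : L i + t + 1 = L (i + 1) := by rw [hLs]; omega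
      rw [h3, hH0 (i + 1) (by omega)]
      have h4 : (t : ℂ) = (ℓ i : ℂ) - 1 := by
        rw [← h2]; push_cast; ring
      rw [h4]
      field_simp
      ring
  -- energy
  have hen : ∑ m ∈ range M, ‖H (m + 1) - H m‖ ^ 2 = ∑ i ∈ range n, ‖g (i + 1) - g i‖ ^ 2 / ℓ i := by
    rw [hM]
    simp only [hL]
    rw [w2_blocks ℓ (fun m => ‖H (m + 1) - H m‖ ^ 2) n]
    refine sum_congr rfl fun i hi => ?_
    rw [mem_range] at hi
    have hℓ0 : (ℓ i : ℝ) ≠ 0 := by
      have := hℓ i hi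
      exact_mod_cast (by omega : ℓ i ≠ 0)
    have : ∀ t ∈ range (ℓ i), ‖H (∑ j ∈ range i, ℓ j + t + 1) - H (∑ j ∈ range i, ℓ j + t)‖ ^ 2
        = ‖g (i + 1) - g i‖ ^ 2 / (ℓ i : ℝ) ^ 2 := by
      intro t ht
      rw [mem_range] at ht
      have h1 := hdiff i t hi ht
      simp only [hL] at h1
      rw [h1, norm_div, Complex.norm_natCast, div_pow]
    rw [sum_congr rfl this, sum_const, card_range, nsmul_eq_mul]
    field_simp
  have hM1' : 1 ≤ M := by omega
  have hW := w2_range M hM1' H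
  have hHM : H M = h 0 := by rw [hM, hH0 n le_rfl, hgn]
  have hH00 : H 0 = h 0 := by
    have : L 0 = 0 := by simp [hL]
    have h1 := hH0 0 (Nat.zero_le _)
    rw [this] at h1
    rw [h1, hg0 0 (by omega)]
  have hen2 : ∑ i ∈ range (M - 1), ‖H (i + 1) - H i‖ ^ 2 + ‖H 0 - H (M - 1)‖ ^ 2
      = ∑ m ∈ range M, ‖H (m + 1) - H m‖ ^ 2 := by
    have : M = (M - 1) + 1 := by omega
    conv_rhs => rw [this, sum_range_succ]
    rw [← this, hH00, hHM]
  rw [hen2, hen] at hW
  have hrhs : ∑ i ∈ range n, ‖g (i + 1) - g i‖ ^ 2 / (ℓ i : ℝ)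
      = ∑ i ∈ range (n - 1), ‖h (i + 1) - h i‖ ^ 2 / ℓ i
        + ‖h 0 - h (n - 1)‖ ^ 2 / ℓ (n - 1) := by
    have e : n = (n - 1) + 1 := by omega
    conv_lhs => rw [e, sum_range_succ]
    congr 1
    · refine sum_congr rfl fun i hi => ?_
      rw [mem_range] at hi
      rw [hg0 i (by omega), hg0 (i + 1) (by omega)]
    · rw [← e, hgn, hg0 (n - 1) (by omega)]
  rw [hrhs] at hW
  -- comparison of the variances
  have hvar : ∑ i ∈ range n, ‖h i‖ ^ 2 - ‖∑ i ∈ range n, h i‖ ^ 2 / n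
      ≤ ∑ i ∈ range M, ‖H i‖ ^ 2 - ‖∑ i ∈ range M, H i‖ ^ 2 / M := by
    set c : ℂ := (∑ i ∈ range M, H i) / M with hc
    have v1 := w2_var n hn h c
    have v2 := w2_var M hM1' H c
    rw [← hc] at v2
    simp only [sub_self, norm_zero] at v2
    have v3 : 0 ≤ (n : ℝ) * ‖c - (∑ i ∈ range n, h i) / n‖ ^ 2 := by positivity
    have v4 : ∑ i ∈ range n, ‖h i - c‖ ^ 2 ≤ ∑ m ∈ range M, ‖H m - c‖ ^ 2 := by
      rw [hM]
      simp only [hL]
      rw [w2_blocks ℓ (fun m => ‖H m - c‖ ^ 2) n]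
      refine sum_le_sum fun i hi => ?_
      rw [mem_range] at hi
      have h1 : ‖h i - c‖ ^ 2 = ‖H (∑ j ∈ range i, ℓ j + 0) - c‖ ^ 2 := by
        have h2 := hH0 i (by omega)
        simp only [hL] at h2
        rw [add_zero, h2, hg0 i hi]
      rw [h1]
      exact single_le_sum (f := fun t => ‖H (∑ j ∈ range i, ℓ j + t) - c‖ ^ 2)
        (fun t _ => sq_nonneg _) (mem_range.2 (hℓ i hi))
    nlinarith
  have hvar0 : 0 ≤ ∑ i ∈ range n, ‖h i‖ ^ 2 - ‖∑ i ∈ range n, h i‖ ^ 2 / n := by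
    have v1 := w2_var n hn h ((∑ i ∈ range n, h i) / n)
    simp only [sub_self, norm_zero] at v1
    have : 0 ≤ ∑ i ∈ range n, ‖h i - (∑ i ∈ range n, h i) / n‖ ^ 2 :=
      sum_nonneg fun i _ => sq_nonneg _
    nlinarith
  have hpi := Real.pi_pos
  have hN'r : (2 : ℝ) ≤ N' := by exact_mod_cast hN'
  rcases Nat.lt_or_ge M 2 with hM2 | hM2
  · -- `M = 1`
    have hn1 : n = 1 := by omega
    have hz : ∑ i ∈ range n, ‖h i‖ ^ 2 - ‖∑ i ∈ range n, h i‖ ^ 2 / n = 0 := by
      rw [hn1]; simp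
    rw [hz, mul_zero]
    have : 0 ≤ ∑ i ∈ range (n - 1), ‖h (i + 1) - h i‖ ^ 2 / (ℓ i : ℝ) :=
      sum_nonneg fun i _ => by positivity
    positivity
  · have hMr : (2 : ℝ) ≤ M := by exact_mod_cast hM2
    have hMN : (M : ℝ) ≤ N' := by
      have : M ≤ N' := hsum
      exact_mod_cast this
    have hcos : Real.cos (2 * Real.pi / M) ≤ Real.cos (2 * Real.pi / N') := by
      apply Real.cos_le_cos_of_nonneg_of_le_pi
      · positivity
      · rw [div_le_iff₀ (by linarith)]; nlinarith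
      · apply div_le_div_of_nonneg_left (by positivity) (by linarith) hMN
    have hc1 : 0 ≤ 2 - 2 * Real.cos (2 * Real.pi / N') := by
      have := Real.cos_le_one (2 * Real.pi / N'); linarith
    calc _ ≤ (2 - 2 * Real.cos (2 * Real.pi / N')) *
          (∑ i ∈ range M, ‖H i‖ ^ 2 - ‖∑ i ∈ range M, H i‖ ^ 2 / M) :=
          mul_le_mul_of_nonneg_left hvar hc1
      _ ≤ (2 - 2 * Real.cos (2 * Real.pi / M)) *
          (∑ i ∈ range M, ‖H i‖ ^ 2 - ‖∑ i ∈ range M, H i‖ ^ 2 / M) :=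
          mul_le_mul_of_nonneg_right (by linarith) (hvar0.trans hvar)
      _ ≤ _ := hW

end Pool.Agent.Lib.MP_cad76e_pr
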