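import Pool.Agent.Lib.MP_cad76e_pr.Defs
import Pool.Agent.Lib.MP_cad76e_pr.W2
import Pool.Agent.Lib.MP_cad76e_pr.PHI1

set_option autoImplicit false

namespace Pool.Agent.Lib.MP_cad76e_pr

open Finset Filter Topology

theorem sum_iter_stepFwd {n : ℕ} [NeZero n] {E : Type*} [AddCommMonoid E] (a : Fin n)
    (F : G n → E) (i : ℕ) :
    ∑ σ : G n, F ((stepFwd a)^[i] σ) = ∑ σ : G n, F σ := by
  have hb : Function.Bijective ((stepFwd a : G n → G n)^[i]) := (stepFwd_bijective a).iterate i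
  exact Function.Bijective.sum_comp hb F

theorem orbit_ineq {n : ℕ} [NeZero n] (hn : 3 ≤ n) (a : Fin n) (g : G n → ℂ) (ℓ : G n → ℕ)
    (hℓ : ∀ σ, 1 ≤ ℓ σ) (Rc : ℕ) (hRc : 1 ≤ Rc) (N' : ℕ) (hN' : 2 ≤ N')
    (hN : ∀ σ, ∑ i ∈ range (n - 1), ℓ ((stepFwd a)^[i] σ) + Rc ≤ N') :
    (2 - 2 * Real.cos (2 * Real.pi / N')) * ((n : ℝ) * (nsq g - nsq (avgO a g))) ≤
      ((n : ℝ) - 1) * ∑ σ, ‖g (stepFwd a σ) - g σ‖ ^ 2 / ℓ σ +
        (1 / (Rc : ℝ)) * nsq (fun σ => g ((finRotate n)⁻¹ * σ) - g σ) := by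
  have hn0 : (n : ℝ) ≠ 0 := by positivity
  -- the inequality on each orbit
  have h1 : ∀ σ : G n, (2 - 2 * Real.cos (2 * Real.pi / N')) *
      (∑ i ∈ range n, ‖g ((stepFwd a)^[i] σ)‖ ^ 2 - n * ‖avgO a g σ‖ ^ 2) ≤
      ∑ i ∈ range (n - 1), ‖g ((stepFwd a)^[i + 1] σ) - g ((stepFwd a)^[i] σ)‖ ^ 2 /
        ℓ ((stepFwd a)^[i] σ) + (1 / (Rc : ℝ)) * ‖g ((finRotate n)⁻¹ * σ) - g σ‖ ^ 2 := by
    intro σ
    have h := wirtinger_weighted n N' (by omega) hN' (fun i => g ((stepFwd a)^[i] σ))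
      (fun i => if i < n - 1 then ℓ ((stepFwd a)^[i] σ) else Rc)
      (by
        intro i _
        split_ifs
        · exact hℓ _
        · exact hRc)
      (by
        have h2 : range n = range (n - 1 + 1) := by rw [Nat.sub_add_cancel (by omega)]
        rw [h2, Finset.sum_range_succ]
        have h3 : ∑ i ∈ range (n - 1), (if i < n - 1 then ℓ ((stepFwd a)^[i] σ) else Rc) =
            ∑ i ∈ range (n - 1), ℓ ((stepFwd a)^[i] σ) :=
          Finset.sum_congr rfl fun i hi => by rw [if_pos (Finset.mem_range.1 hi)]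
        rw [h3, if_neg (lt_irrefl _)]
        exact hN σ)
    have h3 : ‖∑ i ∈ range n, g ((stepFwd a)^[i] σ)‖ ^ 2 / (n : ℝ) =
        n * ‖avgO a g σ‖ ^ 2 := by
      have h4 : avgO a g σ = (1 / (n : ℂ)) * ∑ i ∈ range n, g ((stepFwd a)^[i] σ) := rfl
      rw [h4, norm_mul, mul_pow]
      have h5 : ‖(1 / (n : ℂ))‖ = 1 / (n : ℝ) := by
        rw [norm_div, norm_one, Complex.norm_natCast]
      rw [h5]
      field_simp
    have h4 : ∑ i ∈ range (n - 1), ‖g ((stepFwd a)^[i + 1] σ) - g ((stepFwd a)^[i] σ)‖ ^ 2 /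
        (((if i < n - 1 then ℓ ((stepFwd a)^[i] σ) else Rc) : ℕ) : ℝ) =
        ∑ i ∈ range (n - 1), ‖g ((stepFwd a)^[i + 1] σ) - g ((stepFwd a)^[i] σ)‖ ^ 2 /
        ℓ ((stepFwd a)^[i] σ) :=
      Finset.sum_congr rfl fun i hi => by rw [if_pos (Finset.mem_range.1 hi)]
    have h5 : ‖g ((stepFwd a)^[0] σ) - g ((stepFwd a)^[n - 1] σ)‖ ^ 2 /
        (((if n - 1 < n - 1 then ℓ ((stepFwd a)^[n - 1] σ) else Rc) : ℕ) : ℝ) =
        (1 / (Rc : ℝ)) * ‖g ((finRotate n)⁻¹ * σ) - g σ‖ ^ 2 := by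
      rw [if_neg (lt_irrefl _), stepFwd_turn, Function.iterate_zero, id_eq, norm_sub_rev]
      ring
    rw [h3, h4, h5] at h
    exact h
  -- sum over the group
  have h2 := Finset.sum_le_sum fun σ (_ : σ ∈ (Finset.univ : Finset (G n))) => h1 σ
  rw [← Finset.mul_sum, Finset.sum_sub_distrib, Finset.sum_add_distrib, Finset.sum_comm,
    ← Finset.mul_sum, ← Finset.mul_sum] at h2
  have h3 : ∑ i ∈ range n, ∑ σ : G n, ‖g ((stepFwd a)^[i] σ)‖ ^ 2 = n * nsq g := by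
    have h4 : ∀ i ∈ range n, ∑ σ : G n, ‖g ((stepFwd a)^[i] σ)‖ ^ 2 = nsq g := fun i _ =>
      sum_iter_stepFwd a (fun σ => ‖g σ‖ ^ 2) i
    rw [Finset.sum_congr rfl h4, Finset.sum_const, Finset.card_range, nsmul_eq_mul]
  have h5 : ∑ σ : G n, ∑ i ∈ range (n - 1),
      ‖g ((stepFwd a)^[i + 1] σ) - g ((stepFwd a)^[i] σ)‖ ^ 2 / ℓ ((stepFwd a)^[i] σ) =
      ((n : ℝ) - 1) * ∑ σ, ‖g (stepFwd a σ) - g σ‖ ^ 2 / ℓ σ := by
    rw [Finset.sum_comm]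
    have h4 : ∀ i ∈ range (n - 1), ∑ σ : G n,
        ‖g ((stepFwd a)^[i + 1] σ) - g ((stepFwd a)^[i] σ)‖ ^ 2 / ℓ ((stepFwd a)^[i] σ) =
        ∑ σ : G n, ‖g (stepFwd a σ) - g σ‖ ^ 2 / ℓ σ := by
      intro i _
      have h6 := sum_iter_stepFwd a (fun σ => ‖g (stepFwd a σ) - g σ‖ ^ 2 / (ℓ σ : ℝ)) i
      rw [← h6]
      refine Finset.sum_congr rfl fun σ _ => ?_
      rw [Function.iterate_succ_apply']
    rw [Finset.sum_congr rfl h4, Finset.sum_const, Finset.card_range, nsmul_eq_mul,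
      Nat.cast_sub (by omega), Nat.cast_one]
  rw [h3, h5] at h2
  have h6 : (n : ℝ) * (nsq g - nsq (avgO a g)) = n * nsq g - n * ∑ σ, ‖avgO a g σ‖ ^ 2 := by
    rw [mul_sub]
    rfl
  rw [h6]
  exact h2

end Pool.Agent.Lib.MP_cad76e_pr
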