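import Pool.Agent.Lib.MP_cad76e_pr.Defs

/-! Module PAR1: Parseval and the twist -/

set_option autoImplicit false

namespace Pool.Agent.Lib.MP_cad76e_pr

open Finset

theorem par1_Dy_apply {n : ℕ} [NeZero n] (y : ℂ) (f : G n → ℂ) (g : G n) :
    Dy y f g = (2 / 3) * f ((finRotate n)⁻¹ * g) +
      (y / 3) * f (tau⁻¹ * ((finRotate n)⁻¹ * g)) := by
  unfold Dy
  simp only [Module.End.mul_apply, Lg, LinearMap.coe_mk, AddHom.coe_mk, LinearMap.add_apply,
    LinearMap.smul_apply, Module.End.one_apply, Pi.add_apply, Pi.smul_apply, smul_eq_mul]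

theorem par1_bE_zero {n : ℕ} [NeZero n] (m : ℕ) : ∀ (E : ℕ) (g : G n), m < E → bE m E g = 0 := by
  induction m with
  | zero =>
    intro E g hE
    unfold bE
    rw [if_neg (by omega)]
  | succ m ih =>
    intro E g hE
    unfold bE
    rw [ih E _ (by omega), if_neg (by omega), ih (E - 1) _ (by omega)]
    ring

/-- generating function of `bE` -/
theorem par1_gen {n : ℕ} [NeZero n] (y : ℂ) (m : ℕ) : ∀ g : G n,
    ((Dy y) ^ m) (dlt : G n → ℂ) g = ∑ E ∈ range (m + 1), y ^ E * ((bE m E g : ℝ) : ℂ) := by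
  induction m with
  | zero =>
    intro g
    unfold dlt bE
    by_cases h : g = 1 <;> simp [h]
  | succ m ih =>
    intro g
    rw [pow_succ', Module.End.mul_apply, par1_Dy_apply, ih, ih]
    have h1 : ∀ E ∈ range (m + 1 + 1), y ^ E * ((bE (m + 1) E g : ℝ) : ℂ) =
        (2 / 3) * (y ^ E * ((bE m E ((finRotate n)⁻¹ * g) : ℝ) : ℂ)) +
        (if E = 0 then 0 else (y / 3) * (y ^ (E - 1) *
          ((bE m (E - 1) (tau⁻¹ * ((finRotate n)⁻¹ * g)) : ℝ) : ℂ))) := by
      intro E _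
      rw [show bE (m + 1) E g = (2 / 3) * bE m E ((finRotate n)⁻¹ * g) +
        (if E = 0 then 0 else (1 / 3) * bE m (E - 1) ((finRotate n * tau)⁻¹ * g)) from rfl]
      rw [mul_inv_rev, mul_assoc]
      rcases Nat.eq_zero_or_pos E with h | h
      · subst h
        simp
      · obtain ⟨e, rfl⟩ : ∃ e, E = e + 1 := ⟨E - 1, by omega⟩
        rw [if_neg (by omega), if_neg (by omega)]
        push_cast
        rw [pow_succ]
        ring
    rw [sum_congr rfl h1, sum_add_distrib]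
    congr 1
    · rw [← mul_sum, sum_range_succ _ (m + 1), par1_bE_zero m (m + 1) _ (by omega)]
      simp
    · rw [sum_range_succ' _ (m + 1), if_pos rfl, add_zero, mul_sum]
      refine sum_congr rfl fun E _ => ?_
      rw [if_neg (Nat.succ_ne_zero E), Nat.add_sub_cancel]

theorem par1_pars (M N : ℕ) (hM : 0 < M) (hN : N ≤ M) (p : ℕ → ℝ) :
    ∑ r ∈ range M, ‖∑ E ∈ range N, (Complex.exp (2 * Real.pi * Complex.I * r / M)) ^ E *
      ((p E : ℝ) : ℂ)‖ ^ 2 = M * ∑ E ∈ range N, p E ^ 2 := by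
  set ω : ℂ := Complex.exp (2 * Real.pi * Complex.I / M) with hω
  have hprim : IsPrimitiveRoot ω M := Complex.isPrimitiveRoot_exp M hM.ne'
  have hω0 : ω ≠ 0 := Complex.exp_ne_zero _
  have hr : ∀ r : ℕ, Complex.exp (2 * Real.pi * Complex.I * r / M) = ω ^ r := by
    intro r
    rw [hω, ← Complex.exp_nat_mul]
    congr 1
    ring
  have hconj : (starRingEnd ℂ) ω = ω⁻¹ := by
    rw [hω, ← Complex.exp_conj, ← Complex.exp_neg]
    congr 1
    rw [map_div₀, map_mul, map_mul, Complex.conj_I, Complex.conj_ofReal, Complex.conj_natCast,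
      Complex.conj_ofNat]
    ring
  have hC : ((∑ r ∈ range M, ‖∑ E ∈ range N, (Complex.exp (2 * Real.pi * Complex.I * r / M)) ^ E *
      ((p E : ℝ) : ℂ)‖ ^ 2 : ℝ) : ℂ) = ((M * ∑ E ∈ range N, p E ^ 2 : ℝ) : ℂ) := by
    push_cast
    have h1 : ∀ r ∈ range M, ((‖∑ E ∈ range N,
        (Complex.exp (2 * Real.pi * Complex.I * r / M)) ^ E * ((p E : ℝ) : ℂ)‖ : ℝ) : ℂ) ^ 2 =
        ∑ E ∈ range N, ∑ E' ∈ range N, ((p E : ℝ) : ℂ) * ((p E' : ℝ) : ℂ) *
          (ω ^ E * (ω ^ E')⁻¹) ^ r := by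
      intro r _
      rw [← Complex.mul_conj', map_sum, sum_mul_sum]
      refine sum_congr rfl fun E _ => sum_congr rfl fun E' _ => ?_
      rw [hr, map_mul, map_pow, map_pow, hconj, Complex.conj_ofReal, mul_pow]
      rw [← pow_mul, ← pow_mul, inv_pow, ← pow_mul, inv_pow, ← pow_mul]
      rw [mul_comm E r, mul_comm E' r]
      ring
    rw [sum_congr rfl h1, sum_comm]
    simp_rw [sum_comm (s := range M)]
    have h2 : ∀ E ∈ range N, ∀ E' ∈ range N, ∑ r ∈ range M, ((p E : ℝ) : ℂ) * ((p E' : ℝ) : ℂ) *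
        (ω ^ E * (ω ^ E')⁻¹) ^ r = if E = E' then (M : ℂ) * ((p E : ℝ) : ℂ) ^ 2 else 0 := by
      intro E hE E' hE'
      rw [← mul_sum]
      split_ifs with h
      · subst h
        rw [mul_inv_cancel₀ (pow_ne_zero _ hω0)]
        simp
        ring
      · have hne : ω ^ E * (ω ^ E')⁻¹ ≠ 1 := by
          intro h3
          apply h
          have h4 : ω ^ E = ω ^ E' := by
            have := mul_inv_eq_one₀ (pow_ne_zero E' hω0) |>.1 h3
            exact this
          exact hprim.pow_inj (by have := mem_range.1 hE; omega)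
            (by have := mem_range.1 hE'; omega) h4
        have h5 : (ω ^ E * (ω ^ E')⁻¹) ^ M = 1 := by
          rw [mul_pow, inv_pow, ← pow_mul, ← pow_mul, mul_comm E M, mul_comm E' M, pow_mul, pow_mul,
            hprim.pow_eq_one]
          simp
        rw [geom_sum_eq hne, h5]
        simp
    rw [sum_congr rfl fun E hE => sum_congr rfl fun E' hE' => h2 E hE E' hE', mul_sum]
    refine sum_congr rfl fun E hE => ?_
    rw [sum_ite_eq, if_pos hE]
  exact_mod_cast hC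

theorem par1_perpC {n : ℕ} (N : ℕ) (c : ℕ → ℂ) (x : ℕ → G n → ℝ) (g : G n) :
    perpC (fun g => ∑ E ∈ range N, c E * ((x E g : ℝ) : ℂ)) g =
      ∑ E ∈ range N, c E * ((perp (x E) g : ℝ) : ℂ) := by
  unfold perpC perp
  push_cast
  have h1 : ∑ h : G n, ∑ E ∈ range N, c E * ((x E h : ℝ) : ℂ) =
      ∑ E ∈ range N, c E * ∑ h : G n, ((x E h : ℝ) : ℂ) := by
    rw [sum_comm]
    simp_rw [mul_sum]
  have h2 : ∑ h : G n, ((Equiv.Perm.sign h : ℤ) : ℂ) * ∑ E ∈ range N, c E * ((x E h : ℝ) : ℂ) =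
      ∑ E ∈ range N, c E * ∑ h : G n, ((Equiv.Perm.sign h : ℤ) : ℂ) * ((x E h : ℝ) : ℂ) := by
    simp_rw [mul_sum]
    rw [sum_comm]
    refine sum_congr rfl fun E _ => sum_congr rfl fun h _ => ?_
    ring
  rw [h1, h2, sum_div, mul_sum, sum_div, ← sum_sub_distrib, ← sum_sub_distrib]
  refine sum_congr rfl fun E _ => ?_
  ring

theorem parseval {n : ℕ} [NeZero n] (m M : ℕ) (hM : m + 1 ≤ M) :
    ∑ E ∈ range (m + 1), ∑ g : G n, (perp (bE m E) g) ^ 2 =
      (1 / (M : ℝ)) * ∑ r ∈ range M,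
        nsq (perpC (((Dy (Complex.exp (2 * Real.pi * Complex.I * r / M))) ^ m) (dlt : G n → ℂ))) := by
  have hM0 : (M : ℝ) ≠ 0 := by
    have : 0 < M := by omega
    positivity
  have h1 : ∀ y : ℂ, ∀ g : G n, perpC (((Dy y) ^ m) (dlt : G n → ℂ)) g =
      ∑ E ∈ range (m + 1), y ^ E * ((perp (bE m E) g : ℝ) : ℂ) := by
    intro y g
    rw [← par1_perpC]
    congr 1
    funext g
    exact par1_gen y m g
  unfold nsq
  simp_rw [h1]
  rw [sum_comm (s := range M)]
  have h2 : ∀ g : G n, ∑ r ∈ range M, ‖∑ E ∈ range (m + 1),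
      (Complex.exp (2 * Real.pi * Complex.I * r / M)) ^ E *
        ((perp (bE m E) g : ℝ) : ℂ)‖ ^ 2 = M * ∑ E ∈ range (m + 1), (perp (bE m E) g) ^ 2 :=
    fun g => par1_pars M (m + 1) (by omega) hM _
  simp_rw [h2]
  rw [← mul_sum, ← mul_assoc, one_div, inv_mul_cancel₀ hM0, one_mul, sum_comm]

/-! ### The twist -/

theorem par1_sign_tau {n : ℕ} [NeZero n] (hn : 2 ≤ n) : Equiv.Perm.sign (tau : G n) = -1 := by
  unfold tau
  apply Equiv.Perm.sign_swap
  intro h
  have h1 := congrArg (fun x : Fin n => (x : ℕ)) h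
  simp only [Fin.val_zero] at h1
  rw [Fin.val_one', Nat.mod_eq_of_lt (by omega)] at h1
  omega

theorem par1_sign_rot {n : ℕ} (hodd : Odd n) : Equiv.Perm.sign (finRotate n) = 1 := by
  obtain ⟨k, rfl⟩ := hodd
  rw [sign_finRotate, Nat.add_sub_cancel, pow_mul]
  simp

theorem par1_twist {n : ℕ} [NeZero n] (hn : 3 ≤ n) (hodd : Odd n) (m : ℕ) (y : ℂ) : ∀ g : G n,
    ((Dy (-y)) ^ m) (dlt : G n → ℂ) g =
      ((Equiv.Perm.sign g : ℤ) : ℂ) * ((Dy y) ^ m) (dlt : G n → ℂ) g := by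
  induction m with
  | zero =>
    intro g
    unfold dlt
    by_cases h : g = 1 <;> simp [h]
  | succ m ih =>
    intro g
    rw [pow_succ', Module.End.mul_apply, pow_succ', Module.End.mul_apply, par1_Dy_apply,
      par1_Dy_apply, ih, ih]
    have h1 : Equiv.Perm.sign ((finRotate n)⁻¹ * g) = Equiv.Perm.sign g := by
      rw [Equiv.Perm.sign_mul, Equiv.Perm.sign_inv, par1_sign_rot hodd, one_mul]
    have h2 : Equiv.Perm.sign (tau⁻¹ * ((finRotate n)⁻¹ * g)) = -Equiv.Perm.sign g := by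
      rw [Equiv.Perm.sign_mul, Equiv.Perm.sign_inv, h1, par1_sign_tau (by omega)]
      simp
    rw [h1, h2]
    push_cast
    ring

theorem par1_sign_sq {n : ℕ} (g : G n) :
    ((Equiv.Perm.sign g : ℤ) : ℂ) * ((Equiv.Perm.sign g : ℤ) : ℂ) = 1 := by
  rcases Int.units_eq_one_or (Equiv.Perm.sign g) with h | h <;> rw [h] <;> simp

theorem perp_twist {n : ℕ} [NeZero n] (hn : 3 ≤ n) (hodd : Odd n) (m : ℕ) (y : ℂ) :
    nsq (perpC (((Dy (-y)) ^ m) (dlt : G n → ℂ))) = nsq (perpC (((Dy y) ^ m) (dlt : G n → ℂ))) := by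
  unfold nsq
  refine sum_congr rfl fun g _ => ?_
  set F : G n → ℂ := ((Dy y) ^ m) (dlt : G n → ℂ) with hF
  have h0 : ((Dy (-y)) ^ m) (dlt : G n → ℂ) =
      fun g => ((Equiv.Perm.sign g : ℤ) : ℂ) * F g := by
    funext g
    exact par1_twist hn hodd m y g
  rw [h0]
  have h1 : perpC (fun g => ((Equiv.Perm.sign g : ℤ) : ℂ) * F g) g =
      ((Equiv.Perm.sign g : ℤ) : ℂ) * perpC F g := by
    unfold perpC
    have h2 : ∑ h : G n, ((Equiv.Perm.sign h : ℤ) : ℂ) * (((Equiv.Perm.sign h : ℤ) : ℂ) * F h) =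
        ∑ h : G n, F h := by
      refine sum_congr rfl fun h _ => ?_
      rw [← mul_assoc, par1_sign_sq, one_mul]
    rw [h2]
    have h3 := par1_sign_sq g
    linear_combination ((∑ h : G n, ((Equiv.Perm.sign h : ℤ) : ℂ) * F h) / (n.factorial : ℂ)) * h3
  rw [h1, norm_mul]
  have h4 : ‖((Equiv.Perm.sign g : ℤ) : ℂ)‖ = 1 := by
    rcases Int.units_eq_one_or (Equiv.Perm.sign g) with h | h <;> rw [h] <;> simp
  rw [h4, one_mul]

end Pool.Agent.Lib.MP_cad76e_pr
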