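import Pool.Agent.Lib.MP_cad76e_pr.GB
import Pool.Agent.Lib.MP_cad76e_pr.LA1

/-! Module PAR2: the projection `perpC`, `perp_le_hs`, `perp_le_trivial`. -/

set_option autoImplicit false

namespace Pool.Agent.Lib.MP_cad76e_pr

open Finset Filter Topology

/-- the sign as a complex number -/
noncomputable def pr2_s {n : ℕ} (g : G n) : ℂ := ((Equiv.Perm.sign g : ℤ) : ℂ)

theorem pr2_s_mul {n : ℕ} (g h : G n) : pr2_s (g * h) = pr2_s g * pr2_s h := by
  unfold pr2_s
  rw [Equiv.Perm.sign_mul]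
  push_cast
  ring

theorem pr2_s_sq {n : ℕ} (g : G n) : pr2_s g * pr2_s g = 1 := by
  unfold pr2_s
  rcases Int.units_eq_one_or (Equiv.Perm.sign g) with h | h <;> rw [h] <;> simp

theorem pr2_s_inv {n : ℕ} (g : G n) : pr2_s g⁻¹ = pr2_s g := by
  unfold pr2_s
  rw [Equiv.Perm.sign_inv]

theorem pr2_s_conj {n : ℕ} (g : G n) : (starRingEnd ℂ) (pr2_s g) = pr2_s g := by
  unfold pr2_s
  exact map_intCast (starRingEnd ℂ) _

theorem pr2_sum_s {n : ℕ} (hn : 2 ≤ n) : ∑ g : G n, pr2_s g = 0 := by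
  have h01 : (⟨0, by omega⟩ : Fin n) ≠ ⟨1, by omega⟩ := by
    intro h
    simp at h
  have h1 : ∑ g : G n, pr2_s g =
      ∑ g : G n, pr2_s (Equiv.swap (⟨0, by omega⟩ : Fin n) ⟨1, by omega⟩ * g) :=
    (Equiv.sum_comp (Equiv.mulLeft (Equiv.swap (⟨0, by omega⟩ : Fin n) ⟨1, by omega⟩)) pr2_s).symm
  have h2 : pr2_s (Equiv.swap (⟨0, by omega⟩ : Fin n) ⟨1, by omega⟩) = -1 := by
    unfold pr2_s
    rw [Equiv.Perm.sign_swap h01]
    simp
  simp only [pr2_s_mul, h2, neg_mul, one_mul, Finset.sum_neg_distrib] at h1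
  have : (2 : ℂ) * ∑ g : G n, pr2_s g = 0 := by linear_combination h1
  simpa using this

theorem pr2_fact_ne {n : ℕ} : ((n.factorial : ℕ) : ℂ) ≠ 0 := by
  exact_mod_cast (Nat.factorial_ne_zero n)

theorem pr2_card {n : ℕ} : (∑ _g : G n, (1 : ℂ)) = ((n.factorial : ℕ) : ℂ) := by
  simp [Fintype.card_perm]

theorem pr2_perpC_apply {n : ℕ} (x : G n → ℂ) (g : G n) :
    perpC x g = x g - (∑ h, x h) / (n.factorial : ℂ) -
      pr2_s g * (∑ h : G n, pr2_s h * x h) / (n.factorial : ℂ) := rfl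

theorem pr2_sum_perp {n : ℕ} (hn : 2 ≤ n) (x : G n → ℂ) : ∑ g, perpC x g = 0 := by
  simp only [pr2_perpC_apply, Finset.sum_sub_distrib]
  have h1 : ∑ _g : G n, (∑ h, x h) / (n.factorial : ℂ) = ∑ h, x h := by
    rw [Finset.sum_const, Finset.card_univ, Fintype.card_perm, Fintype.card_fin, nsmul_eq_mul,
      mul_div_cancel₀ _ pr2_fact_ne]
  have h2 : ∑ g : G n, pr2_s g * (∑ h : G n, pr2_s h * x h) / (n.factorial : ℂ) = 0 := by
    rw [← Finset.sum_div, ← Finset.sum_mul, pr2_sum_s hn, zero_mul, zero_div]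
  rw [h1, h2]
  ring

theorem pr2_sum_s_perp {n : ℕ} (hn : 2 ≤ n) (x : G n → ℂ) : ∑ g, pr2_s g * perpC x g = 0 := by
  simp only [pr2_perpC_apply, mul_sub, Finset.sum_sub_distrib]
  have h1 : ∑ g : G n, pr2_s g * ((∑ h, x h) / (n.factorial : ℂ)) = 0 := by
    rw [← Finset.sum_mul, pr2_sum_s hn, zero_mul]
  have h2 : ∑ g : G n, pr2_s g * (pr2_s g * (∑ h : G n, pr2_s h * x h) / (n.factorial : ℂ)) =
      ∑ h : G n, pr2_s h * x h := by
    have : ∀ g : G n, pr2_s g * (pr2_s g * (∑ h : G n, pr2_s h * x h) / (n.factorial : ℂ)) =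
        (∑ h : G n, pr2_s h * x h) / (n.factorial : ℂ) := by
      intro g
      rw [← mul_div_assoc, ← mul_assoc, pr2_s_sq, one_mul]
    simp only [this]
    rw [Finset.sum_const, Finset.card_univ, Fintype.card_perm, Fintype.card_fin, nsmul_eq_mul,
      mul_div_cancel₀ _ pr2_fact_ne]
  rw [h1, h2]
  ring

/-- the projection as a linear map -/
noncomputable def pr2_om (n : ℕ) : Module.End ℂ (G n → ℂ) where
  toFun := perpC
  map_add' x y := by
    funext g
    simp only [pr2_perpC_apply, Pi.add_apply, mul_add, Finset.sum_add_distrib]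
    ring
  map_smul' c x := by
    funext g
    have h1 : ∑ h : G n, (c • x) h = c * ∑ h : G n, x h := by
      rw [Finset.mul_sum]; rfl
    have h2 : ∑ h : G n, pr2_s h * (c • x) h = c * ∑ h : G n, pr2_s h * x h := by
      rw [Finset.mul_sum]
      apply Finset.sum_congr rfl
      intro h _
      rw [Pi.smul_apply, smul_eq_mul]
      ring
    rw [pr2_perpC_apply, h1, h2, RingHom.id_apply, Pi.smul_apply, Pi.smul_apply, pr2_perpC_apply,
      smul_eq_mul, smul_eq_mul]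
    ring

theorem pr2_om_apply {n : ℕ} (x : G n → ℂ) : pr2_om n x = perpC x := rfl

theorem pr2_om_idem {n : ℕ} (hn : 2 ≤ n) : pr2_om n * pr2_om n = pr2_om n := by
  apply LinearMap.ext
  intro x
  funext g
  rw [Module.End.mul_apply, pr2_om_apply, pr2_om_apply, pr2_perpC_apply, pr2_sum_perp hn,
    pr2_sum_s_perp hn]
  ring

theorem pr2_om_adj {n : ℕ} : IsAdj (pr2_om n) (pr2_om n) := by
  intro f g
  rw [pr2_om_apply, pr2_om_apply]
  unfold ip
  have hL : ∀ x, (starRingEnd ℂ) (perpC f x) * g x = (starRingEnd ℂ) (f x) * g x -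
      (starRingEnd ℂ) (∑ h, f h) / (n.factorial : ℂ) * g x -
      (starRingEnd ℂ) (∑ h : G n, pr2_s h * f h) / (n.factorial : ℂ) * (pr2_s x * g x) := by
    intro x
    rw [pr2_perpC_apply]
    simp only [map_sub, map_div₀, map_mul, pr2_s_conj, Complex.conj_natCast]
    ring
  have hR : ∀ x, (starRingEnd ℂ) (f x) * perpC g x = (starRingEnd ℂ) (f x) * g x -
      (starRingEnd ℂ) (f x) * ((∑ h, g h) / (n.factorial : ℂ)) -
      (pr2_s x * (starRingEnd ℂ) (f x)) * ((∑ h : G n, pr2_s h * g h) / (n.factorial : ℂ)) := by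
    intro x
    rw [pr2_perpC_apply]
    ring
  simp only [hL, hR, Finset.sum_sub_distrib, ← Finset.mul_sum, ← Finset.sum_mul]
  have h1 : (starRingEnd ℂ) (∑ h, f h) = ∑ h, (starRingEnd ℂ) (f h) := map_sum _ _ _
  have h2 : (starRingEnd ℂ) (∑ h : G n, pr2_s h * f h) =
      ∑ h : G n, pr2_s h * (starRingEnd ℂ) (f h) := by
    rw [map_sum]
    apply Finset.sum_congr rfl
    intro h _
    rw [map_mul, pr2_s_conj]
  rw [h1, h2]
  ring

theorem pr2_nsq_ip {ι : Type*} [Fintype ι] (f : ι → ℂ) : (nsq f : ℂ) = ip f f := by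
  unfold nsq ip
  push_cast
  apply Finset.sum_congr rfl
  intro x _
  rw [← Complex.mul_conj', mul_comm]

theorem pr2_nsq_om_le {n : ℕ} (hn : 2 ≤ n) (f : G n → ℂ) : nsq (pr2_om n f) ≤ nsq f := by
  have hadd : ∀ a b c : G n → ℂ, ip a (b + c) = ip a b + ip a c := by
    intro a b c
    simp [ip, mul_add, Finset.sum_add_distrib]
  have hadd' : ∀ a b c : G n → ℂ, ip (a + b) c = ip a c + ip b c := by
    intro a b c
    simp [ip, add_mul, Finset.sum_add_distrib]
  set w := pr2_om n f with hw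
  have hww : pr2_om n w = w := by
    rw [hw, ← Module.End.mul_apply, pr2_om_idem hn]
  have h0 : pr2_om n (f - w) = 0 := by
    rw [map_sub, hww, ← hw, sub_self]
  have hc1 : ip w (f - w) = 0 := by
    have := pr2_om_adj f (f - w)
    rw [h0, ← hw] at this
    rw [this]
    simp [ip]
  have hc2 : ip (f - w) w = 0 := by
    have := pr2_om_adj (f - w) w
    rw [h0, hww] at this
    rw [← this]
    simp [ip]
  have hf : f = w + (f - w) := by
    funext x
    simp
  have key : (nsq f : ℂ) = nsq w + nsq (f - w) := by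
    rw [pr2_nsq_ip, pr2_nsq_ip, pr2_nsq_ip]
    conv_lhs => rw [hf]
    rw [hadd, hadd', hadd', hc1, hc2]
    ring
  have key' : nsq f = nsq w + nsq (f - w) := by exact_mod_cast key
  have : 0 ≤ nsq (f - w) := by
    unfold nsq
    positivity
  linarith

theorem pr2_om_Lg {n : ℕ} (g : G n) : pr2_om n * Lg g = Lg g * pr2_om n := by
  apply LinearMap.ext
  intro x
  funext σ
  rw [Module.End.mul_apply, Module.End.mul_apply, pr2_om_apply, pr2_om_apply]
  have h1 : ∑ h : G n, (Lg g x) h = ∑ h : G n, x h :=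
    Equiv.sum_comp (Equiv.mulLeft g⁻¹) x
  have h2 : ∑ h : G n, pr2_s h * (Lg g x) h = pr2_s g * ∑ h : G n, pr2_s h * x h := by
    have := Equiv.sum_comp (Equiv.mulLeft g⁻¹) (fun h => pr2_s (g * h) * x h)
    simp only [Equiv.coe_mulLeft, mul_inv_cancel_left] at this
    rw [Finset.mul_sum]
    calc ∑ h : G n, pr2_s h * (Lg g x) h = ∑ h : G n, pr2_s h * x (g⁻¹ * h) := rfl
      _ = ∑ h : G n, pr2_s (g * h) * x h := this
      _ = _ := by
        apply Finset.sum_congr rfl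
        intro h _
        rw [pr2_s_mul, mul_assoc]
  have h3 : (Lg g (perpC x)) σ = perpC x (g⁻¹ * σ) := rfl
  rw [pr2_perpC_apply, h1, h2, h3, pr2_perpC_apply, pr2_s_mul, pr2_s_inv]
  have h4 : (Lg g x) σ = x (g⁻¹ * σ) := rfl
  rw [h4]
  ring

theorem pr2_om_Dy {n : ℕ} [NeZero n] (y : ℂ) : pr2_om n * Dy y = Dy y * pr2_om n := by
  unfold Dy
  rw [← mul_assoc, pr2_om_Lg, mul_assoc, mul_assoc]
  congr 1
  rw [mul_add, add_mul, mul_smul_comm, mul_smul_comm, pr2_om_Lg, smul_mul_assoc, smul_mul_assoc,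
    mul_one, one_mul]

theorem pr2_om_Dy_pow {n : ℕ} [NeZero n] (y : ℂ) (m : ℕ) :
    pr2_om n * (Dy y) ^ m = (Dy y) ^ m * pr2_om n := by
  have : Commute (pr2_om n) (Dy y) := pr2_om_Dy y
  exact (this.pow_right m).eq

/-- right translation -/
def pr2_R {n : ℕ} (g : G n) : Module.End ℂ (G n → ℂ) where
  toFun f := fun σ => f (σ * g)
  map_add' _ _ := rfl
  map_smul' _ _ := rfl

theorem pr2_R_Lg {n : ℕ} (g h : G n) : pr2_R g * Lg h = Lg h * pr2_R g := by
  apply LinearMap.ext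
  intro x
  funext σ
  simp [pr2_R, Lg, mul_assoc]

theorem pr2_R_Dy {n : ℕ} [NeZero n] (g : G n) (y : ℂ) : pr2_R g * Dy y = Dy y * pr2_R g := by
  unfold Dy
  rw [← mul_assoc, pr2_R_Lg, mul_assoc, mul_assoc]
  congr 1

theorem pr2_R_Dy_pow {n : ℕ} [NeZero n] (g : G n) (y : ℂ) (m : ℕ) :
    pr2_R g * (Dy y) ^ m = (Dy y) ^ m * pr2_R g := by
  have : Commute (pr2_R g) (Dy y) := pr2_R_Dy g y
  exact (this.pow_right m).eq

theorem pr2_R_om {n : ℕ} (g : G n) : pr2_R g * pr2_om n = pr2_om n * pr2_R g := by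
  apply LinearMap.ext
  intro x
  funext σ
  rw [Module.End.mul_apply, Module.End.mul_apply, pr2_om_apply, pr2_om_apply]
  have h1 : ∑ h : G n, (pr2_R g x) h = ∑ h : G n, x h :=
    Equiv.sum_comp (Equiv.mulRight g) x
  have h2 : ∑ h : G n, pr2_s h * (pr2_R g x) h = pr2_s g * ∑ h : G n, pr2_s h * x h := by
    have := Equiv.sum_comp (Equiv.mulRight g) (fun h => pr2_s (h * g⁻¹) * x h)
    simp only [Equiv.coe_mulRight, mul_inv_cancel_right] at this
    rw [Finset.mul_sum]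
    calc ∑ h : G n, pr2_s h * (pr2_R g x) h = ∑ h : G n, pr2_s h * x (h * g) := rfl
      _ = ∑ h : G n, pr2_s (h * g⁻¹) * x h := this
      _ = _ := by
        apply Finset.sum_congr rfl
        intro h _
        rw [pr2_s_mul, pr2_s_inv]
        ring
  have h3 : (pr2_R g (perpC x)) σ = perpC x (σ * g) := rfl
  rw [pr2_perpC_apply, h1, h2, h3, pr2_perpC_apply, pr2_s_mul]
  have h4 : (pr2_R g x) σ = x (σ * g) := rfl
  rw [h4]
  ring

theorem pr2_nsq_R {n : ℕ} (g : G n) (f : G n → ℂ) : nsq (pr2_R g f) = nsq f :=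
  Equiv.sum_comp (Equiv.mulRight g) (fun x => ‖f x‖ ^ 2)

theorem perp_le_hs {n : ℕ} [NeZero n] (hn : 2 ≤ n) (m : ℕ) (y : ℂ) :
    (n.factorial : ℝ) * nsq (perpC (((Dy y) ^ m) (dlt : G n → ℂ))) ≤ hs (V0 n) ((Dy y) ^ m) := by
  have h1 := hs_proj (V0 n) ((Dy y) ^ m : Module.End ℂ (G n → ℂ)) (pr2_om n) pr2_om_adj
    (pr2_om_idem hn) (fun f => pr2_sum_perp hn f)
  refine le_trans (le_of_eq ?_) h1
  have h2 : ∀ x : G n, nsq (((Dy y) ^ m : Module.End ℂ (G n → ℂ)) (pr2_om n (Pi.single x 1))) =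
      nsq (perpC (((Dy y) ^ m) (dlt : G n → ℂ))) := by
    intro x
    have hs : (Pi.single x 1 : G n → ℂ) = pr2_R x⁻¹ dlt := by
      funext σ
      show _ = dlt (σ * x⁻¹)
      unfold dlt
      by_cases h : σ = x
      · subst h
        simp
      · have h' : σ * x⁻¹ ≠ 1 := by
          intro h''
          exact h (mul_inv_eq_one.mp h'')
        simp [h, h']
    rw [hs, ← Module.End.mul_apply (pr2_om n), ← pr2_R_om, Module.End.mul_apply,
      ← Module.End.mul_apply ((Dy y) ^ m), ← pr2_R_Dy_pow, Module.End.mul_apply, pr2_nsq_R,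
      ← Module.End.mul_apply, ← pr2_om_Dy_pow, Module.End.mul_apply, pr2_om_apply]
  simp only [h2]
  rw [Finset.sum_const, Finset.card_univ, Fintype.card_perm, Fintype.card_fin, nsmul_eq_mul]

theorem perp_le_trivial {n : ℕ} [NeZero n] (hn : 2 ≤ n) (m : ℕ) (y : ℂ) (hy : ‖y‖ = 1)
    (hre : 0 ≤ y.re) :
    nsq (perpC (((Dy y) ^ m) (dlt : G n → ℂ))) ≤ (‖2 + y‖ / 3) ^ (2 * m) := by
  have h1 : nsq (perpC (((Dy y) ^ m) (dlt : G n → ℂ))) ≤ nsq (((Dy y) ^ m) (dlt : G n → ℂ)) :=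
    pr2_nsq_om_le hn _
  have h2 : ∀ m : ℕ, nsq (((Dy y) ^ m) (dlt : G n → ℂ)) ≤ (‖2 + y‖ / 3) ^ (2 * m) := by
    intro m
    induction m with
    | zero =>
      simp only [pow_zero, Module.End.one_apply, mul_zero]
      unfold nsq dlt
      apply le_of_eq
      rw [Finset.sum_eq_single (1 : G n)]
      · simp
      · intro b _ hb
        simp [hb]
      · intro h
        exact absurd (Finset.mem_univ _) h
    | succ m ih =>
      rw [pow_succ', Module.End.mul_apply]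
      calc nsq (Dy y (((Dy y) ^ m) (dlt : G n → ℂ)))
          ≤ (‖2 + y‖ / 3) ^ 2 * nsq (((Dy y) ^ m) (dlt : G n → ℂ)) := nsq_Dy_le y hy hre _
        _ ≤ (‖2 + y‖ / 3) ^ 2 * (‖2 + y‖ / 3) ^ (2 * m) :=
            mul_le_mul_of_nonneg_left ih (by positivity)
        _ = _ := by rw [← pow_add]; congr 1; ring
  exact h1.trans (h2 m)

end Pool.Agent.Lib.MP_cad76e_pr
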