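import Pool.Agent.Lib.MP_cad76e_pr.Defs
import Pool.Agent.Lib.MP_cad76e_pr.PHI1

/-! Module PHI2: the number of bad steps. -/

set_option autoImplicit false

namespace Pool.Agent.Lib.MP_cad76e_pr

open Finset

section phi2

variable {n : ℕ} [NeZero n]

omit [NeZero n] in
theorem phi2_add (x y : Fin n) : (((x + y : Fin n) : ℕ) : ZMod n) = (x : ℕ) + (y : ℕ) := by
  rw [Fin.val_add, ZMod.natCast_mod, Nat.cast_add]

theorem phi2_sub (x y : Fin n) : (((x - y : Fin n) : ℕ) : ZMod n) = (x : ℕ) - (y : ℕ) := by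
  have h := phi2_add (x - y) y
  rw [sub_add_cancel] at h
  rw [h]
  ring

theorem phi2_ofNat (u : ℕ) : (((Fin.ofNat n u : Fin n) : ℕ) : ZMod n) = u := by
  rw [Fin.val_ofNat, ZMod.natCast_mod]

theorem phi2_one : (((1 : Fin n) : ℕ) : ZMod n) = 1 := by
  have h := phi2_ofNat (n := n) 1
  rw [Nat.cast_one] at h
  exact h

omit [NeZero n] in
theorem phi2_small {z : ℤ} (h : (z : ZMod n) = 0) (h1 : -(n : ℤ) < z) (h2 : z < n) : z = 0 := by
  rw [ZMod.intCast_zmod_eq_zero_iff_dvd] at h
  exact Int.eq_zero_of_abs_lt_dvd h (abs_lt.2 ⟨h1, h2⟩)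

open Classical in
theorem bad_count (d : ℕ) (A : Finset (Fin n)) (a : Fin n) (σ : G n) :
    #((range (n - 1)).filter (fun i => ¬ Good d A a ((stepFwd a)^[i] σ))) ≤
      (2 * d + 1) * #A + 2 := by
  by_cases htriv : n - 1 ≤ (2 * d + 1) * #A + 2
  · refine le_trans ?_ htriv
    refine le_trans (card_filter_le _ _) ?_
    rw [card_range]
  by_cases hdn : n ≤ d ∧ A.Nonempty
  · exfalso
    apply htriv
    have h1 : 1 ≤ #A := card_pos.2 hdn.2
    have h2 := Nat.mul_le_mul_left (2 * d + 1) h1
    omega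
  have hn2 : 4 ≤ n := by omega
  have hv : ∀ b ∈ A, d < n := by
    intro b hb
    by_contra h
    exact hdn ⟨by omega, ⟨b, hb⟩⟩
  set S : Finset ℕ := {((0 - σ a : Fin n) : ℕ), ((0 - 1 - σ a : Fin n) : ℕ)} ∪
    A.biUnion (fun b => insert (((σ b - σ a : Fin n) : ℕ) - 1)
      ((Icc 1 d).image (fun t => ((σ b - σ a : Fin n) : ℕ) + t - n) ∪
        (Icc 1 d).image (fun t => ((σ b - σ a : Fin n) : ℕ) + t - 1))) with hS
  have hcard : #S ≤ (2 * d + 1) * #A + 2 := by
    rw [hS]
    refine le_trans (card_union_le _ _) ?_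
    have h1 : #({((0 - σ a : Fin n) : ℕ), ((0 - 1 - σ a : Fin n) : ℕ)} : Finset ℕ) ≤ 2 :=
      card_le_two
    have h2 := card_biUnion_le_card_mul A (fun b => insert (((σ b - σ a : Fin n) : ℕ) - 1)
      ((Icc 1 d).image (fun t => ((σ b - σ a : Fin n) : ℕ) + t - n) ∪
        (Icc 1 d).image (fun t => ((σ b - σ a : Fin n) : ℕ) + t - 1))) (2 * d + 1) (by
          intro b _
          refine le_trans (card_insert_le _ _) ?_
          have h3 := card_union_le ((Icc 1 d).image (fun t => ((σ b - σ a : Fin n) : ℕ) + t - n))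
            ((Icc 1 d).image (fun t => ((σ b - σ a : Fin n) : ℕ) + t - 1))
          have h4 := card_image_le (s := Icc 1 d)
            (f := fun t => ((σ b - σ a : Fin n) : ℕ) + t - n)
          have h5 := card_image_le (s := Icc 1 d)
            (f := fun t => ((σ b - σ a : Fin n) : ℕ) + t - 1)
          rw [Nat.card_Icc] at h4 h5
          omega)
    rw [mul_comm] at h2
    omega
  refine le_trans (card_le_card ?_) hcard
  intro i hi
  rw [mem_filter, mem_range] at hi
  obtain ⟨hin, hbad⟩ := hi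
  have hin' : i < n := by omega
  set τ := (stepFwd a)^[i] σ with hτ
  have hτb : ∀ b, τ b = if b = a then σ a + Fin.ofNat n i else if ((σ b - σ a : Fin n) : ℕ) ≤ i
      then σ b - 1 else σ b := fun b => stepFwd_iter_apply a σ i hin' b
  have hτa : τ a = σ a + Fin.ofNat n i := by rw [hτb, if_pos rfl]
  have hs := (σ a).2
  -- the cards of `A`
  have hkey : ∀ b ∈ A, b ≠ a → ∀ δ : ℕ, δ = ((σ b - σ a : Fin n) : ℕ) → 1 ≤ δ ∧ δ < n ∧
      (δ : ZMod n) = (σ b : ℕ) - (σ a : ℕ) := by
    intro b _ hba δ hδ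
    refine ⟨?_, ?_, ?_⟩
    · rw [hδ]
      by_contra h
      have h0 : ((σ b - σ a : Fin n) : ℕ) = 0 := by omega
      have h1 : σ b - σ a = 0 := Fin.ext h0
      rw [sub_eq_zero] at h1
      exact hba (σ.injective h1)
    · rw [hδ]
      exact (σ b - σ a).2
    · rw [hδ]
      exact phi2_sub _ _
  have hτac : (((τ a : Fin n) : ℕ) : ZMod n) = (σ a : ℕ) + i := by
    rw [hτa, phi2_add, phi2_ofNat]
  unfold Good at hbad
  rw [not_and_or, not_and_or, not_and_or] at hbad
  rcases hbad with h | h | h | h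
  · -- position 0
    rw [hS, mem_union, mem_insert]
    left; left
    have h0 : ((τ a : Fin n) : ℕ) = 0 := by omega
    rw [h0, Nat.cast_zero] at hτac
    have h1 := phi2_sub (0 : Fin n) (σ a)
    have h2 := phi2_small (n := n) (z := (i : ℤ) - (((0 - σ a : Fin n) : ℕ) : ℤ)) (by
      push_cast
      rw [h1, Fin.val_zero, Nat.cast_zero]
      linear_combination -hτac) (by
        have := (0 - σ a : Fin n).2
        omega) (by omega)
    omega
  · -- position n - 1
    rw [hS, mem_union, mem_insert, mem_singleton]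
    left; right
    have h0 : ((τ a : Fin n) : ℕ) + 1 = n := by
      have := (τ a).2
      omega
    have h3 : (((τ a : Fin n) : ℕ) : ZMod n) + 1 = 0 := by
      have := congrArg (fun m : ℕ => (m : ZMod n)) h0
      push_cast at this
      rw [this, ZMod.natCast_self]
    have h1 := phi2_sub (0 - 1 : Fin n) (σ a)
    have h1' := phi2_sub (0 : Fin n) 1
    rw [h1', phi2_one, Fin.val_zero, Nat.cast_zero] at h1
    have h2 := phi2_small (n := n) (z := (i : ℤ) - (((0 - 1 - σ a : Fin n) : ℕ) : ℤ)) (by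
      push_cast
      rw [h1]
      linear_combination h3 - hτac) (by
        have := (0 - 1 - σ a : Fin n).2
        omega) (by omega)
    omega
  · -- a card of `A` in front
    rw [not_not] at h
    obtain ⟨b, hb⟩ : ∃ b, b = τ.symm (τ a + 1) := ⟨_, rfl⟩
    rw [← hb] at h
    have hb' : τ b = τ a + 1 := by rw [hb, Equiv.apply_symm_apply]
    have hba : b ≠ a := by
      rintro rfl
      have h1 := phi2_add (τ b) 1
      rw [← hb', phi2_one] at h1
      have h2 := phi2_small (n := n) (z := 1) (by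
        push_cast
        linear_combination -h1) (by omega) (by omega)
      omega
    obtain ⟨δ, hδ⟩ : ∃ δ : ℕ, δ = ((σ b - σ a : Fin n) : ℕ) := ⟨_, rfl⟩
    obtain ⟨hδ1, hδn, hδc⟩ := hkey b h hba δ hδ
    rw [hS, mem_union]
    right
    rw [mem_biUnion]
    refine ⟨b, h, ?_⟩
    rw [← hδ, mem_insert]
    left
    have hc := congrArg (fun m : Fin n => ((m : ℕ) : ZMod n)) hb'
    rw [phi2_add, phi2_one, hτac, hτb, if_neg hba, ← hδ] at hc
    by_cases hle : δ ≤ i
    · rw [if_pos hle, phi2_sub, phi2_one] at hc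
      have h2 := phi2_small (n := n) (z := (δ : ℤ) - (i + 2)) (by
        push_cast
        rw [hδc]
        linear_combination hc) (by omega) (by omega)
      omega
    · rw [if_neg hle] at hc
      have h2 := phi2_small (n := n) (z := (δ : ℤ) - (i + 1)) (by
        push_cast
        rw [hδc]
        linear_combination hc) (by omega) (by omega)
      omega
  · -- a card of `A` behind
    push Not at h
    obtain ⟨t, ht1, htd, h⟩ := h
    obtain ⟨b, hb⟩ : ∃ b, b = τ.symm (τ a - Fin.ofNat n t) := ⟨_, rfl⟩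
    rw [← hb] at h
    have hb' : τ b = τ a - Fin.ofNat n t := by rw [hb, Equiv.apply_symm_apply]
    have hdn' := hv b h
    have hba : b ≠ a := by
      rintro rfl
      have h1 := phi2_sub (τ b) (Fin.ofNat n t)
      rw [← hb', phi2_ofNat] at h1
      have h2 := phi2_small (n := n) (z := (t : ℤ)) (by
        push_cast
        linear_combination h1) (by omega) (by omega)
      omega
    obtain ⟨δ, hδ⟩ : ∃ δ : ℕ, δ = ((σ b - σ a : Fin n) : ℕ) := ⟨_, rfl⟩
    obtain ⟨hδ1, hδn, hδc⟩ := hkey b h hba δ hδ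
    rw [hS, mem_union]
    right
    rw [mem_biUnion]
    refine ⟨b, h, ?_⟩
    rw [← hδ, mem_insert, mem_union, mem_image, mem_image]
    right
    have hc := congrArg (fun m : Fin n => ((m : ℕ) : ZMod n)) hb'
    rw [phi2_sub, phi2_ofNat, hτac, hτb, if_neg hba, ← hδ] at hc
    by_cases hle : δ ≤ i
    · rw [if_pos hle, phi2_sub, phi2_one] at hc
      have h2 := phi2_small (n := n) (z := (δ : ℤ) + t - (i + 1)) (by
        push_cast
        rw [hδc]
        linear_combination hc) (by omega) (by omega)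
      right
      exact ⟨t, mem_Icc.2 ⟨ht1, htd⟩, by omega⟩
    · rw [if_neg hle] at hc
      have h2 := phi2_small (n := n) (z := (δ : ℤ) + t - i - n) (by
        push_cast
        rw [hδc, ZMod.natCast_self]
        linear_combination hc) (by omega) (by omega)
      left
      exact ⟨t, mem_Icc.2 ⟨ht1, htd⟩, by omega⟩

end phi2

end Pool.Agent.Lib.MP_cad76e_pr
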