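import Pool.Agent.Lib.MP_cad76e_pr.Defs

/-! Module RHO: `mu_eq_words` (`rho_bound` is in TVR). -/

set_option autoImplicit false

namespace Pool.Agent.Lib.MP_cad76e_pr

open Finset Filter Topology

theorem rho_sum_left {n : ℕ} (h : G n) (F : G n → ℝ) : ∑ g : G n, F (h⁻¹ * g) = ∑ g : G n, F g :=
  Fintype.sum_equiv (Equiv.mulLeft h⁻¹) _ _ (fun _ => rfl)

theorem rho_zero {n : ℕ} [NeZero n] (m : ℕ) :
    ∑ g : G n, ∑ j ∈ range m, eT 0 j g = if m = 0 then 0 else 1 := by
  cases m with
  | zero => simp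
  | succ m =>
    rw [if_neg (Nat.succ_ne_zero m)]
    have h1 : ∀ g : G n, ∑ j ∈ range (m + 1), eT 0 j g = if g = 1 then 1 else 0 := by
      intro g
      rw [Finset.sum_eq_single 0]
      · simp [eT]
      · intro j _ hj
        simp [eT, hj]
      · intro h
        simp at h
    rw [Finset.sum_congr rfl (fun g _ => h1 g)]
    simp

theorem rho_succ {n : ℕ} [NeZero n] (m T : ℕ) :
    ∑ g : G n, ∑ j ∈ range (m + 1), eT (T + 1) j g =
      (1 / 2) * ∑ g : G n, ∑ j ∈ range (m + 1), eT T j g +
        (1 / 2) * ∑ g : G n, ∑ j ∈ range m, eT T j g := by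
  have h1 : ∀ g : G n, ∑ j ∈ range (m + 1), eT (T + 1) j g =
      (1 / 2) * ∑ j ∈ range (m + 1), eT T j (tau⁻¹ * g) +
        (1 / 2) * ∑ j ∈ range m, eT T j ((finRotate n)⁻¹ * g) := by
    intro g
    simp only [eT, Finset.sum_add_distrib, ← Finset.mul_sum]
    congr 1
    rw [Finset.sum_range_succ']
    simp [Finset.mul_sum]
  rw [Finset.sum_congr rfl (fun g _ => h1 g), Finset.sum_add_distrib, ← Finset.mul_sum,
    ← Finset.mul_sum, rho_sum_left tau (fun g => ∑ j ∈ range (m + 1), eT T j g),
    rho_sum_left (finRotate n) (fun g => ∑ j ∈ range m, eT T j g)]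

theorem mu_eq_words_card {n : ℕ} [NeZero n] (T : ℕ) (g : G n) :
    (Finset.univ.filter (fun w : Fin (T + 1) → Bool =>
      (List.ofFn (fun i => if w i then Equiv.swap (0 : Fin n) 1 else finRotate n)).prod = g)).card =
    (Finset.univ.filter (fun w : Fin T → Bool =>
      (List.ofFn (fun i => if w i then Equiv.swap (0 : Fin n) 1 else finRotate n)).prod =
        tau⁻¹ * g)).card +
    (Finset.univ.filter (fun w : Fin T → Bool =>
      (List.ofFn (fun i => if w i then Equiv.swap (0 : Fin n) 1 else finRotate n)).prod =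
        (finRotate n)⁻¹ * g)).card := by
  classical
  simp only [Finset.card_filter]
  rw [← (Fin.consEquiv (fun _ : Fin (T + 1) => Bool)).sum_comp, Fintype.sum_prod_type,
    Fintype.sum_bool]
  congr 1
  · apply Finset.sum_congr rfl
    intro w _
    simp only [Fin.consEquiv, Equiv.coe_fn_mk, List.ofFn_succ, Fin.cons_zero, Fin.cons_succ,
      List.prod_cons, if_true]
    congr 1
    rw [eq_iff_iff, ← eq_inv_mul_iff_mul_eq]
    rfl
  · apply Finset.sum_congr rfl
    intro w _
    simp only [Fin.consEquiv, Equiv.coe_fn_mk, List.ofFn_succ, Fin.cons_zero, Fin.cons_succ,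
      List.prod_cons, Bool.false_eq_true, if_false]
    congr 1
    rw [eq_iff_iff, ← eq_inv_mul_iff_mul_eq]

theorem mu_eq_words {n : ℕ} [NeZero n] (T : ℕ) (g : G n) :
    (((Finset.univ.filter (fun w : Fin T → Bool =>
      (List.ofFn (fun i => if w i then Equiv.swap (0 : Fin n) 1 else finRotate n)).prod = g)).card : ℝ)
        / (2 : ℝ) ^ T) = mu T g := by
  induction T generalizing g with
  | zero =>
    simp only [mu, List.ofFn_zero, List.prod_nil, pow_zero, div_one]
    by_cases hg : g = 1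
    · subst hg
      simp
    · have : ¬ (1 : G n) = g := fun h => hg h.symm
      simp [this, hg]
  | succ T ih =>
    rw [mu_eq_words_card]
    show _ = 1 / 2 * mu T (tau⁻¹ * g) + 1 / 2 * mu T ((finRotate n)⁻¹ * g)
    rw [← ih, ← ih, pow_succ]
    push_cast
    ring

end Pool.Agent.Lib.MP_cad76e_pr
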