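import Pool.Agent.Lib.MP_cad76e_pr.Defs

/-! Module RN: the walk operator `D_y` and rounds. -/

set_option autoImplicit false

namespace Pool.Agent.Lib.MP_cad76e_pr

open Finset Filter Topology

theorem rn_Lg_mul {n : ℕ} (g h : G n) :
    (Lg g : Module.End ℂ (G n → ℂ)) * Lg h = Lg (g * h) := by
  apply LinearMap.ext
  intro f
  funext σ
  simp [Lg, mul_assoc]

theorem rn_Lg_one {n : ℕ} : (Lg (1 : G n) : Module.End ℂ (G n → ℂ)) = 1 := by
  apply LinearMap.ext
  intro f
  funext σ
  simp [Lg]

theorem rn_rot {n : ℕ} [NeZero n] (i : Fin n) : finRotate n i = i + 1 := finRotate_apply i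

theorem rn_rot_pow {n : ℕ} [NeZero n] (k : ℕ) (i : Fin n) :
    (finRotate n ^ k) i = i + Fin.ofNat n k := by
  induction k with
  | zero => simp
  | succ k ih =>
    rw [pow_succ', Equiv.Perm.mul_apply, ih, rn_rot, add_assoc]
    congr 1
    apply Fin.ext
    simp [Fin.val_add]

theorem rn_rot_self {n : ℕ} [NeZero n] : finRotate n ^ n = 1 := by
  ext i
  rw [rn_rot_pow]
  simp [Fin.ofNat]

theorem rn_conj_sj {n : ℕ} [NeZero n] (j : Fin n) :
    finRotate n * sj j = sj (j + 1) * finRotate n := by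
  unfold sj
  have := Equiv.swap_mul_eq_mul_swap (finRotate n) (j + 1) (j + 1 + 1)
  rw [this]
  congr 2
  · rw [← rn_rot j]; simp
  · rw [← rn_rot (j + 1)]; simp

theorem rn_Lg_PE {n : ℕ} [NeZero n] (b : ℂ) (j : Fin n) :
    (Lg (finRotate n) : Module.End ℂ (G n → ℂ)) * PE b j = PE b (j + 1) * Lg (finRotate n) := by
  unfold PE piE
  have h : (Lg (finRotate n) : Module.End ℂ (G n → ℂ)) * Lg (sj j) =
      Lg (sj (j + 1)) * Lg (finRotate n) := by
    rw [rn_Lg_mul, rn_Lg_mul, rn_conj_sj]
  simp only [mul_sub, sub_mul, mul_one, one_mul, mul_smul_comm, smul_mul_assoc, h]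

theorem rn_Lg_list {n : ℕ} [NeZero n] (b : ℂ) (l : List (Fin n)) :
    (Lg (finRotate n) : Module.End ℂ (G n → ℂ)) * (l.map (PE b)).prod =
      (l.map (fun j => PE b (j + 1))).prod * Lg (finRotate n) := by
  induction l with
  | nil => simp
  | cons a l ih =>
    rw [List.map_cons, List.map_cons, List.prod_cons, List.prod_cons, ← mul_assoc, rn_Lg_PE, mul_assoc,
      ih, mul_assoc]

theorem rn_CP_pow_aux {n : ℕ} [NeZero n] (b : ℂ) (m : ℕ) :
    ((Lg (finRotate n) : Module.End ℂ (G n → ℂ)) * PE b 0) ^ m =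
      (Lg (finRotate n) * ((List.range m).map (fun j => PE b (Fin.ofNat n j))).prod *
        Lg (finRotate n)⁻¹) * Lg (finRotate n) ^ m := by
  have hinv : (Lg (finRotate n)⁻¹ : Module.End ℂ (G n → ℂ)) * Lg (finRotate n) = 1 := by
    rw [rn_Lg_mul, inv_mul_cancel, rn_Lg_one]
  have hinv' : (Lg (finRotate n) : Module.End ℂ (G n → ℂ)) * Lg (finRotate n)⁻¹ = 1 := by
    rw [rn_Lg_mul, mul_inv_cancel, rn_Lg_one]
  induction m with
  | zero => simp [hinv']
  | succ m ih =>
    rw [pow_succ', ih]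
    have h1 : ((List.range m).map (fun j => PE b (Fin.ofNat n j))).prod =
        (((List.range m).map (Fin.ofNat n)).map (PE b)).prod := by
      rw [List.map_map]; rfl
    have h2 : ((List.range (m + 1)).map (fun j => PE b (Fin.ofNat n j))).prod =
        PE b 0 * (((List.range m).map (Fin.ofNat n)).map (fun j => PE b (j + 1))).prod := by
      rw [List.range_succ_eq_map, List.map_cons, List.prod_cons, List.map_map, List.map_map]
      congr 1
      apply congrArg
      apply List.map_congr_left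
      intro j _
      simp only [Function.comp]
      congr 1
      apply Fin.ext
      simp [Fin.val_add]
    rw [h1, h2, rn_Lg_list]
    calc (Lg (finRotate n) : Module.End ℂ (G n → ℂ)) * PE b 0 *
          ((((List.range m).map (Fin.ofNat n)).map (fun j => PE b (j + 1))).prod *
            Lg (finRotate n) * Lg (finRotate n)⁻¹ * Lg (finRotate n) ^ m)
        = Lg (finRotate n) * PE b 0 *
          (((List.range m).map (Fin.ofNat n)).map (fun j => PE b (j + 1))).prod *
            (Lg (finRotate n) * Lg (finRotate n)⁻¹) * Lg (finRotate n) ^ m := by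
          simp only [mul_assoc]
      _ = Lg (finRotate n) * PE b 0 *
          (((List.range m).map (Fin.ofNat n)).map (fun j => PE b (j + 1))).prod *
            (Lg (finRotate n)⁻¹ * Lg (finRotate n)) * Lg (finRotate n) ^ m := by
          rw [hinv, hinv']
      _ = _ := by
          rw [pow_succ']
          simp only [mul_assoc]

theorem CP_pow {n : ℕ} [NeZero n] (hn : 3 ≤ n) (b : ℂ) (j : ℕ) :
    (Lg (finRotate n) * PE b 0) ^ (n * j) = Lg (finRotate n) * (SE b) ^ j * Lg (finRotate n)⁻¹ := by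
  have hinv : (Lg (finRotate n)⁻¹ : Module.End ℂ (G n → ℂ)) * Lg (finRotate n) = 1 := by
    rw [rn_Lg_mul, inv_mul_cancel, rn_Lg_one]
  have hinv' : (Lg (finRotate n) : Module.End ℂ (G n → ℂ)) * Lg (finRotate n)⁻¹ = 1 := by
    rw [rn_Lg_mul, mul_inv_cancel, rn_Lg_one]
  have hpow : (Lg (finRotate n) : Module.End ℂ (G n → ℂ)) ^ n = 1 := by
    have : ∀ k : ℕ, (Lg (finRotate n) : Module.End ℂ (G n → ℂ)) ^ k = Lg (finRotate n ^ k) := by
      intro k
      induction k with
      | zero => simp [rn_Lg_one]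
      | succ k ih => rw [pow_succ, ih, rn_Lg_mul, pow_succ]
    rw [this, rn_rot_self, rn_Lg_one]
  have h1 : ((Lg (finRotate n) : Module.End ℂ (G n → ℂ)) * PE b 0) ^ n =
      Lg (finRotate n) * SE b * Lg (finRotate n)⁻¹ := by
    rw [rn_CP_pow_aux, hpow, mul_one]
    rfl
  rw [pow_mul, h1]
  induction j with
  | zero => simp [hinv']
  | succ j ih =>
    rw [pow_succ, ih, pow_succ]
    calc (Lg (finRotate n) : Module.End ℂ (G n → ℂ)) * SE b ^ j * Lg (finRotate n)⁻¹ *
          (Lg (finRotate n) * SE b * Lg (finRotate n)⁻¹)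
        = Lg (finRotate n) * SE b ^ j * (Lg (finRotate n)⁻¹ * Lg (finRotate n)) * SE b *
            Lg (finRotate n)⁻¹ := by simp only [mul_assoc]
      _ = _ := by rw [hinv, mul_one]; simp only [mul_assoc]

theorem Dy_eq {n : ℕ} [NeZero n] (y : ℂ) (hy : 2 + y ≠ 0) :
    (Dy y : Module.End ℂ (G n → ℂ)) =
      ((2 + y) / 3) • (Lg (finRotate n) * PE (2 * y / (2 + y)) 0) := by
  have hsj : (sj (0 : Fin n)) = tau := by
    unfold sj tau
    rw [zero_add]
  unfold Dy PE piE
  rw [hsj, ← mul_smul_comm]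
  congr 1
  apply LinearMap.ext
  intro f
  funext σ
  simp only [LinearMap.add_apply, LinearMap.sub_apply, LinearMap.smul_apply, Module.End.one_apply,
    Pi.add_apply, Pi.sub_apply, Pi.smul_apply, smul_eq_mul]
  field_simp
  ring

end Pool.Agent.Lib.MP_cad76e_pr
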