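import Pool.Agent.Lib.MP_cad76e_pr.PHI1

/-! Modules ROT and (common part of) MEAN: energy of unlabelled cards. -/

set_option autoImplicit false

namespace Pool.Agent.Lib.MP_cad76e_pr

open Finset

/-- reindexing of a sum over cards and arrangements by the position of the card -/
theorem sum_cards {n : ℕ} (F : Fin n → Fin n → G n → ℝ) :
    ∑ h : Fin n, ∑ σ : G n, F h (σ h) σ = ∑ j : Fin n, ∑ σ : G n, F (σ.symm j) j σ := by
  rw [Finset.sum_comm]
  rw [Finset.sum_comm (f := fun j (σ : G n) => F (σ.symm j) j σ)]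
  refine Finset.sum_congr rfl fun σ _ => ?_
  refine Fintype.sum_equiv σ _ _ fun h => ?_
  rw [Equiv.symm_apply_apply]

/-- a card outside `A` which meets a card outside `A` does not change a function in `FA A` -/
theorem FA_stepFwd_eq {n : ℕ} [NeZero n] {A : Finset (Fin n)} {g : G n → ℂ} (hg : g ∈ FA A)
    {h : Fin n} (hh : h ∉ A) {σ : G n} (hm : σ.symm (σ h + 1) ∉ A) :
    g (stepFwd h σ) = g σ := by
  refine hg _ _ fun a ha => ?_
  have h1 : σ a ≠ σ h := fun e => hh (by rw [← σ.injective e]; exact ha)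
  have h2 : σ a ≠ σ h + 1 := fun e => hm (by rw [← e, Equiv.symm_apply_apply]; exact ha)
  show (Equiv.swap (σ h) (σ h + 1) * σ) a = σ a
  rw [Equiv.Perm.mul_apply, Equiv.swap_apply_of_ne_of_ne h1 h2]

/-- the energy of the unlabelled cards is at most the energy of the labelled ones -/
theorem energy_compl {n : ℕ} [NeZero n] (A : Finset (Fin n)) (g : G n → ℂ) (hg : g ∈ FA A) :
    ∑ h ∈ Aᶜ, ∑ σ, ‖g (stepFwd h σ) - g σ‖ ^ 2 ≤ Etot A g := by
  classical
  have e1 : ∑ h ∈ Aᶜ, ∑ σ, ‖g (stepFwd h σ) - g σ‖ ^ 2 =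
      ∑ j : Fin n, ∑ σ : G n, (if σ.symm j ∉ A ∧ σ.symm (j + 1) ∈ A then
        ‖g (sj j * σ) - g σ‖ ^ 2 else 0) := by
    have h0 : ∑ h ∈ Aᶜ, ∑ σ, ‖g (stepFwd h σ) - g σ‖ ^ 2 =
        ∑ h : Fin n, ∑ σ : G n, (if h ∉ A ∧ σ.symm (σ h + 1) ∈ A then
          ‖g (sj (σ h) * σ) - g σ‖ ^ 2 else 0) := by
      rw [← Finset.sum_subset (Finset.subset_univ Aᶜ)]
      · refine Finset.sum_congr rfl fun h hh => Finset.sum_congr rfl fun σ _ => ?_
        have hh' : h ∉ A := by simpa using hh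
        by_cases hm : σ.symm (σ h + 1) ∈ A
        · rw [if_pos ⟨hh', hm⟩]; rfl
        · rw [if_neg (fun c => hm c.2), FA_stepFwd_eq hg hh' hm]; simp
      · intro h _ hh
        have hh' : h ∈ A := by simpa using hh
        refine Finset.sum_eq_zero fun σ _ => ?_
        rw [if_neg (fun c => c.1 hh')]
    rw [h0]
    exact sum_cards (fun h j σ => if h ∉ A ∧ σ.symm (j + 1) ∈ A then
          ‖g (sj j * σ) - g σ‖ ^ 2 else 0)
  have e2 : Etot A g = ∑ j : Fin n, ∑ σ : G n, (if σ.symm j ∈ A then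
        ‖g (sj j * σ) - g σ‖ ^ 2 else 0) := by
    have h0 : Etot A g = ∑ h : Fin n, ∑ σ : G n, (if h ∈ A then
          ‖g (sj (σ h) * σ) - g σ‖ ^ 2 else 0) := by
      rw [Etot, ← Finset.sum_subset (Finset.subset_univ A)]
      · refine Finset.sum_congr rfl fun h hh => Finset.sum_congr rfl fun σ _ => ?_
        rw [if_pos hh]; rfl
      · intro h _ hh
        refine Finset.sum_eq_zero fun σ _ => ?_
        rw [if_neg hh]
    rw [h0]
    exact sum_cards (fun h j σ => if h ∈ A then ‖g (sj j * σ) - g σ‖ ^ 2 else 0)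
  rw [e1, e2]
  refine Finset.sum_le_sum fun j _ => ?_
  have hsj : (sj j : G n) * sj j = 1 := Equiv.swap_mul_self _ _
  rw [← Equiv.sum_comp (Equiv.mulLeft (sj j : G n))]
  refine Finset.sum_le_sum fun σ _ => ?_
  have s1 : (Equiv.mulLeft (sj j : G n) σ).symm j = σ.symm (j + 1) := by
    show (sj j * σ)⁻¹ j = _
    rw [mul_inv_rev, Equiv.Perm.mul_apply]
    show σ.symm ((Equiv.swap j (j + 1))⁻¹ j) = _
    rw [Equiv.swap_inv, Equiv.swap_apply_left]
  have s2 : (Equiv.mulLeft (sj j : G n) σ).symm (j + 1) = σ.symm j := by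
    show (sj j * σ)⁻¹ (j + 1) = _
    rw [mul_inv_rev, Equiv.Perm.mul_apply]
    show σ.symm ((Equiv.swap j (j + 1))⁻¹ (j + 1)) = _
    rw [Equiv.swap_inv, Equiv.swap_apply_right]
  rw [s1, s2]
  have s3 : sj j * (Equiv.mulLeft (sj j : G n) σ) = σ := by
    show sj j * (sj j * σ) = σ
    rw [← mul_assoc, hsj, one_mul]
  rw [s3]
  by_cases hA : σ.symm j ∈ A
  · rw [if_pos hA]
    split_ifs
    · show ‖g σ - g (sj j * σ)‖ ^ 2 ≤ _
      rw [norm_sub_rev]
    · positivity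
  · rw [if_neg hA, if_neg (fun c => hA c.2)]

/-- Cauchy-Schwarz for a sum with few nonzero terms -/
theorem norm_sum_sq_le_few {ι : Type*} (s : Finset ι) (f : ι → ℂ) (P : ι → Prop)
    [DecidablePred P] (k : ℕ) (hk : #(s.filter P) ≤ k) (hf : ∀ i ∈ s, ¬ P i → f i = 0) :
    ‖∑ i ∈ s, f i‖ ^ 2 ≤ k * ∑ i ∈ s, ‖f i‖ ^ 2 := by
  have h1 : ∑ i ∈ s, f i = ∑ i ∈ s.filter P, f i := by
    rw [Finset.sum_filter]
    refine Finset.sum_congr rfl fun i hi => ?_
    split_ifs with h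
    · rfl
    · exact hf i hi h
  rw [h1]
  calc ‖∑ i ∈ s.filter P, f i‖ ^ 2 ≤ (∑ i ∈ s.filter P, ‖f i‖) ^ 2 := by
        gcongr; exact norm_sum_le _ _
    _ ≤ #(s.filter P) * ∑ i ∈ s.filter P, ‖f i‖ ^ 2 := sq_sum_le_card_mul_sum_sq
    _ ≤ k * ∑ i ∈ s, ‖f i‖ ^ 2 := by
        refine mul_le_mul (by exact_mod_cast hk) ?_ (by positivity) (by positivity)
        exact Finset.sum_le_sum_of_subset_of_nonneg (Finset.filter_subset _ _)
          (fun _ _ _ => by positivity)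

/-- the energy spent during one turn of an unlabelled card -/
noncomputable def turnE {n : ℕ} [NeZero n] (g : G n → ℂ) (h : Fin n) (σ : G n) : ℝ :=
  ∑ t ∈ range (n - 1), ‖g ((stepFwd h)^[t + 1] σ) - g ((stepFwd h)^[t] σ)‖ ^ 2

theorem turnE_nonneg {n : ℕ} [NeZero n] (g : G n → ℂ) (h : Fin n) (σ : G n) :
    0 ≤ turnE g h σ := Finset.sum_nonneg fun _ _ => by positivity

theorem few_terms {n : ℕ} [NeZero n] (A : Finset (Fin n)) (g : G n → ℂ) (hg : g ∈ FA A)
    (h : Fin n) (hh : h ∉ A) (σ : G n) (m : ℕ) (hm : m ≤ n - 1) :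
    ‖g ((stepFwd h)^[m] σ) - g σ‖ ^ 2 ≤ #A * turnE g h σ := by
  classical
  have h1 : g ((stepFwd h)^[m] σ) - g σ =
      ∑ t ∈ range m, (g ((stepFwd h)^[t + 1] σ) - g ((stepFwd h)^[t] σ)) := by
    rw [Finset.sum_range_sub (fun t => g ((stepFwd h)^[t] σ))]
    rfl
  rw [h1]
  refine (norm_sum_sq_le_few (range m) _
    (fun i => ((stepFwd h)^[i] σ).symm (((stepFwd h)^[i] σ) h + 1) ∈ A) #A ?_ ?_).trans ?_
  · refine le_trans (Finset.card_le_card ?_) (stepFwd_pass A h σ)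
    exact Finset.filter_subset_filter _ (Finset.range_mono hm)
  · intro i _ hi
    rw [Function.iterate_succ_apply', FA_stepFwd_eq hg hh hi, sub_self]
  · refine mul_le_mul_of_nonneg_left ?_ (by positivity)
    exact Finset.sum_le_sum_of_subset_of_nonneg (Finset.range_mono hm) (fun _ _ _ => by positivity)

theorem sum_turnE {n : ℕ} [NeZero n] (g : G n → ℂ) (h : Fin n) :
    ∑ σ : G n, turnE g h σ = ((n : ℝ) - 1) * ∑ σ : G n, ‖g (stepFwd h σ) - g σ‖ ^ 2 := by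
  have hn1 : 1 ≤ n := Nat.one_le_iff_ne_zero.mpr (NeZero.ne n)
  unfold turnE
  rw [Finset.sum_comm]
  have h1 : ∀ t ∈ range (n - 1),
      ∑ σ : G n, ‖g ((stepFwd h)^[t + 1] σ) - g ((stepFwd h)^[t] σ)‖ ^ 2 =
        ∑ σ : G n, ‖g (stepFwd h σ) - g σ‖ ^ 2 := by
    intro t _
    have hb : Function.Bijective ((stepFwd h)^[t] : G n → G n) := (stepFwd_bijective h).iterate t
    rw [← (Equiv.ofBijective _ hb).sum_comp (fun σ => ‖g (stepFwd h σ) - g σ‖ ^ 2)]
    refine Finset.sum_congr rfl fun σ _ => ?_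
    rw [Function.iterate_succ_apply']
    rfl
  rw [Finset.sum_congr rfl h1, Finset.sum_const, Finset.card_range, nsmul_eq_mul,
    Nat.cast_sub hn1, Nat.cast_one]

theorem rot_bound {n : ℕ} [NeZero n] (hn : 3 ≤ n) (A : Finset (Fin n)) (g : G n → ℂ)
    (hg : g ∈ FA A) : ((n : ℝ) - #A) * nsq (fun σ => g ((finRotate n)⁻¹ * σ) - g σ) ≤
      (#A : ℝ) * ((n : ℝ) - 1) * Etot A g := by
  have hcard : #Aᶜ = n - #A := by rw [Finset.card_compl, Fintype.card_fin]
  have hle : #A ≤ n := by simpa using Finset.card_le_univ A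
  have h1 : ((n : ℝ) - #A) * nsq (fun σ => g ((finRotate n)⁻¹ * σ) - g σ) =
      ∑ h ∈ Aᶜ, nsq (fun σ => g ((finRotate n)⁻¹ * σ) - g σ) := by
    rw [Finset.sum_const, hcard, nsmul_eq_mul, Nat.cast_sub hle]
  rw [h1]
  have h2 : ∀ h ∈ Aᶜ, nsq (fun σ => g ((finRotate n)⁻¹ * σ) - g σ) ≤
      #A * (((n : ℝ) - 1) * ∑ σ : G n, ‖g (stepFwd h σ) - g σ‖ ^ 2) := by
    intro h hh
    have hh' : h ∉ A := by simpa using hh
    rw [← sum_turnE, Finset.mul_sum]
    refine Finset.sum_le_sum fun σ _ => ?_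
    have := few_terms A g hg h hh' σ (n - 1) le_rfl
    rwa [stepFwd_turn] at this
  refine (Finset.sum_le_sum h2).trans ?_
  rw [← Finset.mul_sum, ← Finset.mul_sum, mul_assoc]
  have hn' : (0 : ℝ) ≤ (n : ℝ) - 1 := by
    have : (3 : ℝ) ≤ n := by exact_mod_cast hn
    linarith
  exact mul_le_mul_of_nonneg_left (mul_le_mul_of_nonneg_left (energy_compl A g hg) hn')
    (by positivity)

end Pool.Agent.Lib.MP_cad76e_pr
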