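import Pool.Agent.Lib.MP_cad76e_pr.Defs
import Pool.Agent.Lib.MP_cad76e_pr.GB
import Pool.Agent.Lib.MP_cad76e_pr.D1
import Pool.Agent.Lib.MP_cad76e_pr.D2
import Pool.Agent.Lib.MP_cad76e_pr.PHI2
import Pool.Agent.Lib.MP_cad76e_pr.ORB
import Pool.Agent.Lib.MP_cad76e_pr.ROT
import Pool.Agent.Lib.MP_cad76e_pr.MEAN

set_option autoImplicit false

namespace Pool.Agent.Lib.MP_cad76e_pr

open Finset

/-- the total energy is controlled by the `π_j` -/
theorem Etot_le {n : ℕ} [NeZero n] (A : Finset (Fin n)) (g : G n → ℂ) :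
    Etot A g ≤ 4 * ∑ j : Fin n, nsq (piE j g) := by
  have h1 : ∀ j : Fin n, nsq (piE j g) = (1 / 4) * ∑ σ, ‖g (sj j * σ) - g σ‖ ^ 2 :=
    fun j => (nsq_piE j g).1
  have h2 : 4 * ∑ j : Fin n, nsq (piE j g) = ∑ j : Fin n, ∑ σ : G n, ‖g (sj j * σ) - g σ‖ ^ 2 := by
    rw [Finset.mul_sum]
    refine Finset.sum_congr rfl fun j _ => ?_
    rw [h1 j]; ring
  rw [h2, Finset.sum_comm]
  unfold Etot
  rw [Finset.sum_comm]
  refine Finset.sum_le_sum fun σ _ => ?_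
  have h3 : ∑ a ∈ A, ‖g (stepFwd a σ) - g σ‖ ^ 2 ≤ ∑ a : Fin n, ‖g (stepFwd a σ) - g σ‖ ^ 2 :=
    Finset.sum_le_univ_sum_of_nonneg (fun a => by positivity)
  refine h3.trans (le_of_eq ?_)
  exact Equiv.sum_comp σ (fun j : Fin n => ‖g (sj j * σ) - g σ‖ ^ 2)

theorem two_sub_cos_le (x : ℝ) : 2 - 2 * Real.cos x ≤ x ^ 2 := by
  have := Real.one_sub_sq_div_two_le_cos (x := x)
  linarith

theorem two_sub_cos_ge (x : ℝ) (hx : |x| ≤ 1) : x ^ 2 * (1 - x ^ 2) ≤ 2 - 2 * Real.cos x := by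
  have h := Real.cos_bound hx
  have h2 := (abs_le.1 h).2
  have h3 : |x| ^ 4 = x ^ 4 := by
    rw [← abs_pow, abs_of_nonneg (by positivity)]
  rw [h3] at h2
  nlinarith only [h2, sq_nonneg x, sq_nonneg (x ^ 2)]

open Classical in
/-- the basic inequality, for one `A` -/
theorem sharp_basic {n : ℕ} [NeZero n] (hn : 3 ≤ n) (b : ℂ) (hb : ‖b - 2 / 3‖ ≤ 1 / 10)
    (e : ℝ) (he : 0 < e) (d R : ℕ) (hR : 1 ≤ R) (hRe : 16 ≤ e * R)
    (A : Finset (Fin n)) (f : G n → ℂ) (hf : f ∈ UA A)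
    (hk : 2 * (#A : ℝ) ≤ n)
    (hdiss : ∑ a ∈ A, ∑ σ : G n, (if Good d A a σ then ‖SE b f (stepFwd a σ) - SE b f σ‖ ^ 2 else 0)
      ≤ (1 + e) * (nsq f - nsq (SE b f)))
    (Rc : ℕ) (hRc : 1 ≤ Rc) (N' : ℕ) (hN' : n + R * ((2 * d + 1) * #A + 2) + Rc ≤ N') :
    (2 - 2 * Real.cos (2 * Real.pi / N')) * ((#A : ℝ) * (1 - 2 * #A / n) * nsq (SE b f)) ≤
      ((1 + 2 * e) + 32 * (#A : ℝ) ^ 2 / (Rc * n) +
        32 * (2 - 2 * Real.cos (2 * Real.pi / N')) * (#A : ℝ) ^ 2) * (nsq f - nsq (SE b f)) := by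
  have hn0 : (0 : ℝ) < n := by
    have : 0 < n := by omega
    exact_mod_cast this
  have hRpos : (0 : ℝ) < R := by exact_mod_cast (by omega : 0 < R)
  have hRcpos : (0 : ℝ) < Rc := by exact_mod_cast (by omega : 0 < Rc)
  have hgU : SE b f ∈ UA A := SE_mem b (UA A) (fun g f hf => Lg_UA A g f hf) f hf
  obtain ⟨g, hgdef⟩ : ∃ g, g = SE b f := ⟨_, rfl⟩
  rw [← hgdef] at hdiss hgU ⊢
  have hgF : g ∈ FA A := hgU.1
  obtain ⟨D, hD⟩ : ∃ D, D = nsq f - nsq g := ⟨_, rfl⟩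
  have hcr := diss_crude hn b hb f
  rw [← hgdef] at hcr
  have hpi0 : 0 ≤ ∑ j : Fin n, nsq (piE j g) :=
    Finset.sum_nonneg fun j _ => Finset.sum_nonneg fun _ _ => by positivity
  have hD0 : 0 ≤ D := by rw [hD]; linarith
  have hE : Etot A g ≤ 16 * D := by
    have := Etot_le A g
    rw [hD]; linarith
  have hE0 : 0 ≤ Etot A g :=
    Finset.sum_nonneg fun j _ => Finset.sum_nonneg fun _ _ => by positivity
  have hg0 : 0 ≤ nsq g := Finset.sum_nonneg fun _ _ => by positivity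
  rw [← hD] at hdiss ⊢
  -- the constant
  obtain ⟨c', hc'⟩ : ∃ c', c' = 2 - 2 * Real.cos (2 * Real.pi / N') := ⟨_, rfl⟩
  rw [← hc']
  have hc'0 : 0 ≤ c' := by
    rw [hc']
    have := Real.cos_le_one (2 * Real.pi / N')
    linarith only [this]
  -- orbit inequality for every a
  let ℓ : Fin n → G n → ℕ := fun a σ => if Good d A a σ then 1 else R
  have horb : ∀ a ∈ A, c' * ((n : ℝ) * (nsq g - nsq (avgO a g))) ≤
      ((n : ℝ) - 1) * ∑ σ, ‖g (stepFwd a σ) - g σ‖ ^ 2 / (ℓ a σ : ℝ) +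
        (1 / (Rc : ℝ)) * nsq (fun σ => g ((finRotate n)⁻¹ * σ) - g σ) := by
    intro a _
    rw [hc']
    refine orbit_ineq hn a g (ℓ a) (fun σ => ?_) Rc hRc N' (by omega) (fun σ => ?_)
    · simp only [ℓ]; split_ifs <;> omega
    · have h1 : ∑ i ∈ range (n - 1), ℓ a ((stepFwd a)^[i] σ) ≤
          (n - 1) + R * #((range (n - 1)).filter (fun i => ¬ Good d A a ((stepFwd a)^[i] σ))) := by
        have h2 : ∀ i ∈ range (n - 1), ℓ a ((stepFwd a)^[i] σ) ≤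
            1 + (if ¬ Good d A a ((stepFwd a)^[i] σ) then R else 0) := by
          intro i _
          simp only [ℓ]
          split_ifs <;> omega
        refine (Finset.sum_le_sum h2).trans ?_
        rw [Finset.sum_add_distrib, Finset.sum_const, Finset.card_range, ← Finset.sum_filter,
          Finset.sum_const, smul_eq_mul, smul_eq_mul, mul_one, mul_comm _ R]
      have h3 := bad_count d A a σ
      have h4 : R * #((range (n - 1)).filter (fun i => ¬ Good d A a ((stepFwd a)^[i] σ))) ≤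
          R * ((2 * d + 1) * #A + 2) := Nat.mul_le_mul_left _ h3
      omega
  have hsum := Finset.sum_le_sum horb
  rw [Finset.sum_add_distrib, Finset.sum_const, nsmul_eq_mul, ← Finset.mul_sum, ← Finset.mul_sum,
    ← Finset.mul_sum, Finset.sum_sub_distrib, Finset.sum_const, nsmul_eq_mul] at hsum
  -- energy
  have hen : ∑ a ∈ A, ∑ σ, ‖g (stepFwd a σ) - g σ‖ ^ 2 / (ℓ a σ : ℝ) ≤ (1 + 2 * e) * D := by
    have h1 : ∀ a ∈ A, ∀ σ ∈ (Finset.univ : Finset (G n)), ‖g (stepFwd a σ) - g σ‖ ^ 2 / (ℓ a σ : ℝ) ≤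
        (if Good d A a σ then ‖g (stepFwd a σ) - g σ‖ ^ 2 else 0) +
          (1 / R) * ‖g (stepFwd a σ) - g σ‖ ^ 2 := by
      intro a _ σ _
      simp only [ℓ]
      split_ifs with hG
      · have : 0 ≤ (1 / (R : ℝ)) * ‖g (stepFwd a σ) - g σ‖ ^ 2 := by positivity
        simp only [Nat.cast_one, div_one]
        linarith only [this]
      · rw [zero_add, div_eq_mul_inv, mul_comm, one_div]
    have h2 : ∑ a ∈ A, ∑ σ, ‖g (stepFwd a σ) - g σ‖ ^ 2 / (ℓ a σ : ℝ) ≤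
        ∑ a ∈ A, ∑ σ : G n, (if Good d A a σ then ‖g (stepFwd a σ) - g σ‖ ^ 2 else 0) +
          (1 / R) * Etot A g := by
      refine (Finset.sum_le_sum fun a ha => Finset.sum_le_sum (h1 a ha)).trans (le_of_eq ?_)
      simp only [Finset.sum_add_distrib, Etot, Finset.mul_sum]
    have h3 : (1 / (R : ℝ)) * Etot A g ≤ e * D := by
      have : (1 / (R : ℝ)) * Etot A g ≤ (1 / R) * (16 * D) :=
        mul_le_mul_of_nonneg_left hE (by positivity)
      refine this.trans ?_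
      rw [one_div, inv_mul_le_iff₀ hRpos]
      nlinarith only [hD, hRe, hcr, hpi0]
    linarith only [h2, h3, hdiss]
  -- mean
  have hmean : ∑ a ∈ A, nsq (avgO a g) ≤ (#A : ℝ) * (32 * (#A : ℝ) * D + (2 * (#A : ℝ) / n) * nsq g) := by
    have : ∀ a ∈ A, nsq (avgO a g) ≤ 32 * (#A : ℝ) * D + (2 * (#A : ℝ) / n) * nsq g := by
      intro a ha
      have h := mean_bound hn A g hgU a ha
      have h2 : 2 * (#A : ℝ) * Etot A g ≤ 2 * (#A : ℝ) * (16 * D) :=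
        mul_le_mul_of_nonneg_left hE (by (clear * -; positivity))
      linarith only [h, h2]
    refine (Finset.sum_le_sum this).trans (le_of_eq ?_)
    rw [Finset.sum_const, nsmul_eq_mul]
  -- rotation
  have hrot : nsq (fun σ => g ((finRotate n)⁻¹ * σ) - g σ) ≤ 32 * (#A : ℝ) * D := by
    have h := rot_bound hn A g hgF
    have hr0 : 0 ≤ nsq (fun σ => g ((finRotate n)⁻¹ * σ) - g σ) :=
      Finset.sum_nonneg fun _ _ => by positivity
    have h1 : ((n : ℝ) / 2) * nsq (fun σ => g ((finRotate n)⁻¹ * σ) - g σ) ≤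
        (#A : ℝ) * n * (16 * D) := by
      refine (mul_le_mul_of_nonneg_right (by linarith only [hk] : (n : ℝ) / 2 ≤ (n : ℝ) - #A) hr0).trans
        (h.trans ?_)
      have hA0 : (0 : ℝ) ≤ #A := Nat.cast_nonneg _
      have : (#A : ℝ) * ((n : ℝ) - 1) * Etot A g ≤ (#A : ℝ) * n * Etot A g := by
        refine mul_le_mul_of_nonneg_right ?_ hE0
        nlinarith only []
      refine this.trans (mul_le_mul_of_nonneg_left hE (by (clear * - hn; positivity)))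
    have h2 : (n : ℝ) / 2 * nsq (fun σ => g ((finRotate n)⁻¹ * σ) - g σ) ≤
        (n : ℝ) / 2 * (32 * (#A : ℝ) * D) := by
      refine h1.trans (le_of_eq (by ring))
    exact le_of_mul_le_mul_left h2 (by positivity)
  -- put together
  have hk0 : (0 : ℝ) ≤ #A := Nat.cast_nonneg _
  have hA1 : c' * ((n : ℝ) * ((#A : ℝ) * nsq g - ∑ a ∈ A, nsq (avgO a g))) ≤
      ((n : ℝ)) * ((1 + 2 * e) * D) + (#A : ℝ) * ((1 / (Rc : ℝ)) * (32 * (#A : ℝ) * D)) := by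
    have h1 : ((n : ℝ) - 1) * ∑ a ∈ A, ∑ σ, ‖g (stepFwd a σ) - g σ‖ ^ 2 / (ℓ a σ : ℝ) ≤
        (n : ℝ) * ((1 + 2 * e) * D) := by
      have h0 : 0 ≤ ∑ a ∈ A, ∑ σ, ‖g (stepFwd a σ) - g σ‖ ^ 2 / (ℓ a σ : ℝ) :=
        Finset.sum_nonneg fun _ _ => Finset.sum_nonneg fun _ _ => by positivity
      calc ((n : ℝ) - 1) * ∑ a ∈ A, ∑ σ, ‖g (stepFwd a σ) - g σ‖ ^ 2 / (ℓ a σ : ℝ)
          ≤ (n : ℝ) * ∑ a ∈ A, ∑ σ, ‖g (stepFwd a σ) - g σ‖ ^ 2 / (ℓ a σ : ℝ) :=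
            mul_le_mul_of_nonneg_right (by linarith only []) h0
        _ ≤ _ := mul_le_mul_of_nonneg_left hen hn0.le
    have h2 : (#A : ℝ) * ((1 / (Rc : ℝ)) * nsq (fun σ => g ((finRotate n)⁻¹ * σ) - g σ)) ≤
        (#A : ℝ) * ((1 / (Rc : ℝ)) * (32 * (#A : ℝ) * D)) := by
      gcongr
    linarith only [h1, h2, hsum]
  have hA2 : c' * ((n : ℝ) * ((#A : ℝ) * nsq g - (#A : ℝ) * (32 * (#A : ℝ) * D +
      (2 * (#A : ℝ) / n) * nsq g))) ≤ c' * ((n : ℝ) * ((#A : ℝ) * nsq g -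
        ∑ a ∈ A, nsq (avgO a g))) := by
    gcongr
  have hA3 := hA2.trans hA1
  have hA4 : (n : ℝ) * (c' * ((#A : ℝ) * (1 - 2 * #A / n) * nsq g)) ≤
      (n : ℝ) * (((1 + 2 * e) + 32 * (#A : ℝ) ^ 2 / (Rc * n) + 32 * c' * (#A : ℝ) ^ 2) * D) := by
    have e1 : (n : ℝ) * (c' * ((#A : ℝ) * (1 - 2 * #A / n) * nsq g)) =
        c' * ((n : ℝ) * ((#A : ℝ) * nsq g - (#A : ℝ) * (32 * (#A : ℝ) * D +
      (2 * (#A : ℝ) / n) * nsq g))) + (n : ℝ) * (32 * c' * (#A : ℝ) ^ 2 * D) := by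
      field_simp
      ring
    have e2 : (n : ℝ) * (((1 + 2 * e) + 32 * (#A : ℝ) ^ 2 / (Rc * n) + 32 * c' * (#A : ℝ) ^ 2) * D) =
        (n : ℝ) * ((1 + 2 * e) * D) + (#A : ℝ) * ((1 / (Rc : ℝ)) * (32 * (#A : ℝ) * D)) +
          (n : ℝ) * (32 * c' * (#A : ℝ) ^ 2 * D) := by
      field_simp
    rw [e1, e2]
    linarith only [hA1, hA2]
  exact le_of_mul_le_mul_left hA4 hn0

theorem sharp (η : ℝ) (hη : 0 < η) : ∃ ι : ℝ, 0 < ι ∧ ∃ δ : ℝ, 0 < δ ∧ ∃ n₀ : ℕ,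
    ∀ (n : ℕ) [NeZero n], n₀ ≤ n → ∀ b : ℂ, ‖b - 2 / 3‖ ≤ δ → ∀ A : Finset (Fin n), A.Nonempty →
    (#A : ℝ) ≤ ι * n → ∀ f ∈ UA A,
    (1 + (1 - η) * (2 * Real.pi / n) ^ 2 * #A) * nsq (SE b f) ≤ nsq f := by
  classical
  obtain ⟨e, he0, he1, heη⟩ : ∃ e : ℝ, 0 < e ∧ e ≤ 1 / 24 ∧ 24 * e ≤ η := by
    refine ⟨min η 1 / 24, by positivity, ?_, ?_⟩
    · have := min_le_right η 1
      linarith
    · have := min_le_left η 1
      linarith
  obtain ⟨δ₁, hδ₁, d, hdiss⟩ := diss_sharp e he0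
  obtain ⟨R, hRe⟩ : ∃ R : ℕ, 16 / e ≤ R := exists_nat_ge _
  have hR0 : (0 : ℝ) < R := lt_of_lt_of_le (by positivity) hRe
  have hR1 : 1 ≤ R := by
    have : 0 < R := by exact_mod_cast hR0
    omega
  have hRe' : 16 ≤ e * R := by
    rw [div_le_iff₀ he0] at hRe
    linarith
  have hM0 : (0 : ℝ) < R * (2 * d + 1) := by positivity
  have hM1 : (1 : ℝ) ≤ R * (2 * d + 1) := by
    have h1 : (1 : ℝ) ≤ R := by exact_mod_cast hR1
    have h2 : (0 : ℝ) ≤ d := Nat.cast_nonneg d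
    nlinarith only [h1]
  obtain ⟨n₁, hn₁⟩ : ∃ n₁ : ℕ, (2 * R + 2) / e ≤ (n₁ : ℝ) := exists_nat_ge _
  obtain ⟨n₂, hn₂⟩ : ∃ n₂ : ℕ, 40 / e ≤ (n₂ : ℝ) := exists_nat_ge _
  refine ⟨e / (36 * (R * (2 * d + 1))), by positivity, min δ₁ (1 / 10), by positivity,
    max (max n₁ n₂) (d + 3), ?_⟩
  intro n _ hn b hb A hAne hA f hf
  have hnd : d + 3 ≤ n := le_trans (le_max_right _ _) hn
  have hn3 : 3 ≤ n := by omega
  have hnn1 : n₁ ≤ n := le_trans (le_trans (le_max_left _ _) (le_max_left _ _)) hn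
  have hnn2 : n₂ ≤ n := le_trans (le_trans (le_max_right _ _) (le_max_left _ _)) hn
  have hn0 : (0 : ℝ) < n := by exact_mod_cast (by omega : 0 < n)
  have hne1 : 2 * R + 2 ≤ e * n := by
    rw [div_le_iff₀ he0] at hn₁
    have : (n₁ : ℝ) ≤ n := by exact_mod_cast hnn1
    nlinarith only [he0, hn₁, this]
  have hne2 : 40 ≤ e * n := by
    rw [div_le_iff₀ he0] at hn₂
    have : (n₂ : ℝ) ≤ n := by exact_mod_cast hnn2
    nlinarith only [hRe', he0, he1, hne1]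
  have hb1 : ‖b - 2 / 3‖ ≤ δ₁ := hb.trans (min_le_left _ _)
  have hb2 : ‖b - 2 / 3‖ ≤ 1 / 10 := hb.trans (min_le_right _ _)
  obtain ⟨k, hk⟩ : ∃ k : ℝ, k = (#A : ℝ) := ⟨_, rfl⟩
  have hk1 : 1 ≤ k := by
    rw [hk]
    exact_mod_cast hAne.card_pos
  rw [← hk] at hA ⊢
  -- smallness of k
  have hkM : k * (36 * (R * (2 * d + 1))) ≤ e * n := by
    rw [div_mul_eq_mul_div, le_div_iff₀ (by positivity)] at hA
    exact hA
  have hk36 : 36 * k ≤ e * n := by nlinarith only [hM0, hM1, hk, hkM]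
  have hk2 : 2 * (#A : ℝ) ≤ n := by
    rw [← hk]; nlinarith only [hRe', he0, he1, hk36, hne1]
  obtain ⟨g, hgdef⟩ : ∃ g, g = SE b f := ⟨_, rfl⟩
  have hg0 : 0 ≤ nsq g := Finset.sum_nonneg fun _ _ => by positivity
  have hdA := hdiss n hnd b hb1 A f hf.1
  let Rc : ℕ := ⌈e * n⌉₊
  have hRc1 : e * n ≤ (Rc : ℝ) := Nat.le_ceil _
  have hRc2 : (Rc : ℝ) ≤ e * n + 1 := (Nat.ceil_lt_add_one (by positivity)).le
  have hRcpos : 1 ≤ Rc := by
    have : (0 : ℝ) < Rc := by linarith only [hRc1, he0, he1, hne2]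
    have : 0 < Rc := by exact_mod_cast this
    omega
  let N' : ℕ := n + R * ((2 * d + 1) * #A + 2) + Rc
  have hbasic := sharp_basic hn3 b hb2 e he0 d R hR1 hRe' A f hf hk2 hdA Rc hRcpos N' le_rfl
  have hcr := diss_crude hn3 b hb2 f
  have hpi0 : 0 ≤ ∑ j : Fin n, nsq (piE j (SE b f)) :=
    Finset.sum_nonneg fun j _ => Finset.sum_nonneg fun _ _ => by positivity
  rw [← hgdef, ← hk] at hbasic
  rw [← hgdef] at hcr hpi0 ⊢
  obtain ⟨D, hD⟩ : ∃ D, D = nsq f - nsq g := ⟨_, rfl⟩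
  have hD0 : 0 ≤ D := by rw [hD]; linarith only [hcr, hpi0]
  rw [← hD] at hbasic
  have hN'le : (N' : ℝ) ≤ n * (1 + 3 * e) := by
    have h1 : (N' : ℝ) = n + R * ((2 * d + 1) * k + 2) + Rc := by
      simp only [N', hk]
      push_cast
      ring
    rw [h1]
    nlinarith only [hRc2, he0, he1, hkM, hne1, hne2]
  have hN'ge : (n : ℝ) ≤ N' := by
    have : n ≤ N' := by simp only [N']; omega
    exact_mod_cast this
  have hN'pos : (0 : ℝ) < N' := by linarith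
  obtain ⟨x, hx⟩ : ∃ x, x = 2 * Real.pi / N' := ⟨_, rfl⟩
  obtain ⟨κ, hκ⟩ : ∃ κ, κ = 2 * Real.pi / n := ⟨_, rfl⟩
  rw [← hx] at hbasic
  have hpi3 := Real.pi_gt_three
  have hpi4 := Real.pi_lt_d2
  have hκ0 : 0 < κ := by rw [hκ]; positivity
  have hx0 : 0 < x := by rw [hx]; (clear * - hA hAne hD hD0 hR1 hbasic hcr he0 hg0 hgdef hk hk1 hk36 hkM hn3 hpi0 hx hκ hκ0; positivity)
  have hxκ : x ≤ κ := by
    rw [hx, hκ]
    exact div_le_div_of_nonneg_left (by positivity) hn0 hN'ge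
  have hκn : κ * n = 2 * Real.pi := by
    rw [hκ]; field_simp
  have hκe : κ ^ 2 ≤ e := by
    -- κ ≤ 7/n, and 40 ≤ e n, n ≥ 40
    have h1 : κ ≤ e / 5 := by
      have : κ * 40 ≤ κ * (e * n) := mul_le_mul_of_nonneg_left hne2 hκ0.le
      have h2 : κ * (e * n) = e * (2 * Real.pi) := by rw [← hκn]; ring
      nlinarith only [hRe', he0, he1, hne1, hpi4, hκn]
    nlinarith only [h1, hM1, hRe', he0, he1, hk, hk1, hk2, hkM, hpi3, hpi4, hκ0, hκn]
  have hx1 : |x| ≤ 1 := by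
    rw [abs_of_pos hx0]
    nlinarith only [hRe', he0, he1, hne1, hpi4, hxκ, hκn]
  have hc_ge := two_sub_cos_ge x hx1
  have hc_le := two_sub_cos_le x
  obtain ⟨c', hc'⟩ : ∃ c', c' = 2 - 2 * Real.cos x := ⟨_, rfl⟩
  rw [← hc'] at hbasic hc_ge hc_le
  have hx2 : x ^ 2 ≤ κ ^ 2 := by
    apply pow_le_pow_left₀ hx0.le hxκ
  have hc'ge : x ^ 2 * (1 - e) ≤ c' := by nlinarith only [hc_ge, hx2, hκe, sq_nonneg x]
  -- κ ≤ (1+3e) x
  have hκx : κ ≤ (1 + 3 * e) * x := by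
    rw [hκ, hx, mul_div_assoc', le_div_iff₀ hN'pos, div_mul_eq_mul_div, div_le_iff₀ hn0]
    nlinarith only [hN'le, he0, he1, hpi3]
  have hκx2 : κ ^ 2 ≤ (1 + 3 * e) ^ 2 * x ^ 2 := by
    rw [← mul_pow]
    exact pow_le_pow_left₀ hκ0.le hκx 2
  -- the bracket
  have hbr : (1 + 2 * e) + 32 * k ^ 2 / (Rc * n) + 32 * c' * k ^ 2 ≤ 1 + 4 * e := by
    have h1 : 32 * k ^ 2 / (Rc * n) ≤ e := by
      rw [div_le_iff₀ (by positivity)]
      have : e * (e * n * n) ≤ e * (Rc * n) := by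
        apply mul_le_mul_of_nonneg_left _ he0.le
        exact mul_le_mul_of_nonneg_right hRc1 hn0.le
      have h36 : (36 * k) ^ 2 ≤ (e * n) ^ 2 := pow_le_pow_left₀ (by positivity) hk36 2
      nlinarith only [h36, this]
    have h2 : 32 * c' * k ^ 2 ≤ e := by
      have h3 : c' * k ^ 2 ≤ κ ^ 2 * k ^ 2 :=
        mul_le_mul_of_nonneg_right (hc_le.trans hx2) (by positivity)
      have h4 : κ * (36 * k) ≤ e * (2 * Real.pi) := by
        have : κ * (36 * k) ≤ κ * (e * n) := mul_le_mul_of_nonneg_left hk36 hκ0.le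
        have h5 : κ * (e * n) = e * (2 * Real.pi) := by rw [← hκn]; ring
        linarith only [h5, this]
      have h6 : κ * k ≤ e / 5 := by nlinarith only [h4, he0, he1, hpi4]
      have h7 : (κ * k) ^ 2 ≤ (e / 5) ^ 2 := pow_le_pow_left₀ (by positivity) h6 2
      nlinarith only [h3, h7, hRc1, hRc2, hRe', he0, he1, hne1]
    linarith only [h1, h2]
  have hkn : 2 * k / n ≤ e := by
    rw [div_le_iff₀ hn0]
    nlinarith only [he0, he1, hk36, hne2]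
  have hL : x ^ 2 * (1 - e) * (k * (1 - e) * nsq g) ≤ c' * (k * (1 - 2 * k / n) * nsq g) := by
    have h1 : k * (1 - e) * nsq g ≤ k * (1 - 2 * k / n) * nsq g := by
      apply mul_le_mul_of_nonneg_right _ hg0
      apply mul_le_mul_of_nonneg_left _ (by linarith only [he0, he1, hk1])
      linarith only [hkn]
    have h0 : 0 ≤ k * (1 - e) * nsq g := by
      have : 0 ≤ 1 - e := by linarith only [he0, he1]
      (clear * - hg0 hk1 this; positivity)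
    have hx2' : 0 ≤ x ^ 2 * (1 - e) := by
      have : 0 ≤ 1 - e := by linarith only [he0, he1]
      positivity
    exact mul_le_mul hc'ge h1 h0 (hx2'.trans hc'ge)
  have hmain : x ^ 2 * (1 - e) * (k * (1 - e) * nsq g) ≤ (1 + 4 * e) * D :=
    hL.trans (hbasic.trans (mul_le_mul_of_nonneg_right hbr hD0))
  -- conclusion
  have hgoal : (1 - η) * κ ^ 2 * k * nsq g ≤ D := by
    by_cases hη1 : 1 ≤ η
    · have : (1 - η) * κ ^ 2 * k * nsq g ≤ 0 := by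
        have h1 : 0 ≤ κ ^ 2 * k * nsq g := by (clear * - hg0 hk1 hκ0; positivity)
        nlinarith only [h1, he0, he1, hη1]
      linarith only [hD, hcr, hpi0, this]
    · push Not at hη1
      have h1 : (1 - η) * (1 + 4 * e) * (1 + 3 * e) ^ 2 ≤ (1 - e) ^ 2 := by
        have h2 : (1 + 4 * e) * (1 + 3 * e) ^ 2 ≤ 1 + 12 * e := by nlinarith only [he0, he1, sq_nonneg e]
        have h3 : (1 - η) * ((1 + 4 * e) * (1 + 3 * e) ^ 2) ≤ (1 - η) * (1 + 12 * e) :=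
          mul_le_mul_of_nonneg_left h2 (by linarith only [hη1])
        nlinarith only [h3, hRc1, hRc2, hRe', he0, heη, hne1, hη, hη1]
      have h4 : (1 + 4 * e) * ((1 - η) * κ ^ 2 * k * nsq g) ≤
          (1 + 4 * e) * ((1 - η) * ((1 + 3 * e) ^ 2 * x ^ 2) * k * nsq g) := by
        have : 0 ≤ 1 - η := by linarith only [hη1]
        gcongr
      have h5 : (1 + 4 * e) * ((1 - η) * ((1 + 3 * e) ^ 2 * x ^ 2) * k * nsq g) =
          ((1 - η) * (1 + 4 * e) * (1 + 3 * e) ^ 2) * (x ^ 2 * k * nsq g) := by ring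
      have h6 : ((1 - η) * (1 + 4 * e) * (1 + 3 * e) ^ 2) * (x ^ 2 * k * nsq g) ≤
          (1 - e) ^ 2 * (x ^ 2 * k * nsq g) := by
        apply mul_le_mul_of_nonneg_right h1
        (clear * - hg0 hk1 hx0; positivity)
      have h7 : (1 - e) ^ 2 * (x ^ 2 * k * nsq g) = x ^ 2 * (1 - e) * (k * (1 - e) * nsq g) := by ring
      have h8 : (1 + 4 * e) * ((1 - η) * κ ^ 2 * k * nsq g) ≤ (1 + 4 * e) * D := by linarith only [h4, h6, hmain]
      exact le_of_mul_le_mul_left h8 (by positivity)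
  rw [← hκ]
  have : (1 + (1 - η) * κ ^ 2 * k) * nsq g = nsq g + (1 - η) * κ ^ 2 * k * nsq g := by ring
  rw [this]
  linarith only [hD, hgoal]

end Pool.Agent.Lib.MP_cad76e_pr
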