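import Pool.Agent.Lib.MP_cad76e_pr.Defs

/-! Module SM1a: block decomposition of `FA A` and dimension bound for `UB L A α B`. -/

set_option autoImplicit false

namespace Pool.Agent.Lib.MP_cad76e_pr

open Finset

/-! ### Dimension bound -/

theorem UB_le_FB {n r : ℕ} (L : ℕ) (A : Finset (Fin n)) (α : ↥A → Fin r)
    (B : Finset (Fin n)) : UB L A α B ≤ FB L A α B := fun _ hf => hf.1

open Classical in
/-- restriction of a function to the positions of the cards of `B` inside their blocks -/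
noncomputable def sm1aRes {n r : ℕ} (L : ℕ) (A : Finset (Fin n)) (α : ↥A → Fin r)
    (B : Finset (Fin n)) : (G n → ℂ) →ₗ[ℂ] ((↥B → Fin L) → ℂ) where
  toFun f := fun q =>
    if h : ∃ σ : G n, (∀ a : ↥A, blk L (σ a) = (α a : ℕ)) ∧ ∀ b : ↥B, (σ b : ℕ) % L = q b
    then f h.choose else 0
  map_add' f g := by
    funext q
    simp only [Pi.add_apply]
    split_ifs <;> simp
  map_smul' c f := by
    funext q
    simp only [Pi.smul_apply, RingHom.id_apply]
    split_ifs <;> simp

theorem sm1aRes_inj {n r : ℕ} (L : ℕ) (hL : 1 ≤ L) (A : Finset (Fin n)) (α : ↥A → Fin r)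
    (B : Finset (Fin n)) (hB : B ⊆ A) (f : G n → ℂ) (hf : f ∈ FB L A α B)
    (h0 : sm1aRes L A α B f = 0) : f = 0 := by
  classical
  funext σ
  by_cases hσ : ∀ a : ↥A, blk L (σ a) = (α a : ℕ)
  · let q : ↥B → Fin L := fun b => ⟨(σ b : ℕ) % L, Nat.mod_lt _ hL⟩
    have hex : ∃ σ : G n, (∀ a : ↥A, blk L (σ a) = (α a : ℕ)) ∧
        ∀ b : ↥B, (σ b : ℕ) % L = q b := ⟨σ, hσ, fun b => rfl⟩
    have h1 := congrFun h0 q
    simp only [sm1aRes, LinearMap.coe_mk, AddHom.coe_mk, Pi.zero_apply] at h1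
    rw [dif_pos hex] at h1
    have h2 := hex.choose_spec
    have h3 : f σ = f hex.choose := by
      refine hf.2 σ hex.choose hσ h2.1 ?_
      intro b hb
      apply Fin.ext
      have h4 := h2.2 ⟨b, hb⟩
      have h5 := h2.1 ⟨b, hB hb⟩
      have h6 := hσ ⟨b, hB hb⟩
      simp only [blk] at h5 h6
      have h7 : (σ b : ℕ) % L = ((hex.choose b : Fin n) : ℕ) % L := h4.symm
      have h8 : (σ b : ℕ) / L = ((hex.choose b : Fin n) : ℕ) / L := h6.trans h5.symm
      rw [← Nat.div_add_mod (σ b : ℕ) L, ← Nat.div_add_mod ((hex.choose b : Fin n) : ℕ) L, h7, h8]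
    rw [h3, h1]
    rfl
  · rw [hf.1 σ hσ]
    rfl

theorem finrank_UB {n r : ℕ} (L : ℕ) (hL : 1 ≤ L) (A : Finset (Fin n)) (α : ↥A → Fin r)
    (B : Finset (Fin n)) (hB : B ⊆ A) : Module.finrank ℂ (UB L A α B) ≤ L ^ #B := by
  classical
  have hinj : Function.Injective ((sm1aRes L A α B).domRestrict (UB L A α B)) := by
    intro f g hfg
    have h1 : sm1aRes L A α B ((f : G n → ℂ) - g) = 0 := by
      rw [map_sub, sub_eq_zero]
      exact hfg
    have h2 := sm1aRes_inj L hL A α B hB _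
      ((FB L A α B).sub_mem (UB_le_FB L A α B f.2) (UB_le_FB L A α B g.2)) h1
    exact Subtype.ext (sub_eq_zero.mp h2)
  have h := LinearMap.finrank_le_finrank_of_injective hinj
  rw [Module.finrank_fintype_fun_eq_card] at h
  simpa using h

/-! ### Orthogonal decomposition -/

theorem sm1a_orth {ι : Type*} [Fintype ι] (W : Submodule ℂ (ι → ℂ)) (f : ι → ℂ) :
    ∃ w ∈ W, ∀ g ∈ W, ip g (f - w) = 0 := by
  classical
  let e := (WithLp.linearEquiv 2 ℂ (ι → ℂ))
  let W' : Submodule ℂ (EuclideanSpace ℂ ι) := W.map e.symm.toLinearMap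
  have h1 := Submodule.starProjection_apply_mem W' (e.symm f)
  obtain ⟨w, hw, hw'⟩ := h1
  refine ⟨w, hw, fun g hg => ?_⟩
  have h2 := Submodule.sub_starProjection_mem_orthogonal (K := W') (e.symm f)
  rw [Submodule.mem_orthogonal] at h2
  have h3 := h2 (e.symm g) ⟨g, hg, rfl⟩
  rw [← hw'] at h3
  rw [PiLp.inner_apply] at h3
  rw [ip, ← h3]
  refine Finset.sum_congr rfl fun x _ => ?_
  simp [e, mul_comm]

/-! ### The marginal operator -/

/-- the marginal sum over the card `b` within its block -/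
noncomputable def sm1aM {n : ℕ} (L : ℕ) (B : Finset (Fin n)) (b : Fin n) (f : G n → ℂ) :
    G n → ℂ := fun σ =>
  ∑ c ∈ (B.erase b)ᶜ.filter (fun c => blk L (σ c) = blk L (σ b)), f (σ * Equiv.swap b c)

theorem sm1a_blk_swap {n : ℕ} (L : ℕ) (σ : G n) (b c : Fin n)
    (h : blk L (σ c) = blk L (σ b)) (x : Fin n) :
    blk L ((σ * Equiv.swap b c) x) = blk L (σ x) := by
  rw [Equiv.Perm.mul_apply]
  by_cases h1 : x = b
  · subst h1
    rw [Equiv.swap_apply_left, h]
  by_cases h2 : x = c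
  · subst h2
    rw [Equiv.swap_apply_right, h]
  rw [Equiv.swap_apply_of_ne_of_ne h1 h2]

theorem sm1aM_mem {n r : ℕ} (L : ℕ) (A : Finset (Fin n)) (α : ↥A → Fin r)
    (B : Finset (Fin n)) (hB : B ⊆ A) (b : Fin n) (hb : b ∈ B) (f : G n → ℂ)
    (hf : f ∈ FB L A α B) : sm1aM L B b f ∈ FB L A α (B.erase b) := by
  refine ⟨fun σ hσ => ?_, fun σ σ' hσ hσ' hag => ?_⟩
  · unfold sm1aM
    refine Finset.sum_eq_zero fun c hc => ?_
    rw [Finset.mem_filter] at hc
    refine hf.1 _ fun h => hσ fun a => ?_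
    rw [← h a, sm1a_blk_swap L σ b c hc.2]
  · unfold sm1aM
    have hbb : blk L (σ b) = blk L (σ' b) := by
      rw [hσ ⟨b, hB hb⟩, hσ' ⟨b, hB hb⟩]
    refine Finset.sum_bij (fun c _ => σ'.symm (σ c)) ?_ ?_ ?_ ?_
    · intro c hc
      rw [Finset.mem_filter, Finset.mem_compl] at hc ⊢
      refine ⟨fun h => hc.1 ?_, ?_⟩
      · have h1 := hag _ h
        rw [Equiv.apply_symm_apply] at h1
        have h2 := σ.injective h1
        rw [← h2]
        exact h
      · rw [Equiv.apply_symm_apply, hc.2, hbb]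
    · intro c _ c' _ h
      exact σ.injective (σ'.symm.injective h)
    · intro c hc
      refine ⟨σ.symm (σ' c), ?_, by simp⟩
      rw [Finset.mem_filter, Finset.mem_compl] at hc ⊢
      refine ⟨fun h => hc.1 ?_, ?_⟩
      · have h1 := hag _ h
        rw [Equiv.apply_symm_apply] at h1
        have h2 := σ'.injective h1
        rw [h2]
        exact h
      · rw [Equiv.apply_symm_apply, hc.2, hbb]
    · intro c hc
      rw [Finset.mem_filter, Finset.mem_compl] at hc
      have hc2 : blk L (σ' (σ'.symm (σ c))) = blk L (σ' b) := by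
        rw [Equiv.apply_symm_apply, hc.2, hbb]
      refine hf.2 _ _ (fun a => ?_) (fun a => ?_) (fun x hx => ?_)
      · rw [sm1a_blk_swap L σ b c hc.2, hσ a]
      · rw [sm1a_blk_swap L σ' b _ hc2, hσ' a]
      · by_cases hxb : x = b
        · subst hxb
          simp
        · have hxB : x ∈ B.erase b := Finset.mem_erase.mpr ⟨hxb, hx⟩
          have hxc : x ≠ c := fun h => hc.1 (h ▸ hxB)
          have hxc' : x ≠ σ'.symm (σ c) := by
            intro h
            have h1 := hag x hxB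
            rw [h, Equiv.apply_symm_apply] at h1
            rw [← h] at h1
            exact hxc (σ.injective h1)
          rw [Equiv.Perm.mul_apply, Equiv.Perm.mul_apply, Equiv.swap_apply_of_ne_of_ne hxb hxc,
            Equiv.swap_apply_of_ne_of_ne hxb hxc']
          exact hag x hxB

open Classical in
/-- the number of admissible exchanges (the marginal sum of the constant `1`) -/
noncomputable def sm1aN {n : ℕ} (L : ℕ) (B : Finset (Fin n)) (b : Fin n) : G n → ℂ := fun σ =>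
  ∑ _c ∈ (B.erase b)ᶜ.filter (fun c => blk L (σ c) = blk L (σ b)), (1 : ℂ)

theorem sm1aN_mul_mem {n r : ℕ} (L : ℕ) (A : Finset (Fin n)) (α : ↥A → Fin r)
    (B : Finset (Fin n)) (hB : B ⊆ A) (b : Fin n) (hb : b ∈ B) (g : G n → ℂ)
    (hg : g ∈ FB L A α (B.erase b)) :
    (fun σ => sm1aN L B b σ * g σ) ∈ FB L A α (B.erase b) := by
  refine ⟨fun σ hσ => ?_, fun σ σ' hσ hσ' hag => ?_⟩
  · simp only
    rw [hg.1 σ hσ, mul_zero]
  · simp only
    rw [hg.2 σ σ' hσ hσ' hag]
    congr 1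
    unfold sm1aN
    have hbb : blk L (σ b) = blk L (σ' b) := by
      rw [hσ ⟨b, hB hb⟩, hσ' ⟨b, hB hb⟩]
    refine Finset.sum_bij (fun c _ => σ'.symm (σ c)) ?_ ?_ ?_ ?_
    · intro c hc
      rw [Finset.mem_filter, Finset.mem_compl] at hc ⊢
      refine ⟨fun h => hc.1 ?_, ?_⟩
      · have h1 := hag _ h
        rw [Equiv.apply_symm_apply] at h1
        have h2 := σ.injective h1
        rw [← h2]
        exact h
      · rw [Equiv.apply_symm_apply, hc.2, hbb]
    · intro c _ c' _ h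
      exact σ.injective (σ'.symm.injective h)
    · intro c hc
      refine ⟨σ.symm (σ' c), ?_, by simp⟩
      rw [Finset.mem_filter, Finset.mem_compl] at hc ⊢
      refine ⟨fun h => hc.1 ?_, ?_⟩
      · have h1 := hag _ h
        rw [Equiv.apply_symm_apply] at h1
        have h2 := σ'.injective h1
        rw [h2]
        exact h
      · rw [Equiv.apply_symm_apply, hc.2, hbb]
    · intro c _
      rfl

/-- functions in `FB (B \ b)` do not see an admissible exchange of the card `b` -/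
theorem sm1a_inv {n r : ℕ} (L : ℕ) (A : Finset (Fin n)) (α : ↥A → Fin r)
    (B : Finset (Fin n)) (b : Fin n) (g : G n → ℂ)
    (hg : g ∈ FB L A α (B.erase b)) (σ : G n) (c : Fin n) (hc : c ∉ B.erase b)
    (hblk : blk L (σ c) = blk L (σ b)) : g (σ * Equiv.swap b c) = g σ := by
  by_cases hσ : ∀ a : ↥A, blk L (σ a) = (α a : ℕ)
  · refine hg.2 _ _ (fun a => ?_) hσ (fun x hx => ?_)
    · rw [sm1a_blk_swap L σ b c hblk, hσ a]
    · have h1 : x ≠ b := Finset.ne_of_mem_erase hx
      have h2 : x ≠ c := fun h => hc (h ▸ hx)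
      rw [Equiv.Perm.mul_apply, Equiv.swap_apply_of_ne_of_ne h1 h2]
  · rw [hg.1 σ hσ]
    refine hg.1 _ fun h => hσ fun a => ?_
    rw [← h a, sm1a_blk_swap L σ b c hblk]

theorem sm1a_ip_M {n r : ℕ} (L : ℕ) (A : Finset (Fin n)) (α : ↥A → Fin r)
    (B : Finset (Fin n)) (b : Fin n) (g f : G n → ℂ)
    (hg : g ∈ FB L A α (B.erase b)) :
    ip g (sm1aM L B b f) = ip (fun σ => sm1aN L B b σ * g σ) f := by
  classical
  have h1 : ip g (sm1aM L B b f) = ∑ c ∈ (B.erase b)ᶜ, ∑ σ : G n,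
      (if blk L (σ c) = blk L (σ b) then (starRingEnd ℂ) (g σ) * f (σ * Equiv.swap b c) else 0) := by
    unfold ip sm1aM
    rw [Finset.sum_comm]
    refine Finset.sum_congr rfl fun σ _ => ?_
    rw [Finset.mul_sum, Finset.sum_filter]
  have h2 : ip (fun σ => sm1aN L B b σ * g σ) f = ∑ c ∈ (B.erase b)ᶜ, ∑ σ : G n,
      (if blk L (σ c) = blk L (σ b) then (starRingEnd ℂ) (g σ) * f σ else 0) := by
    unfold ip sm1aN
    rw [Finset.sum_comm]
    refine Finset.sum_congr rfl fun σ _ => ?_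
    rw [map_mul, map_sum, Finset.sum_mul, Finset.sum_mul, Finset.sum_filter]
    refine Finset.sum_congr rfl fun c _ => ?_
    split_ifs <;> simp
  rw [h1, h2]
  refine Finset.sum_congr rfl fun c hc => ?_
  rw [Finset.mem_compl] at hc
  refine Fintype.sum_equiv (Equiv.mulRight (Equiv.swap b c)) _ _ fun σ => ?_
  change _ = (if blk L ((σ * Equiv.swap b c) c) = blk L ((σ * Equiv.swap b c) b) then
    (starRingEnd ℂ) (g (σ * Equiv.swap b c)) * f (σ * Equiv.swap b c) else 0)
  have e1 : (σ * Equiv.swap b c) c = σ b := by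
    rw [Equiv.Perm.mul_apply, Equiv.swap_apply_right]
  have e2 : (σ * Equiv.swap b c) b = σ c := by
    rw [Equiv.Perm.mul_apply, Equiv.swap_apply_left]
  rw [e1, e2]
  by_cases h : blk L (σ c) = blk L (σ b)
  · rw [if_pos h, if_pos h.symm, sm1a_inv L A α B b g hg σ c hc h]
  · rw [if_neg h, if_neg (fun h' => h h'.symm)]

theorem sm1a_ip_self {ι : Type*} [Fintype ι] (f : ι → ℂ) (h : ip f f = 0) : f = 0 := by
  have h1 : ip f f = ((∑ x, ‖f x‖ ^ 2 : ℝ) : ℂ) := by
    unfold ip
    push_cast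
    refine Finset.sum_congr rfl fun x _ => ?_
    rw [mul_comm, Complex.mul_conj, Complex.normSq_eq_norm_sq]
    push_cast
    rfl
  rw [h1] at h
  have h2 : (∑ x, ‖f x‖ ^ 2 : ℝ) = 0 := by exact_mod_cast h
  rw [Finset.sum_eq_zero_iff_of_nonneg (fun x _ => by positivity)] at h2
  funext x
  have h3 := h2 x (Finset.mem_univ x)
  rw [Pi.zero_apply, ← norm_eq_zero]
  exact pow_eq_zero_iff (two_ne_zero) |>.mp h3

/-- one step of the decomposition -/
theorem sm1a_step {n r : ℕ} (L : ℕ) (A : Finset (Fin n)) (α : ↥A → Fin r)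
    (B : Finset (Fin n)) (hB : B ⊆ A) :
    FB L A α B ≤ UB L A α B ⊔ ⨆ b : ↥B, FB L A α (B.erase b) := by
  classical
  intro f hf
  set W : Submodule ℂ (G n → ℂ) := ⨆ b : ↥B, FB L A α (B.erase b) with hWdef
  have hWB : W ≤ FB L A α B := by
    refine iSup_le fun b => ?_
    intro g hg
    exact ⟨hg.1, fun σ σ' h h' hag => hg.2 σ σ' h h' fun x hx => hag x (Finset.mem_of_mem_erase hx)⟩
  obtain ⟨w, hw, hort⟩ := sm1a_orth W f
  have hu : f - w ∈ FB L A α B := (FB L A α B).sub_mem hf (hWB hw)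
  have hU : f - w ∈ UB L A α B := by
    refine ⟨hu, fun b hb σ => ?_⟩
    have h1 := sm1aM_mem L A α B hB b hb (f - w) hu
    have h2 : ip (sm1aM L B b (f - w)) (sm1aM L B b (f - w)) = 0 := by
      rw [sm1a_ip_M L A α B b _ _ h1]
      refine hort _ ?_
      exact (le_iSup (fun b : ↥B => FB L A α (B.erase b)) ⟨b, hb⟩)
        (sm1aN_mul_mem L A α B hB b hb _ h1)
    have h3 := sm1a_ip_self _ h2
    exact congrFun h3 σ
  have : f = (f - w) + w := by abel
  rw [this]
  exact Submodule.add_mem_sup hU hw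

theorem sm1a_FB_le {n r : ℕ} (L : ℕ) (A : Finset (Fin n)) (α : ↥A → Fin r) (N : ℕ) :
    ∀ B : Finset (Fin n), #B = N → B ⊆ A →
    FB L A α B ≤ ⨆ k : (↥A → Fin r) × ↥A.powerset, UB L A k.1 (k.2 : Finset (Fin n)) := by
  classical
  induction N with
  | zero =>
    intro B hBN hB
    refine (sm1a_step L A α B hB).trans (sup_le ?_ ?_)
    · exact le_iSup (fun k : (↥A → Fin r) × ↥A.powerset => UB L A k.1 (k.2 : Finset (Fin n)))
        (α, ⟨B, Finset.mem_powerset.mpr hB⟩)
    · refine iSup_le fun b => ?_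
      exfalso
      have := Finset.card_pos.mpr ⟨_, b.2⟩
      omega
  | succ N ih =>
    intro B hBN hB
    refine (sm1a_step L A α B hB).trans (sup_le ?_ ?_)
    · exact le_iSup (fun k : (↥A → Fin r) × ↥A.powerset => UB L A k.1 (k.2 : Finset (Fin n)))
        (α, ⟨B, Finset.mem_powerset.mpr hB⟩)
    · refine iSup_le fun b => ?_
      refine ih _ ?_ ((Finset.erase_subset _ _).trans hB)
      rw [Finset.card_erase_of_mem b.2, hBN]
      rfl

theorem FA_le_iSup_UB {n r : ℕ} (L : ℕ) (hL : 1 ≤ L) (hr : n ≤ r * L) (A : Finset (Fin n)) :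
    FA A ≤ ⨆ k : (↥A → Fin r) × ↥A.powerset, UB L A k.1 (k.2 : Finset (Fin n)) := by
  classical
  intro f hf
  have hblk : ∀ p : Fin n, blk L p < r := by
    intro p
    unfold blk
    rw [Nat.div_lt_iff_lt_mul (by omega)]
    exact lt_of_lt_of_le p.2 hr
  have hdec : f = ∑ α : ↥A → Fin r, (fun σ : G n =>
      if (∀ a : ↥A, blk L (σ a) = (α a : ℕ)) then f σ else 0) := by
    funext σ
    rw [Finset.sum_apply]
    let α₀ : ↥A → Fin r := fun a => ⟨blk L (σ a), hblk _⟩
    rw [Finset.sum_eq_single α₀]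
    · rw [if_pos (fun a => rfl)]
    · intro α _ hne
      rw [if_neg]
      intro h
      apply hne
      funext a
      apply Fin.ext
      exact (h a).symm
    · intro h
      exact absurd (Finset.mem_univ _) h
  rw [hdec]
  refine Submodule.sum_mem _ fun α _ => ?_
  refine sm1a_FB_le L A α _ A rfl (Finset.Subset.refl A) ?_
  refine ⟨fun σ hσ => if_neg hσ, fun σ σ' hσ hσ' hag => ?_⟩
  simp only
  rw [if_pos hσ, if_pos hσ', hf σ σ' hag]

end Pool.Agent.Lib.MP_cad76e_pr
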