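import Pool.Agent.Lib.MP_cad76e_pr.GB

/-! Module SM1b: the operator `H0` (invariance, adjoint, positivity). -/

set_option autoImplicit false

namespace Pool.Agent.Lib.MP_cad76e_pr

open Finset Filter Topology

theorem H0_apply {n : ℕ} [NeZero n] (L : ℕ) (f : G n → ℂ) :
    H0 L f = (1 / 4 : ℂ) • ∑ j ∈ Finset.univ.filter (fun j : Fin n => (j : ℕ) + 1 < n ∧
      blk L j = ((j : ℕ) + 1) / L), piE j f := by
  simp only [H0, LinearMap.smul_apply, LinearMap.sum_apply]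

theorem H0_mem_FA {n : ℕ} [NeZero n] (L : ℕ) (A : Finset (Fin n)) (f : G n → ℂ)
    (hf : f ∈ FA A) : H0 L f ∈ FA A := by
  rw [H0_apply]
  exact (FA A).smul_mem _ ((FA A).sum_mem (fun j _ =>
    piE_mem j (FA A) (fun g f hf => Lg_FA A g f hf) f hf))

theorem blk_sj {n : ℕ} [NeZero n] (L : ℕ) (j : Fin n) (hj : (j : ℕ) + 1 < n)
    (hb : blk L j = ((j : ℕ) + 1) / L) (p : Fin n) : blk L ((sj j)⁻¹ p) = blk L p := by
  have h1 : ((j + 1 : Fin n) : ℕ) = (j : ℕ) + 1 := by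
    have hn : 1 < n := by omega
    have h0 : ((1 : Fin n) : ℕ) = 1 % n := rfl
    rw [Fin.val_add, h0, Nat.mod_eq_of_lt hn, Nat.mod_eq_of_lt hj]
  have h2 : blk L (j + 1) = blk L j := by
    rw [hb]
    unfold blk
    rw [h1]
  have h3 : (sj j)⁻¹ = sj j := by
    unfold sj
    exact Equiv.swap_inv _ _
  rw [h3]
  unfold sj
  by_cases hp : p = j
  · subst hp
    rw [Equiv.swap_apply_left, h2]
  · by_cases hp' : p = j + 1
    · subst hp'
      rw [Equiv.swap_apply_right, h2]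
    · rw [Equiv.swap_apply_of_ne_of_ne hp hp']

theorem Lg_mem_UB {n r : ℕ} (L : ℕ) (A : Finset (Fin n)) (α : ↥A → Fin r)
    (B : Finset (Fin n)) (s : G n) (hs : ∀ p : Fin n, blk L (s⁻¹ p) = blk L p)
    (f : G n → ℂ) (hf : f ∈ UB L A α B) : Lg s f ∈ UB L A α B := by
  obtain ⟨⟨h1, h2⟩, h3⟩ := hf
  have hb : ∀ (σ : G n) (a : Fin n), blk L ((s⁻¹ * σ) a) = blk L (σ a) := by
    intro σ a
    rw [Equiv.Perm.mul_apply, hs]
  refine ⟨⟨fun σ h => ?_, fun σ σ' h h' h'' => ?_⟩, fun b hb' σ => ?_⟩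
  · show f (s⁻¹ * σ) = 0
    apply h1
    simpa only [hb] using h
  · show f (s⁻¹ * σ) = f (s⁻¹ * σ')
    apply h2
    · simpa only [hb] using h
    · simpa only [hb] using h'
    · intro b hbB
      rw [Equiv.Perm.mul_apply, Equiv.Perm.mul_apply, h'' b hbB]
  · have h4 := h3 b hb' (s⁻¹ * σ)
    simp only [hb] at h4
    rw [← h4]
    apply Finset.sum_congr rfl
    intro c _
    show f (s⁻¹ * (σ * Equiv.swap b c)) = _
    rw [mul_assoc]

theorem H0_mem_UB {n r : ℕ} [NeZero n] (L : ℕ) (A : Finset (Fin n)) (α : ↥A → Fin r)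
    (B : Finset (Fin n)) (hB : B ⊆ A) (f : G n → ℂ) (hf : f ∈ UB L A α B) :
    H0 L f ∈ UB L A α B := by
  rw [H0_apply]
  refine (UB L A α B).smul_mem _ ((UB L A α B).sum_mem (fun j hj => ?_))
  rw [Finset.mem_filter] at hj
  have h1 : piE j f = (1 / 2 : ℂ) • (f - Lg (sj j) f) := by
    simp only [piE, LinearMap.smul_apply, LinearMap.sub_apply, Module.End.one_apply]
  rw [h1]
  exact (UB L A α B).smul_mem _ ((UB L A α B).sub_mem hf
    (Lg_mem_UB L A α B (sj j) (blk_sj L j hj.2.1 hj.2.2) f hf))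

theorem H0_ip_right {n : ℕ} [NeZero n] (L : ℕ) (f g : G n → ℂ) :
    ip f (H0 L g) = (1 / 4 : ℂ) * ∑ j ∈ Finset.univ.filter (fun j : Fin n => (j : ℕ) + 1 < n ∧
      blk L j = ((j : ℕ) + 1) / L), ip f (piE j g) := by
  rw [H0_apply]
  simp only [ip, Pi.smul_apply, Finset.sum_apply, smul_eq_mul]
  rw [Finset.sum_comm, Finset.mul_sum]
  apply Finset.sum_congr rfl
  intro σ _
  rw [Finset.mul_sum, Finset.mul_sum, Finset.mul_sum]
  apply Finset.sum_congr rfl
  intro j _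
  ring

theorem H0_ip_left {n : ℕ} [NeZero n] (L : ℕ) (f g : G n → ℂ) :
    ip (H0 L f) g = (1 / 4 : ℂ) * ∑ j ∈ Finset.univ.filter (fun j : Fin n => (j : ℕ) + 1 < n ∧
      blk L j = ((j : ℕ) + 1) / L), ip (piE j f) g := by
  rw [H0_apply]
  simp only [ip, Pi.smul_apply, Finset.sum_apply, smul_eq_mul]
  rw [Finset.sum_comm, Finset.mul_sum]
  apply Finset.sum_congr rfl
  intro σ _
  have h4 : (starRingEnd ℂ) (1 / 4 : ℂ) = 1 / 4 := by
    rw [map_div₀, map_one, map_ofNat]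
  rw [map_mul, h4, map_sum, Finset.mul_sum, Finset.sum_mul, Finset.mul_sum]
  apply Finset.sum_congr rfl
  intro j _
  ring

theorem H0_adj {n : ℕ} [NeZero n] (L : ℕ) : IsAdj (H0 L : Module.End ℂ (G n → ℂ)) (H0 L) := by
  intro f g
  rw [H0_ip_left, H0_ip_right]
  congr 1
  apply Finset.sum_congr rfl
  intro j _
  exact piE_adj j f g

theorem H0_pos {n : ℕ} [NeZero n] (L : ℕ) (f : G n → ℂ) : 0 ≤ (ip f (H0 L f)).re ∧
    (ip f (H0 L f)).re ≤ (1 / 4) * ∑ j : Fin n, nsq (piE j f) := by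
  have h0 : (ip f (H0 L f)).re = (1 / 4) * ∑ j ∈ Finset.univ.filter (fun j : Fin n =>
      (j : ℕ) + 1 < n ∧ blk L j = ((j : ℕ) + 1) / L), nsq (piE j f) := by
    rw [H0_ip_right]
    have h1 : ((1 / 4 : ℂ) * ∑ j ∈ Finset.univ.filter (fun j : Fin n => (j : ℕ) + 1 < n ∧
        blk L j = ((j : ℕ) + 1) / L), ip f (piE j f)).re = (1 / 4) *
        (∑ j ∈ Finset.univ.filter (fun j : Fin n => (j : ℕ) + 1 < n ∧
        blk L j = ((j : ℕ) + 1) / L), ip f (piE j f)).re := by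
      have h2 : (1 / 4 : ℂ) = ((1 / 4 : ℝ) : ℂ) := by push_cast; ring
      rw [h2, Complex.re_ofReal_mul]
    rw [h1, Complex.re_sum]
    congr 1
    apply Finset.sum_congr rfl
    intro j _
    exact (nsq_piE j f).2.symm
  have hn : ∀ j : Fin n, 0 ≤ nsq (piE j f) := fun j =>
    Finset.sum_nonneg (fun σ _ => by positivity)
  rw [h0]
  constructor
  · exact mul_nonneg (by norm_num) (Finset.sum_nonneg (fun j _ => hn j))
  · exact mul_le_mul_of_nonneg_left (Finset.sum_le_sum_of_subset_of_nonneg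
      (Finset.filter_subset _ _) (fun j _ _ => hn j)) (by norm_num)

end Pool.Agent.Lib.MP_cad76e_pr
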