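import Pool.Agent.Lib.MP_cad76e_pr.Defs
import Pool.Agent.Lib.MP_cad76e_pr.GB
import Pool.Agent.Lib.MP_cad76e_pr.C3

/-! # Poincaré inequality in blocks (SM2) -/

set_option autoImplicit false

namespace Pool.Agent.Lib.MP_cad76e_pr

open Finset

/-! ### Embeddings of blocks -/

/-- number of positions of block `b` -/
def bN (n L b : ℕ) : ℕ := min L (n - b * L)

/-- the positions of block `b` -/
def bEmb (n L b : ℕ) : Fin (bN n L b) ↪ Fin n where
  toFun i := ⟨b * L + i, by
    have h := i.2
    unfold bN at h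
    omega⟩
  inj' := by
    intro i j h
    rw [Fin.ext_iff] at h ⊢
    simp only at h
    omega

theorem bEmb_val {n L b : ℕ} (i : Fin (bN n L b)) : ((bEmb n L b i : Fin n) : ℕ) = b * L + i := rfl

theorem mem_range_bEmb {n L b : ℕ} (hL : 1 ≤ L) (p : Fin n) :
    p ∈ Set.range (bEmb n L b) ↔ blk L p = b := by
  unfold blk
  constructor
  · rintro ⟨i, rfl⟩
    rw [bEmb_val]
    have h := i.2
    unfold bN at h
    rw [Nat.div_eq_iff (by omega)]
    omega
  · intro h
    have h1 := Nat.div_add_mod (p : ℕ) L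
    have h2 := Nat.mod_lt (p : ℕ) (show L > 0 by omega)
    have h3 : b * L = L * b := Nat.mul_comm _ _
    rw [h] at h1
    have hp := p.2
    refine ⟨⟨(p : ℕ) % L, ?_⟩, ?_⟩
    · unfold bN
      rw [h3]
      omega
    · apply Fin.ext
      rw [bEmb_val]
      simp only
      omega

/-- permutations of the positions of block `b` -/
noncomputable def bExt (n L b : ℕ) : Equiv.Perm (Fin (bN n L b)) →* G n :=
  Equiv.Perm.viaEmbeddingHom (bEmb n L b)

theorem bExt_emb {n L b : ℕ} (h : Equiv.Perm (Fin (bN n L b))) (i : Fin (bN n L b)) :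
    bExt n L b h (bEmb n L b i) = bEmb n L b (h i) := by
  unfold bExt
  rw [Equiv.Perm.viaEmbeddingHom_apply, Equiv.Perm.viaEmbedding_apply]

theorem bExt_out {n L b : ℕ} (h : Equiv.Perm (Fin (bN n L b))) {p : Fin n}
    (hp : p ∉ Set.range (bEmb n L b)) : bExt n L b h p = p := by
  unfold bExt
  rw [Equiv.Perm.viaEmbeddingHom_apply, Equiv.Perm.viaEmbedding_apply_of_notMem _ _ _ hp]

theorem blk_bExt {n L b : ℕ} (hL : 1 ≤ L) (h : Equiv.Perm (Fin (bN n L b))) (p : Fin n) :
    blk L (bExt n L b h p) = blk L p := by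
  by_cases hp : p ∈ Set.range (bEmb n L b)
  · obtain ⟨i, rfl⟩ := hp
    rw [bExt_emb, (mem_range_bEmb hL _).1 ⟨i, rfl⟩, (mem_range_bEmb hL _).1 ⟨h i, rfl⟩]
  · rw [bExt_out h hp]

theorem bExt_swap {n L b : ℕ} (i j : Fin (bN n L b)) :
    bExt n L b (Equiv.swap i j) = Equiv.swap (bEmb n L b i) (bEmb n L b j) := by
  ext p
  congr 1
  by_cases hp : p ∈ Set.range (bEmb n L b)
  · obtain ⟨l, rfl⟩ := hp
    rw [bExt_emb, (bEmb n L b).injective.swap_apply]
  · rw [bExt_out _ hp, Equiv.swap_apply_of_ne_of_ne]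
    · rintro rfl; exact hp ⟨i, rfl⟩
    · rintro rfl; exact hp ⟨j, rfl⟩

/-- cards of `B` in block `b`, recorded by their positions in the block -/
def bCards {n : ℕ} (L b : ℕ) (B : Finset (Fin n)) (s : G n) : Finset (Fin (bN n L b)) :=
  univ.filter (fun i => s.symm (bEmb n L b i) ∈ B)

theorem card_bCards {n : ℕ} (L b : ℕ) (hL : 1 ≤ L) (B : Finset (Fin n)) (s : G n) :
    #(bCards L b B s) = #(B.filter (fun c => blk L (s c) = b)) := by
  apply card_bij (fun i _ => s.symm (bEmb n L b i))
  · intro i hi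
    rw [bCards, mem_filter] at hi
    rw [mem_filter]
    refine ⟨hi.2, ?_⟩
    rw [Equiv.apply_symm_apply]
    exact (mem_range_bEmb hL _).1 ⟨i, rfl⟩
  · intro i _ j _ h
    exact (bEmb n L b).injective (s.symm.injective h)
  · intro c hc
    rw [mem_filter] at hc
    obtain ⟨i, hi⟩ := (mem_range_bEmb (b := b) hL (s c)).2 hc.2
    refine ⟨i, ?_, ?_⟩
    · rw [bCards, mem_filter, hi, Equiv.symm_apply_apply]
      exact ⟨mem_univ _, hc.1⟩
    · rw [hi, Equiv.symm_apply_apply]

/-- the restriction of a function to a fibre -/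
theorem fibre_mem_UA {n r : ℕ} [NeZero n] (L : ℕ) (hL : 1 ≤ L) (A : Finset (Fin n))
    (α : ↥A → Fin r) (B : Finset (Fin n)) (f : G n → ℂ) (hf : f ∈ UB L A α B)
    (b : ℕ) (s : G n) : (fun h => f (bExt n L b h * s)) ∈ UA (bCards L b B s) := by
  obtain ⟨hfB, hmarg⟩ := hf
  obtain ⟨hf0, hf1⟩ := hfB
  refine ⟨?_, ?_⟩
  · -- depends only on the cards of `B`
    intro h h' hh
    simp only
    have hblk : ∀ (k : Equiv.Perm (Fin (bN n L b))) (a : Fin n),
        blk L ((bExt n L b k * s) a) = blk L (s a) := by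
      intro k a
      rw [Equiv.Perm.mul_apply, blk_bExt hL]
    by_cases hα : ∀ a : ↥A, blk L (s a) = (α a : ℕ)
    · apply hf1
      · intro a; rw [hblk]; exact hα a
      · intro a; rw [hblk]; exact hα a
      · intro c hc
        rw [Equiv.Perm.mul_apply, Equiv.Perm.mul_apply]
        by_cases hp : s c ∈ Set.range (bEmb n L b)
        · obtain ⟨i, hi⟩ := hp
          rw [← hi, bExt_emb, bExt_emb, hh i]
          rw [bCards, mem_filter, hi, Equiv.symm_apply_apply]
          exact ⟨mem_univ _, hc⟩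
        · rw [bExt_out h hp, bExt_out h' hp]
    · rw [hf0, hf0]
      · simp only [hblk]; exact hα
      · simp only [hblk]; exact hα
  · intro a ha h
    rw [bCards, mem_filter] at ha
    have key := hmarg _ ha.2 (bExt n L b h * s)
    rw [← key]
    simp only
    apply sum_bij (fun i _ => s.symm (bEmb n L b i))
    · intro i hi
      rw [mem_filter, mem_compl, mem_erase, not_and_or, not_not]
      rw [mem_compl, mem_erase, not_and_or, not_not] at hi
      refine ⟨?_, ?_⟩
      · rcases hi with hi | hi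
        · left; rw [hi]
        · right
          intro hcon
          apply hi
          rw [bCards, mem_filter]
          exact ⟨mem_univ _, hcon⟩
      · rw [Equiv.Perm.mul_apply, Equiv.Perm.mul_apply, blk_bExt hL, blk_bExt hL,
          Equiv.apply_symm_apply, Equiv.apply_symm_apply, (mem_range_bEmb hL _).1 ⟨i, rfl⟩,
          (mem_range_bEmb hL _).1 ⟨a, rfl⟩]
    · intro i _ j _ hij
      exact (bEmb n L b).injective (s.symm.injective hij)
    · intro c hc
      rw [mem_filter, mem_compl, mem_erase, not_and_or, not_not] at hc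
      obtain ⟨hc1, hc2⟩ := hc
      rw [Equiv.Perm.mul_apply, Equiv.Perm.mul_apply, blk_bExt hL, blk_bExt hL,
        Equiv.apply_symm_apply, (mem_range_bEmb (b := b) hL _).1 ⟨a, rfl⟩] at hc2
      obtain ⟨i, hi⟩ := (mem_range_bEmb (b := b) hL (s c)).2 hc2
      refine ⟨i, ?_, ?_⟩
      · rw [mem_compl, mem_erase, not_and_or, not_not]
        rcases hc1 with hc1 | hc1
        · left
          apply (bEmb n L b).injective
          apply s.symm.injective
          rw [hi, Equiv.symm_apply_apply, hc1]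
        · right
          rw [bCards, mem_filter, hi, Equiv.symm_apply_apply]
          exact fun hcon => hc1 hcon.2
      · rw [hi, Equiv.symm_apply_apply]
    · intro i _
      congr 1
      rw [map_mul, bExt_swap, mul_assoc, mul_assoc]
      congr 1
      ext p
      rw [Equiv.Perm.mul_apply, Equiv.Perm.mul_apply]
      congr 1
      have h1 := s.injective.swap_apply (s.symm (bEmb n L b a)) (s.symm (bEmb n L b i)) p
      rw [Equiv.apply_symm_apply, Equiv.apply_symm_apply] at h1
      exact h1

/-- averaging over the fibres of a block -/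
theorem block_ineq {n r : ℕ} [NeZero n] (L : ℕ) (hL : 1 ≤ L) (A : Finset (Fin n))
    (α : ↥A → Fin r) (B : Finset (Fin n)) (f : G n → ℂ) (hf : f ∈ UB L A α B) (b : ℕ) :
    ∑ s : G n, ((#(B.filter (fun c => blk L (s c) = b)) : ℝ) / (4 * (L : ℝ) ^ 2)) * ‖f s‖ ^ 2 ≤
      ∑ j : Fin n, if ((j : ℕ) + 1 < n ∧ blk L j = ((j : ℕ) + 1) / L) ∧ blk L j = b then
        ∑ s, ‖f (sj j * s) - f s‖ ^ 2 else 0 := by
  set N := bN n L b with hN
  -- invariance of the number of cards in the block
  have hinv : ∀ (h : Equiv.Perm (Fin N)) (s : G n),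
      #(B.filter (fun c => blk L ((bExt n L b h * s) c) = b)) =
        #(B.filter (fun c => blk L (s c) = b)) := by
    intro h s
    congr 1
    apply filter_congr
    intro c _
    rw [Equiv.Perm.mul_apply, blk_bExt hL]
  -- Poincaré in every fibre
  have hfib : ∀ s : G n, ∑ h : Equiv.Perm (Fin N),
      ((#(B.filter (fun c => blk L ((bExt n L b h * s) c) = b)) : ℝ) / (4 * (L : ℝ) ^ 2)) *
        ‖f (bExt n L b h * s)‖ ^ 2 ≤
      ∑ h : Equiv.Perm (Fin N), ∑ p : Fin N, ∑ q : Fin N, (if (p : ℕ) + 1 = (q : ℕ) then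
        ‖f (bExt n L b h * s) - f (Equiv.swap (bEmb n L b p) (bEmb n L b q) *
          (bExt n L b h * s))‖ ^ 2 else 0) := by
    intro s
    have h1 := adj_poincare N (bCards L b B s) _ (fibre_mem_UA L hL A α B f hf b s)
    rw [card_bCards L b hL] at h1
    have hN0 : N = 0 ∨ 0 < N := Nat.eq_zero_or_pos N
    calc ∑ h : Equiv.Perm (Fin N),
      ((#(B.filter (fun c => blk L ((bExt n L b h * s) c) = b)) : ℝ) / (4 * (L : ℝ) ^ 2)) *
        ‖f (bExt n L b h * s)‖ ^ 2
        = ((#(B.filter (fun c => blk L (s c) = b)) : ℝ) / (4 * (L : ℝ) ^ 2)) *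
          nsq (fun h => f (bExt n L b h * s)) := by
          unfold nsq
          rw [mul_sum]
          apply sum_congr rfl
          intro h _
          rw [hinv]
      _ ≤ ((#(B.filter (fun c => blk L (s c) = b)) : ℝ) / (4 * (N : ℝ) ^ 2)) *
          nsq (fun h => f (bExt n L b h * s)) := by
          rcases hN0 with h0 | h0
          · -- no positions: no cards
            have hz : #(B.filter (fun c => blk L (s c) = b)) = 0 := by
              rw [← card_bCards L b hL, card_eq_zero, bCards]
              ext i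
              have hi := i.2
              have hb : bN n L b = 0 := by rw [← hN]; exact h0
              omega
            rw [hz]; simp
          · apply mul_le_mul_of_nonneg_right
            · have hNL : (N : ℝ) ≤ L := by
                have : N ≤ L := by rw [hN]; exact min_le_left _ _
                exact_mod_cast this
              have hN' : (0 : ℝ) < N := by exact_mod_cast h0
              apply div_le_div_of_nonneg_left (by positivity) (by positivity)
              apply mul_le_mul_of_nonneg_left _ (by norm_num)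
              exact pow_le_pow_left₀ hN'.le hNL 2
            · unfold nsq; positivity
      _ ≤ _ := h1
      _ = _ := by
          symm
          rw [sum_comm]
          apply sum_congr rfl
          intro p _
          rw [sum_comm]
          apply sum_congr rfl
          intro q _
          split_ifs with hpq
          · unfold nsq
            apply sum_congr rfl
            intro h _
            beta_reduce
            rw [map_mul, bExt_swap, mul_assoc]
          · simp
  -- sum over `s`
  have hsum := sum_le_sum (fun (s : G n) (_ : s ∈ univ) => hfib s)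
  rw [sum_comm] at hsum
  rw [sum_comm (s := (univ : Finset (G n)))] at hsum
  have htrans : ∀ (φ : G n → ℝ) (h : Equiv.Perm (Fin N)),
      ∑ s : G n, φ (bExt n L b h * s) = ∑ s : G n, φ s :=
    fun φ h => Equiv.sum_comp (Equiv.mulLeft (bExt n L b h)) φ
  rw [sum_congr rfl (fun h _ => htrans (fun s => ((#(B.filter (fun c => blk L (s c) = b)) : ℝ) /
    (4 * (L : ℝ) ^ 2)) * ‖f s‖ ^ 2) h)] at hsum
  rw [sum_congr rfl (fun h _ => htrans (fun s => ∑ p : Fin N, ∑ q : Fin N,
    (if (p : ℕ) + 1 = (q : ℕ) then ‖f s - f (Equiv.swap (bEmb n L b p) (bEmb n L b q) * s)‖ ^ 2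
      else 0)) h)] at hsum
  rw [sum_const, sum_const, nsmul_eq_mul, nsmul_eq_mul] at hsum
  have hcard : (0 : ℝ) < (#(univ : Finset (Equiv.Perm (Fin N))) : ℝ) := by
    have : 0 < #(univ : Finset (Equiv.Perm (Fin N))) := card_pos.2 ⟨1, mem_univ _⟩
    exact_mod_cast this
  have hmain := le_of_mul_le_mul_left hsum hcard
  refine hmain.trans (le_of_eq ?_)
  -- reindex the edges of the block
  rw [sum_comm]
  have e1 : ∀ p : Fin N, ∑ s : G n, ∑ q : Fin N, (if (p : ℕ) + 1 = (q : ℕ) then
      ‖f s - f (Equiv.swap (bEmb n L b p) (bEmb n L b q) * s)‖ ^ 2 else 0) =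
      if (p : ℕ) + 1 < N then ∑ s : G n, ‖f (sj (bEmb n L b p) * s) - f s‖ ^ 2 else 0 := by
    intro p
    split_ifs with hp
    · apply sum_congr rfl
      intro s _
      rw [sum_eq_single (⟨(p : ℕ) + 1, hp⟩ : Fin N)]
      · rw [if_pos rfl, norm_sub_rev]
        congr 4
        unfold sj
        congr 1
        congr 1
        apply Fin.ext
        rw [bEmb_val]
        have hlt : b * L + (p : ℕ) + 1 < n := by
          have h2 : (p : ℕ) + 1 < min L (n - b * L) := hp
          omega
        rw [Fin.val_add_one_of_lt', bEmb_val]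
        · rfl
        · rw [bEmb_val]; exact hlt
      · intro q _ hq
        rw [if_neg]
        intro hcon
        apply hq
        apply Fin.ext
        exact hcon.symm
      · intro h; exact absurd (mem_univ _) h
    · apply sum_eq_zero
      intro s _
      apply sum_eq_zero
      intro q _
      rw [if_neg]
      intro hcon
      exact hp (hcon ▸ q.2)
  rw [sum_congr rfl (fun p _ => e1 p)]
  rw [← sum_filter, ← sum_filter]
  apply sum_bij (fun p _ => bEmb n L b p)
  · intro p hp
    rw [mem_filter] at hp ⊢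
    have h2 : (p : ℕ) + 1 < min L (n - b * L) := hp.2
    have h3 : blk L (bEmb n L b p) = b := (mem_range_bEmb hL _).1 ⟨p, rfl⟩
    refine ⟨mem_univ _, ⟨?_, ?_⟩, h3⟩
    · rw [bEmb_val]; omega
    · rw [h3, bEmb_val]
      symm
      rw [Nat.div_eq_iff (by omega)]
      generalize b * L = z at *
      omega
  · intro p _ q _ h
    exact (bEmb n L b).injective h
  · intro j hj
    rw [mem_filter] at hj
    obtain ⟨_, ⟨hj1, hj2⟩, hj3⟩ := hj
    obtain ⟨p, hp⟩ := (mem_range_bEmb (b := b) hL j).2 hj3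
    refine ⟨p, ?_, hp⟩
    rw [mem_filter]
    refine ⟨mem_univ _, ?_⟩
    rw [hj3] at hj2
    have h4 : (j : ℕ) = b * L + p := by rw [← hp, bEmb_val]
    show (p : ℕ) + 1 < min L (n - b * L)
    have h5 := Nat.lt_mul_div_succ ((j : ℕ) + 1) (show 0 < L by omega)
    rw [← hj2] at h5
    have h6 : L * (b + 1) = b * L + L := by ring
    rw [lt_min_iff]
    omega
  · intro p _
    rfl

theorem H0_ip {n : ℕ} [NeZero n] (L : ℕ) (f : G n → ℂ) : (ip f (H0 L f)).re =
    (1 / 4) * ∑ j ∈ Finset.univ.filter (fun j : Fin n => (j : ℕ) + 1 < n ∧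
      blk L j = ((j : ℕ) + 1) / L), nsq (piE j f) := by
  unfold H0
  have e1 : ip f (((1 / 4 : ℂ) • ∑ j ∈ Finset.univ.filter (fun j : Fin n => (j : ℕ) + 1 < n ∧
    blk L j = ((j : ℕ) + 1) / L), piE j) f) = (1 / 4 : ℂ) * ∑ j ∈ Finset.univ.filter
    (fun j : Fin n => (j : ℕ) + 1 < n ∧ blk L j = ((j : ℕ) + 1) / L), ip f (piE j f) := by
    unfold ip
    rw [sum_comm, mul_sum]
    apply sum_congr rfl
    intro x _
    rw [LinearMap.smul_apply, LinearMap.sum_apply, Pi.smul_apply, Finset.sum_apply, smul_eq_mul,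
      ← mul_sum]
    ring
  rw [e1]
  have e2 : ∀ z : ℂ, ((1 / 4 : ℂ) * z).re = (1 / 4) * z.re := by
    intro z
    have : (1 / 4 : ℂ) = ((1 / 4 : ℝ) : ℂ) := by push_cast; ring
    rw [this, Complex.re_ofReal_mul]
  rw [e2, Complex.re_sum]
  congr 1
  apply sum_congr rfl
  intro j _
  exact (nsq_piE j f).2.symm

theorem H0_UB {n r : ℕ} [NeZero n] (L : ℕ) (hL : 1 ≤ L) (A : Finset (Fin n)) (α : ↥A → Fin r)
    (B : Finset (Fin n)) (hB : B ⊆ A) (f : G n → ℂ) (hf : f ∈ UB L A α B) :
    ((#B : ℝ) / (64 * (L : ℝ) ^ 2)) * nsq f ≤ (ip f (H0 L f)).re := by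
  rw [H0_ip]
  have h1 := sum_le_sum (fun (b : ℕ) (_ : b ∈ range n) => block_ineq L hL A α B f hf b)
  -- left side
  have hl : ∑ b ∈ range n, ∑ s : G n,
      ((#(B.filter (fun c => blk L (s c) = b)) : ℝ) / (4 * (L : ℝ) ^ 2)) * ‖f s‖ ^ 2 =
      ((#B : ℝ) / (4 * (L : ℝ) ^ 2)) * nsq f := by
    rw [sum_comm]
    unfold nsq
    rw [mul_sum]
    apply sum_congr rfl
    intro s _
    rw [← sum_mul, ← sum_div]
    congr 2
    have := card_eq_sum_card_fiberwise (s := B) (t := range n) (f := fun c => blk L (s c)) (by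
      intro c _
      rw [Finset.mem_coe, mem_range]
      exact lt_of_le_of_lt (Nat.div_le_self _ _) (s c).2)
    rw [this]
    push_cast
    rfl
  rw [hl] at h1
  -- right side
  have hr : ∑ b ∈ range n, ∑ j : Fin n,
      (if ((j : ℕ) + 1 < n ∧ blk L j = ((j : ℕ) + 1) / L) ∧ blk L j = b then
        ∑ s, ‖f (sj j * s) - f s‖ ^ 2 else 0) = 4 * ∑ j ∈ Finset.univ.filter (fun j : Fin n =>
        (j : ℕ) + 1 < n ∧ blk L j = ((j : ℕ) + 1) / L), nsq (piE j f) := by
    rw [sum_comm, mul_sum, sum_filter]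
    apply sum_congr rfl
    intro j _
    by_cases hj : (j : ℕ) + 1 < n ∧ blk L j = ((j : ℕ) + 1) / L
    · rw [if_pos hj, (nsq_piE j f).1]
      rw [sum_eq_single (blk L j)]
      · rw [if_pos ⟨hj, rfl⟩]; ring
      · intro b _ hb
        rw [if_neg (fun h => hb h.2.symm)]
      · intro h
        exfalso
        apply h
        rw [mem_range]
        exact lt_of_le_of_lt (Nat.div_le_self _ _) j.2
    · rw [if_neg hj]
      apply sum_eq_zero
      intro b _
      rw [if_neg (fun h => hj h.1)]
  rw [hr] at h1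
  have h2 : ((#B : ℝ) / (64 * (L : ℝ) ^ 2)) * nsq f =
      (1 / 16) * (((#B : ℝ) / (4 * (L : ℝ) ^ 2)) * nsq f) := by
    ring
  rw [h2]
  linarith

end Pool.Agent.Lib.MP_cad76e_pr
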