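import Pool.Agent.Lib.MP_cad76e_pr.GB
import Pool.Agent.Lib.MP_cad76e_pr.D1
import Pool.Agent.Lib.MP_cad76e_pr.LA4
import Pool.Agent.Lib.MP_cad76e_pr.SM1a
import Pool.Agent.Lib.MP_cad76e_pr.SM1b
import Pool.Agent.Lib.MP_cad76e_pr.SM2

/-! Module SM3: smoothing (assembly of LA4, SM1, SM2, D1). -/

set_option autoImplicit false

namespace Pool.Agent.Lib.MP_cad76e_pr

open Finset Filter Topology

/-- the elementary inequality behind the smoothing estimate -/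
theorem smooth_aux (b j : ℕ) (L : ℝ) (hL : 1 ≤ L) (hb : (b : ℝ) ≤ 64 * L ^ 2)
    (hj : 128 * L ^ 2 * Real.log L ≤ j) :
    L ^ b * ((1 + (b : ℝ) / (64 * L ^ 2))⁻¹) ^ j ≤ 1 := by
  have hL0 : 0 < L := by linarith
  have hL2 : 0 < 64 * L ^ 2 := by positivity
  set x : ℝ := (b : ℝ) / (64 * L ^ 2) with hx
  have hx0 : 0 ≤ x := by positivity
  have hx1 : x ≤ 1 := by
    rw [hx, div_le_one hL2]
    exact hb
  have h1x : 0 < 1 + x := by linarith
  have hlog : x / 2 ≤ Real.log (1 + x) := by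
    have h1 := Real.one_sub_inv_le_log_of_pos h1x
    have h2 : 1 - (1 + x)⁻¹ = x / (1 + x) := by
      field_simp
      ring
    rw [h2] at h1
    refine le_trans ?_ h1
    exact div_le_div_of_nonneg_left hx0 h1x (by linarith)
  have hj' : (b : ℝ) * Real.log L ≤ j * Real.log (1 + x) := by
    have h3 : (j : ℝ) * (x / 2) ≤ j * Real.log (1 + x) :=
      mul_le_mul_of_nonneg_left hlog (Nat.cast_nonneg j)
    refine le_trans ?_ h3
    have h4 : (j : ℝ) * (x / 2) = b * (j / (128 * L ^ 2)) := by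
      rw [hx]
      field_simp
      ring
    rw [h4]
    refine mul_le_mul_of_nonneg_left ?_ (Nat.cast_nonneg b)
    rw [le_div_iff₀ (by positivity)]
    linarith
  rw [inv_pow, ← div_eq_mul_inv, div_le_one (pow_pos h1x j)]
  rw [← Real.exp_log hL0, ← Real.exp_log h1x, ← Real.exp_nat_mul, ← Real.exp_nat_mul]
  exact Real.exp_le_exp.mpr hj'

theorem smooth (c : ℝ) (hc : 0 < c) : ∃ r : ℕ, 1 ≤ r ∧ ∃ n₀ : ℕ, ∀ (n : ℕ) [NeZero n], n₀ ≤ n →
    ∀ A : Finset (Fin n), ∀ a : ℕ, c * (n : ℝ) ^ 2 * Real.log n ≤ (2 : ℝ) ^ (a + 1) →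
    hs (FA A) ((SE (2 / 3 : ℂ)) ^ (2 ^ (a + 1))) ≤ (2 * (r : ℝ)) ^ #A := by
  obtain ⟨r, hr2, hrc⟩ : ∃ r : ℕ, 2 ≤ r ∧ 512 / c ≤ (r : ℝ) ^ 2 := by
    refine ⟨⌈512 / c⌉₊ + 2, by omega, ?_⟩
    have h1 : 512 / c ≤ (⌈512 / c⌉₊ : ℝ) := Nat.le_ceil _
    have h2 : (0 : ℝ) ≤ (⌈512 / c⌉₊ : ℝ) := Nat.cast_nonneg _
    push_cast
    nlinarith
  refine ⟨r, by omega, r ^ 2 + 3, ?_⟩
  intro n _ hn A a ha
  have hn3 : 3 ≤ n := by omega
  have hrr : r ^ 2 ≤ n := by omega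
  have hrn : r ≤ n := le_trans (by nlinarith) hrr
  set L : ℕ := n / r + 1 with hLdef
  have hL1 : 1 ≤ L := Nat.le_add_left 1 _
  have hr0 : 0 < r := by omega
  have hcov : n ≤ r * L := by
    have := Nat.lt_mul_div_succ n hr0
    rw [hLdef]
    exact le_of_lt this
  obtain ⟨S', hadj, hS'⟩ := SE_adj (n := n) (2 / 3 : ℂ)
  have key := hs_smooth (FA A) (SE (2 / 3 : ℂ)) S' (H0 L) hadj (H0_adj L)
    (fun f hf => SE_mem _ _ (fun g f hf => Lg_FA A g f hf) f hf)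
    (hS' (FA A) (fun g f hf => Lg_FA A g f hf))
    (fun f hf => H0_mem_FA L A f hf)
    (fun f => (H0_pos L f).1)
    (fun f _ => by
      have h1 := diss_crude hn3 (2 / 3 : ℂ) (by simp) f
      have h2 := (H0_pos L (SE (2 / 3 : ℂ) f)).2
      linarith)
    (fun k : (↥A → Fin r) × ↥A.powerset => UB L A k.1 (k.2 : Finset (Fin n)))
    (fun k => (#(k.2 : Finset (Fin n)) : ℝ) / (64 * (L : ℝ) ^ 2))
    (fun k => by positivity)
    (fun k f hf => H0_mem_UB L A k.1 _ (mem_powerset.mp k.2.2) f hf)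
    (fun k f hf => H0_UB L hL1 A k.1 _ (mem_powerset.mp k.2.2) f hf)
    (FA_le_iSup_UB L hL1 hcov A) a
  refine le_trans key ?_
  -- real bounds on `L`
  have hn0 : (0 : ℝ) < n := by
    have : 0 < n := by omega
    exact_mod_cast this
  have hrpos : (0 : ℝ) < r := by exact_mod_cast hr0
  have hL1' : (1 : ℝ) ≤ (L : ℝ) := by exact_mod_cast hL1
  have hLge : (n : ℝ) ≤ r * L := by exact_mod_cast hcov
  have hLle : (r : ℝ) * L ≤ 2 * n := by
    have h1 : r * L ≤ n + r := by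
      rw [hLdef, mul_add, mul_one]
      exact Nat.add_le_add_right (Nat.mul_div_le n r) r
    have h2 : r * L ≤ 2 * n := by omega
    exact_mod_cast h2
  have hLn : (L : ℝ) ≤ n := by
    have : (2 : ℝ) ≤ r := by exact_mod_cast hr2
    nlinarith
  have hlogn : 0 ≤ Real.log n := Real.log_nonneg (by linarith)
  have hlogL : Real.log L ≤ Real.log n := Real.log_le_log (by linarith) hLn
  have hj : 128 * (L : ℝ) ^ 2 * Real.log L ≤ ((2 ^ (a + 1) : ℕ) : ℝ) := by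
    push_cast
    refine le_trans ?_ ha
    have h1 : 128 * (L : ℝ) ^ 2 ≤ c * (n : ℝ) ^ 2 := by
      have h2 : ((r : ℝ) * L) ^ 2 ≤ (2 * n) ^ 2 := by
        exact pow_le_pow_left₀ (by positivity) hLle 2
      have h3 : 512 ≤ c * (r : ℝ) ^ 2 := by
        rw [div_le_iff₀ hc] at hrc
        linarith
      have h4 : 512 * (L : ℝ) ^ 2 ≤ c * (r : ℝ) ^ 2 * (L : ℝ) ^ 2 :=
        mul_le_mul_of_nonneg_right h3 (by positivity)
      have h5 : c * (r : ℝ) ^ 2 * (L : ℝ) ^ 2 ≤ c * (2 * n) ^ 2 := by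
        calc c * (r : ℝ) ^ 2 * (L : ℝ) ^ 2 = c * ((r : ℝ) * L) ^ 2 := by ring
          _ ≤ c * (2 * n) ^ 2 := mul_le_mul_of_nonneg_left h2 hc.le
      nlinarith
    calc 128 * (L : ℝ) ^ 2 * Real.log L ≤ 128 * (L : ℝ) ^ 2 * Real.log n :=
          mul_le_mul_of_nonneg_left hlogL (by positivity)
      _ ≤ c * (n : ℝ) ^ 2 * Real.log n := mul_le_mul_of_nonneg_right h1 hlogn
  have hterm : ∀ k : (↥A → Fin r) × ↥A.powerset,
      (Module.finrank ℂ (UB L A k.1 (k.2 : Finset (Fin n))) : ℝ) *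
        ((1 + (#(k.2 : Finset (Fin n)) : ℝ) / (64 * (L : ℝ) ^ 2))⁻¹) ^ (2 ^ (a + 1)) ≤ 1 := by
    intro k
    have hB : (k.2 : Finset (Fin n)) ⊆ A := mem_powerset.mp k.2.2
    have hfin : (Module.finrank ℂ (UB L A k.1 (k.2 : Finset (Fin n))) : ℝ) ≤
        (L : ℝ) ^ #(k.2 : Finset (Fin n)) := by
      exact_mod_cast finrank_UB L hL1 A k.1 _ hB
    have hcard : (#(k.2 : Finset (Fin n)) : ℝ) ≤ 64 * (L : ℝ) ^ 2 := by
      have h1 : #(k.2 : Finset (Fin n)) ≤ n := by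
        have := Finset.card_le_univ (k.2 : Finset (Fin n))
        simpa using this
      have h2 : (#(k.2 : Finset (Fin n)) : ℝ) ≤ n := by exact_mod_cast h1
      have h3 : (n : ℝ) ^ 2 ≤ ((r : ℝ) * L) ^ 2 := pow_le_pow_left₀ hn0.le hLge 2
      have h4 : (r : ℝ) ^ 2 ≤ n := by exact_mod_cast hrr
      have h5 : ((r : ℝ) * L) ^ 2 ≤ n * (L : ℝ) ^ 2 := by
        calc ((r : ℝ) * L) ^ 2 = (r : ℝ) ^ 2 * (L : ℝ) ^ 2 := by ring
          _ ≤ n * (L : ℝ) ^ 2 := mul_le_mul_of_nonneg_right h4 (by positivity)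
      have h6 : (n : ℝ) * n ≤ n * (L : ℝ) ^ 2 := by nlinarith
      have h7 : (n : ℝ) ≤ (L : ℝ) ^ 2 := le_of_mul_le_mul_left h6 hn0
      have h8 : (0 : ℝ) ≤ (L : ℝ) ^ 2 := by positivity
      linarith
    refine le_trans (mul_le_mul_of_nonneg_right hfin (by positivity)) ?_
    exact smooth_aux _ _ _ hL1' hcard hj
  calc ∑ k : (↥A → Fin r) × ↥A.powerset,
        (Module.finrank ℂ (UB L A k.1 (k.2 : Finset (Fin n))) : ℝ) *
        ((1 + (#(k.2 : Finset (Fin n)) : ℝ) / (64 * (L : ℝ) ^ 2))⁻¹) ^ (2 ^ (a + 1))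
      ≤ ∑ k : (↥A → Fin r) × ↥A.powerset, (1 : ℝ) := Finset.sum_le_sum fun k _ => hterm k
    _ = (2 * (r : ℝ)) ^ #A := by
      simp only [Finset.sum_const, Finset.card_univ, nsmul_eq_mul, mul_one, Fintype.card_prod,
        Fintype.card_fun, Fintype.card_fin, Fintype.card_coe, Finset.card_powerset]
      push_cast
      rw [mul_pow, mul_comm]

end Pool.Agent.Lib.MP_cad76e_pr
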