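import Pool.Agent.Lib.MP_cad76e_pr.Defs

/-! Module SP: functions of mean zero are sums of functions in the `UA B`, `B` nonempty. -/

set_option autoImplicit false

namespace Pool.Agent.Lib.MP_cad76e_pr

open Finset

/-- orthogonal decomposition for plain functions -/
theorem sp_decomp {ι : Type*} [Fintype ι] (W : Submodule ℂ (ι → ℂ)) (f : ι → ℂ) :
    ∃ w ∈ W, ∃ u : ι → ℂ, f = w + u ∧ ∀ g ∈ W, ip g u = 0 := by
  classical
  set e := (WithLp.linearEquiv 2 ℂ (ι → ℂ)) with he
  set W' : Submodule ℂ (EuclideanSpace ℂ ι) := W.map e.symm.toLinearMap with hW'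
  obtain ⟨y, hy, z, hz, hyz⟩ := W'.exists_add_mem_mem_orthogonal (e.symm f)
  obtain ⟨w, hw, hwy⟩ := (Submodule.mem_map).1 hy
  refine ⟨w, hw, e z, ?_, ?_⟩
  · have h1 : e (e.symm f) = e (y + z) := by rw [hyz]
    rw [LinearEquiv.apply_symm_apply, map_add] at h1
    rw [h1, ← hwy]
    simp
  · intro g hg
    have h2 : e.symm g ∈ W' := Submodule.mem_map_of_mem hg
    have h3 := (Submodule.mem_orthogonal W' z).1 hz _ h2
    rw [PiLp.inner_apply] at h3
    unfold ip
    rw [← h3]
    refine Finset.sum_congr rfl fun x _ => ?_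
    simp only [RCLike.inner_apply]
    rw [mul_comm]
    rfl

theorem sp_ip_self {ι : Type*} [Fintype ι] (f : ι → ℂ) (h : ip f f = 0) : f = 0 := by
  have h1 : ((∑ x, ‖f x‖ ^ 2 : ℝ) : ℂ) = 0 := by
    rw [← h]
    unfold ip
    push_cast
    refine Finset.sum_congr rfl fun x _ => ?_
    rw [mul_comm, Complex.mul_conj, Complex.normSq_eq_norm_sq]
    push_cast
    rfl
  have h2 : (∑ x, ‖f x‖ ^ 2 : ℝ) = 0 := by exact_mod_cast h1
  rw [Finset.sum_eq_zero_iff_of_nonneg (fun x _ => by positivity)] at h2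
  funext x
  have h3 := h2 x (Finset.mem_univ x)
  simpa using h3

/-- the marginal of a function of the cards of `A` over the card `b` depends on the other cards
only -/
theorem sp_marg_mem {n : ℕ} (A : Finset (Fin n)) (b : Fin n) (f : G n → ℂ)
    (hf : f ∈ FA A) :
    (fun σ : G n => ∑ c ∈ (A.erase b)ᶜ, f (σ * Equiv.swap b c)) ∈ FA (A.erase b) := by
  intro σ σ' h
  have key : ∀ a ∈ A.erase b, (σ'⁻¹ * σ) a = a := by
    intro a ha
    rw [Equiv.Perm.mul_apply, h a ha]
    simp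
  refine Finset.sum_equiv (σ'⁻¹ * σ) ?_ ?_
  · intro c
    simp only [Finset.mem_compl, not_iff_not]
    constructor
    · intro hc
      rwa [key c hc]
    · intro hc
      have h1 := key _ hc
      have h2 : (σ'⁻¹ * σ) c = c := (σ'⁻¹ * σ).injective h1
      rwa [h2] at hc
  · intro c hc
    refine hf _ _ fun a ha => ?_
    by_cases hab : a = b
    · subst hab
      simp [Equiv.Perm.mul_apply]
    · have ha' : a ∈ A.erase b := Finset.mem_erase.2 ⟨hab, ha⟩
      have hac : a ≠ c := by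
        rintro rfl
        exact (Finset.mem_compl.1 hc) ha'
      have hac' : a ≠ (σ'⁻¹ * σ) c := by
        intro hh
        rw [← key a ha'] at hh
        exact hac ((σ'⁻¹ * σ).injective hh)
      rw [Equiv.Perm.mul_apply, Equiv.Perm.mul_apply, Equiv.swap_apply_of_ne_of_ne hab hac,
        Equiv.swap_apply_of_ne_of_ne hab hac']
      exact h a ha'

theorem sp_FA_mono {n : ℕ} {A B : Finset (Fin n)} (h : B ⊆ A) : (FA B) ≤ FA A := by
  intro f hf σ σ' hs
  exact hf σ σ' fun a ha => hs a (h ha)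

theorem sp_step {n : ℕ} (A : Finset (Fin n)) :
    FA A ≤ UA A ⊔ ⨆ b : ↥A, FA (A.erase (b : Fin n)) := by
  intro f hf
  obtain ⟨w, hw, u, hfu, hu⟩ := sp_decomp (⨆ b : ↥A, FA (A.erase (b : Fin n))) f
  have hwA : w ∈ FA A := by
    have : (⨆ b : ↥A, FA (A.erase (b : Fin n))) ≤ FA A :=
      iSup_le fun b => sp_FA_mono (Finset.erase_subset _ _)
    exact this hw
  have huA : u ∈ FA A := by
    have : u = f - w := by rw [hfu]; abel
    rw [this]
    exact (FA A).sub_mem hf hwA
  refine Submodule.mem_sup.2 ⟨u, ⟨huA, ?_⟩, w, hw, by rw [hfu]; abel⟩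
  intro b hb σ
  set M : G n → ℂ := fun σ : G n => ∑ c ∈ (A.erase b)ᶜ, u (σ * Equiv.swap b c) with hM
  have hMF : M ∈ FA (A.erase b) := sp_marg_mem A b u huA
  have hMW : M ∈ ⨆ b : ↥A, FA (A.erase (b : Fin n)) :=
    (le_iSup (fun b : ↥A => FA (A.erase (b : Fin n))) ⟨b, hb⟩) hMF
  have hMM : ip M M = 0 := by
    have h1 : ip M M = ∑ c ∈ (A.erase b)ᶜ, ip M u := by
      have h2 : ip M M = ∑ c ∈ (A.erase b)ᶜ,
          ∑ σ : G n, (starRingEnd ℂ) (M σ) * u (σ * Equiv.swap b c) := by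
        rw [Finset.sum_comm]
        unfold ip
        refine Finset.sum_congr rfl fun σ _ => ?_
        rw [← Finset.mul_sum]
      rw [h2]
      refine Finset.sum_congr rfl fun c hc => ?_
      unfold ip
      rw [← Equiv.sum_comp (Equiv.mulRight (Equiv.swap b c))
        (fun σ : G n => (starRingEnd ℂ) (M σ) * u σ)]
      refine Finset.sum_congr rfl fun σ _ => ?_
      simp only [Equiv.coe_mulRight]
      have h3 : M (σ * Equiv.swap b c) = M σ := by
        refine hMF _ _ fun a ha => ?_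
        have hab : a ≠ b := (Finset.mem_erase.1 ha).1
        have hac : a ≠ c := by
          rintro rfl
          exact (Finset.mem_compl.1 hc) ha
        rw [Equiv.Perm.mul_apply, Equiv.swap_apply_of_ne_of_ne hab hac]
      rw [h3]
    rw [h1, hu M hMW]
    simp
  have := sp_ip_self M hMM
  exact congrFun this σ

theorem sp_FA_le {n : ℕ} (A : Finset (Fin n)) : FA A ≤ ⨆ B : Finset (Fin n), UA B := by
  induction A using Finset.strongInduction with
  | H A ih =>
    refine (sp_step A).trans (sup_le (le_iSup (fun B : Finset (Fin n) => UA B) A)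
      (iSup_le fun b => ih _ (Finset.erase_ssubset b.2)))

theorem sp_UA_le_V0 {n : ℕ} (B : Finset (Fin n)) (hB : B.Nonempty) : UA B ≤ V0 n := by
  rintro f ⟨-, hf⟩
  obtain ⟨b, hb⟩ := hB
  have h1 : ∑ σ : G n, ∑ c ∈ (B.erase b)ᶜ, f (σ * Equiv.swap b c) = 0 :=
    Finset.sum_eq_zero fun σ _ => hf b hb σ
  rw [Finset.sum_comm] at h1
  have h2 : ∀ c ∈ (B.erase b)ᶜ, ∑ σ : G n, f (σ * Equiv.swap b c) = ∑ σ, f σ := by
    intro c _
    exact Equiv.sum_comp (Equiv.mulRight (Equiv.swap b c)) f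
  rw [Finset.sum_congr rfl h2, Finset.sum_const, nsmul_eq_mul] at h1
  have h3 : (#((B.erase b)ᶜ) : ℂ) ≠ 0 := by
    have : b ∈ (B.erase b)ᶜ := by simp
    exact_mod_cast (Finset.card_pos.2 ⟨b, this⟩).ne'
  exact (mul_eq_zero.1 h1).resolve_left h3

theorem V0_le {n : ℕ} : V0 n ≤ ⨆ B : {B : Finset (Fin n) // B.Nonempty}, UA (B : Finset (Fin n)) := by
  intro f hf
  set N : Submodule ℂ (G n → ℂ) :=
    ⨆ B : {B : Finset (Fin n) // B.Nonempty}, UA (B : Finset (Fin n)) with hN
  have h1 : f ∈ UA (∅ : Finset (Fin n)) ⊔ N := by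
    have h2 : f ∈ FA (Finset.univ : Finset (Fin n)) := by
      intro σ σ' h
      have : σ = σ' := Equiv.ext fun a => h a (Finset.mem_univ a)
      rw [this]
    have h3 : (⨆ B : Finset (Fin n), UA B) ≤ UA (∅ : Finset (Fin n)) ⊔ N := by
      refine iSup_le fun B => ?_
      rcases B.eq_empty_or_nonempty with rfl | hB
      · exact le_sup_left
      · exact le_sup_of_le_right
          (le_iSup (fun B : {B : Finset (Fin n) // B.Nonempty} => UA (B : Finset (Fin n))) ⟨B, hB⟩)
    exact h3 (sp_FA_le _ h2)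
  obtain ⟨u, hu, w, hw, hfw⟩ := Submodule.mem_sup.1 h1
  have hNV : N ≤ V0 n := iSup_le fun B => sp_UA_le_V0 _ B.2
  have huV : u ∈ V0 n := by
    have : u = f - w := by rw [← hfw]; abel
    rw [this]
    exact (V0 n).sub_mem hf (hNV hw)
  have hu0 : u = 0 := by
    have hc : ∀ σ : G n, u σ = u 1 := fun σ => hu.1 σ 1 (fun a ha => by simp at ha)
    have h4 : ∑ σ : G n, u σ = 0 := huV
    rw [Finset.sum_congr rfl (fun σ _ => hc σ), Finset.sum_const, nsmul_eq_mul] at h4
    have h5 : u 1 = 0 := by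
      refine (mul_eq_zero.1 h4).resolve_left ?_
      exact_mod_cast (Finset.card_pos.2 (Finset.univ_nonempty)).ne'
    funext σ
    rw [hc σ, h5]
    rfl
  rw [← hfw, hu0, zero_add]
  exact hw

end Pool.Agent.Lib.MP_cad76e_pr
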