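import Pool.Agent.Lib.MP_cad76e_pr.Defs

/-! Module SUMY -/

set_option autoImplicit false

namespace Pool.Agent.Lib.MP_cad76e_pr

open Finset

theorem sumy_norm_add (φ : ℝ) : ‖(2 : ℂ) + Complex.exp (φ * Complex.I)‖ ^ 2 =
    5 + 4 * Real.cos φ := by
  rw [← Complex.normSq_eq_norm_sq, Complex.exp_mul_I, ← Complex.ofReal_cos, ← Complex.ofReal_sin,
    Complex.normSq_apply]
  simp only [Complex.add_re, Complex.add_im, Complex.ofReal_re, Complex.ofReal_im, Complex.mul_re,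
    Complex.mul_im, Complex.I_re, Complex.I_im, Complex.re_ofNat, Complex.im_ofNat]
  have := Real.sin_sq_add_cos_sq φ
  nlinarith

theorem sumy_norm_sub (φ : ℝ) : ‖(2 : ℂ) - Complex.exp (φ * Complex.I)‖ ^ 2 =
    5 - 4 * Real.cos φ := by
  rw [← Complex.normSq_eq_norm_sq, Complex.exp_mul_I, ← Complex.ofReal_cos, ← Complex.ofReal_sin,
    Complex.normSq_apply]
  simp only [Complex.add_re, Complex.add_im, Complex.sub_re, Complex.sub_im, Complex.ofReal_re,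
    Complex.ofReal_im, Complex.mul_re, Complex.mul_im, Complex.I_re, Complex.I_im, Complex.re_ofNat,
    Complex.im_ofNat]
  have := Real.sin_sq_add_cos_sq φ
  nlinarith

/-- the basic bound of one term -/
theorem sumy_term (m m1 s : ℕ) (hm : 1 ≤ m) (hm1 : m ≤ 2 * m1) (φ : ℝ) (hφ : |φ| ≤ Real.pi)
    (hs : (Real.pi * s / (m + 1)) ^ 2 ≤ φ ^ 2) :
    ((5 + 4 * Real.cos φ) / 9) ^ m1 ≤ 18 * m / (3 * Real.sqrt m + s) ^ 2 := by
  have hm0 : (1 : ℝ) ≤ m := by exact_mod_cast hm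
  have hpi := Real.pi_pos
  set u : ℝ := 4 / 9 * (1 - Real.cos φ) with hu
  have hu0 : 0 ≤ u := by
    have := Real.cos_le_one φ
    rw [hu]
    linarith
  have hu1 : u ≤ 8 / 9 := by
    have := Real.neg_one_le_cos φ
    rw [hu]
    linarith
  have h1 : (5 + 4 * Real.cos φ) / 9 = 1 - u := by
    rw [hu]
    ring
  rw [h1]
  have h2 : (8 / 9) * ((s : ℝ) ^ 2 / (m + 1) ^ 2) ≤ u := by
    have h3 := Real.cos_le_one_sub_mul_cos_sq hφ
    have h4 : (s : ℝ) ^ 2 / (m + 1) ^ 2 ≤ φ ^ 2 / Real.pi ^ 2 := by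
      rw [le_div_iff₀ (by positivity)]
      calc (s : ℝ) ^ 2 / (m + 1) ^ 2 * Real.pi ^ 2 = (Real.pi * s / (m + 1)) ^ 2 := by
            field_simp
        _ ≤ φ ^ 2 := hs
    have h5 : φ ^ 2 / Real.pi ^ 2 * 2 ≤ 1 - Real.cos φ := by
      have : 2 / Real.pi ^ 2 * φ ^ 2 = φ ^ 2 / Real.pi ^ 2 * 2 := by ring
      linarith
    rw [hu]
    linarith
  have h6 : (1 : ℝ) + m1 * u ≤ (1 + u) ^ m1 := one_add_mul_le_pow (by linarith) m1
  have h7 : (1 - u) ^ m1 * (1 + m1 * u) ≤ 1 := by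
    calc (1 - u) ^ m1 * (1 + m1 * u) ≤ (1 - u) ^ m1 * (1 + u) ^ m1 :=
          mul_le_mul_of_nonneg_left h6 (pow_nonneg (by linarith) _)
      _ = ((1 - u) * (1 + u)) ^ m1 := by rw [mul_pow]
      _ ≤ 1 := pow_le_one₀ (by nlinarith) (by nlinarith)
  have h8 : (s : ℝ) ^ 2 / (9 * m) ≤ m1 * u := by
    have h9 : (m : ℝ) / 2 ≤ m1 := by
      have : (m : ℝ) ≤ 2 * m1 := by exact_mod_cast hm1
      linarith
    have h10 : (m : ℝ) / 2 * ((8 / 9) * ((s : ℝ) ^ 2 / (m + 1) ^ 2)) ≤ m1 * u :=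
      mul_le_mul h9 h2 (by positivity) (by positivity)
    refine le_trans ?_ h10
    have h11 : (m : ℝ) / 2 * ((8 / 9) * ((s : ℝ) ^ 2 / (m + 1) ^ 2)) =
        (s : ℝ) ^ 2 * (4 * m / (9 * (m + 1) ^ 2)) := by
      field_simp
      ring
    have h12 : (s : ℝ) ^ 2 / (9 * m) = (s : ℝ) ^ 2 * (1 / (9 * m)) := by ring
    rw [h11, h12]
    apply mul_le_mul_of_nonneg_left _ (by positivity)
    rw [div_le_div_iff₀ (by positivity) (by positivity)]
    nlinarith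
  have h13 : (1 - u) ^ m1 ≤ 1 / (1 + m1 * u) := by
    rw [le_div_iff₀ (by positivity)]
    exact h7
  have h14 : 1 / (1 + m1 * u) ≤ 1 / (1 + (s : ℝ) ^ 2 / (9 * m)) :=
    one_div_le_one_div_of_le (by positivity) (by linarith)
  refine h13.trans (h14.trans ?_)
  have hsq : Real.sqrt m ^ 2 = m := Real.sq_sqrt (by linarith)
  have hsq0 : 0 < Real.sqrt m := Real.sqrt_pos.2 (by linarith)
  have h15 : 1 / (1 + (s : ℝ) ^ 2 / (9 * m)) = 9 * m / (9 * m + s ^ 2) := by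
    field_simp
  rw [h15, div_le_div_iff₀ (by positivity) (by positivity)]
  have h16 : (3 * Real.sqrt m + s) ^ 2 ≤ 2 * (9 * m + s ^ 2) := by
    nlinarith [sq_nonneg (3 * Real.sqrt m - s)]
  nlinarith

theorem sumy_tel (a : ℝ) (ha : 0 < a) (N : ℕ) :
    ∑ s ∈ range (N + 1), 2 * a ^ 2 / (a + s) ^ 2 ≤ 2 + 2 * a - 2 * a ^ 2 / (a + N) := by
  induction N with
  | zero =>
    simp only [zero_add, range_one, sum_singleton, Nat.cast_zero, add_zero]
    have h1 : 2 * a ^ 2 / a ^ 2 = 2 := by field_simp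
    have h2 : 2 * a ^ 2 / a = 2 * a := by field_simp
    rw [h1, h2]
    linarith
  | succ N ih =>
    rw [sum_range_succ]
    push_cast
    have hx : 0 < a + N := by positivity
    have h1 : 2 * a ^ 2 / (a + (N + 1)) ^ 2 ≤ 2 * a ^ 2 / (a + N) - 2 * a ^ 2 / (a + (N + 1)) := by
      have h2 : 2 * a ^ 2 / (a + N) - 2 * a ^ 2 / (a + (N + 1)) =
          2 * a ^ 2 / ((a + N) * (a + (N + 1))) := by
        field_simp
        ring
      rw [h2]
      apply div_le_div_of_nonneg_left (by positivity) (by positivity)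
      nlinarith
    linarith

theorem sumy_bound (m N : ℕ) (hm : 1 ≤ m) :
    ∑ s ∈ range (N + 1), 18 * (m : ℝ) / (3 * Real.sqrt m + s) ^ 2 ≤ 2 + 6 * Real.sqrt m := by
  have hm0 : (1 : ℝ) ≤ m := by exact_mod_cast hm
  have hsq : Real.sqrt m ^ 2 = m := Real.sq_sqrt (by linarith)
  have hsq0 : 0 < Real.sqrt m := Real.sqrt_pos.2 (by linarith)
  have h := sumy_tel (3 * Real.sqrt m) (by positivity) N
  have h1 : 2 * (3 * Real.sqrt m) ^ 2 = 18 * (m : ℝ) := by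
    rw [mul_pow, hsq]
    ring
  rw [h1] at h
  have h2 : 0 ≤ 18 * (m : ℝ) / (3 * Real.sqrt m + N) := by positivity
  linarith

theorem sumy_pow (z : ℂ) (m1 : ℕ) : (‖z‖ / 3) ^ (2 * m1) = (‖z‖ ^ 2 / 9) ^ m1 := by
  rw [pow_mul]
  congr 1
  ring

theorem sum_roots (m m1 : ℕ) (hm : 1 ≤ m) (hm1 : m ≤ 2 * m1) :
    (1 / ((2 * (m + 1) : ℕ) : ℝ)) * ∑ r ∈ range (2 * (m + 1)),
      ((‖2 + Complex.exp (2 * Real.pi * Complex.I * r / ((2 * (m + 1) : ℕ) : ℂ))‖ / 3) ^ (2 * m1) +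
       (‖2 - Complex.exp (2 * Real.pi * Complex.I * r / ((2 * (m + 1) : ℕ) : ℂ))‖ / 3) ^ (2 * m1))
      ≤ 14 / Real.sqrt m := by
  have hm0 : (1 : ℝ) ≤ m := by exact_mod_cast hm
  have hpi := Real.pi_pos
  have hsq : Real.sqrt m ^ 2 = m := Real.sq_sqrt (by linarith)
  have hsq0 : 0 < Real.sqrt m := Real.sqrt_pos.2 (by linarith)
  set q : ℕ → ℝ := fun r =>
    (‖2 + Complex.exp (2 * Real.pi * Complex.I * r / ((2 * (m + 1) : ℕ) : ℂ))‖ / 3) ^ (2 * m1) +
       (‖2 - Complex.exp (2 * Real.pi * Complex.I * r / ((2 * (m + 1) : ℕ) : ℂ))‖ / 3) ^ (2 * m1)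
    with hq
  have hmC : ((m : ℂ) + 1) ≠ 0 := by
    exact_mod_cast (Nat.succ_ne_zero m)
  have hexp : ∀ s : ℕ, Complex.exp (2 * Real.pi * Complex.I * ((m + 1 + s : ℕ) : ℂ) /
      ((2 * (m + 1) : ℕ) : ℂ)) =
      -Complex.exp (2 * Real.pi * Complex.I * s / ((2 * (m + 1) : ℕ) : ℂ)) := by
    intro s
    rw [← Complex.exp_add_pi_mul_I]
    congr 1
    push_cast
    field_simp
    ring
  have hshift : ∀ s : ℕ, q (m + 1 + s) = q s := by
    intro s
    rw [hq]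
    dsimp only
    rw [hexp s, sub_neg_eq_add, ← sub_eq_add_neg]
    ring
  have hterm : ∀ s ∈ range (m + 1), q s ≤ 18 * (m : ℝ) / (3 * Real.sqrt m + s) ^ 2 +
      18 * (m : ℝ) / (3 * Real.sqrt m + ((m + 1 - s : ℕ) : ℝ)) ^ 2 := by
    intro s hs
    have hs' : s ≤ m := by
      have := mem_range.1 hs
      omega
    have hsR : (s : ℝ) ≤ m := by exact_mod_cast hs'
    set φ : ℝ := Real.pi * s / (m + 1) with hφ
    have hφ0 : 0 ≤ φ := by positivity
    have hφ1 : φ ≤ Real.pi := by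
      rw [hφ, div_le_iff₀ (by positivity)]
      nlinarith
    have he : (2 * Real.pi * Complex.I * s / ((2 * (m + 1) : ℕ) : ℂ)) = (φ : ℂ) * Complex.I := by
      rw [hφ]
      push_cast
      field_simp
    rw [hq]
    dsimp only
    rw [he, sumy_pow, sumy_pow, sumy_norm_add, sumy_norm_sub]
    apply add_le_add
    · exact sumy_term m m1 s hm hm1 φ (by rw [abs_of_nonneg hφ0]; exact hφ1) le_rfl
    · have h1 := sumy_term m m1 (m + 1 - s) hm hm1 (Real.pi - φ)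
        (by rw [abs_of_nonneg (by linarith)]; linarith) (by
          apply le_of_eq
          rw [Nat.cast_sub (by omega), hφ]
          push_cast
          field_simp)
      rw [Real.cos_pi_sub] at h1
      rwa [show (5 + 4 * -Real.cos φ) = 5 - 4 * Real.cos φ by ring] at h1
  have h1 : ∑ r ∈ range (2 * (m + 1)), q r = 2 * ∑ s ∈ range (m + 1), q s := by
    rw [two_mul (m + 1), sum_range_add]
    simp only [hshift]
    ring
  have h2 : ∑ s ∈ range (m + 1), 18 * (m : ℝ) / (3 * Real.sqrt m + s) ^ 2 ≤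
      2 + 6 * Real.sqrt m := sumy_bound m m hm
  have h3 : ∑ s ∈ range (m + 1), 18 * (m : ℝ) / (3 * Real.sqrt m + ((m + 1 - s : ℕ) : ℝ)) ^ 2 ≤
      2 + 6 * Real.sqrt m := by
    refine le_trans ?_ (sumy_bound m (m + 1) hm)
    rw [sum_range_succ' _ (m + 1)]
    have h4 : ∑ s ∈ range (m + 1), 18 * (m : ℝ) / (3 * Real.sqrt m + ((m + 1 - s : ℕ) : ℝ)) ^ 2 =
        ∑ s ∈ range (m + 1), 18 * (m : ℝ) / (3 * Real.sqrt m + ((s + 1 : ℕ) : ℝ)) ^ 2 := by
      rw [← sum_range_reflect]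
      refine sum_congr rfl fun s hs => ?_
      have hs' := mem_range.1 hs
      rw [show m + 1 - (m + 1 - 1 - s) = s + 1 by omega]
    rw [h4]
    have h5 : 0 ≤ 18 * (m : ℝ) / (3 * Real.sqrt m + ((0 : ℕ) : ℝ)) ^ 2 := by positivity
    linarith
  have h4 : ∑ s ∈ range (m + 1), q s ≤ 2 * (2 + 6 * Real.sqrt m) := by
    refine le_trans (sum_le_sum hterm) ?_
    rw [sum_add_distrib]
    linarith
  rw [h1]
  have h5 : (1 / ((2 * (m + 1) : ℕ) : ℝ)) * (2 * ∑ s ∈ range (m + 1), q s) =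
      (∑ s ∈ range (m + 1), q s) / (m + 1) := by
    push_cast
    field_simp
  rw [h5]
  refine le_trans (div_le_div_of_nonneg_right h4 (by positivity)) ?_
  rw [div_le_div_iff₀ (by positivity) hsq0]
  nlinarith [sq_nonneg (Real.sqrt m - 1)]

end Pool.Agent.Lib.MP_cad76e_pr
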