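import Pool.Agent.Lib.MP_cad76e_pr.Defs

/-! Module TVR: reduction of the total variation distance (MP_cad76e_pr, Section 8). -/

set_option autoImplicit false

namespace Pool.Agent.Lib.MP_cad76e_pr

open Finset

namespace TVR

/-- left translation of real functions -/
def Lr {n : ℕ} (g : G n) : Module.End ℝ (G n → ℝ) where
  toFun f := fun σ => f (g⁻¹ * σ)
  map_add' _ _ := rfl
  map_smul' _ _ := rfl

theorem Lr_apply {n : ℕ} (g : G n) (f : G n → ℝ) (σ : G n) : Lr g f σ = f (g⁻¹ * σ) := rfl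

theorem Lr_Lr {n : ℕ} (g h : G n) (f : G n → ℝ) : Lr g (Lr h f) = Lr (g * h) f := by
  funext σ
  simp only [Lr_apply, mul_inv_rev, mul_assoc]

theorem Lr_one {n : ℕ} (f : G n → ℝ) : Lr (1 : G n) f = f := by
  funext σ
  simp only [Lr_apply, inv_one, one_mul]

/-- the transition operator -/
noncomputable def Pr {n : ℕ} [NeZero n] : Module.End ℝ (G n → ℝ) :=
  (1 / 2 : ℝ) • (Lr tau + Lr (finRotate n))

theorem Pr_apply {n : ℕ} [NeZero n] (f : G n → ℝ) (σ : G n) :
    Pr f σ = (1 / 2) * f (tau⁻¹ * σ) + (1 / 2) * f ((finRotate n)⁻¹ * σ) := by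
  simp only [Pr, LinearMap.smul_apply, LinearMap.add_apply, Pi.smul_apply, Pi.add_apply, Lr_apply,
    smul_eq_mul, mul_add]

/-- sum of the values -/
noncomputable def ms {n : ℕ} : (G n → ℝ) →ₗ[ℝ] ℝ where
  toFun f := ∑ g, f g
  map_add' _ _ := by simp only [Pi.add_apply, Finset.sum_add_distrib]
  map_smul' _ _ := by simp only [Pi.smul_apply, ← Finset.smul_sum, RingHom.id_apply]

theorem ms_apply {n : ℕ} (f : G n → ℝ) : ms f = ∑ g, f g := rfl

theorem sum_Lr {n : ℕ} (g : G n) (F : ℝ → ℝ) (f : G n → ℝ) :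
    ∑ σ, F (f (g⁻¹ * σ)) = ∑ σ, F (f σ) :=
  Fintype.sum_equiv (Equiv.mulLeft g⁻¹) _ _ (fun _ => rfl)

theorem ms_Lr {n : ℕ} (g : G n) (f : G n → ℝ) : ms (Lr g f) = ms f := by
  simpa only [ms_apply, Lr_apply, id] using sum_Lr g id f

theorem ms_Pr {n : ℕ} [NeZero n] (f : G n → ℝ) : ms (Pr f) = ms f := by
  simp only [Pr, LinearMap.smul_apply, LinearMap.add_apply, map_smul, map_add, ms_Lr, smul_eq_mul]
  ring

/-- `l¹` norm -/
noncomputable def l1 {n : ℕ} (f : G n → ℝ) : ℝ := ∑ g, |f g|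

theorem l1_nonneg {n : ℕ} (f : G n → ℝ) : 0 ≤ l1 f := Finset.sum_nonneg (fun _ _ => abs_nonneg _)

theorem l1_add {n : ℕ} (f g : G n → ℝ) : l1 (f + g) ≤ l1 f + l1 g := by
  simp only [l1, ← Finset.sum_add_distrib, Pi.add_apply]
  exact Finset.sum_le_sum (fun _ _ => abs_add_le _ _)

theorem l1_smul {n : ℕ} (c : ℝ) (f : G n → ℝ) : l1 (c • f) = |c| * l1 f := by
  simp only [l1, Finset.mul_sum, Pi.smul_apply, smul_eq_mul, abs_mul]

theorem l1_zero {n : ℕ} : l1 (0 : G n → ℝ) = 0 := by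
  simp [l1]

theorem l1_sum {n : ℕ} {κ : Type*} (s : Finset κ) (f : κ → G n → ℝ) :
    l1 (∑ i ∈ s, f i) ≤ ∑ i ∈ s, l1 (f i) := by
  classical
  induction s using Finset.induction_on with
  | empty => simp [l1_zero]
  | insert a s ha ih =>
    rw [Finset.sum_insert ha, Finset.sum_insert ha]
    exact (l1_add _ _).trans (add_le_add le_rfl ih)

theorem l1_Lr {n : ℕ} (g : G n) (f : G n → ℝ) : l1 (Lr g f) = l1 f := by
  simpa only [l1, Lr_apply] using sum_Lr g (fun x => |x|) f

theorem l1_Pr {n : ℕ} [NeZero n] (f : G n → ℝ) : l1 (Pr f) ≤ l1 f := by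
  have h : Pr f = (1 / 2 : ℝ) • (Lr tau f + Lr (finRotate n) f) := rfl
  rw [h, l1_smul]
  have := l1_add (Lr tau f) (Lr (finRotate n) f)
  rw [l1_Lr, l1_Lr] at this
  rw [abs_of_pos (by norm_num : (0 : ℝ) < 1 / 2)]
  linarith

theorem l1_Pr_pow {n : ℕ} [NeZero n] (i : ℕ) (f : G n → ℝ) : l1 ((Pr ^ i) f) ≤ l1 f := by
  induction i with
  | zero => simp
  | succ i ih =>
    rw [pow_succ']
    exact (l1_Pr _).trans ih

/-- `perp` as a linear map -/
noncomputable def perpL {n : ℕ} : Module.End ℝ (G n → ℝ) where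
  toFun f := perp f
  map_add' f g := by
    funext σ
    simp only [perp, Pi.add_apply, Finset.sum_add_distrib, mul_add]
    ring
  map_smul' c f := by
    funext σ
    simp only [perp, Pi.smul_apply, smul_eq_mul, RingHom.id_apply]
    rw [← Finset.mul_sum]
    have : ∑ h : G n, ((Equiv.Perm.sign h : ℤ) : ℝ) * (c * f h) =
        c * ∑ h : G n, ((Equiv.Perm.sign h : ℤ) : ℝ) * f h := by
      rw [Finset.mul_sum]
      exact Finset.sum_congr rfl (fun _ _ => by ring)
    rw [this]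
    ring

theorem perpL_apply {n : ℕ} (f : G n → ℝ) : perpL f = perp f := rfl

/-- the sign character -/
noncomputable def sg {n : ℕ} : G n → ℝ := fun g => ((Equiv.Perm.sign g : ℤ) : ℝ)

theorem perp_eq {n : ℕ} (f : G n → ℝ) :
    f = perp f + (ms f / (n.factorial : ℝ)) • (fun _ => (1 : ℝ)) +
      ((∑ h : G n, ((Equiv.Perm.sign h : ℤ) : ℝ) * f h) / (n.factorial : ℝ)) • sg := by
  funext σ
  simp only [perp, Pi.add_apply, Pi.smul_apply, smul_eq_mul, ms_apply, sg]
  ring

theorem Pr_one {n : ℕ} [NeZero n] : Pr (fun _ : G n => (1 : ℝ)) = fun _ => (1 : ℝ) := by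
  funext σ
  rw [Pr_apply]
  norm_num

theorem sign_tau {n : ℕ} [NeZero n] (hn : 3 ≤ n) : Equiv.Perm.sign (tau : G n) = -1 := by
  unfold tau
  apply Equiv.Perm.sign_swap
  intro h
  have h1 := congrArg (fun x : Fin n => (x : ℕ)) h
  simp only [Fin.val_zero] at h1
  have : ((1 : Fin n) : ℕ) = 1 := by
    obtain ⟨k, rfl⟩ : ∃ k, n = k + 3 := ⟨n - 3, by omega⟩
    rfl
  omega

theorem sign_rot {n : ℕ} [NeZero n] (hn : 3 ≤ n) (hodd : Odd n) :
    Equiv.Perm.sign (finRotate n) = 1 := by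
  obtain ⟨k, rfl⟩ : ∃ k, n = k + 1 := ⟨n - 1, by omega⟩
  rw [sign_finRotate]
  obtain ⟨t, ht⟩ := hodd
  have : k = 2 * t := by omega
  rw [Nat.add_sub_cancel, this, pow_mul]
  norm_num

theorem Pr_sg {n : ℕ} [NeZero n] (hn : 3 ≤ n) (hodd : Odd n) : Pr (sg : G n → ℝ) = 0 := by
  funext σ
  rw [Pr_apply]
  simp only [sg, Equiv.Perm.sign_mul, Equiv.Perm.sign_inv, sign_tau hn, sign_rot hn hodd,
    Pi.zero_apply, one_mul]
  push_cast
  ring

theorem Pr_pow_one {n : ℕ} [NeZero n] (i : ℕ) :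
    (Pr ^ i) (fun _ : G n => (1 : ℝ)) = fun _ => (1 : ℝ) := by
  induction i with
  | zero => rfl
  | succ i ih => rw [pow_succ, Module.End.mul_apply, Pr_one, ih]

theorem Pr_pow_perp {n : ℕ} [NeZero n] (hn : 3 ≤ n) (hodd : Odd n) (i : ℕ) (f : G n → ℝ) :
    (Pr ^ (i + 1)) f - (ms f / (n.factorial : ℝ)) • (fun _ => (1 : ℝ)) =
      (Pr ^ (i + 1)) (perp f) := by
  conv_lhs => rw [perp_eq f]
  rw [map_add, map_add, map_smul, map_smul, Pr_pow_one]
  have h : (Pr ^ (i + 1)) (sg : G n → ℝ) = 0 := by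
    rw [pow_succ, Module.End.mul_apply, Pr_sg hn hodd, map_zero]
  rw [h, smul_zero, add_zero, ← perp_eq f]
  abel

theorem l1_Pr_pow_sub {n : ℕ} [NeZero n] (hn : 3 ≤ n) (hodd : Odd n) (i : ℕ) (f : G n → ℝ) :
    l1 ((Pr ^ (i + 1)) f - (ms f / (n.factorial : ℝ)) • (fun _ => (1 : ℝ))) ≤ l1 (perp f) := by
  rw [Pr_pow_perp hn hodd]
  exact l1_Pr_pow _ _

/-! words -/

/-- the point mass at the identity -/
noncomputable def d1 {n : ℕ} : G n → ℝ := fun g => if g = 1 then 1 else 0

theorem mu_zero {n : ℕ} [NeZero n] : (mu 0 : G n → ℝ) = d1 := rfl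

theorem mu_succ {n : ℕ} [NeZero n] (T : ℕ) : (mu (T + 1) : G n → ℝ) = Pr (mu T) := by
  funext g
  rw [Pr_apply]
  rfl

theorem eT_zero {n : ℕ} [NeZero n] (j : ℕ) : (eT 0 j : G n → ℝ) = if j = 0 then d1 else 0 := by
  funext g
  by_cases hj : j = 0
  · simp only [eT, hj, d1, true_and, if_true]
  · simp only [eT, hj, false_and, if_false, Pi.zero_apply]

theorem eT_succ_zero {n : ℕ} [NeZero n] (T : ℕ) :
    (eT (T + 1) 0 : G n → ℝ) = (1 / 2 : ℝ) • Lr tau (eT T 0) := by
  funext g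
  simp [eT, Lr_apply]

theorem eT_succ_succ {n : ℕ} [NeZero n] (T j : ℕ) :
    (eT (T + 1) (j + 1) : G n → ℝ) = (1 / 2 : ℝ) • Lr tau (eT T (j + 1)) +
      (1 / 2 : ℝ) • Lr (finRotate n) (eT T j) := by
  funext g
  simp [eT, Lr_apply]

/-- words of length `s` starting with `c` with exactly `m` letters `c` -/
noncomputable def aa {n : ℕ} [NeZero n] : ℕ → ℕ → G n → ℝ
  | 0, 0 => d1
  | 0, _ + 1 => 0
  | _ + 1, 0 => 0
  | m + 1, s + 1 => (1 / 2 : ℝ) • Lr (finRotate n) (eT s m)

theorem aa_succ_succ {n : ℕ} [NeZero n] (m s : ℕ) :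
    (aa (m + 1) (s + 1) : G n → ℝ) = (1 / 2 : ℝ) • Lr (finRotate n) (eT s m) := by
  rw [aa]

theorem eT_eq {n : ℕ} [NeZero n] (s m : ℕ) :
    (eT (s + 1) m : G n → ℝ) = (1 / 2 : ℝ) • Lr tau (eT s m) + aa m (s + 1) := by
  cases m with
  | zero => rw [eT_succ_zero, aa, add_zero]
  | succ m => rw [eT_succ_succ, aa_succ_succ]

theorem Pr_sum_eT {n : ℕ} [NeZero n] (m T : ℕ) :
    Pr (∑ j ∈ range m, (eT T j : G n → ℝ)) = ∑ j ∈ range m, eT (T + 1) j + aa m (T + 1) := by
  induction m with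
  | zero => simp [aa]
  | succ m ih =>
    rw [Finset.sum_range_succ, map_add, ih, Finset.sum_range_succ, eT_eq]
    have : Pr (eT T m : G n → ℝ) = (1 / 2 : ℝ) • Lr tau (eT T m) +
        (1 / 2 : ℝ) • Lr (finRotate n) (eT T m) := by
      simp only [Pr, LinearMap.smul_apply, LinearMap.add_apply, smul_add]
    rw [this, aa_succ_succ]
    abel

theorem mu_eq {n : ℕ} [NeZero n] (m T : ℕ) :
    (mu T : G n → ℝ) = ∑ s ∈ range (T + 1), (Pr ^ (T - s)) (aa m s) +
      ∑ j ∈ range m, eT T j := by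
  induction T with
  | zero =>
    rw [mu_zero]
    cases m with
    | zero => simp [aa]
    | succ m =>
      rw [Finset.sum_range_succ' (fun j => (eT 0 j : G n → ℝ))]
      have : ∑ k ∈ range m, (eT 0 (k + 1) : G n → ℝ) = 0 := by
        apply Finset.sum_eq_zero
        intro k _
        rw [eT_zero, if_neg (Nat.succ_ne_zero k)]
      rw [this, eT_zero]
      simp [aa]
  | succ T ih =>
    rw [mu_succ, ih, map_add, map_sum, Pr_sum_eT]
    rw [Finset.sum_range_succ (n := T + 1)]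
    have : ∑ s ∈ range (T + 1), Pr ((Pr ^ (T - s)) (aa m s : G n → ℝ)) =
        ∑ s ∈ range (T + 1), (Pr ^ (T + 1 - s)) (aa m s) := by
      apply Finset.sum_congr rfl
      intro s hs
      rw [Finset.mem_range] at hs
      have h2 : T + 1 - s = (T - s) + 1 := by omega
      rw [h2, pow_succ', Module.End.mul_apply]
    rw [this, Nat.sub_self, pow_zero, Module.End.one_apply]
    abel

theorem ms_mu {n : ℕ} [NeZero n] (T : ℕ) : ms (mu T : G n → ℝ) = 1 := by
  induction T with
  | zero =>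
    rw [mu_zero, ms_apply]
    simp [d1]
  | succ T ih => rw [mu_succ, ms_Pr, ih]

theorem eT_nonneg {n : ℕ} [NeZero n] (T : ℕ) : ∀ (j : ℕ) (g : G n), 0 ≤ eT T j g := by
  induction T with
  | zero =>
    intro j g
    simp only [eT]
    split_ifs <;> norm_num
  | succ T ih =>
    intro j g
    simp only [eT]
    have h1 := ih j (tau⁻¹ * g)
    have h2 := ih (j - 1) ((finRotate n)⁻¹ * g)
    split_ifs
    · linarith
    · linarith

theorem l1_of_nonneg {n : ℕ} (f : G n → ℝ) (hf : ∀ g, 0 ≤ f g) : l1 f = ms f := by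
  rw [l1, ms_apply]
  exact Finset.sum_congr rfl (fun g _ => abs_of_nonneg (hf g))

/-- first half of the reduction -/
theorem tv_half {n : ℕ} [NeZero n] (hn : 3 ≤ n) (hodd : Odd n) (m T : ℕ) :
    l1 (fun g : G n => mu (T + 1) g - 1 / (n.factorial : ℝ)) ≤
      2 * ∑ g : G n, ∑ j ∈ range m, eT T j g + ∑ s ∈ range (T + 1), l1 (perp (aa m s : G n → ℝ)) := by
  set R : G n → ℝ := ∑ j ∈ range m, eT T j with hR
  have hRnn : ∀ g, 0 ≤ R g := by
    intro g
    rw [hR, Finset.sum_apply]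
    exact Finset.sum_nonneg (fun j _ => eT_nonneg T j g)
  have hRm : ∑ g : G n, ∑ j ∈ range m, eT T j g = ms R := by
    rw [ms_apply]
    apply Finset.sum_congr rfl
    intro g _
    rw [hR, Finset.sum_apply]
  have hmu : (mu (T + 1) : G n → ℝ) = ∑ s ∈ range (T + 1), (Pr ^ (T - s + 1)) (aa m s) + Pr R := by
    rw [mu_succ, mu_eq m T, map_add, map_sum]
    congr 1
    apply Finset.sum_congr rfl
    intro s _
    rw [pow_succ', Module.End.mul_apply]
  have hmass : (1 : ℝ) = ∑ s ∈ range (T + 1), ms (aa m s : G n → ℝ) + ms R := by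
    rw [← ms_mu (n := n) T, mu_eq m T, map_add, map_sum]
    congr 1
    apply Finset.sum_congr rfl
    intro s _
    generalize T - s = i
    induction i with
    | zero => rfl
    | succ i ih => rw [pow_succ', Module.End.mul_apply, ms_Pr, ih]
  have hfun : (fun g : G n => mu (T + 1) g - 1 / (n.factorial : ℝ)) =
      ∑ s ∈ range (T + 1), ((Pr ^ (T - s + 1)) (aa m s) -
        (ms (aa m s : G n → ℝ) / (n.factorial : ℝ)) • (fun _ => (1 : ℝ))) +
      (Pr R - (ms R / (n.factorial : ℝ)) • (fun _ => (1 : ℝ))) := by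
    rw [Finset.sum_sub_distrib, ← Finset.sum_smul, ← Finset.sum_div]
    have h1 : (∑ s ∈ range (T + 1), ms (aa m s : G n → ℝ)) = 1 - ms R := by linarith
    rw [h1]
    funext g
    have h2 := congrFun hmu g
    rw [Pi.add_apply] at h2
    simp only [Pi.add_apply, Pi.sub_apply, Pi.smul_apply, smul_eq_mul]
    rw [h2]
    ring
  rw [hfun]
  refine (l1_add _ _).trans ?_
  have hA : l1 (∑ s ∈ range (T + 1), ((Pr ^ (T - s + 1)) (aa m s : G n → ℝ) -
        (ms (aa m s : G n → ℝ) / (n.factorial : ℝ)) • (fun _ => (1 : ℝ)))) ≤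
      ∑ s ∈ range (T + 1), l1 (perp (aa m s : G n → ℝ)) := by
    refine (l1_sum _ _).trans ?_
    apply Finset.sum_le_sum
    intro s _
    exact l1_Pr_pow_sub hn hodd _ _
  have hB : l1 (Pr R - (ms R / (n.factorial : ℝ)) • (fun _ => (1 : ℝ))) ≤ 2 * ms R := by
    have h1 : Pr R - (ms R / (n.factorial : ℝ)) • (fun _ => (1 : ℝ)) =
        Pr R + (-(ms R / (n.factorial : ℝ))) • (fun _ => (1 : ℝ)) := by
      rw [neg_smul, sub_eq_add_neg]
    rw [h1]
    refine (l1_add _ _).trans ?_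
    rw [l1_smul]
    have h2 : l1 (Pr R) ≤ ms R := (l1_Pr R).trans (le_of_eq (l1_of_nonneg R hRnn))
    have h3 : l1 (fun _ : G n => (1 : ℝ)) = (n.factorial : ℝ) := by
      simp [l1, Fintype.card_perm]
    have h4 : 0 ≤ ms R := by
      rw [← l1_of_nonneg R hRnn]
      exact l1_nonneg _
    have h5 : (0 : ℝ) < (n.factorial : ℝ) := by
      exact_mod_cast Nat.factorial_pos n
    rw [h3, abs_neg, abs_of_nonneg (div_nonneg h4 h5.le), div_mul_cancel₀ _ h5.ne']
    linarith
  rw [hRm]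
  linarith

/-! the weights -/

/-- coefficients of `((3z/4)/(1 - z²/4))^m` -/
noncomputable def ff : ℕ → ℕ → ℝ
  | 0, r => if r = 0 then 1 else 0
  | _ + 1, 0 => 0
  | m + 1, 1 => (3 / 4) * ff m 0
  | m + 1, r + 2 => (3 / 4) * ff m (r + 1) + (1 / 4) * ff (m + 1) r
termination_by m r => (m, r)

theorem ff_zero (r : ℕ) : ff 0 r = if r = 0 then 1 else 0 := by rw [ff]

theorem ff_succ_zero (m : ℕ) : ff (m + 1) 0 = 0 := by rw [ff]

theorem ff_succ_one (m : ℕ) : ff (m + 1) 1 = (3 / 4) * ff m 0 := by rw [ff]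

theorem ff_succ_add_two (m r : ℕ) :
    ff (m + 1) (r + 2) = (3 / 4) * ff m (r + 1) + (1 / 4) * ff (m + 1) r := by rw [ff]

theorem ff_nonneg (m : ℕ) : ∀ r, 0 ≤ ff m r := by
  induction m with
  | zero =>
    intro r
    rw [ff_zero]
    split_ifs <;> norm_num
  | succ m ih =>
    intro r
    induction r using Nat.strong_induction_on with
    | _ r ih2 =>
      match r, ih2 with
      | 0, _ => rw [ff_succ_zero]
      | 1, _ =>
        rw [ff_succ_one]
        have := ih 0
        linarith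
      | r + 2, ih2 =>
        rw [ff_succ_add_two]
        have h1 := ih (r + 1)
        have h2 := ih2 r (by omega)
        linarith

theorem ff_sum_le (m : ℕ) : ∀ N, ∑ r ∈ range N, ff m r ≤ 1 := by
  induction m with
  | zero =>
    intro N
    simp only [ff_zero]
    rw [Finset.sum_ite_eq']
    split_ifs <;> norm_num
  | succ m ih =>
    intro N
    induction N using Nat.strong_induction_on with
    | _ N ih2 =>
      match N, ih2 with
      | 0, _ => simp
      | 1, _ =>
        rw [Finset.sum_range_one, ff_succ_zero]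
        norm_num
      | N + 2, ih2 =>
        rw [Finset.sum_range_succ', Finset.sum_range_succ', ff_succ_zero, ff_succ_one]
        have h1 : ∑ k ∈ range N, ff (m + 1) (k + 1 + 1) =
            (3 / 4) * ∑ k ∈ range N, ff m (k + 1) + (1 / 4) * ∑ k ∈ range N, ff (m + 1) k := by
          rw [Finset.mul_sum, Finset.mul_sum, ← Finset.sum_add_distrib]
          exact Finset.sum_congr rfl (fun k _ => ff_succ_add_two m k)
        rw [h1]
        have h2 := ih (N + 1)
        rw [Finset.sum_range_succ'] at h2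
        have h3 := ih2 N (by omega)
        linarith

/-! Claim A -/

theorem bE_zero {n : ℕ} [NeZero n] (E : ℕ) : (bE 0 E : G n → ℝ) = if E = 0 then d1 else 0 := by
  funext g
  by_cases hj : E = 0
  · simp only [bE, hj, d1, true_and, if_true]
  · simp only [bE, hj, false_and, if_false, Pi.zero_apply]

theorem bE_succ_zero {n : ℕ} [NeZero n] (m : ℕ) :
    (bE (m + 1) 0 : G n → ℝ) = (2 / 3 : ℝ) • Lr (finRotate n) (bE m 0) := by
  funext g
  simp [bE, Lr_apply]

theorem bE_succ_succ {n : ℕ} [NeZero n] (m E : ℕ) :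
    (bE (m + 1) (E + 1) : G n → ℝ) = (2 / 3 : ℝ) • Lr (finRotate n) (bE m (E + 1)) +
      (1 / 3 : ℝ) • Lr (finRotate n * tau) (bE m E) := by
  funext g
  simp [bE, Lr_apply]

theorem bE_eq_zero {n : ℕ} [NeZero n] (m : ℕ) : ∀ E, m < E → (bE m E : G n → ℝ) = 0 := by
  induction m with
  | zero =>
    intro E hE
    rw [bE_zero, if_neg (by omega)]
  | succ m ih =>
    intro E hE
    obtain ⟨E, rfl⟩ : ∃ E', E = E' + 1 := ⟨E - 1, by omega⟩
    rw [bE_succ_succ, ih _ (by omega), ih _ (by omega)]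
    simp

/-- the combination of the `bE m E` -/
noncomputable def BB {n : ℕ} [NeZero n] (m s : ℕ) : G n → ℝ :=
  ∑ p ∈ antidiagonal s, ff m p.2 • bE m p.1

theorem tau_mul_tau {n : ℕ} [NeZero n] : (tau * tau : G n) = 1 := by
  unfold tau
  exact Equiv.swap_mul_self _ _

theorem aa_rec {n : ℕ} [NeZero n] (m s : ℕ) :
    (aa (m + 1) (s + 2) : G n → ℝ) = (1 / 2 : ℝ) • Lr (finRotate n) (aa m (s + 1)) +
      (1 / 4 : ℝ) • Lr (finRotate n * tau) (aa m s) + (1 / 4 : ℝ) • aa (m + 1) s := by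
  rw [aa_succ_succ, eT_eq, map_add, map_smul, Lr_Lr]
  cases s with
  | zero =>
    have h1 : (eT 0 m : G n → ℝ) = aa m 0 := by
      rw [eT_zero]
      cases m with
      | zero => simp [aa]
      | succ m => simp [aa]
    have h2 : (aa (m + 1) 0 : G n → ℝ) = 0 := by rw [aa]
    rw [h1, h2, smul_zero, add_zero, smul_add, smul_smul]
    norm_num
    abel
  | succ s =>
    rw [eT_eq s m, map_add, map_smul, Lr_Lr, mul_assoc, tau_mul_tau, mul_one, aa_succ_succ]
    simp only [smul_add, smul_smul]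
    norm_num
    abel

theorem BB_aux {n : ℕ} [NeZero n] (m s : ℕ) :
    ∑ p ∈ antidiagonal (s + 1), ff m p.2 • (bE (m + 1) p.1 : G n → ℝ) =
      (2 / 3 : ℝ) • Lr (finRotate n) (BB m (s + 1)) +
        (1 / 3 : ℝ) • Lr (finRotate n * tau) (BB m s) := by
  rw [BB, BB, Finset.Nat.antidiagonal_succ]
  rw [Finset.sum_cons, Finset.sum_cons, Finset.sum_map, Finset.sum_map]
  simp only [Function.Embedding.prodMap, Function.Embedding.coeFn_mk, Prod.map_fst, Prod.map_snd,
    Function.Embedding.refl_apply, Nat.succ_eq_add_one]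
  rw [bE_succ_zero]
  simp only [bE_succ_succ, smul_add, Finset.sum_add_distrib, map_add, map_sum, map_smul,
    Finset.smul_sum, smul_smul]
  have e1 : ∀ x y : ℝ, x * y = y * x := mul_comm
  simp only [mul_comm (2 / 3 : ℝ), mul_comm (1 / 3 : ℝ)]
  abel

theorem BB_rec {n : ℕ} [NeZero n] (m s : ℕ) :
    (BB (m + 1) (s + 2) : G n → ℝ) = (1 / 2 : ℝ) • Lr (finRotate n) (BB m (s + 1)) +
      (1 / 4 : ℝ) • Lr (finRotate n * tau) (BB m s) + (1 / 4 : ℝ) • BB (m + 1) s := by
  have h1 : (BB (m + 1) (s + 2) : G n → ℝ) = (3 / 4 : ℝ) •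
      (∑ p ∈ antidiagonal (s + 1), ff m p.2 • (bE (m + 1) p.1 : G n → ℝ)) +
      (1 / 4 : ℝ) • BB (m + 1) s := by
    rw [BB, Finset.Nat.sum_antidiagonal_succ', Finset.Nat.sum_antidiagonal_succ',
      Finset.Nat.sum_antidiagonal_succ', BB]
    simp only [ff_succ_zero, zero_smul, zero_add, ff_succ_one]
    have h2 : ∀ p : ℕ × ℕ, ff (m + 1) (p.2 + 1 + 1) • (bE (m + 1) p.1 : G n → ℝ) =
        (3 / 4 : ℝ) • (ff m (p.2 + 1) • bE (m + 1) p.1) +
          (1 / 4 : ℝ) • (ff (m + 1) p.2 • bE (m + 1) p.1) := by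
      intro p
      rw [ff_succ_add_two, add_smul, smul_smul, smul_smul]
    simp only [h2, Finset.sum_add_distrib, ← Finset.smul_sum, smul_add]
    rw [mul_smul]
    abel
  rw [h1, BB_aux]
  simp only [smul_add, smul_smul]
  norm_num

theorem aa_eq_BB {n : ℕ} [NeZero n] (m : ℕ) : ∀ s, (aa m s : G n → ℝ) = BB m s := by
  induction m with
  | zero =>
    intro s
    rw [BB]
    cases s with
    | zero =>
      simp [aa, ff_zero, bE_zero]
    | succ s =>
      rw [aa]
      symm
      apply Finset.sum_eq_zero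
      intro p hp
      have hp := Finset.HasAntidiagonal.mem_antidiagonal.mp hp
      rw [ff_zero, bE_zero]
      by_cases h2 : p.2 = 0
      · have : p.1 ≠ 0 := by omega
        rw [if_neg this, smul_zero]
      · rw [if_neg h2, zero_smul]
  | succ m ih =>
    intro s
    induction s using Nat.strong_induction_on with
    | _ s ih2 =>
      match s, ih2 with
      | 0, _ =>
        rw [BB]
        simp [aa, ff_succ_zero]
      | 1, _ =>
        have h0 : (aa (m + 1) 1 : G n → ℝ) = (1 / 2 : ℝ) • Lr (finRotate n) (aa m 0) := by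
          rw [aa_succ_succ, eT_zero]
          cases m with
          | zero => simp [aa]
          | succ m => simp [aa]
        rw [h0, ih 0, BB, BB, Finset.Nat.sum_antidiagonal_succ']
        simp only [Finset.Nat.antidiagonal_zero, Finset.sum_singleton, ff_succ_zero, zero_smul,
          zero_add, ff_succ_one, bE_succ_zero, map_smul, smul_smul]
        congr 1
        ring
      | s + 2, ih2 =>
        rw [aa_rec, BB_rec, ih, ih, ih2 s (by omega)]

theorem sum_l1_aa {n : ℕ} [NeZero n] (m T : ℕ) :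
    ∑ s ∈ range (T + 1), l1 (perp (aa m s : G n → ℝ)) ≤
      ∑ E ∈ range (m + 1), l1 (perp (bE m E : G n → ℝ)) := by
  set w : ℕ → ℝ := fun E => l1 (perp (bE m E : G n → ℝ)) with hw
  have hwnn : ∀ E, 0 ≤ w E := fun E => l1_nonneg _
  have hw0 : ∀ E, m < E → w E = 0 := by
    intro E hE
    simp only [hw]
    rw [bE_eq_zero m E hE, ← perpL_apply, map_zero, l1_zero]
  have h1 : ∀ s, l1 (perp (aa m s : G n → ℝ)) ≤ ∑ E ∈ range (s + 1), ff m (s - E) * w E := by
    intro s
    rw [aa_eq_BB, BB, ← perpL_apply, map_sum]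
    refine (l1_sum _ _).trans ?_
    rw [Finset.Nat.sum_antidiagonal_eq_sum_range_succ_mk]
    apply Finset.sum_le_sum
    intro E _
    rw [map_smul, l1_smul, abs_of_nonneg (ff_nonneg _ _), perpL_apply]
  calc ∑ s ∈ range (T + 1), l1 (perp (aa m s : G n → ℝ))
      ≤ ∑ s ∈ range (T + 1), ∑ E ∈ range (s + 1), ff m (s - E) * w E :=
        Finset.sum_le_sum (fun s _ => h1 s)
    _ = ∑ E ∈ range (T + 1), ∑ r ∈ range (T + 1 - E), ff m r * w E :=
        Finset.sum_range_diag_flip (T + 1) (fun E r => ff m r * w E)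
    _ ≤ ∑ E ∈ range (T + 1), w E := by
        apply Finset.sum_le_sum
        intro E _
        rw [← Finset.sum_mul]
        have := mul_le_mul_of_nonneg_right (ff_sum_le m (T + 1 - E)) (hwnn E)
        linarith
    _ ≤ ∑ E ∈ range (m + 1), w E := by
        have h2 : ∑ E ∈ range (T + 1), w E = ∑ E ∈ (range (T + 1)).filter (fun E => E ≤ m), w E := by
          rw [Finset.sum_filter]
          apply Finset.sum_congr rfl
          intro E _
          split_ifs with h
          · rfl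
          · exact hw0 E (by omega)
        rw [h2]
        apply Finset.sum_le_sum_of_subset_of_nonneg
        · intro E hE
          rw [Finset.mem_filter] at hE
          rw [Finset.mem_range]
          omega
        · intro E _ _
          exact hwnn E

end TVR

open TVR

theorem tv_reduction {n : ℕ} [NeZero n] (hn : 3 ≤ n) (hodd : Odd n) (m T : ℕ) :
    ∑ g : G n, |mu (T + 1) g - 1 / (n.factorial : ℝ)| ≤
      2 * ∑ g : G n, ∑ j ∈ range m, eT T j g +
        ∑ E ∈ range (m + 1), ∑ g : G n, |perp (bE m E) g| := by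
  have h1 := tv_half (n := n) hn hodd m T
  have h2 := sum_l1_aa (n := n) m T
  simp only [l1] at h1 h2
  linarith

theorem rho_bound {n : ℕ} [NeZero n] (m T : ℕ) (x : ℝ) (hx : 0 < x) (hx1 : x ≤ 1) :
    ∑ g : G n, ∑ j ∈ range m, eT T j g ≤ (x⁻¹) ^ m * ((1 + x) / 2) ^ T := by
  have hR : ∀ (m T : ℕ), ∑ g : G n, ∑ j ∈ range m, eT T j g = ms (∑ j ∈ range m, (eT T j : G n → ℝ)) := by
    intro m T
    rw [ms_apply]
    exact Finset.sum_congr rfl (fun g _ => by rw [Finset.sum_apply])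
  rw [hR]
  have hx' : 1 ≤ x⁻¹ := (one_le_inv₀ hx).mpr hx1
  induction T generalizing m with
  | zero =>
    rw [pow_zero, mul_one]
    have h1 : ms (∑ j ∈ range m, (eT 0 j : G n → ℝ)) ≤ 1 := by
      cases m with
      | zero => simp
      | succ m =>
        rw [Finset.sum_range_succ']
        have : ∑ k ∈ range m, (eT 0 (k + 1) : G n → ℝ) = 0 := by
          apply Finset.sum_eq_zero
          intro k _
          rw [eT_zero, if_neg (Nat.succ_ne_zero k)]
        rw [this, eT_zero, zero_add, if_pos rfl, ms_apply]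
        simp [d1]
    exact h1.trans (one_le_pow₀ hx')
  | succ T ih =>
    cases m with
    | zero =>
      simp only [Finset.range_zero, Finset.sum_empty, map_zero, pow_zero, one_mul]
      positivity
    | succ m =>
      have h1 : ms (∑ j ∈ range (m + 1), (eT (T + 1) j : G n → ℝ)) =
          (1 / 2) * ms (∑ j ∈ range (m + 1), (eT T j : G n → ℝ)) +
            (1 / 2) * ms (∑ j ∈ range m, (eT T j : G n → ℝ)) := by
        rw [Finset.sum_range_succ', eT_succ_zero]
        simp only [eT_succ_succ, map_add, map_sum, map_smul, ms_Lr, smul_eq_mul,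
          Finset.sum_add_distrib, ← Finset.mul_sum]
        rw [Finset.sum_range_succ' (fun j => ms (eT T j : G n → ℝ))]
        ring
      have h2 := ih (m + 1)
      have h3 := ih m
      rw [h1]
      have h4 : (x⁻¹) ^ (m + 1) * ((1 + x) / 2) ^ (T + 1) =
          (1 / 2) * ((x⁻¹) ^ (m + 1) * ((1 + x) / 2) ^ T) +
            (1 / 2) * ((x⁻¹) ^ m * ((1 + x) / 2) ^ T) := by
        rw [pow_succ (x⁻¹) m, pow_succ ((1 + x) / 2) T]
        field_simp
      rw [h4]
      linarith

end Pool.Agent.Lib.MP_cad76e_pr
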