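import Pool.Agent.Lib.MP_cad76e_pr.Defs
import Pool.Agent.Lib.MP_cad76e_pr.LA1
import Pool.Agent.Lib.MP_cad76e_pr.GB
import Pool.Agent.Lib.MP_cad76e_pr.RN
import Pool.Agent.Lib.MP_cad76e_pr.DOM

/-! Module UAB: the operators `(Dy y) ^ m` on `UA A`. -/

set_option autoImplicit false

namespace Pool.Agent.Lib.MP_cad76e_pr

open Finset Filter Topology

theorem uab_pow_mem {n : ℕ} (U : Submodule ℂ (G n → ℂ)) (T : Module.End ℂ (G n → ℂ))
    (hT : ∀ f ∈ U, T f ∈ U) (m : ℕ) : ∀ f ∈ U, (T ^ m) f ∈ U := by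
  induction m with
  | zero =>
    intro f hf
    simpa using hf
  | succ m ih =>
    intro f hf
    rw [pow_succ, Module.End.mul_apply]
    exact ih _ (hT f hf)

theorem uab_nsq_smul {n : ℕ} (c : ℂ) (f : G n → ℂ) : nsq (c • f) = ‖c‖ ^ 2 * nsq f := by
  simp only [nsq, Pi.smul_apply, smul_eq_mul, norm_mul, mul_pow, Finset.mul_sum]

theorem hs_UA_Dy_le {n : ℕ} [NeZero n] (hn : 3 ≤ n) (A : Finset (Fin n)) (y : ℂ)
    (hy : ‖y‖ = 1) (q : ℝ) (hq : 0 ≤ q)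
    (hS : ∀ f ∈ UA A, nsq (SE (2 * y / (2 + y)) f) ≤ q * nsq f) (j0 j1 : ℕ) :
    hs (UA A) ((Dy y) ^ (n * (j1 + j0))) ≤
      (‖2 + y‖ / 3) ^ (2 * (n * j1)) * q ^ j1 * hs (FA A) ((SE (2 / 3 : ℂ)) ^ j0) := by
  have h2y : (2 : ℂ) + y ≠ 0 := by
    intro h
    have h1 : y = -2 := by linear_combination h
    rw [h1] at hy
    simp at hy
  have h21 : (2 : ℂ) + 1 ≠ 0 := by norm_num
  have hUinv : ∀ g : G n, ∀ f ∈ UA A, Lg g f ∈ UA A := fun g f hf => Lg_UA A g f hf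
  have hFinv : ∀ g : G n, ∀ f ∈ FA A, Lg g f ∈ FA A := fun g f hf => Lg_FA A g f hf
  have hUF : UA A ≤ FA A := fun f hf => hf.1
  -- powers of `Dy`
  have hpow : ∀ (z : ℂ), 2 + z ≠ 0 → ∀ j : ℕ, (Dy z : Module.End ℂ (G n → ℂ)) ^ (n * j) =
      ((2 + z) / 3) ^ (n * j) •
        (Lg (finRotate n) * (SE (2 * z / (2 + z))) ^ j * Lg (finRotate n)⁻¹) := by
    intro z hz j
    rw [Dy_eq z hz, smul_pow, CP_pow hn]
  -- the first factor
  have hR : ∀ f ∈ UA A, nsq (((Dy y) ^ (n * j1)) f) ≤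
      ((‖2 + y‖ / 3) ^ (2 * (n * j1)) * q ^ j1) * nsq f := by
    intro f hf
    have hSj : ∀ (j : ℕ) (f : G n → ℂ), f ∈ UA A →
        nsq (((SE (2 * y / (2 + y))) ^ j) f) ≤ q ^ j * nsq f := by
      intro j
      induction j with
      | zero =>
        intro f _
        simp
      | succ j ih =>
        intro f hf
        rw [pow_succ, Module.End.mul_apply]
        calc nsq (((SE (2 * y / (2 + y))) ^ j) (SE (2 * y / (2 + y)) f))
            ≤ q ^ j * nsq (SE (2 * y / (2 + y)) f) := ih _ (SE_mem _ _ hUinv f hf)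
          _ ≤ q ^ j * (q * nsq f) := mul_le_mul_of_nonneg_left (hS f hf) (pow_nonneg hq j)
          _ = q ^ (j + 1) * nsq f := by ring
    rw [hpow y h2y, LinearMap.smul_apply, uab_nsq_smul, Module.End.mul_apply,
      Module.End.mul_apply, nsq_Lg, norm_pow, norm_div]
    have h3 : ‖(3 : ℂ)‖ = 3 := by simp
    rw [h3]
    have h4 := hSj j1 (Lg (finRotate n)⁻¹ f) (hUinv _ f hf)
    rw [nsq_Lg] at h4
    calc ((‖2 + y‖ / 3) ^ (n * j1)) ^ 2 *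
          nsq (((SE (2 * y / (2 + y))) ^ j1) (Lg (finRotate n)⁻¹ f))
        ≤ ((‖2 + y‖ / 3) ^ (n * j1)) ^ 2 * (q ^ j1 * nsq f) :=
          mul_le_mul_of_nonneg_left h4 (by positivity)
      _ = ((‖2 + y‖ / 3) ^ (2 * (n * j1)) * q ^ j1) * nsq f := by
          rw [← pow_mul, mul_comm (n * j1) 2]
          ring
  have hC0 : 0 ≤ (‖2 + y‖ / 3) ^ (2 * (n * j1)) * q ^ j1 := by positivity
  have hT : ∀ f ∈ UA A, ((Dy y) ^ (n * j0)) f ∈ UA A :=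
    uab_pow_mem (UA A) (Dy y) (fun f hf => Dy_mem y (UA A) hUinv f hf) _
  have h1 : hs (UA A) ((Dy y) ^ (n * (j1 + j0))) ≤
      ((‖2 + y‖ / 3) ^ (2 * (n * j1)) * q ^ j1) * hs (UA A) ((Dy y) ^ (n * j0)) := by
    rw [mul_add, pow_add]
    exact hs_comp_le _ _ _ hC0 hT hR
  have h2 : hs (UA A) ((Dy y) ^ (n * j0)) ≤ hs (FA A) ((SE (2 / 3 : ℂ)) ^ j0) := by
    have e1 : (2 * (1 : ℂ) / (2 + 1)) = 2 / 3 := by norm_num
    have e2 : (((2 : ℂ) + 1) / 3) ^ (n * j0) = 1 := by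
      norm_num
    calc hs (UA A) ((Dy y) ^ (n * j0)) ≤ hs (FA A) ((Dy y) ^ (n * j0)) := hs_mono hUF _
      _ ≤ hs (FA A) ((Dy 1) ^ (n * j0)) := hs_FA_Dy_le A y hy _
      _ = hs (FA A) (Lg (finRotate n) * (SE (2 / 3 : ℂ)) ^ j0 * Lg (finRotate n)⁻¹) := by
          rw [hpow 1 h21, e1, e2, one_smul]
      _ = hs (FA A) (Lg (finRotate n) * (SE (2 / 3 : ℂ)) ^ j0) :=
          hs_comp_isometry (FA A) (Lg (finRotate n) * (SE (2 / 3 : ℂ)) ^ j0)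
            (Lg (finRotate n)⁻¹) (fun f => nsq_Lg _ f) (fun f hf => hFinv _ f hf)
      _ ≤ 1 * hs (FA A) ((SE (2 / 3 : ℂ)) ^ j0) := by
          refine hs_comp_le (U' := FA A) _ _ 1 zero_le_one
            (uab_pow_mem (FA A) _ (fun f hf => SE_mem _ (FA A) hFinv f hf) _) ?_
          intro f _
          rw [nsq_Lg, one_mul]
      _ = hs (FA A) ((SE (2 / 3 : ℂ)) ^ j0) := one_mul _
  exact le_trans h1 (mul_le_mul_of_nonneg_left h2 hC0)

end Pool.Agent.Lib.MP_cad76e_pr
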