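import Pool.Agent.Lib.MP_cad76e_pr.Defs
import Pool.Agent.Lib.MP_cad76e_pr.GB
import Pool.Agent.Lib.MP_cad76e_pr.LA2
import Pool.Agent.Lib.MP_cad76e_pr.SP
import Pool.Agent.Lib.MP_cad76e_pr.UAB
import Pool.Agent.Lib.MP_cad76e_pr.PAR1
import Pool.Agent.Lib.MP_cad76e_pr.PAR2
import Pool.Agent.Lib.MP_cad76e_pr.SUMY

set_option autoImplicit false

namespace Pool.Agent.Lib.MP_cad76e_pr

open Finset

theorem norm_two_add_sq (y : ℂ) (hy : ‖y‖ = 1) : (‖2 + y‖ / 3) ^ 2 = 1 - (2 / 9) * ‖y - 1‖ ^ 2 := by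
  have h1 : ‖2 + y‖ ^ 2 = 5 + 4 * y.re := by
    rw [← Complex.normSq_eq_norm_sq, Complex.normSq_apply]
    have h2 : y.re * y.re + y.im * y.im = 1 := by
      rw [← Complex.normSq_apply, Complex.normSq_eq_norm_sq, hy]; norm_num
    simp only [Complex.add_re, Complex.add_im, Complex.re_ofNat, Complex.im_ofNat, zero_add]
    nlinarith
  have h3 : ‖y - 1‖ ^ 2 = 2 - 2 * y.re := by
    rw [← Complex.normSq_eq_norm_sq, Complex.normSq_apply]
    have h2 : y.re * y.re + y.im * y.im = 1 := by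
      rw [← Complex.normSq_apply, Complex.normSq_eq_norm_sq, hy]; norm_num
    simp only [Complex.sub_re, Complex.sub_im, Complex.one_re, Complex.one_im, sub_zero]
    nlinarith
  rw [div_pow, h1, h3]
  ring

theorem two_add_ne (y : ℂ) (hy : ‖y‖ = 1) : 2 + y ≠ 0 := by
  intro h
  have : y = -2 := by linear_combination h
  rw [this] at hy
  norm_num at hy

theorem b_near (y : ℂ) (hy : ‖y‖ = 1) : ‖2 * y / (2 + y) - 2 / 3‖ ≤ (4 / 3) * ‖y - 1‖ := by
  have h0 := two_add_ne y hy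
  have h1 : 2 * y / (2 + y) - 2 / 3 = (4 / 3) * (y - 1) / (2 + y) := by
    field_simp
    ring
  have h2 : 1 ≤ ‖2 + y‖ := by
    have := norm_sub_norm_le (2 : ℂ) (-y)
    rw [norm_neg, hy, sub_neg_eq_add] at this
    norm_num at this
    linarith
  rw [h1, norm_div, norm_mul]
  have h3 : ‖(4 / 3 : ℂ)‖ = 4 / 3 := by norm_num
  rw [h3]
  exact div_le_self (by positivity) h2

/-- The bound for `Re y ≥ 0`. -/
theorem N_bound_pos {n : ℕ} [NeZero n] (hn : 3 ≤ n) (j0 j1 r : ℕ) (δ : ℝ) (hδ : 0 < δ)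
    (q : Finset (Fin n) → ℝ) (hq0 : ∀ B, 0 ≤ q B)
    (hS : ∀ b : ℂ, ‖b - 2 / 3‖ ≤ δ → ∀ B : Finset (Fin n), B.Nonempty → ∀ f ∈ UA B,
      nsq (SE b f) ≤ q B * nsq f)
    (hsm : ∀ A : Finset (Fin n), hs (FA A) ((SE (2 / 3 : ℂ)) ^ j0) ≤ (2 * (r : ℝ)) ^ #A)
    (y : ℂ) (hy : ‖y‖ = 1) (hre : 0 ≤ y.re) :
    (n.factorial : ℝ) * nsq (perpC (((Dy y) ^ (n * (j1 + j0))) (dlt : G n → ℂ))) ≤
      (‖2 + y‖ / 3) ^ (2 * (n * j1)) *
        (∑ B : {B : Finset (Fin n) // B.Nonempty}, (2 * (r : ℝ)) ^ #(B : Finset (Fin n)) *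
          q (B : Finset (Fin n)) ^ j1) +
      (n.factorial : ℝ) * (1 - (2 / 9) * min (3 / 4 * δ) 1 ^ 2) ^ (n * (j1 + j0)) := by
  have hΞ0 : 0 ≤ ∑ B : {B : Finset (Fin n) // B.Nonempty}, (2 * (r : ℝ)) ^ #(B : Finset (Fin n)) *
          q (B : Finset (Fin n)) ^ j1 :=
    Finset.sum_nonneg fun B _ => mul_nonneg (by positivity) (pow_nonneg (hq0 _) _)
  have hmin1 : min (3 / 4 * δ) 1 ≤ 1 := min_le_right _ _
  have hmin0 : 0 < min (3 / 4 * δ) 1 := by positivity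
  have hbase : 0 ≤ 1 - (2 / 9) * min (3 / 4 * δ) 1 ^ 2 := by
    have : min (3 / 4 * δ) 1 ^ 2 ≤ 1 := pow_le_one₀ hmin0.le hmin1
    linarith
  by_cases hnear : ‖y - 1‖ ≤ min (3 / 4 * δ) 1
  · have h1 := perp_le_hs (by omega : 2 ≤ n) (n * (j1 + j0)) y (n := n)
    obtain ⟨D', hD', hD'mem⟩ := Dy_adj (n := n) y
    have hb : ‖2 * y / (2 + y) - 2 / 3‖ ≤ δ := by
      have := b_near y hy
      have h2 : ‖y - 1‖ ≤ 3 / 4 * δ := hnear.trans (min_le_left _ _)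
      linarith
    have hpowadj : ∀ m : ℕ, IsAdj ((Dy y : Module.End ℂ (G n → ℂ)) ^ m) (D' ^ m) := by
      intro m
      induction m with
      | zero => intro f g; simp
      | succ m ih =>
        intro f g
        rw [pow_succ, pow_succ', Module.End.mul_apply, Module.End.mul_apply, ih, hD']
    have hpowmem : ∀ (B : Finset (Fin n)) (m : ℕ), ∀ f ∈ UA B, ((Dy y) ^ m) f ∈ UA B := by
      intro B m
      induction m with
      | zero => intro f hf; simpa using hf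
      | succ m ih =>
        intro f hf
        rw [pow_succ, Module.End.mul_apply]
        exact ih _ (Dy_mem y (UA B) (fun g f hf => Lg_UA B g f hf) f hf)
    have hpowmem' : ∀ (B : Finset (Fin n)) (m : ℕ), ∀ f ∈ UA B, (D' ^ m) f ∈ UA B := by
      intro B m
      induction m with
      | zero => intro f hf; simpa using hf
      | succ m ih =>
        intro f hf
        rw [pow_succ, Module.End.mul_apply]
        exact ih _ (hD'mem (UA B) (fun g f hf => Lg_UA B g f hf) f hf)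
    have h2 : hs (V0 n) ((Dy y) ^ (n * (j1 + j0))) ≤
        ∑ B : {B : Finset (Fin n) // B.Nonempty}, hs (UA (B : Finset (Fin n)))
          ((Dy y) ^ (n * (j1 + j0))) :=
      hs_iSup_le (fun B : {B : Finset (Fin n) // B.Nonempty} => UA (B : Finset (Fin n)))
        ((Dy y) ^ (n * (j1 + j0))) (D' ^ (n * (j1 + j0))) (hpowadj _)
        (fun B f hf => hpowmem B _ f hf) (fun B f hf => hpowmem' B _ f hf) (V0 n) V0_le
    have h3 : ∀ B ∈ (Finset.univ : Finset {B : Finset (Fin n) // B.Nonempty}),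
        hs (UA (B : Finset (Fin n))) ((Dy y) ^ (n * (j1 + j0))) ≤
          (‖2 + y‖ / 3) ^ (2 * (n * j1)) * ((2 * (r : ℝ)) ^ #(B : Finset (Fin n)) *
          q (B : Finset (Fin n)) ^ j1) := by
      intro B _
      have h4 := hs_UA_Dy_le hn (B : Finset (Fin n)) y hy (q B) (hq0 B) (hS _ hb B B.2) j0 j1
      have h5 := hsm (B : Finset (Fin n))
      refine h4.trans ?_
      have h6 : 0 ≤ (‖2 + y‖ / 3) ^ (2 * (n * j1)) * q (B : Finset (Fin n)) ^ j1 :=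
        mul_nonneg (by positivity) (pow_nonneg (hq0 _) _)
      calc (‖2 + y‖ / 3) ^ (2 * (n * j1)) * q (B : Finset (Fin n)) ^ j1 *
            hs (FA (B : Finset (Fin n))) ((SE (2 / 3 : ℂ)) ^ j0)
          ≤ (‖2 + y‖ / 3) ^ (2 * (n * j1)) * q (B : Finset (Fin n)) ^ j1 *
            (2 * (r : ℝ)) ^ #(B : Finset (Fin n)) := mul_le_mul_of_nonneg_left h5 h6
        _ = _ := by ring
    have h7 := h1.trans (h2.trans (Finset.sum_le_sum h3))
    rw [← Finset.mul_sum] at h7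
    have h8 : 0 ≤ (n.factorial : ℝ) * (1 - (2 / 9) * min (3 / 4 * δ) 1 ^ 2) ^ (n * (j1 + j0)) :=
      mul_nonneg (by positivity) (pow_nonneg hbase _)
    linarith
  · push Not at hnear
    have h1 := perp_le_trivial (by omega : 2 ≤ n) (n * (j1 + j0)) y hy hre (n := n)
    have h2 : (‖2 + y‖ / 3) ^ 2 ≤ 1 - (2 / 9) * min (3 / 4 * δ) 1 ^ 2 := by
      rw [norm_two_add_sq y hy]
      have : min (3 / 4 * δ) 1 ^ 2 ≤ ‖y - 1‖ ^ 2 := pow_le_pow_left₀ hmin0.le hnear.le 2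
      linarith
    have h3 : (‖2 + y‖ / 3) ^ (2 * (n * (j1 + j0))) ≤
        (1 - (2 / 9) * min (3 / 4 * δ) 1 ^ 2) ^ (n * (j1 + j0)) := by
      rw [pow_mul]
      exact pow_le_pow_left₀ (by positivity) h2 _
    have h4 : (n.factorial : ℝ) * nsq (perpC (((Dy y) ^ (n * (j1 + j0))) (dlt : G n → ℂ))) ≤
        (n.factorial : ℝ) * (1 - (2 / 9) * min (3 / 4 * δ) 1 ^ 2) ^ (n * (j1 + j0)) :=
      mul_le_mul_of_nonneg_left (h1.trans h3) (by positivity)
    have h5 : 0 ≤ (‖2 + y‖ / 3) ^ (2 * (n * j1)) *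
        (∑ B : {B : Finset (Fin n) // B.Nonempty}, (2 * (r : ℝ)) ^ #(B : Finset (Fin n)) *
          q (B : Finset (Fin n)) ^ j1) := mul_nonneg (by positivity) hΞ0
    linarith

/-- The bound for all `y` on the unit circle. -/
theorem N_bound {n : ℕ} [NeZero n] (hn : 3 ≤ n) (hodd : Odd n) (j0 j1 r : ℕ) (δ : ℝ) (hδ : 0 < δ)
    (q : Finset (Fin n) → ℝ) (hq0 : ∀ B, 0 ≤ q B)
    (hS : ∀ b : ℂ, ‖b - 2 / 3‖ ≤ δ → ∀ B : Finset (Fin n), B.Nonempty → ∀ f ∈ UA B,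
      nsq (SE b f) ≤ q B * nsq f)
    (hsm : ∀ A : Finset (Fin n), hs (FA A) ((SE (2 / 3 : ℂ)) ^ j0) ≤ (2 * (r : ℝ)) ^ #A)
    (y : ℂ) (hy : ‖y‖ = 1) :
    (n.factorial : ℝ) * nsq (perpC (((Dy y) ^ (n * (j1 + j0))) (dlt : G n → ℂ))) ≤
      ((‖2 + y‖ / 3) ^ (2 * (n * j1)) + (‖2 - y‖ / 3) ^ (2 * (n * j1))) *
        (∑ B : {B : Finset (Fin n) // B.Nonempty}, (2 * (r : ℝ)) ^ #(B : Finset (Fin n)) *
          q (B : Finset (Fin n)) ^ j1) +
      (n.factorial : ℝ) * (1 - (2 / 9) * min (3 / 4 * δ) 1 ^ 2) ^ (n * (j1 + j0)) := by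
  have hΞ0 : 0 ≤ ∑ B : {B : Finset (Fin n) // B.Nonempty}, (2 * (r : ℝ)) ^ #(B : Finset (Fin n)) *
          q (B : Finset (Fin n)) ^ j1 :=
    Finset.sum_nonneg fun B _ => mul_nonneg (by positivity) (pow_nonneg (hq0 _) _)
  by_cases hre : 0 ≤ y.re
  · have h := N_bound_pos hn j0 j1 r δ hδ q hq0 hS hsm y hy hre
    have h2 : 0 ≤ (‖2 - y‖ / 3) ^ (2 * (n * j1)) *
        (∑ B : {B : Finset (Fin n) // B.Nonempty}, (2 * (r : ℝ)) ^ #(B : Finset (Fin n)) *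
          q (B : Finset (Fin n)) ^ j1) := mul_nonneg (by positivity) hΞ0
    rw [add_mul]
    linarith
  · push Not at hre
    have h := N_bound_pos hn j0 j1 r δ hδ q hq0 hS hsm (-y) (by rw [norm_neg, hy])
      (by rw [Complex.neg_re]; linarith)
    rw [perp_twist hn hodd, ← sub_eq_add_neg] at h
    have h2 : 0 ≤ (‖2 + y‖ / 3) ^ (2 * (n * j1)) *
        (∑ B : {B : Finset (Fin n) // B.Nonempty}, (2 * (r : ℝ)) ^ #(B : Finset (Fin n)) *
          q (B : Finset (Fin n)) ^ j1) := mul_nonneg (by positivity) hΞ0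
    rw [add_mul]
    linarith

/-- The total mass of the orthogonal parts. -/
theorem perp_sum_bound {n : ℕ} [NeZero n] (hn : 3 ≤ n) (hodd : Odd n) (j0 j1 r : ℕ) (hj : j0 ≤ j1)
    (hj1 : 1 ≤ j1) (δ : ℝ) (hδ : 0 < δ)
    (q : Finset (Fin n) → ℝ) (hq0 : ∀ B, 0 ≤ q B)
    (hS : ∀ b : ℂ, ‖b - 2 / 3‖ ≤ δ → ∀ B : Finset (Fin n), B.Nonempty → ∀ f ∈ UA B,
      nsq (SE b f) ≤ q B * nsq f)
    (hsm : ∀ A : Finset (Fin n), hs (FA A) ((SE (2 / 3 : ℂ)) ^ j0) ≤ (2 * (r : ℝ)) ^ #A) :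
    (n.factorial : ℝ) * ∑ E ∈ range (n * (j1 + j0) + 1), ∑ g : G n, (perp (bE (n * (j1 + j0)) E) g) ^ 2 ≤
      14 / Real.sqrt ((n * (j1 + j0) : ℕ) : ℝ) *
        (∑ B : {B : Finset (Fin n) // B.Nonempty}, (2 * (r : ℝ)) ^ #(B : Finset (Fin n)) *
          q (B : Finset (Fin n)) ^ j1) +
      (n.factorial : ℝ) * (1 - (2 / 9) * min (3 / 4 * δ) 1 ^ 2) ^ (n * (j1 + j0)) := by
  obtain ⟨m, hm⟩ : ∃ m, m = n * (j1 + j0) := ⟨_, rfl⟩
  obtain ⟨Ξ, hΞ⟩ : ∃ Ξ, Ξ = ∑ B : {B : Finset (Fin n) // B.Nonempty},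
    (2 * (r : ℝ)) ^ #(B : Finset (Fin n)) * q (B : Finset (Fin n)) ^ j1 := ⟨_, rfl⟩
  have hΞ0 : 0 ≤ Ξ := by
    rw [hΞ]
    exact Finset.sum_nonneg fun B _ => mul_nonneg (by positivity) (pow_nonneg (hq0 _) _)
  have hN := N_bound hn hodd j0 j1 r δ hδ q hq0 hS hsm
  rw [← hm, ← hΞ] at hN ⊢
  rw [parseval m (2 * (m + 1)) (by omega)]
  have hm1 : 1 ≤ m := by
    rw [hm]
    have : 0 < n * (j1 + j0) := Nat.mul_pos (by omega) (by omega)
    omega
  have hm2 : m ≤ 2 * (n * j1) := by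
    rw [hm]
    nlinarith
  have hsr := sum_roots m (n * j1) hm1 hm2
  obtain ⟨K, hK⟩ : ∃ K : ℝ, K = (n.factorial : ℝ) * (1 - (2 / 9) * min (3 / 4 * δ) 1 ^ 2) ^ m := ⟨_, rfl⟩
  rw [← hK] at hN ⊢
  have hM0 : (0 : ℝ) < ((2 * (m + 1) : ℕ) : ℝ) := by
    have : 0 < 2 * (m + 1) := by omega
    exact_mod_cast this
  have hbd : ∀ s ∈ range (2 * (m + 1)),
      (n.factorial : ℝ) * nsq (perpC (((Dy (Complex.exp (2 * Real.pi * Complex.I * s /
        ((2 * (m + 1) : ℕ) : ℂ)))) ^ m) (dlt : G n → ℂ))) ≤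
      ((‖2 + Complex.exp (2 * Real.pi * Complex.I * s / ((2 * (m + 1) : ℕ) : ℂ))‖ / 3) ^ (2 * (n * j1)) +
       (‖2 - Complex.exp (2 * Real.pi * Complex.I * s / ((2 * (m + 1) : ℕ) : ℂ))‖ / 3) ^ (2 * (n * j1)))
        * Ξ + K := by
    intro s _
    apply hN
    have : 2 * (Real.pi : ℂ) * Complex.I * s / ((2 * (m + 1) : ℕ) : ℂ) =
        ((2 * Real.pi * s / ((2 * (m + 1) : ℕ) : ℝ) : ℝ) : ℂ) * Complex.I := by
      push_cast
      ring
    rw [this, Complex.norm_exp_ofReal_mul_I]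
  calc (n.factorial : ℝ) * (1 / (((2 * (m + 1) : ℕ) : ℝ)) * ∑ s ∈ range (2 * (m + 1)),
        nsq (perpC (((Dy (Complex.exp (2 * Real.pi * Complex.I * s /
        ((2 * (m + 1) : ℕ) : ℂ)))) ^ m) (dlt : G n → ℂ))))
      = 1 / (((2 * (m + 1) : ℕ) : ℝ)) * ∑ s ∈ range (2 * (m + 1)), (n.factorial : ℝ) *
        nsq (perpC (((Dy (Complex.exp (2 * Real.pi * Complex.I * s /
        ((2 * (m + 1) : ℕ) : ℂ)))) ^ m) (dlt : G n → ℂ))) := by
        rw [← Finset.mul_sum]; ring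
    _ ≤ 1 / (((2 * (m + 1) : ℕ) : ℝ)) * ∑ s ∈ range (2 * (m + 1)),
      (((‖2 + Complex.exp (2 * Real.pi * Complex.I * s / ((2 * (m + 1) : ℕ) : ℂ))‖ / 3) ^ (2 * (n * j1)) +
       (‖2 - Complex.exp (2 * Real.pi * Complex.I * s / ((2 * (m + 1) : ℕ) : ℂ))‖ / 3) ^ (2 * (n * j1)))
        * Ξ + K) := by
        apply mul_le_mul_of_nonneg_left (Finset.sum_le_sum hbd)
        positivity
    _ = (1 / (((2 * (m + 1) : ℕ) : ℝ)) * ∑ s ∈ range (2 * (m + 1)),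
      (((‖2 + Complex.exp (2 * Real.pi * Complex.I * s / ((2 * (m + 1) : ℕ) : ℂ))‖ / 3) ^ (2 * (n * j1)) +
       (‖2 - Complex.exp (2 * Real.pi * Complex.I * s / ((2 * (m + 1) : ℕ) : ℂ))‖ / 3) ^ (2 * (n * j1)))))
        * Ξ + K := by
        rw [Finset.sum_add_distrib, Finset.sum_const, Finset.card_range, nsmul_eq_mul,
          ← Finset.sum_mul]
        field_simp
    _ ≤ _ := by
        have := mul_le_mul_of_nonneg_right hsr hΞ0
        linarith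

/-- Sum over nonempty sets of a function of the cardinality. -/
theorem sum_nonempty_card {n : ℕ} (F : ℕ → ℝ) :
    ∑ B : {B : Finset (Fin n) // B.Nonempty}, F #(B : Finset (Fin n)) =
      ∑ k ∈ Icc 1 n, (n.choose k : ℝ) * F k := by
  classical
  have h1 : ∑ B : {B : Finset (Fin n) // B.Nonempty}, F #(B : Finset (Fin n)) =
      ∑ B ∈ (Finset.univ : Finset (Finset (Fin n))).filter (fun B => B.Nonempty), F #B := by
    rw [← Finset.sum_subtype_eq_sum_filter]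
    refine Finset.sum_congr ?_ (fun _ _ => rfl)
    ext x; simp
  rw [h1]
  have h2 : ∑ B ∈ (Finset.univ : Finset (Finset (Fin n))), F #B =
      ∑ k ∈ range (n + 1), (n.choose k : ℝ) * F k := by
    have := Finset.sum_powerset_apply_card F (x := (Finset.univ : Finset (Fin n)))
    rw [Finset.powerset_univ, Finset.card_univ, Fintype.card_fin] at this
    rw [this]
    refine Finset.sum_congr rfl fun k _ => ?_
    rw [nsmul_eq_mul]
  have h3 : ∑ B ∈ (Finset.univ : Finset (Finset (Fin n))), F #B =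
      F 0 + ∑ B ∈ (Finset.univ : Finset (Finset (Fin n))).filter (fun B => B.Nonempty), F #B := by
    rw [← Finset.sum_filter_add_sum_filter_not _ (fun B : Finset (Fin n) => B.Nonempty)]
    have : (Finset.univ : Finset (Finset (Fin n))).filter (fun B => ¬ B.Nonempty) = {∅} := by
      ext B; simp [Finset.not_nonempty_iff_eq_empty]
    rw [this, Finset.sum_singleton, Finset.card_empty]
    ring
  have h4 : ∑ k ∈ range (n + 1), (n.choose k : ℝ) * F k =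
      F 0 + ∑ k ∈ Icc 1 n, (n.choose k : ℝ) * F k := by
    rw [Finset.range_eq_Ico, Finset.sum_eq_sum_Ico_succ_bot (by omega : 0 < n + 1)]
    simp only [Nat.choose_zero_right, Nat.cast_one, one_mul]
    congr 1
  linarith

end Pool.Agent.Lib.MP_cad76e_pr
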