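import Pool.Agent.Lib.MP_cad76e_pr.Defs

/-! MP_cad76e_pr, module XI: the final sum over the levels tends to zero. -/

set_option autoImplicit false

namespace Pool.Agent.Lib.MP_cad76e_pr

open Finset Filter Topology

theorem xi_pow_le (x : ℝ) (hx : 0 ≤ x) (j : ℕ) :
    ((1 + x)⁻¹) ^ j ≤ Real.exp (-((j : ℝ) * (2 * x / (x + 2)))) := by
  have h1 : 0 < 1 + x := by linarith
  have h2 : 2 * x / (x + 2) ≤ Real.log (1 + x) := Real.le_log_one_add_of_nonneg hx
  have h3 : ((1 + x)⁻¹) ^ j = Real.exp (-((j : ℝ) * Real.log (1 + x))) := by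
    rw [← mul_neg, Real.exp_nat_mul, Real.exp_neg, Real.exp_log h1]
  rw [h3]
  apply Real.exp_le_exp.mpr
  have := mul_le_mul_of_nonneg_left h2 (Nat.cast_nonneg j : (0 : ℝ) ≤ (j : ℝ))
  linarith

/-- the common ratio -/
noncomputable def xiq (ε ι : ℝ) (r : ℕ) (n : ℕ) : ℝ :=
  2 * (r : ℝ) * Real.exp (-(ε / 8 * Real.log n)) +
    2 * (r : ℝ) * (Real.exp (Real.log 2 / ι) *
      Real.exp (-(1 / (512 * Real.pi ^ 2) * Real.log n)))

theorem xiq_tendsto (ε ι : ℝ) (hε : 0 < ε) (r : ℕ) :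
    Tendsto (fun n : ℕ => xiq ε ι r n) atTop (𝓝 0) := by
  have hlog : Tendsto (fun n : ℕ => Real.log (n : ℝ)) atTop atTop :=
    Real.tendsto_log_atTop.comp tendsto_natCast_atTop_atTop
  have h1 : ∀ c : ℝ, 0 < c →
      Tendsto (fun n : ℕ => Real.exp (-(c * Real.log (n : ℝ)))) atTop (𝓝 0) := by
    intro c hc
    exact Real.tendsto_exp_neg_atTop_nhds_zero.comp (hlog.const_mul_atTop hc)
  have hc : 0 < 1 / (512 * Real.pi ^ 2) := by positivity
  have h2 := ((h1 (ε / 8) (by positivity)).const_mul (2 * (r : ℝ)))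
  have h3 := (((h1 _ hc).const_mul (Real.exp (Real.log 2 / ι))).const_mul (2 * (r : ℝ)))
  have h4 := h2.add h3
  simpa [xiq] using h4

theorem xi_geom (q : ℝ) (h0 : 0 ≤ q) (h1 : q ≤ 1 / 2) (n : ℕ) :
    ∑ k ∈ Icc 1 n, q ^ k ≤ 2 * q := by
  have h2 : ∑ k ∈ Icc 1 n, q ^ k = q * ∑ k ∈ range n, q ^ k := by
    rw [Finset.mul_sum, Finset.range_eq_Ico, Finset.sum_Ico_eq_sum_range]
    have : Icc 1 n = Ico 1 (n + 1) := by ext; simp
    rw [this, Finset.sum_Ico_eq_sum_range]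
    apply Finset.sum_congr (by simp)
    intro i _
    rw [← pow_succ', Nat.zero_add, Nat.add_comm]
  rw [h2]
  have h3 : ∑ k ∈ range n, q ^ k ≤ 2 := by
    have h4 : (∑ k ∈ range n, q ^ k) * (1 - q) = 1 - q ^ n := geom_sum_mul_neg q n
    have h5 : 0 ≤ q ^ n := pow_nonneg h0 n
    have h6 : 0 ≤ ∑ k ∈ range n, q ^ k := Finset.sum_nonneg (fun i _ => pow_nonneg h0 i)
    nlinarith
  nlinarith

theorem xi_term_small (ε η : ℝ) (hε : 0 < ε) (hη : 0 ≤ η)
    (hεη : 1 + ε / 4 ≤ (1 - η) * (1 + ε / 2)) (r : ℕ) (n k j : ℕ) (hn : 1 ≤ n)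
    (hk : k ≤ n) (hbig : 16 * Real.pi ^ 2 * (1 + ε / 8) ≤ ε * n)
    (hj : (1 + ε / 2) * ((n : ℝ) ^ 2 * Real.log n / (4 * Real.pi ^ 2)) ≤ j) :
    (n.choose k : ℝ) * ((2 * (r : ℝ)) ^ k *
      ((1 + (1 - η) * (2 * Real.pi / n) ^ 2 * k)⁻¹) ^ j) ≤
      (2 * (r : ℝ) * Real.exp (-(ε / 8 * Real.log n))) ^ k := by
  have hpi := Real.pi_pos
  have hn0 : (0 : ℝ) < n := by exact_mod_cast hn
  have hn1 : (1 : ℝ) ≤ n := by exact_mod_cast hn
  have hkn : (k : ℝ) ≤ n := by exact_mod_cast hk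
  have hk0 : (0 : ℝ) ≤ k := Nat.cast_nonneg k
  have hlog : 0 ≤ Real.log n := Real.log_nonneg hn1
  have hη1 : 0 < 1 - η := by
    by_contra h
    push Not at h
    have : (1 - η) * (1 + ε / 2) ≤ 0 := mul_nonpos_of_nonpos_of_nonneg h (by linarith)
    linarith
  set x : ℝ := (1 - η) * (2 * Real.pi / n) ^ 2 * k with hx
  have hx0 : 0 ≤ x := by positivity
  have hxn : x * n ≤ 4 * Real.pi ^ 2 := by
    have h1 : x * n = (1 - η) * (4 * Real.pi ^ 2) * (k / n) := by
      rw [hx]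
      field_simp
      ring
    rw [h1]
    have h2 : (k : ℝ) / n ≤ 1 := by rw [div_le_one hn0]; exact hkn
    have h3 : 0 ≤ (k : ℝ) / n := by positivity
    have h4 : (1 - η) * (4 * Real.pi ^ 2) ≤ 4 * Real.pi ^ 2 := by nlinarith [sq_nonneg Real.pi]
    calc (1 - η) * (4 * Real.pi ^ 2) * (k / n) ≤ 4 * Real.pi ^ 2 * 1 :=
          mul_le_mul h4 h2 h3 (by positivity)
      _ = _ := by ring
  have hxs : x * (1 + ε / 8) ≤ ε / 4 := by
    have h1 : x * (1 + ε / 8) * (4 * n) ≤ ε * n := by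
      calc x * (1 + ε / 8) * (4 * n) = (x * n) * (4 * (1 + ε / 8)) := by ring
        _ ≤ (4 * Real.pi ^ 2) * (4 * (1 + ε / 8)) :=
            mul_le_mul_of_nonneg_right hxn (by positivity)
        _ = 16 * Real.pi ^ 2 * (1 + ε / 8) := by ring
        _ ≤ ε * n := hbig
    have h2 : x * (1 + ε / 8) * 4 ≤ ε := by
      by_contra h
      push Not at h
      have := mul_lt_mul_of_pos_right h hn0
      linarith
    linarith
  have hjx : (1 + ε / 4) * (k * Real.log n) ≤ j * x := by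
    have h1 : (1 + ε / 2) * ((n : ℝ) ^ 2 * Real.log n / (4 * Real.pi ^ 2)) * x ≤ j * x :=
      mul_le_mul_of_nonneg_right hj hx0
    have h2 : (1 + ε / 2) * ((n : ℝ) ^ 2 * Real.log n / (4 * Real.pi ^ 2)) * x =
        (1 - η) * (1 + ε / 2) * (k * Real.log n) := by
      rw [hx]
      field_simp
      ring
    have h3 : (1 + ε / 4) * (k * Real.log n) ≤ (1 - η) * (1 + ε / 2) * (k * Real.log n) :=
      mul_le_mul_of_nonneg_right hεη (by positivity)
    linarith
  have hexp : (1 + ε / 8) * (k * Real.log n) ≤ j * (2 * x / (x + 2)) := by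
    have h1 : (j : ℝ) * (2 * x / (x + 2)) = (j * x) * (2 / (x + 2)) := by ring
    have h2 : (1 + ε / 8) / (1 + ε / 4) ≤ 2 / (x + 2) := by
      rw [div_le_div_iff₀ (by linarith) (by linarith)]
      nlinarith
    rw [h1]
    calc (1 + ε / 8) * (k * Real.log n)
        = ((1 + ε / 4) * (k * Real.log n)) * ((1 + ε / 8) / (1 + ε / 4)) := by
          field_simp
      _ ≤ (j * x) * (2 / (x + 2)) :=
          mul_le_mul hjx h2 (by positivity) (by positivity)
  have hpow := xi_pow_le x hx0 j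
  have hchoose : (n.choose k : ℝ) ≤ (n : ℝ) ^ k := by
    have := Nat.choose_le_pow_div (α := ℝ) k n
    refine this.trans (div_le_self (by positivity) ?_)
    exact_mod_cast Nat.one_le_iff_ne_zero.mpr (Nat.factorial_ne_zero k)
  calc (n.choose k : ℝ) * ((2 * (r : ℝ)) ^ k * ((1 + x)⁻¹) ^ j)
      ≤ (n : ℝ) ^ k * ((2 * (r : ℝ)) ^ k * Real.exp (-((1 + ε / 8) * (k * Real.log n)))) := by
        apply mul_le_mul hchoose _ (by positivity) (by positivity)
        apply mul_le_mul_of_nonneg_left _ (by positivity)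
        exact hpow.trans (Real.exp_le_exp.mpr (by linarith))
    _ = (2 * (r : ℝ) * Real.exp (-(ε / 8 * Real.log n))) ^ k := by
        have h1 : (n : ℝ) ^ k = Real.exp (k * Real.log n) := by
          rw [Real.exp_nat_mul, Real.exp_log hn0]
        rw [h1, mul_pow (2 * (r : ℝ)) (Real.exp (-(ε / 8 * Real.log n))) k,
          ← Real.exp_nat_mul (-(ε / 8 * Real.log n)) k]
        have h2 : Real.exp (k * Real.log n) * ((2 * (r : ℝ)) ^ k *
            Real.exp (-((1 + ε / 8) * (k * Real.log n)))) =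
            (2 * (r : ℝ)) ^ k * (Real.exp (k * Real.log n) *
              Real.exp (-((1 + ε / 8) * (k * Real.log n)))) := by ring
        rw [h2, ← Real.exp_add]
        congr 2
        ring

theorem xi_term_large (ε ι : ℝ) (hε : 0 < ε) (hι : 0 < ι) (r : ℕ) (n k j : ℕ) (hn : 1 ≤ n)
    (hk : k ≤ n) (hkι : ι * n < k)
    (hj : (1 + ε / 2) * ((n : ℝ) ^ 2 * Real.log n / (4 * Real.pi ^ 2)) ≤ j) :
    (n.choose k : ℝ) * ((2 * (r : ℝ)) ^ k * ((1 + (k : ℝ) / (64 * (n : ℝ) ^ 2))⁻¹) ^ j) ≤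
      (2 * (r : ℝ) * (Real.exp (Real.log 2 / ι) *
        Real.exp (-(1 / (512 * Real.pi ^ 2) * Real.log n)))) ^ k := by
  have hpi := Real.pi_pos
  have hn0 : (0 : ℝ) < n := by exact_mod_cast hn
  have hn1 : (1 : ℝ) ≤ n := by exact_mod_cast hn
  have hkn : (k : ℝ) ≤ n := by exact_mod_cast hk
  have hk0 : (0 : ℝ) ≤ k := Nat.cast_nonneg k
  have hlog : 0 ≤ Real.log n := Real.log_nonneg hn1
  set x : ℝ := (k : ℝ) / (64 * (n : ℝ) ^ 2) with hx
  have hx0 : 0 ≤ x := by positivity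
  have hx1 : x ≤ 1 := by
    rw [hx, div_le_one (by positivity)]
    nlinarith
  have hjx : k * Real.log n / (256 * Real.pi ^ 2) ≤ j * x := by
    have h1 : (1 + ε / 2) * ((n : ℝ) ^ 2 * Real.log n / (4 * Real.pi ^ 2)) * x ≤ j * x :=
      mul_le_mul_of_nonneg_right hj hx0
    have h2 : (1 + ε / 2) * ((n : ℝ) ^ 2 * Real.log n / (4 * Real.pi ^ 2)) * x =
        (1 + ε / 2) * (k * Real.log n / (256 * Real.pi ^ 2)) := by
      rw [hx]
      field_simp
      ring
    have h3 : 0 ≤ k * Real.log n / (256 * Real.pi ^ 2) := by positivity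
    nlinarith
  have hexp : k * (1 / (512 * Real.pi ^ 2) * Real.log n) ≤ j * (2 * x / (x + 2)) := by
    have h1 : (j : ℝ) * (2 * x / (x + 2)) = (j * x) * (2 / (x + 2)) := by ring
    have h2 : (1 : ℝ) / 2 ≤ 2 / (x + 2) := by
      rw [div_le_div_iff₀ (by norm_num) (by linarith)]
      linarith
    rw [h1]
    calc (k : ℝ) * (1 / (512 * Real.pi ^ 2) * Real.log n)
        = (k * Real.log n / (256 * Real.pi ^ 2)) * (1 / 2) := by
          field_simp
          ring
      _ ≤ (j * x) * (2 / (x + 2)) :=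
          mul_le_mul hjx h2 (by positivity) (by positivity)
  have hpow := xi_pow_le x hx0 j
  have hchoose : (n.choose k : ℝ) ≤ (Real.exp (Real.log 2 / ι)) ^ k := by
    have h1 : (n.choose k : ℝ) ≤ (2 : ℝ) ^ n := by exact_mod_cast Nat.choose_le_two_pow n k
    have h2 : (2 : ℝ) ^ n = Real.exp (n * Real.log 2) := by
      rw [Real.exp_nat_mul, Real.exp_log (by norm_num)]
    rw [h2] at h1
    refine h1.trans ?_
    rw [← Real.exp_nat_mul]
    apply Real.exp_le_exp.mpr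
    have h3 : (0 : ℝ) < Real.log 2 := Real.log_pos (by norm_num)
    have h4 : (n : ℝ) ≤ k / ι := by
      rw [le_div_iff₀ hι]
      linarith
    calc (n : ℝ) * Real.log 2 ≤ k / ι * Real.log 2 := mul_le_mul_of_nonneg_right h4 h3.le
      _ = k * (Real.log 2 / ι) := by ring
  calc (n.choose k : ℝ) * ((2 * (r : ℝ)) ^ k * ((1 + x)⁻¹) ^ j)
      ≤ (Real.exp (Real.log 2 / ι)) ^ k * ((2 * (r : ℝ)) ^ k *
          Real.exp (-(k * (1 / (512 * Real.pi ^ 2) * Real.log n)))) := by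
        apply mul_le_mul hchoose _ (by positivity) (by positivity)
        apply mul_le_mul_of_nonneg_left _ (by positivity)
        exact hpow.trans (Real.exp_le_exp.mpr (by linarith))
    _ = _ := by
        rw [mul_pow, mul_pow, ← mul_neg, Real.exp_nat_mul]
        ring

theorem xi_tendsto (ε η : ℝ) (hε : 0 < ε) (hη : 0 ≤ η) (hεη : 1 + ε / 4 ≤ (1 - η) * (1 + ε / 2))
    (r : ℕ) (hr : 1 ≤ r) (ι : ℝ) (hι : 0 < ι) (j1 : ℕ → ℕ)
    (hj1 : ∀ n : ℕ, (1 + ε / 2) * ((n : ℝ) ^ 2 * Real.log n / (4 * Real.pi ^ 2)) ≤ j1 n) :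
    Tendsto (fun n : ℕ => ∑ k ∈ Icc 1 n, (n.choose k : ℝ) * ((2 * (r : ℝ)) ^ k *
      ((if (k : ℝ) ≤ ι * n then (1 + (1 - η) * (2 * Real.pi / n) ^ 2 * k)⁻¹
        else (1 + (k : ℝ) / (64 * (n : ℝ) ^ 2))⁻¹) ^ (j1 n)))) atTop (𝓝 0) := by
  have hpi := Real.pi_pos
  have hη1 : 0 < 1 - η := by
    by_contra h
    push Not at h
    have : (1 - η) * (1 + ε / 2) ≤ 0 := mul_nonpos_of_nonpos_of_nonneg h (by linarith)
    linarith
  have hq := xiq_tendsto ε ι hε r
  have hq2 : Tendsto (fun n : ℕ => 2 * xiq ε ι r n) atTop (𝓝 0) := by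
    simpa using hq.const_mul 2
  have hev1 : ∀ᶠ n : ℕ in atTop, xiq ε ι r n ≤ 1 / 2 :=
    hq.eventually_le_const (by norm_num)
  have hev2 : ∀ᶠ n : ℕ in atTop, 16 * Real.pi ^ 2 * (1 + ε / 8) / ε ≤ (n : ℝ) :=
    tendsto_natCast_atTop_atTop.eventually_ge_atTop _
  refine squeeze_zero' (Eventually.of_forall fun n => ?_) ?_ hq2
  · apply Finset.sum_nonneg
    intro k _
    apply mul_nonneg (Nat.cast_nonneg _)
    apply mul_nonneg (by positivity)
    apply pow_nonneg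
    split_ifs <;> positivity
  · filter_upwards [hev1, hev2, eventually_ge_atTop 1] with n h1 h2 hn
    have hq0 : 0 ≤ xiq ε ι r n := by
      unfold xiq
      positivity
    refine le_trans (Finset.sum_le_sum fun k hk => ?_) (xi_geom _ hq0 h1 n)
    have hk' := Finset.mem_Icc.mp hk
    split_ifs with hc
    · refine (xi_term_small ε η hε hη hεη r n k (j1 n) hn hk'.2 ?_ (hj1 n)).trans ?_
      · rw [div_le_iff₀ hε] at h2
        linarith
      · apply pow_le_pow_left₀ (by positivity)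
        unfold xiq
        have : 0 ≤ 2 * (r : ℝ) * (Real.exp (Real.log 2 / ι) *
            Real.exp (-(1 / (512 * Real.pi ^ 2) * Real.log n))) := by positivity
        linarith
    · refine (xi_term_large ε ι hε hι r n k (j1 n) hn hk'.2 (by linarith) (hj1 n)).trans ?_
      apply pow_le_pow_left₀ (by positivity)
      unfold xiq
      have : 0 ≤ 2 * (r : ℝ) * Real.exp (-(ε / 8 * Real.log n)) := by positivity
      linarith

end Pool.Agent.Lib.MP_cad76e_pr
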