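import Pool.Agent.Lib.MP_cad76e_pr.TVR
import Pool.Agent.Lib.MP_cad76e_pr.CSW
import Pool.Agent.Lib.MP_cad76e_pr.XI
import Pool.Agent.Lib.MP_cad76e_pr.SHARP
import Pool.Agent.Lib.MP_cad76e_pr.SM3
import Pool.Agent.Lib.MP_cad76e_pr.C3
import Pool.Agent.Lib.MP_cad76e_pr.UP1

set_option autoImplicit false

namespace Pool.Agent.Lib.MP_cad76e_pr

open Finset Filter Topology

theorem tv_bound {n : ℕ} [NeZero n] (hn : 3 ≤ n) (hodd : Odd n) (j0 j1 r : ℕ) (hj : j0 ≤ j1)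
    (hj1 : 1 ≤ j1) (δ : ℝ) (hδ : 0 < δ)
    (q : Finset (Fin n) → ℝ) (hq0 : ∀ B, 0 ≤ q B)
    (hS : ∀ b : ℂ, ‖b - 2 / 3‖ ≤ δ → ∀ B : Finset (Fin n), B.Nonempty → ∀ f ∈ UA B,
      nsq (SE b f) ≤ q B * nsq f)
    (hsm : ∀ A : Finset (Fin n), hs (FA A) ((SE (2 / 3 : ℂ)) ^ j0) ≤ (2 * (r : ℝ)) ^ #A)
    (T : ℕ) (ℓ : ℝ) (hℓ : 1 ≤ ℓ) (x : ℝ) (hx : 0 < x) (hx1 : x ≤ 1) :
    ∑ g : G n, |mu (T + 1) g - 1 / (n.factorial : ℝ)| ≤
      2 * ((x⁻¹) ^ (n * (j1 + j0)) * ((1 + x) / 2) ^ T) + (2 / 3) / ℓ ^ 2 +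
        Real.sqrt (42 * ℓ * (∑ B : {B : Finset (Fin n) // B.Nonempty},
          (2 * (r : ℝ)) ^ #(B : Finset (Fin n)) * q (B : Finset (Fin n)) ^ j1) +
          3 * ℓ * (Real.sqrt ((n * (j1 + j0) : ℕ) : ℝ) * ((n.factorial : ℝ) *
            (1 - (2 / 9) * min (3 / 4 * δ) 1 ^ 2) ^ (n * (j1 + j0))))) := by
  have h1 := tv_reduction hn hodd (n * (j1 + j0)) T
  have h2 := rho_bound (n := n) (n * (j1 + j0)) T x hx hx1
  have h3 := perp_sum_bound hn hodd j0 j1 r hj hj1 δ hδ q hq0 hS hsm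
  obtain ⟨m, hm⟩ : ∃ m, m = n * (j1 + j0) := ⟨_, rfl⟩
  obtain ⟨Ξ, hΞ⟩ : ∃ Ξ, Ξ = ∑ B : {B : Finset (Fin n) // B.Nonempty},
    (2 * (r : ℝ)) ^ #(B : Finset (Fin n)) * q (B : Finset (Fin n)) ^ j1 := ⟨_, rfl⟩
  have hΞ0 : 0 ≤ Ξ := by
    rw [hΞ]
    exact Finset.sum_nonneg fun B _ => mul_nonneg (by positivity) (pow_nonneg (hq0 _) _)
  obtain ⟨K, hK⟩ : ∃ K : ℝ, K = (n.factorial : ℝ) * (1 - (2 / 9) * min (3 / 4 * δ) 1 ^ 2) ^ m := ⟨_, rfl⟩
  rw [← hm, ← hΞ, ← hK] at h3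
  rw [← hm] at h1 h2
  rw [← hm, ← hΞ, ← hK]
  have hK0 : 0 ≤ K := by
    rw [hK]
    have hmin1 : min (3 / 4 * δ) 1 ≤ 1 := min_le_right _ _
    have hmin0 : 0 < min (3 / 4 * δ) 1 := by positivity
    have hbase : 0 ≤ 1 - (2 / 9) * min (3 / 4 * δ) 1 ^ 2 := by
      have : min (3 / 4 * δ) 1 ^ 2 ≤ 1 := pow_le_one₀ hmin0.le hmin1
      linarith only [this]
    exact mul_nonneg (by positivity) (pow_nonneg hbase _)
  have hm1 : 1 ≤ m := by
    rw [hm]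
    have : 0 < n * (j1 + j0) := Nat.mul_pos (by omega) (by omega)
    omega
  have hsm0 : 1 ≤ Real.sqrt (m : ℝ) := by
    rw [Real.one_le_sqrt]
    exact_mod_cast hm1
  have hℓs : 1 ≤ ℓ * Real.sqrt (m : ℝ) := one_le_mul_of_one_le_of_one_le hℓ hsm0
  have h4 := cs_window (n := n) m (ℓ * Real.sqrt (m : ℝ)) (by linarith only [hℓs])
  have hsq : Real.sqrt (m : ℝ) ^ 2 = m := Real.sq_sqrt (Nat.cast_nonneg _)
  have h5 : (2 / 3) * (m : ℝ) / (ℓ * Real.sqrt (m : ℝ)) ^ 2 = (2 / 3) / ℓ ^ 2 := by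
    rw [mul_pow, hsq]
    have : (m : ℝ) ≠ 0 := by
      have : (0 : ℝ) < m := by exact_mod_cast (by omega : 0 < m)
      exact this.ne'
    field_simp
  rw [h5] at h4
  have h6 : (2 * (ℓ * Real.sqrt (m : ℝ)) + 1) * (n.factorial : ℝ) *
        ∑ E ∈ range (m + 1), ∑ g : G n, (perp (bE m E) g) ^ 2 ≤
      42 * ℓ * Ξ + 3 * ℓ * (Real.sqrt (m : ℝ) * K) := by
    have e1 : (2 * (ℓ * Real.sqrt (m : ℝ)) + 1) * (n.factorial : ℝ) *
        ∑ E ∈ range (m + 1), ∑ g : G n, (perp (bE m E) g) ^ 2 =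
        (2 * (ℓ * Real.sqrt (m : ℝ)) + 1) * ((n.factorial : ℝ) *
        ∑ E ∈ range (m + 1), ∑ g : G n, (perp (bE m E) g) ^ 2) := by ring
    rw [e1]
    have h7 : 0 ≤ (n.factorial : ℝ) *
        ∑ E ∈ range (m + 1), ∑ g : G n, (perp (bE m E) g) ^ 2 := by (clear * -; positivity)
    have h8 : (2 * (ℓ * Real.sqrt (m : ℝ)) + 1) * ((n.factorial : ℝ) *
        ∑ E ∈ range (m + 1), ∑ g : G n, (perp (bE m E) g) ^ 2) ≤
        (3 * (ℓ * Real.sqrt (m : ℝ))) * (14 / Real.sqrt (m : ℝ) * Ξ + K) :=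
      mul_le_mul (by linarith only [hℓs]) h3 h7 (by linarith only [hℓs])
    refine h8.trans (le_of_eq ?_)
    have : Real.sqrt (m : ℝ) ≠ 0 := by linarith only [hsm0]
    field_simp
    ring
  have h9 := Real.sqrt_le_sqrt h6
  linarith only [h1, h2, h4, h9]

/-- existence of a power of two in `[X, 2X]` -/
theorem exists_pow_two (X : ℝ) (hX : 2 ≤ X) : ∃ a : ℕ, X ≤ (2 : ℝ) ^ (a + 1) ∧ (2 : ℝ) ^ (a + 1) ≤ 2 * X := by
  have hex : ∃ s : ℕ, X ≤ (2 : ℝ) ^ s := by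
    obtain ⟨s, hs⟩ := pow_unbounded_of_one_lt X (by norm_num : (1 : ℝ) < 2)
    exact ⟨s, hs.le⟩
  classical
  obtain ⟨s, hs, hmin⟩ : ∃ s : ℕ, X ≤ (2 : ℝ) ^ s ∧ ∀ t < s, ¬ X ≤ (2 : ℝ) ^ t :=
    ⟨Nat.find hex, Nat.find_spec hex, fun t ht => Nat.find_min hex ht⟩
  cases s with
  | zero => norm_num at hs; linarith
  | succ a =>
    refine ⟨a, hs, ?_⟩
    have h := hmin a (Nat.lt_succ_self a)
    push Not at h
    rw [pow_succ]
    linarith

theorem limit_B (s : ℝ) (hs : 0 < s) (hs1 : s ≤ 1) (m : ℕ → ℕ)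
    (hm : ∀ n : ℕ, (n : ℝ) * ((n : ℝ) ^ 2 * Real.log n / (4 * Real.pi ^ 2)) ≤ m n) :
    Tendsto (fun n : ℕ => Real.sqrt (m n : ℝ) * ((n.factorial : ℝ) * (1 - s) ^ (m n)))
      atTop (𝓝 0) := by
  -- bound by (2/s) exp (n log n (1 - s n^2/(8 pi^2)))
  have hub : ∀ n : ℕ, Real.sqrt (m n : ℝ) * ((n.factorial : ℝ) * (1 - s) ^ (m n)) ≤
      (2 / s) * Real.exp (((n : ℝ) * Real.log n) * (1 - s / (8 * Real.pi ^ 2) * (n : ℝ) ^ 2)) := by
    intro n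
    have hfac : (n.factorial : ℝ) ≤ Real.exp ((n : ℝ) * Real.log n) := by
      rcases Nat.eq_zero_or_pos n with h0 | hpos
      · subst h0; simp
      · have h1 : (n.factorial : ℝ) ≤ (n : ℝ) ^ n := by exact_mod_cast Nat.factorial_le_pow n
        have h2 : Real.exp ((n : ℝ) * Real.log n) = (n : ℝ) ^ n := by
          rw [mul_comm, Real.exp_mul, Real.exp_log (by exact_mod_cast hpos), Real.rpow_natCast]
        rw [h2]; exact h1
    have hm0 : (0 : ℝ) ≤ m n := Nat.cast_nonneg _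
    have hq : (1 - s) ^ (m n) ≤ Real.exp (-(s * m n)) := by
      have h1 : 1 - s ≤ Real.exp (-s) := by
        have := Real.add_one_le_exp (-s)
        linarith
      have h2 := pow_le_pow_left₀ (by linarith : 0 ≤ 1 - s) h1 (m n)
      rw [← Real.exp_nat_mul] at h2
      refine h2.trans (le_of_eq ?_)
      congr 1; ring
    have hsq : Real.sqrt (m n : ℝ) ≤ (2 / s) * Real.exp (s * m n / 2) := by
      have h1 : Real.sqrt (m n : ℝ) ≤ m n := by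
        rcases Nat.eq_zero_or_pos (m n) with h0 | hpos
        · rw [h0]; simp
        · rw [Real.sqrt_le_left hm0]
          have : (1 : ℝ) ≤ m n := by exact_mod_cast hpos
          nlinarith
      have h2 : s * m n / 2 ≤ Real.exp (s * m n / 2) := by
        have := Real.add_one_le_exp (s * m n / 2)
        linarith
      have h3 : (m n : ℝ) = (2 / s) * (s * m n / 2) := by field_simp
      calc Real.sqrt (m n : ℝ) ≤ m n := h1
        _ = (2 / s) * (s * m n / 2) := h3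
        _ ≤ (2 / s) * Real.exp (s * m n / 2) := mul_le_mul_of_nonneg_left h2 (by positivity)
    have h4 : Real.sqrt (m n : ℝ) * ((n.factorial : ℝ) * (1 - s) ^ (m n)) ≤
        ((2 / s) * Real.exp (s * m n / 2)) * (Real.exp ((n : ℝ) * Real.log n) *
          Real.exp (-(s * m n))) := by
      have h5 : 0 ≤ (1 - s) ^ (m n) := pow_nonneg (by linarith) _
      gcongr
    refine h4.trans ?_
    have h6 : ((2 / s) * Real.exp (s * m n / 2)) * (Real.exp ((n : ℝ) * Real.log n) *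
          Real.exp (-(s * m n))) = (2 / s) * Real.exp ((n : ℝ) * Real.log n - s * m n / 2) := by
      rw [← Real.exp_add, mul_assoc, ← Real.exp_add]
      congr 2; ring
    rw [h6]
    apply mul_le_mul_of_nonneg_left _ (by positivity)
    apply Real.exp_le_exp.2
    have h7 := mul_le_mul_of_nonneg_left (hm n) hs.le
    have h8 : s * ((n : ℝ) * ((n : ℝ) ^ 2 * Real.log n / (4 * Real.pi ^ 2))) / 2 =
        ((n : ℝ) * Real.log n) * (s / (8 * Real.pi ^ 2) * (n : ℝ) ^ 2) := by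
      have : (Real.pi : ℝ) ≠ 0 := Real.pi_ne_zero
      field_simp
      ring
    linarith only [h7, h8]
  have hlim : Tendsto (fun n : ℕ => (2 / s) * Real.exp (((n : ℝ) * Real.log n) *
      (1 - s / (8 * Real.pi ^ 2) * (n : ℝ) ^ 2))) atTop (𝓝 0) := by
    rw [show (0 : ℝ) = (2 / s) * 0 by ring]
    apply Tendsto.const_mul
    apply Real.tendsto_exp_atBot.comp
    apply Tendsto.atTop_mul_atBot₀
    · exact tendsto_natCast_atTop_atTop.atTop_mul_atTop₀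
        (Real.tendsto_log_atTop.comp tendsto_natCast_atTop_atTop)
    · have h1 : Tendsto (fun n : ℕ => s / (8 * Real.pi ^ 2) * (n : ℝ) ^ 2) atTop atTop := by
        apply Tendsto.const_mul_atTop
        · positivity
        · exact (tendsto_pow_atTop (by norm_num : (2 : ℕ) ≠ 0)).comp tendsto_natCast_atTop_atTop
      have h2 := tendsto_neg_atTop_atBot.comp h1
      have h3 := tendsto_atBot_add_const_left atTop (1 : ℝ) h2
      refine h3.congr fun n => ?_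
      simp only [Function.comp]
      ring
  refine squeeze_zero (fun n => ?_) hub hlim
  have : 0 ≤ (1 - s) ^ (m n) := pow_nonneg (by linarith) _
  positivity

theorem limit_C (ε : ℝ) (hε : 0 < ε) (hε1 : ε < 1) (m T : ℕ → ℕ)
    (hm : ∀ᶠ n : ℕ in atTop, (m n : ℝ) ≤
      n * ((1 + 5 * ε / 8) * ((n : ℝ) ^ 2 * Real.log n / (4 * Real.pi ^ 2)) + 1))
    (hT : ∀ᶠ n : ℕ in atTop, (1 + ε) * ((n : ℝ) ^ 3 * Real.log n / (2 * Real.pi ^ 2)) - 2 ≤ T n) :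
    Tendsto (fun n : ℕ => ((1 - ε / 16)⁻¹) ^ (m n) * ((1 + (1 - ε / 16)) / 2) ^ (T n))
      atTop (𝓝 0) := by
  obtain ⟨h, hh⟩ : ∃ h, h = ε / 16 := ⟨_, rfl⟩
  have hh0 : 0 < h := by rw [hh]; positivity
  have hh1 : h ≤ 1 / 16 := by rw [hh]; linarith
  rw [← hh]
  have hinv : (1 - h)⁻¹ ≤ Real.exp (h + h ^ 2) := by
    have h1 : 1 + (h + h ^ 2) + (h + h ^ 2) ^ 2 / 2 ≤ Real.exp (h + h ^ 2) :=
      Real.quadratic_le_exp_of_nonneg (by positivity)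
    have h2 : 0 < 1 - h := by linarith
    rw [inv_le_iff_one_le_mul₀ h2]
    have h3 : 1 ≤ (1 + (h + h ^ 2) + (h + h ^ 2) ^ 2 / 2) * (1 - h) := by
      nlinarith only [hh, hh0, hε1, mul_pos hh0 hh0, mul_pos (mul_pos hh0 hh0) hh0]
    nlinarith only [h1, h3, hh, hε, hε1]
  have hhalf : (1 + (1 - h)) / 2 ≤ Real.exp (-(h / 2)) := by
    have := Real.add_one_le_exp (-(h / 2))
    linarith
  have hub : ∀ᶠ n : ℕ in atTop, ((1 - h)⁻¹) ^ (m n) * ((1 + (1 - h)) / 2) ^ (T n) ≤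
      Real.exp ((n : ℝ) * (2 - ε ^ 2 / 64 * ((n : ℝ) ^ 2 * Real.log n / (4 * Real.pi ^ 2)))) := by
    filter_upwards [hm, hT, eventually_ge_atTop 3] with n hmn hTn hn3
    obtain ⟨L, hL⟩ : ∃ L, L = (n : ℝ) ^ 2 * Real.log n / (4 * Real.pi ^ 2) := ⟨_, rfl⟩
    have hn1 : (3 : ℝ) ≤ n := by exact_mod_cast hn3
    have hL0 : 0 ≤ L := by
      rw [hL]
      have : 0 ≤ Real.log n := Real.log_nonneg (by linarith)
      positivity
    have ht : (n : ℝ) ^ 3 * Real.log n / (2 * Real.pi ^ 2) = 2 * n * L := by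
      rw [hL]
      have : (Real.pi : ℝ) ≠ 0 := Real.pi_ne_zero
      field_simp
      ring
    rw [← hL] at hmn ⊢
    rw [ht] at hTn
    have h1 : ((1 - h)⁻¹) ^ (m n) ≤ Real.exp (m n * (h + h ^ 2)) := by
      rw [Real.exp_nat_mul]
      exact pow_le_pow_left₀ (inv_nonneg.2 (by linarith only [hh, hε, hε1])) hinv _
    have h2 : ((1 + (1 - h)) / 2) ^ (T n) ≤ Real.exp (T n * (-(h / 2))) := by
      rw [Real.exp_nat_mul]
      exact pow_le_pow_left₀ (by linarith only [hh, hε, hε1]) hhalf _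
    have h3 : ((1 - h)⁻¹) ^ (m n) * ((1 + (1 - h)) / 2) ^ (T n) ≤
        Real.exp (m n * (h + h ^ 2)) * Real.exp (T n * (-(h / 2))) := by
      apply mul_le_mul h1 h2 (pow_nonneg (by linarith only [hh, hε, hε1]) _) (Real.exp_nonneg _)
    refine h3.trans ?_
    rw [← Real.exp_add]
    apply Real.exp_le_exp.2
    have h4 : (m n : ℝ) * (h + h ^ 2) ≤ (n * ((1 + 5 * ε / 8) * L + 1)) * (h + h ^ 2) :=
      mul_le_mul_of_nonneg_right hmn (by positivity)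
    have h5 : ((1 + ε) * (2 * n * L) - 2) * (h / 2) ≤ T n * (h / 2) :=
      mul_le_mul_of_nonneg_right hTn (by positivity)
    have hnL : 0 ≤ n * L := by positivity
    -- (1 + 5ε/8)(1+h) - (1+ε) ≤ -ε/4
    have h6 : (1 + 5 * ε / 8) * (1 + h) - (1 + ε) ≤ -(ε / 4) := by
      rw [hh]; nlinarith only [hh, hh0, hε, hε1]
    have h7 : n * L * h * ((1 + 5 * ε / 8) * (1 + h) - (1 + ε)) ≤ n * L * h * (-(ε / 4)) :=
      mul_le_mul_of_nonneg_left h6 (by positivity)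
    have h8 : n * L * h * (-(ε / 4)) = -(n * (ε ^ 2 / 64 * L)) := by
      rw [hh]; ring
    have h9 : (n : ℝ) * (h + h ^ 2) + h ≤ 2 * n := by
      have h10 : h + h ^ 2 ≤ 1 := by nlinarith only [hh, hh0, hε, hε1]
      have h11 : (n : ℝ) * (h + h ^ 2) ≤ n * 1 := mul_le_mul_of_nonneg_left h10 (by linarith only [hn1])
      linarith only [h11, hh, hn1, hε, hε1]
    nlinarith only [h4, h5, h7, h8, h9]
  have hlim : Tendsto (fun n : ℕ => Real.exp ((n : ℝ) * (2 - ε ^ 2 / 64 *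
      ((n : ℝ) ^ 2 * Real.log n / (4 * Real.pi ^ 2))))) atTop (𝓝 0) := by
    apply Real.tendsto_exp_atBot.comp
    apply Tendsto.atTop_mul_atBot₀ tendsto_natCast_atTop_atTop
    have h1 : Tendsto (fun n : ℕ => ε ^ 2 / 64 * ((n : ℝ) ^ 2 * Real.log n / (4 * Real.pi ^ 2)))
        atTop atTop := by
      apply Tendsto.const_mul_atTop (by positivity)
      apply Tendsto.atTop_div_const (by positivity)
      exact ((tendsto_pow_atTop (by norm_num : (2 : ℕ) ≠ 0)).comp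
        tendsto_natCast_atTop_atTop).atTop_mul_atTop₀
        (Real.tendsto_log_atTop.comp tendsto_natCast_atTop_atTop)
    have h2 := tendsto_neg_atTop_atBot.comp h1
    have h3 := tendsto_atBot_add_const_left atTop (2 : ℝ) h2
    refine h3.congr fun n => ?_
    simp only [Function.comp]
    ring
  refine squeeze_zero' ?_ hub hlim
  filter_upwards with n
  have h1 : 0 ≤ (1 - h)⁻¹ := inv_nonneg.2 (by linarith)
  have h2 : 0 ≤ (1 + (1 - h)) / 2 := by linarith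
  positivity

theorem limit_L : Tendsto (fun n : ℕ => (n : ℝ) ^ 2 * Real.log n) atTop atTop :=
  ((tendsto_pow_atTop (by norm_num : (2 : ℕ) ≠ 0)).comp
    tendsto_natCast_atTop_atTop).atTop_mul_atTop₀
    (Real.tendsto_log_atTop.comp tendsto_natCast_atTop_atTop)

theorem upper_bound_aux (ε : ℝ) (hε : 0 < ε) (hε1 : ε < 1) (ε' : ℝ) (hε' : 0 < ε') :
    ∃ n₀ : ℕ, ∀ (n : ℕ) [NeZero n], n₀ ≤ n → Odd n →
      ∑ g : G n, |mu ⌊(1 + ε) * ((n : ℝ) ^ 3 * Real.log (n : ℝ) / (2 * Real.pi ^ 2))⌋₊ g -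
        1 / (n.factorial : ℝ)| ≤ ε' := by
  classical
  -- parameters
  obtain ⟨ι, hι, δ₁, hδ₁, n₁, hsharp⟩ := sharp (ε / 8) (by positivity)
  obtain ⟨c, hc⟩ : ∃ c, c = ε / (64 * Real.pi ^ 2) := ⟨_, rfl⟩
  have hc0 : 0 < c := by rw [hc]; positivity
  obtain ⟨r, hr, n₂, hsmooth⟩ := smooth c hc0
  obtain ⟨δ, hδ⟩ : ∃ δ, δ = min δ₁ (1 / 10) := ⟨_, rfl⟩
  have hδ0 : 0 < δ := by rw [hδ]; positivity
  have hεη : 1 + ε / 4 ≤ (1 - ε / 8) * (1 + ε / 2) := by nlinarith only [hε, hε1]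
  -- the sequences
  let j1 : ℕ → ℕ := fun n => ⌈(1 + ε / 2) * ((n : ℝ) ^ 2 * Real.log n / (4 * Real.pi ^ 2))⌉₊
  have hj1 : ∀ n : ℕ, (1 + ε / 2) * ((n : ℝ) ^ 2 * Real.log n / (4 * Real.pi ^ 2)) ≤ j1 n :=
    fun n => Nat.le_ceil _
  have hxi := xi_tendsto ε (ε / 8) hε (by positivity) hεη r hr ι hι j1 hj1
  have hpow : ∀ n : ℕ, ∃ a : ℕ, 2 ≤ c * ((n : ℝ) ^ 2 * Real.log n) →
      c * ((n : ℝ) ^ 2 * Real.log n) ≤ (2 : ℝ) ^ (a + 1) ∧
      (2 : ℝ) ^ (a + 1) ≤ 2 * (c * ((n : ℝ) ^ 2 * Real.log n)) := by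
    intro n
    by_cases h : 2 ≤ c * ((n : ℝ) ^ 2 * Real.log n)
    · obtain ⟨a, ha⟩ := exists_pow_two _ h
      exact ⟨a, fun _ => ha⟩
    · exact ⟨0, fun h' => absurd h' h⟩
  choose a ha using hpow
  have hcL : ∀ᶠ n : ℕ in atTop, 2 ≤ c * ((n : ℝ) ^ 2 * Real.log n) :=
    (limit_L.const_mul_atTop hc0).eventually_ge_atTop 2
  let m : ℕ → ℕ := fun n => n * (j1 n + 2 ^ (a n + 1))
  obtain ⟨s, hsd⟩ : ∃ s, s = (2 / 9) * min (3 / 4 * δ) 1 ^ 2 := ⟨_, rfl⟩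
  have hmin1 : min (3 / 4 * δ) 1 ≤ 1 := min_le_right _ _
  have hmin0 : 0 < min (3 / 4 * δ) 1 := by positivity
  have hs0 : 0 < s := by rw [hsd]; positivity
  have hs1 : s ≤ 1 := by
    rw [hsd]
    have : min (3 / 4 * δ) 1 ^ 2 ≤ 1 := pow_le_one₀ hmin0.le hmin1
    linarith only [this]
  have hmlow : ∀ n : ℕ, (n : ℝ) * ((n : ℝ) ^ 2 * Real.log n / (4 * Real.pi ^ 2)) ≤ m n := by
    intro n
    simp only [m]
    push_cast
    apply mul_le_mul_of_nonneg_left _ (Nat.cast_nonneg _)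
    have h1 := hj1 n
    have h2 : 0 ≤ (n : ℝ) ^ 2 * Real.log n / (4 * Real.pi ^ 2) := by
      rcases Nat.eq_zero_or_pos n with h0 | hpos
      · subst h0; simp
      · have : 0 ≤ Real.log n := Real.log_nonneg (by exact_mod_cast hpos)
        positivity
    have h3 : (0 : ℝ) < 2 ^ (a n + 1) := by positivity
    nlinarith only [h1, h2, h3, hε]
  have hB := limit_B s hs0 hs1 m hmlow
  let T : ℕ → ℕ := fun n => ⌊(1 + ε) * ((n : ℝ) ^ 3 * Real.log (n : ℝ) / (2 * Real.pi ^ 2))⌋₊ - 1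
  have hmup : ∀ᶠ n : ℕ in atTop, (m n : ℝ) ≤
      n * ((1 + 5 * ε / 8) * ((n : ℝ) ^ 2 * Real.log n / (4 * Real.pi ^ 2)) + 1) := by
    filter_upwards [hcL] with n hn
    simp only [m]
    push_cast
    apply mul_le_mul_of_nonneg_left _ (Nat.cast_nonneg _)
    have h1 := (ha n hn).2
    have h0 : 0 ≤ (1 + ε / 2) * ((n : ℝ) ^ 2 * Real.log n / (4 * Real.pi ^ 2)) := by
      have : 0 ≤ (n : ℝ) ^ 2 * Real.log n := by
        by_contra hneg
        push Not at hneg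
        nlinarith only [hc0, hn, hneg, hε, hε1]
      (clear * - hε; positivity)
    have h2 : (j1 n : ℝ) ≤ (1 + ε / 2) * ((n : ℝ) ^ 2 * Real.log n / (4 * Real.pi ^ 2)) + 1 :=
      (Nat.ceil_lt_add_one h0).le
    have h3 : 2 * (c * ((n : ℝ) ^ 2 * Real.log n)) =
        ε / 8 * ((n : ℝ) ^ 2 * Real.log n / (4 * Real.pi ^ 2)) := by
      rw [hc]
      have : (Real.pi : ℝ) ≠ 0 := Real.pi_ne_zero
      field_simp
      ring
    nlinarith only [h1, h2, h3]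
  have hTlow : ∀ n : ℕ, (1 + ε) * ((n : ℝ) ^ 3 * Real.log n / (2 * Real.pi ^ 2)) - 2 ≤ T n := by
    intro n
    simp only [T]
    have h1 := Nat.lt_floor_add_one ((1 + ε) * ((n : ℝ) ^ 3 * Real.log (n : ℝ) / (2 * Real.pi ^ 2)))
    have h2 : ((⌊(1 + ε) * ((n : ℝ) ^ 3 * Real.log (n : ℝ) / (2 * Real.pi ^ 2))⌋₊ : ℕ) : ℝ) - 1 ≤
        ((⌊(1 + ε) * ((n : ℝ) ^ 3 * Real.log (n : ℝ) / (2 * Real.pi ^ 2))⌋₊ - 1 : ℕ) : ℝ) := by
      have : ⌊(1 + ε) * ((n : ℝ) ^ 3 * Real.log (n : ℝ) / (2 * Real.pi ^ 2))⌋₊ ≤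
          (⌊(1 + ε) * ((n : ℝ) ^ 3 * Real.log (n : ℝ) / (2 * Real.pi ^ 2))⌋₊ - 1) + 1 := by omega
      have h3 : ((⌊(1 + ε) * ((n : ℝ) ^ 3 * Real.log (n : ℝ) / (2 * Real.pi ^ 2))⌋₊ : ℕ) : ℝ) ≤
          ((⌊(1 + ε) * ((n : ℝ) ^ 3 * Real.log (n : ℝ) / (2 * Real.pi ^ 2))⌋₊ - 1 : ℕ) : ℝ) + 1 := by
        exact_mod_cast this
      linarith only [h3]
    linarith only [h1, h2]
  have hC := limit_C ε hε hε1 m T hmup (Eventually.of_forall hTlow)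
  -- choose ℓ
  obtain ⟨ℓ, hℓ1, hℓ⟩ : ∃ ℓ : ℝ, 1 ≤ ℓ ∧ (2 / 3) / ℓ ^ 2 ≤ ε' / 3 := by
    refine ⟨max 1 (2 / ε'), le_max_left _ _, ?_⟩
    have h1 : 1 ≤ max 1 (2 / ε') := le_max_left _ _
    have h2 : 2 / ε' ≤ max 1 (2 / ε') := le_max_right _ _
    have h3 : max 1 (2 / ε') ≤ max 1 (2 / ε') ^ 2 := by nlinarith only [h1]
    rw [div_le_iff₀ (by positivity)]
    rw [div_le_iff₀ hε'] at h2
    nlinarith only [h2, h3, hε, hε', hε1]
  -- limit of the square root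
  have hsum := (hxi.const_mul (42 * ℓ)).add (hB.const_mul (3 * ℓ))
  rw [mul_zero, mul_zero, add_zero] at hsum
  have hsqrt := (Real.continuous_sqrt.tendsto 0).comp hsum
  rw [Real.sqrt_zero] at hsqrt
  have hC2 := hC.const_mul 2
  rw [mul_zero] at hC2
  have e1 := hsqrt.eventually (gt_mem_nhds (by positivity : (0 : ℝ) < ε' / 3))
  have e2 := hC2.eventually (gt_mem_nhds (by positivity : (0 : ℝ) < ε' / 3))
  have e3 : ∀ᶠ n : ℕ in atTop, 1 ≤ (1 + ε) * ((n : ℝ) ^ 3 * Real.log (n : ℝ) / (2 * Real.pi ^ 2)) := by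
    have h1 : Tendsto (fun n : ℕ => (n : ℝ) ^ 3 * Real.log (n : ℝ)) atTop atTop :=
      ((tendsto_pow_atTop (by norm_num : (3 : ℕ) ≠ 0)).comp
        tendsto_natCast_atTop_atTop).atTop_mul_atTop₀
        (Real.tendsto_log_atTop.comp tendsto_natCast_atTop_atTop)
    exact ((h1.atTop_div_const (by positivity)).const_mul_atTop (by positivity)).eventually_ge_atTop 1
  obtain ⟨n₀, hn₀⟩ := eventually_atTop.1 (e1.and (e2.and (e3.and (hcL.and
    ((eventually_ge_atTop n₁).and ((eventually_ge_atTop n₂).and (eventually_ge_atTop 3)))))))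
  refine ⟨n₀, fun n _ hn hodd => ?_⟩
  obtain ⟨f1, f2, f3, f4, f5, f6, f7⟩ := hn₀ n hn
  have hn0 : (0 : ℝ) < n := by exact_mod_cast (by omega : 0 < n)
  have hlog0 : 0 ≤ (n : ℝ) ^ 2 * Real.log n := by
    by_contra hneg
    push Not at hneg
    nlinarith only [f4, hc0, hneg, hε, hε1]
  -- q
  let q : Finset (Fin n) → ℝ := fun B => if (#B : ℝ) ≤ ι * n then
    (1 + (1 - ε / 8) * (2 * Real.pi / n) ^ 2 * (#B : ℝ))⁻¹ else (1 + (#B : ℝ) / (64 * (n : ℝ) ^ 2))⁻¹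
  have h18 : 0 ≤ 1 - ε / 8 := by linarith only [hε, hε1]
  have hq0 : ∀ B, 0 ≤ q B := by
    intro B
    simp only [q]
    split_ifs <;> positivity
  have hS : ∀ b : ℂ, ‖b - 2 / 3‖ ≤ δ → ∀ B : Finset (Fin n), B.Nonempty → ∀ f ∈ UA B,
      nsq (SE b f) ≤ q B * nsq f := by
    intro b hb B hB f hf
    have hb1 : ‖b - 2 / 3‖ ≤ δ₁ := hb.trans (by rw [hδ]; exact min_le_left _ _)
    have hb2 : ‖b - 2 / 3‖ ≤ 1 / 10 := hb.trans (by rw [hδ]; exact min_le_right _ _)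
    simp only [q]
    split_ifs with hcase
    · have h1 := hsharp n f5 b hb1 B hB hcase f hf
      rw [inv_mul_eq_div, le_div_iff₀ (by positivity)]
      linarith
    · have h1 := crude_contr f7 b hb2 B f hf
      rw [inv_mul_eq_div, le_div_iff₀ (by positivity)]
      linarith
  have hsm : ∀ A : Finset (Fin n), hs (FA A) ((SE (2 / 3 : ℂ)) ^ (2 ^ (a n + 1))) ≤
      (2 * (r : ℝ)) ^ #A := by
    intro A
    apply hsmooth n f6 A (a n)
    rw [mul_assoc]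
    exact (ha n f4).1
  have hjj : 2 ^ (a n + 1) ≤ j1 n := by
    have h1 := (ha n f4).2
    have h2 := hj1 n
    have h3 : 2 * (c * ((n : ℝ) ^ 2 * Real.log n)) ≤
        (1 + ε / 2) * ((n : ℝ) ^ 2 * Real.log n / (4 * Real.pi ^ 2)) := by
      have h4 : 2 * (c * ((n : ℝ) ^ 2 * Real.log n)) =
          ε / 8 * ((n : ℝ) ^ 2 * Real.log n / (4 * Real.pi ^ 2)) := by
        rw [hc]
        have : (Real.pi : ℝ) ≠ 0 := Real.pi_ne_zero
        field_simp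
        ring
      rw [h4]
      apply mul_le_mul_of_nonneg_right _ (by positivity)
      linarith only [hε, hε1]
    have h5 : (2 : ℝ) ^ (a n + 1) ≤ j1 n := by linarith only [h1, h2, h3]
    exact_mod_cast h5
  have hj11 : 1 ≤ j1 n := le_trans (Nat.one_le_two_pow) hjj
  have key := tv_bound f7 hodd (2 ^ (a n + 1)) (j1 n) r hjj hj11 δ hδ0 q hq0 hS hsm (T n) ℓ hℓ1
    (1 - ε / 16) (by linarith only [hε, hε1]) (by linarith only [hε])
  have hT1 : T n + 1 = ⌊(1 + ε) * ((n : ℝ) ^ 3 * Real.log (n : ℝ) / (2 * Real.pi ^ 2))⌋₊ := by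
    simp only [T]
    have : 1 ≤ ⌊(1 + ε) * ((n : ℝ) ^ 3 * Real.log (n : ℝ) / (2 * Real.pi ^ 2))⌋₊ :=
      Nat.one_le_floor_iff _ |>.2 f3
    omega
  rw [hT1] at key
  have hΞeq : ∑ B : {B : Finset (Fin n) // B.Nonempty},
      (2 * (r : ℝ)) ^ #(B : Finset (Fin n)) * q (B : Finset (Fin n)) ^ (j1 n) =
      ∑ k ∈ Icc 1 n, (n.choose k : ℝ) * ((2 * (r : ℝ)) ^ k *
      ((if (k : ℝ) ≤ ι * n then (1 + (1 - ε / 8) * (2 * Real.pi / n) ^ 2 * k)⁻¹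
        else (1 + (k : ℝ) / (64 * (n : ℝ) ^ 2))⁻¹) ^ (j1 n))) :=
    sum_nonempty_card (fun k => (2 * (r : ℝ)) ^ k *
      ((if (k : ℝ) ≤ ι * n then (1 + (1 - ε / 8) * (2 * Real.pi / n) ^ 2 * k)⁻¹
        else (1 + (k : ℝ) / (64 * (n : ℝ) ^ 2))⁻¹) ^ (j1 n)))
  rw [hΞeq, ← hsd] at key
  simp only [Function.comp] at f1
  linarith

theorem upper_bound (ε : ℝ) (hε : 0 < ε) (hε1 : ε < 1) :
    Tendsto (fun m : ℕ => ∑ g : G (2 * m + 3),
      |mu ⌊(1 + ε) * (((2 * m + 3 : ℕ) : ℝ) ^ 3 * Real.log ((2 * m + 3 : ℕ) : ℝ) /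
        (2 * Real.pi ^ 2))⌋₊ g - 1 / ((2 * m + 3).factorial : ℝ)|) atTop (𝓝 0) := by
  rw [Metric.tendsto_atTop]
  intro ε' hε'
  obtain ⟨n₀, hn₀⟩ := upper_bound_aux ε hε hε1 (ε' / 2) (by positivity)
  refine ⟨n₀, fun m hm => ?_⟩
  have h := hn₀ (2 * m + 3) (by omega) ⟨m + 1, by ring⟩
  rw [Real.dist_eq, sub_zero, abs_of_nonneg (Finset.sum_nonneg fun _ _ => abs_nonneg _)]
  linarith only [h, hε']

end Pool.Agent.Lib.MP_cad76e_pr
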