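import Pool.Agent.Lib.MP_cad76e_pr.Defs

set_option autoImplicit false

namespace Pool.Agent.Lib.MP_cad76e_pr

open Finset ZMod
open scoped ZMod

/-- Parseval for the discrete Fourier transform -/
lemma w1_parseval {N : ℕ} [NeZero N] (Φ : ZMod N → ℂ) :
    ∑ k, ‖𝓕 Φ k‖ ^ 2 = (N : ℝ) * ∑ j, ‖Φ j‖ ^ 2 := by
  have hN : (N : ℂ) ≠ 0 := by exact_mod_cast NeZero.ne N
  have hinv : ∀ j, ∑ k, stdAddChar (j * k) * 𝓕 Φ k = (N : ℂ) * Φ j := by
    intro j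
    have h1 : 𝓕⁻ (𝓕 Φ) j = Φ j := by rw [LinearEquiv.symm_apply_apply]
    rw [invDFT_apply] at h1
    have h2 : ∑ k, stdAddChar (j * k) * 𝓕 Φ k = ∑ k, stdAddChar (k * j) • 𝓕 Φ k := by
      refine sum_congr rfl fun k _ => ?_
      rw [mul_comm j k, smul_eq_mul]
    rw [h2, ← h1, smul_eq_mul, mul_inv_cancel_left₀ hN]
  have key : ((∑ k, ‖𝓕 Φ k‖ ^ 2 : ℝ) : ℂ) = (((N : ℝ) * ∑ j, ‖Φ j‖ ^ 2 : ℝ) : ℂ) := by
    push_cast
    have e0 : ∀ k, (starRingEnd ℂ) (𝓕 Φ k) = ∑ j, (starRingEnd ℂ) (Φ j) * stdAddChar (j * k) := by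
      intro k
      rw [dft_apply, map_sum]
      refine sum_congr rfl fun j _ => ?_
      rw [smul_eq_mul, map_mul, AddChar.map_neg_eq_conj, Complex.conj_conj, mul_comm]
    have e1 : ∀ k, (‖𝓕 Φ k‖ : ℂ) ^ 2 =
        ∑ j, (starRingEnd ℂ) (Φ j) * (stdAddChar (j * k) * 𝓕 Φ k) := by
      intro k
      rw [← Complex.conj_mul', e0 k, sum_mul]
      exact sum_congr rfl fun j _ => mul_assoc _ _ _
    rw [sum_congr rfl fun k _ => e1 k, sum_comm, mul_sum]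
    refine sum_congr rfl fun j _ => ?_
    rw [← mul_sum, hinv j, ← Complex.conj_mul']
    ring
  exact_mod_cast key

lemma w1_shift {N : ℕ} [NeZero N] (Φ : ZMod N → ℂ) (k : ZMod N) :
    𝓕 (fun i => Φ (i + 1) - Φ i) k = (stdAddChar k - 1) * 𝓕 Φ k := by
  have d1 := dft_apply (fun i => Φ (i + 1) - Φ i) k
  have d2 := dft_apply Φ k
  rw [d1, d2]
  simp only [smul_eq_mul]
  have e2 : ∑ j, stdAddChar (-(j * k)) * Φ (j + 1)
      = ∑ j, stdAddChar k * (stdAddChar (-(j * k)) * Φ j) := by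
    refine Fintype.sum_equiv (Equiv.addRight (1 : ZMod N)) _ _ fun j => ?_
    have h1 : (Equiv.addRight (1 : ZMod N)) j = j + 1 := rfl
    rw [h1, ← mul_assoc, ← AddChar.map_add_eq_mul]
    have h2 : k + -((j + 1) * k) = -(j * k) := by ring
    rw [h2]
  have e : ∑ j, stdAddChar (-(j * k)) * (Φ (j + 1) - Φ j)
      = ∑ j, stdAddChar (-(j * k)) * Φ (j + 1) - ∑ j, stdAddChar (-(j * k)) * Φ j := by
    rw [← sum_sub_distrib]
    exact sum_congr rfl fun j _ => mul_sub _ _ _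
  rw [e, e2, ← mul_sum, sub_mul, one_mul]

lemma w1_cos {N : ℕ} [NeZero N] {k : ZMod N} (hk : k ≠ 0) :
    2 - 2 * Real.cos (2 * Real.pi / N) ≤ ‖stdAddChar k - 1‖ ^ 2 := by
  have hN0 : 0 < N := Nat.pos_of_ne_zero (NeZero.ne N)
  have hNr : (0 : ℝ) < N := by exact_mod_cast hN0
  have hval : k.val < N := ZMod.val_lt k
  have hval0 : 0 < k.val := by
    rcases Nat.eq_zero_or_pos k.val with h | h
    · exact absurd ((ZMod.val_eq_zero k).1 h) hk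
    · exact h
  have e : stdAddChar k = Complex.exp ((2 * Real.pi * k.val / N : ℝ) * Complex.I) := by
    have h1 : k = ((k.val : ℤ) : ZMod N) := by
      rw [Int.cast_natCast, ZMod.natCast_zmod_val]
    conv_lhs => rw [h1]
    rw [stdAddChar_coe]
    congr 1
    push_cast
    ring
  set θ : ℝ := 2 * Real.pi * k.val / N with hθ
  have hns : ‖stdAddChar k - 1‖ ^ 2 = 2 - 2 * Real.cos θ := by
    rw [e, Complex.exp_mul_I, ← Complex.normSq_eq_norm_sq, Complex.normSq_apply]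
    simp only [Complex.sub_re, Complex.add_re, Complex.mul_re, Complex.I_re, Complex.I_im,
      Complex.one_re, Complex.sub_im, Complex.add_im, Complex.mul_im, Complex.one_im,
      ← Complex.ofReal_cos, ← Complex.ofReal_sin, Complex.ofReal_re, Complex.ofReal_im]
    nlinarith [Real.sin_sq_add_cos_sq θ]
  rw [hns]
  have hpi := Real.pi_pos
  have hcos : Real.cos θ ≤ Real.cos (2 * Real.pi / N) := by
    have hv1 : (1 : ℝ) ≤ k.val := by exact_mod_cast hval0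
    have hv2 : (k.val : ℝ) ≤ N - 1 := by
      have : k.val + 1 ≤ N := hval
      have h3 : ((k.val + 1 : ℕ) : ℝ) ≤ N := by exact_mod_cast this
      push_cast at h3
      linarith
    rcases le_total θ Real.pi with h | h
    · apply Real.cos_le_cos_of_nonneg_of_le_pi (by positivity) h
      rw [hθ, div_le_div_iff_of_pos_right hNr]
      nlinarith
    · have h1 : Real.cos θ = Real.cos (2 * Real.pi - θ) := by rw [Real.cos_two_pi_sub]
      rw [h1]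
      apply Real.cos_le_cos_of_nonneg_of_le_pi (by positivity) (by linarith)
      rw [hθ, div_le_iff₀ hNr, sub_mul, div_mul_cancel₀ _ hNr.ne']
      nlinarith
  linarith

lemma wirtinger_zmod (N : ℕ) [NeZero N] (h : ZMod N → ℂ) :
    (2 - 2 * Real.cos (2 * Real.pi / N)) * (∑ i, ‖h i‖ ^ 2 - ‖∑ i, h i‖ ^ 2 / N)
      ≤ ∑ i, ‖h (i + 1) - h i‖ ^ 2 := by
  have hN0 : 0 < N := Nat.pos_of_ne_zero (NeZero.ne N)
  have hNr : (0 : ℝ) < N := by exact_mod_cast hN0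
  have p1 := w1_parseval h
  have p2 := w1_parseval (fun i => h (i + 1) - h i)
  have hz : 𝓕 h 0 = ∑ i, h i := dft_apply_zero h
  have hsplit : ∑ k, ‖𝓕 h k‖ ^ 2 = ‖∑ i, h i‖ ^ 2 + ∑ k ∈ univ.erase 0, ‖𝓕 h k‖ ^ 2 := by
    rw [← add_sum_erase univ (fun k => ‖𝓕 h k‖ ^ 2) (mem_univ 0), hz]
  have hE : ∑ k ∈ univ.erase 0, (2 - 2 * Real.cos (2 * Real.pi / N)) * ‖𝓕 h k‖ ^ 2
      ≤ ∑ k, ‖𝓕 (fun i => h (i + 1) - h i) k‖ ^ 2 := by
    rw [← add_sum_erase univ (fun k => ‖𝓕 (fun i => h (i + 1) - h i) k‖ ^ 2) (mem_univ 0)]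
    have h0 : ∑ k ∈ univ.erase 0, (2 - 2 * Real.cos (2 * Real.pi / N)) * ‖𝓕 h k‖ ^ 2
        ≤ ∑ k ∈ univ.erase 0, ‖𝓕 (fun i => h (i + 1) - h i) k‖ ^ 2 := by
      refine sum_le_sum fun k hk => ?_
      rw [w1_shift, norm_mul, mul_pow]
      exact mul_le_mul_of_nonneg_right (w1_cos (ne_of_mem_erase hk)) (sq_nonneg _)
    have h1 : 0 ≤ ‖𝓕 (fun i => h (i + 1) - h i) 0‖ ^ 2 := sq_nonneg _
    linarith
  rw [← mul_sum] at hE
  have e1 : ∑ k ∈ univ.erase 0, ‖𝓕 h k‖ ^ 2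
      = (N : ℝ) * (∑ i, ‖h i‖ ^ 2 - ‖∑ i, h i‖ ^ 2 / N) := by
    have : (N : ℝ) * (∑ i, ‖h i‖ ^ 2 - ‖∑ i, h i‖ ^ 2 / N)
        = (N : ℝ) * ∑ i, ‖h i‖ ^ 2 - ‖∑ i, h i‖ ^ 2 := by field_simp
    rw [this, ← p1, hsplit]
    ring
  rw [e1, p2] at hE
  have : (N : ℝ) * ((2 - 2 * Real.cos (2 * Real.pi / N)) * (∑ i, ‖h i‖ ^ 2 - ‖∑ i, h i‖ ^ 2 / N))
      ≤ (N : ℝ) * ∑ i, ‖h (i + 1) - h i‖ ^ 2 := by
    calc _ = (2 - 2 * Real.cos (2 * Real.pi / N)) *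
          ((N : ℝ) * (∑ i, ‖h i‖ ^ 2 - ‖∑ i, h i‖ ^ 2 / N)) := by ring
      _ ≤ _ := hE
  exact le_of_mul_le_mul_left this hNr

theorem wirtinger_cycle (N : ℕ) [NeZero N] (h : Fin N → ℂ) :
    (2 - 2 * Real.cos (2 * Real.pi / N)) * (∑ i, ‖h i‖ ^ 2 - ‖∑ i, h i‖ ^ 2 / N)
      ≤ ∑ i, ‖h (i + 1) - h i‖ ^ 2 := by
  obtain ⟨m, rfl⟩ : ∃ m, N = m + 1 := ⟨N - 1, (Nat.succ_pred_eq_of_ne_zero (NeZero.ne N)).symm⟩
  exact wirtinger_zmod (m + 1) h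

end Pool.Agent.Lib.MP_cad76e_pr
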